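import Mathlib.Tactic.Ring.RingNF
import Mathlib.Algebra.Module.Pi
import Mathlib.LinearAlgebra.Span.Defs
import Mathlib.Tactic.LinearCombination
import Pool.Agent.MP_7be75d_co.Menger
import Pool.Agent.MP_e6539c_co.TW.Basic

-- ======== part 0: formerly Pool.Agent.MP_e6539c_co.P5.Defs
section MrgPart0

/-! Definitions for the five-flow theorem for graphs with no Petersen minor. -/

set_option autoImplicit false

namespace Pool.Agent.MP_e6539c_co.P5

open Finset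
open Pool.Agent.MP_7be75d_co (R Conn comp)
open Pool.Agent.MP_e6539c_co.TW (MG)
open scoped Classical

variable {V : Type}

/-! ### Walks, girth, classes -/

/-- A walk inside `W` from `a` to `b` of length at most `r`. -/
inductive Wk (G : SimpleGraph V) (W : Finset V) : V → V → ℕ → Prop
  | refl {a : V} {r : ℕ} : a ∈ W → Wk G W a a r
  | tail {a b c : V} {r : ℕ} : Wk G W a b r → G.Adj b c → c ∈ W → Wk G W a c (r + 1)

/-- Girth at least twelve. -/
def Gi (G : SimpleGraph V) : Prop :=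
  ∀ (W : Finset V) (x w w' : V) (r : ℕ), x ∉ W → G.Adj x w → G.Adj x w' → w ≠ w' →
    Wk G W w w' r → 10 ≤ r

/-- The number of neighbours of `v` in `W`. -/
noncomputable def dg (G : SimpleGraph V) (W : Finset V) (v : V) : ℕ := (W.filter (G.Adj v)).card

/-- `C` contains a cycle (a nonempty subset of minimum degree two). -/
def Cyc (G : SimpleGraph V) (C : Finset V) : Prop :=
  ∃ W ⊆ C, W.Nonempty ∧ ∀ v ∈ W, 2 ≤ dg G W v

def Deg3 [Fintype V] (G : SimpleGraph V) (C : Finset V) : Prop := ∀ v ∈ C, 3 ≤ dg G univ v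

/-- `x` has a neighbour in `C`. -/
def Act (G : SimpleGraph V) (C : Finset V) (x : V) : Prop := ∃ w ∈ C, G.Adj x w

/-- Every neighbour of `C` outside `C` lies in `S`. -/
def Cov (G : SimpleGraph V) (C : Finset V) (S : Set V) : Prop :=
  ∀ w ∈ C, ∀ x, x ∉ C → G.Adj x w → x ∈ S

/-- An edge from `S` to `W`, written as the pair (end in `S`, end in `W`). -/
def Mark (G : SimpleGraph V) (W : Finset V) (S : Set V) (p : V × V) : Prop :=
  p.1 ∈ S ∧ p.2 ∈ W ∧ G.Adj p.1 p.2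

/-- `S` is a class for `W`: the edges from `S` to `W` end far apart. -/
structure Cls (G : SimpleGraph V) (W : Finset V) (S : Set V) : Prop where
  out : ∀ x ∈ S, x ∉ W
  two : ∀ p q r, Mark G W S p → Mark G W S q → p ≠ q → Wk G W p.2 q.2 r → 4 ≤ r
  three : ∀ p q s r₁ r₂ r₃, Mark G W S p → Mark G W S q → Mark G W S s → p ≠ q → p ≠ s → q ≠ s →
    Wk G W p.2 q.2 r₁ → Wk G W p.2 s.2 r₂ → Wk G W q.2 s.2 r₃ → 18 ≤ r₁ + r₂ + r₃

/-- The edges from `S \ Y` to `Y`. -/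
noncomputable def mks [Fintype V] (G : SimpleGraph V) (Y : Finset V) (S : Set V) :
    Finset (V × V) :=
  univ.filter (fun p => p.1 ∉ Y ∧ Mark G Y S p)

/-- A piece: a tree all of whose vertices have degree at least three in `G`. -/
structure Pc [Fintype V] (G : SimpleGraph V) (Y : Finset V) : Prop where
  conn : Conn G Y
  acyc : ¬ Cyc G Y
  deg : Deg3 G Y

/-- A Petersen minor. -/
def Pet (G : SimpleGraph V) : Prop :=
  ∃ B : ℕ → Finset V, (∀ i < 10, Conn G (B i)) ∧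
    (∀ i < 10, ∀ j < 10, i ≠ j → Disjoint (B i) (B j)) ∧
    ∀ p ∈ MG.petE, ∃ u ∈ B p.1, ∃ v ∈ B p.2, G.Adj u v

/-- The image of `Γ` under the identification `ρ`. -/
def gmap (Γ : SimpleGraph V) (ρ : V → V) : SimpleGraph V where
  Adj p q := p ≠ q ∧ ∃ u v, ρ u = p ∧ ρ v = q ∧ Γ.Adj u v
  symm := ⟨fun _ _ ⟨h, u, v, a, b, c⟩ => ⟨h.symm, v, u, b, a, c.symm⟩⟩
  loopless := ⟨fun _ h => h.1 rfl⟩

/-- Distinct single vertices of `X` with edges into `A`, at the listed distances from `v`. -/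
def RT (G : SimpleGraph V) (Y A X : Finset V) (v : V) (T : List ℕ) : Prop :=
  ∃ M : List (V × ℕ), M.map Prod.snd = T ∧ (M.map Prod.fst).Nodup ∧
    ∀ p ∈ M, p.1 ∈ X ∧ ∃ w ∈ A, G.Adj p.1 w ∧ Wk G Y w v p.2

/-! ### The territory game -/

/-- The territory `C` and the auxiliary graph `Γ` that carries the frame. -/
structure Ctx [Fintype V] (G Γ : SimpleGraph V) (C : Finset V) : Prop where
  gi : Gi G
  conn : Conn G C
  cyc : Cyc G C
  deg : Deg3 G C
  agree : ∀ w ∈ C, ∀ x, Γ.Adj w x ↔ G.Adj w x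
  np : ¬ Pet Γ

/-- Cycle state. -/
structure CYs [Fintype V] (G Γ : SimpleGraph V) (C : Finset V) (L : List V) : Prop where
  ctx : Ctx G Γ C
  nd : L.Nodup
  out : ∀ x ∈ L, x ∉ C
  ch : L.IsChain Γ.Adj
  cl : ∀ x M y, L = x :: (M ++ [y]) → M ≠ [] → Γ.Adj y x
  cov : Cov G C {x | x ∈ L}
  ty : Cls G C {x | x ∈ L} ∨ L.length ≤ 3

/-- Path state. -/
structure Ps [Fintype V] (G Γ : SimpleGraph V) (C : Finset V) (p : V) (A : List V) (q : V)
    (B : List V) (s : V) : Prop where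
  ctx : Ctx G Γ C
  nd : (p :: (A ++ q :: (B ++ [s]))).Nodup
  out : ∀ x ∈ p :: (A ++ q :: (B ++ [s])), x ∉ C
  chA : (p :: (A ++ [q])).IsChain Γ.Adj
  chB : (q :: (B ++ [s])).IsChain Γ.Adj
  pq : Γ.Adj p q
  ps : Γ.Adj p s
  cov : Cov G C {x | x ∈ p :: (A ++ q :: (B ++ [s]))}
  tyA : Cls G C {x | x ∈ p :: (A ++ [q])} ∨ A.length ≤ 1
  tyB : Cls G C {x | x ∈ q :: (B ++ [s])} ∨ B.length ≤ 1
  act : ∃ a ∈ A, Act G C a

/-- The state with a subdivided complete graph on four corners. -/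
structure Ks [Fintype V] (G Γ : SimpleGraph V) (C : Finset V) (c : Fin 4 → V)
    (A : Fin 4 → List V) : Prop where
  ctx : Ctx G Γ C
  inj : Function.Injective c
  nd : ∀ i, (A i).Nodup
  disj : ∀ i j, i ≠ j → ∀ x ∈ A i, x ∉ A j
  cA : ∀ i j, c i ∉ A j
  outc : ∀ i, c i ∉ C
  outA : ∀ i, ∀ x ∈ A i, x ∉ C
  ch : ∀ i, (c i :: (A i ++ [c (i + 1)])).IsChain Γ.Adj
  chord : ∀ i, Γ.Adj (c i) (c (i + 2))
  cov : Cov G C {x | ∃ i, x = c i ∨ x ∈ A i}
  ty : ∀ i, Cls G C {x | x ∈ c i :: (A i ++ [c (i + 1)])} ∨ (A i).length ≤ 1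

/-- The neighbours of `C` other than those in `X₀` form three classes, or one class and three
single vertices, or five single vertices. -/
def Sys (G : SimpleGraph V) (C : Finset V) (X₀ : Set V) : Prop :=
  (∃ S₁ S₂ S₃, Cls G C S₁ ∧ Cls G C S₂ ∧ Cls G C S₃ ∧ Cov G C (X₀ ∪ S₁ ∪ S₂ ∪ S₃)) ∨
  (∃ (S : Set V) (X : Finset V), Cls G C S ∧ X.card ≤ 3 ∧ Cov G C (X₀ ∪ S ∪ ↑X)) ∨
  (∃ X : Finset V, X.card ≤ 5 ∧ Cov G C (X₀ ∪ ↑X))

/-- A shortest path `d 0, …, d (m+1)` with interior in `C` between two vertices outside `C`. -/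
structure Geo (G : SimpleGraph V) (C : Finset V) (m : ℕ) (d : ℕ → V) : Prop where
  pos : 1 ≤ m
  out0 : d 0 ∉ C
  out1 : d (m + 1) ∉ C
  mem : ∀ i, 1 ≤ i → i ≤ m → d i ∈ C
  adj : ∀ i ≤ m, G.Adj (d i) (d (i + 1))
  inj : ∀ i ≤ m + 1, ∀ j ≤ m + 1, d i = d j → i = j
  short : ∀ i j w w' r, j ≤ m + 1 → G.Adj (d i) w → G.Adj (d j) w' → Wk G C w w' r →
    j ≤ i + r + 2
  chord : ∀ i j, i + 2 ≤ j → j ≤ m + 1 → G.Adj (d i) (d j) → i = 0 ∧ j = m + 1

/-- The interior of a geodesic. -/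
noncomputable def inner (m : ℕ) (d : ℕ → V) : Finset V := (Icc 1 m).image d

/-- No state has a territory with fewer than `n` vertices. -/
def NoSt [Fintype V] (G : SimpleGraph V) (n : ℕ) : Prop :=
  ∀ (Γ : SimpleGraph V) (C : Finset V), C.card < n → (∀ L, ¬ CYs G Γ C L) ∧
    (∀ p A q B s, ¬ Ps G Γ C p A q B s) ∧ ∀ c A, ¬ Ks G Γ C c A

/-- The territory with the four arcs contracted to terminals, which form a four-cycle. -/
def HK (G : SimpleGraph V) (C : Finset V) (A : Fin 4 → List V) (t : Fin 4 → V) : SimpleGraph V :=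
  SimpleGraph.fromRel fun x y => (x ∈ C ∧ y ∈ C ∧ G.Adj x y) ∨
    (x ∈ C ∧ ∃ i, y = t i ∧ ∃ a ∈ A i, G.Adj x a) ∨ ∃ i, x = t i ∧ y = t (i + 1)

/-- The number of arcs in which `v` has a neighbour. -/
noncomputable def kk (G : SimpleGraph V) (A : Fin 4 → List V) (v : V) : ℕ :=
  (univ.filter fun i => ∃ a ∈ A i, G.Adj v a).card

/-- All neighbours of `Z` outside `Z` are among three vertices. -/
def Bd3 (H : SimpleGraph V) (Z : Finset V) (y₁ y₂ y₃ : V) : Prop :=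
  ∀ z ∈ Z, ∀ w, H.Adj z w → w ∈ Z ∨ w = y₁ ∨ w = y₂ ∨ w = y₃

/-! ### The two paths theorem -/

abbrev Vec (V : Type) := Sym2 V → ZMod 2

/-- The parity of the degree of `v` in the edge set `x`. -/
noncomputable def par [Fintype V] (x : Vec V) (v : V) : ZMod 2 := ∑ w, x s(v, w)

/-- An even edge set of `H`. -/
def Ev [Fintype V] (H : SimpleGraph V) (x : Vec V) : Prop :=
  (∀ u v, x s(u, v) ≠ 0 → H.Adj u v) ∧ ∀ v, par x v = 0

noncomputable def cov (F : Finset (Vec V)) (e : Sym2 V) : ℕ := (F.filter fun f => f e ≠ 0).card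

/-- `y` follows `x` on the cyclic list `L`. -/
def Fr (L : List V) (x y : V) : Prop := ∃ M, L ~r x :: y :: M

structure Frame (H : SimpleGraph V) (L : List V) : Prop where
  nd : L.Nodup
  len : 3 ≤ L.length
  adj : ∀ x y, Fr L x y → H.Adj x y

/-- Two disjoint connected sets that join alternating pairs of frame vertices. -/
def Cross (H : SimpleGraph V) (L : List V) : Prop :=
  ∃ (x u y v : V) (L' : List V) (X₁ X₂ : Finset V), L ~r L' ∧ List.Sublist [x, u, y, v] L' ∧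
    Conn H X₁ ∧ Conn H X₂ ∧ Disjoint X₁ X₂ ∧ (∀ z, (z ∈ X₁ ∧ z ∈ L) ↔ (z = x ∨ z = y)) ∧
    ∀ z, (z ∈ X₂ ∧ z ∈ L) ↔ (z = u ∨ z = v)

/-- Behind a cut of at most three vertices there is no cycle. -/
def FC [Fintype V] (H : SimpleGraph V) (L : List V) : Prop :=
  ∀ (Z : Finset V) (y₁ y₂ y₃ : V), (∀ z ∈ Z, z ∉ L) → Bd3 H Z y₁ y₂ y₃ →
    ∀ x, Ev H x → (∀ u v, x s(u, v) ≠ 0 → u ∈ Z ∨ v ∈ Z) → x = 0

/-- A generating family of the cycle space that covers every edge at most twice and every frame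
edge at most once. -/
structure Basis [Fintype V] (H : SimpleGraph V) (L : List V) (F : Finset (Vec V)) : Prop where
  ev : ∀ f ∈ F, Ev H f
  two : ∀ e, cov F e ≤ 2
  one : ∀ x y, Fr L x y → cov F s(x, y) ≤ 1
  span : ∀ x, Ev H x → x ∈ Submodule.span (ZMod 2) (F : Set (Vec V))

/-- The induction hypothesis of the two paths theorem. -/
def TPih [Fintype V] (H : SimpleGraph V) : Prop :=
  ∀ (H' : SimpleGraph V) (L' : List V), H'.edgeSet.ncard < H.edgeSet.ncard → Frame H' L' →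
    ¬ Cross H' L' → FC H' L' → ∃ F, Basis H' L' F

/-- The vertices `q 0, …, q k`. -/
noncomputable def qs (k : ℕ) (q : ℕ → V) : Finset V := (range (k + 1)).image q

/-- The frame is `q k :: M ++ [q 0]` and `q` is a path from `q 0` to `q k` off the frame. -/
structure PQ (H : SimpleGraph V) (M : List V) (k : ℕ) (q : ℕ → V) : Prop where
  fr : Frame H (q k :: (M ++ [q 0]))
  two : 2 ≤ k
  adj : ∀ i < k, H.Adj (q i) (q (i + 1))
  inj : ∀ i ≤ k, ∀ j ≤ k, q i = q j → i = j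
  off : ∀ i ≤ k, q i ∉ M

/-- The vertices that reach `M` off the path `q`. -/
noncomputable def KK [Fintype V] (H : SimpleGraph V) (M : List V) (k : ℕ) (q : ℕ → V) :
    Finset V :=
  univ.filter fun v => ∃ m ∈ M, R H (univ \ qs k q) m v

/-- `U` is connected and joins `q i` to `q l`. -/
def Span (H : SimpleGraph V) (q : ℕ → V) (U : Finset V) (i l : ℕ) : Prop :=
  Conn H U ∧ Act H U (q i) ∧ Act H U (q l)

/-- No rerouting enlarges the part that reaches `M`. -/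
def RR [Fintype V] (H : SimpleGraph V) (M : List V) (k : ℕ) (q : ℕ → V) : Prop :=
  ∀ U i j l, Span H q U i l → Disjoint U (qs k q) → Disjoint U (KK H M k q) → i < j → j < l →
    l ≤ k → ¬ Act H (KK H M k q) (q j)

/-- The path has no chord except between its ends. -/
def NC (H : SimpleGraph V) (k : ℕ) (q : ℕ → V) : Prop :=
  ∀ i j, i + 2 ≤ j → j ≤ k → H.Adj (q i) (q j) → i = 0 ∧ j = k

/-- An exit from `q j` to `M` inside `KK` that avoids `U`. -/
def Exit [Fintype V] (H : SimpleGraph V) (M : List V) (k : ℕ) (q : ℕ → V) (U : Finset V)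
    (j : ℕ) : Prop :=
  ∃ m ∈ M, ∃ y ∈ KK H M k q \ U, H.Adj (q j) y ∧ R H (KK H M k q \ U) y m

def Good [Fintype V] (H : SimpleGraph V) (M : List V) (k : ℕ) (q : ℕ → V) (U : Finset V) : Prop :=
  U ⊆ KK H M k q ∧ (∀ u ∈ U, u ∉ M) ∧
    ∃ i j l, i < j ∧ j < l ∧ l ≤ k ∧ Span H q U i l ∧ Exit H M k q U j

/-- A spanning set with a neighbour on `M` and an exit that avoids both are impossible. -/
def XL [Fintype V] (H : SimpleGraph V) (M : List V) (k : ℕ) (q : ℕ → V) : Prop :=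
  ∀ U i j l, U ⊆ KK H M k q → (∀ u ∈ U, u ∉ M) → i < j → j < l → l ≤ k → Span H q U i l →
    ∀ w ∈ M, Act H U w → ¬ Exit H M k q (insert w U) j

/-- The vertices off the path, different from `z` and not in `K'`. -/
noncomputable def WW [Fintype V] (k : ℕ) (q : ℕ → V) (z : V) (K' : Finset V) : Finset V :=
  (univ \ qs k q) \ insert z K'

/-- The lens lemma. -/
def LL [Fintype V] (H : SimpleGraph V) (M : List V) (k : ℕ) (q : ℕ → V) : Prop :=
  ∀ (z : V) (K' : Finset V), (∀ m ∈ M, m ∈ K' ∨ m = z) →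
    (∀ w ∈ WW k q z K', ¬ Act H K' w) →
    (∀ U ⊆ WW k q z K', ∀ i j l, i < j → j < l → l ≤ k → Span H q U i l →
      ¬ Act H K' (q j)) →
    ∀ U ⊆ WW k q z K', ∀ i l, i + 2 ≤ l → l ≤ k → ¬ Span H q U i l

/-! ### Flows -/

abbrev Z5 := ZMod 5

/-- The boundary values extend to a nowhere-zero flow on the cycle. -/
def Ext (b : List Z5) : Prop := ∃ c : Z5, ∀ i ≤ b.length, (b.take i).sum ≠ c

noncomputable def push : List V → List Z5 → V → Z5
  | t :: τ, y :: b => fun x => (if t = x then y else 0) + push τ b x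
  | _, _ => fun _ => 0

noncomputable def chi (τ : List V) (b : List Z5) : ℤ :=
  if τ.length = b.length ∧ ∀ x, push τ b x = 0 then 1 else 0

noncomputable def Vn (V : Type) (n : ℕ) : Submodule ℤ (List Z5 → ℤ) :=
  Submodule.span ℤ {f | ∃ τ : List V, τ.length = n ∧ f = chi τ}

/-- All lists of length `n` with nonzero entries. -/
def nzl : ℕ → List (List Z5)
  | 0 => [[]]
  | n + 1 => (nzl n).flatMap fun b => [1 :: b, 2 :: b, 3 :: b, 4 :: b]

noncomputable def bd5 {E : Type} (G : MG V E) (B : Finset E) (ψ : E → Z5) (v : V) : Z5 :=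
  ∑ e ∈ B, ((if G.l e = v then ψ e else 0) - (if G.r e = v then ψ e else 0))

def Flow5 {E : Type} (G : MG V E) : Prop :=
  ∃ ψ : E → Z5, (∀ e ∈ G.A, ψ e ≠ 0) ∧ ∀ v, bd5 G G.A ψ v = 0

/-- A smallest counterexample. -/
structure Min5 {E : Type} (G : MG V E) : Prop where
  br : G.Bridgeless
  nf : ¬ Flow5 G
  np : ¬ G.HasP
  mn : ∀ A' ρ, A' ⊆ G.A → A'.card < G.A.card → G.Fib ρ → (G.minor A' ρ).Bridgeless →
    Flow5 (G.minor A' ρ)

/-- The underlying simple graph. -/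
def sg {E : Type} (G : MG V E) : SimpleGraph V where
  Adj u v := u ≠ v ∧ G.Adj G.A u v
  symm := ⟨fun _ _ h => ⟨h.1.symm, h.2.symm⟩⟩
  loopless := ⟨fun _ h => h.1 rfl⟩

end Pool.Agent.MP_e6539c_co.P5

end MrgPart0

-- ======== part 1: formerly Pool.Agent.MP_e6539c_co.P5.Spec
section MrgPart1

/-! Statements of the modules of the five-flow theorem. -/

set_option autoImplicit false

namespace Pool.Agent.MP_e6539c_co.P5

open Finset
open Pool.Agent.MP_7be75d_co (R Conn comp)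
open Pool.Agent.MP_e6539c_co.TW (MG)
open scoped Classical

/-! ### Trees, survival, moves -/

def TreeStmt : Prop := ∀ (V : Type) [Fintype V] (G : SimpleGraph V) (Y X : Finset V)
  (S : Fin 4 → Set V) (l k N : ℕ),
  (l, k, N) ∈ [(4, 0, 2), (2, 3, 5), (1, 5, 5), (0, 7, 5)] → Gi G → Pc G Y →
  (∀ i, Cls G Y (S i)) → (∀ i : Fin 4, l ≤ i.1 → S i = ∅) → X.card ≤ k →
  Cov G Y {x | (∃ i, x ∈ S i) ∨ x ∈ X} → Y.card ≤ N

def GeoStmt : Prop := ∀ (V : Type) [Fintype V] (G : SimpleGraph V) (C : Finset V) (a b : V),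
  Gi G → Conn G C → a ≠ b → a ∉ C → b ∉ C → Act G C a → Act G C b →
  ∃ m d, Geo G C m d ∧ d 0 = a ∧ d (m + 1) = b ∧ ¬ Cyc G (inner m d) ∧
    Cls G (C \ inner m d) {x | ∃ i ≤ m + 1, x = d i} ∧
    ∀ i j w w' r, i ≤ j → j ≤ m + 1 → G.Adj (d i) w → G.Adj (d j) w' → (i = j → w ≠ w') →
      Wk G (C \ inner m d) w w' r → 10 + i ≤ r + j

/-- A cyclic set stays cyclic when an acyclic part with few edges to the trees is removed. -/
def Surv0Stmt : Prop := ∀ (V : Type) [Fintype V] (G : SimpleGraph V) (C D : Finset V),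
  Cyc G C → ¬ Cyc G D → ¬ Cyc G (C \ D) →
  (∀ y ∈ C \ D, (mks G (comp G (C \ D) y) ↑D).card ≤ 1) → False

def SurvStmt : Prop := ∀ (V : Type) [Fintype V] (G : SimpleGraph V) (C : Finset V) (m : ℕ)
  (d : ℕ → V), Gi G → Deg3 G C → Cyc G C → Geo G C m d → ¬ Cyc G (inner m d) →
  Cls G (C \ inner m d) {x | ∃ i ≤ m + 1, x = d i} →
  (∀ i j w w' r, i ≤ j → j ≤ m + 1 → G.Adj (d i) w → G.Adj (d j) w' → (i = j → w ≠ w') →
      Wk G (C \ inner m d) w w' r → 10 + i ≤ r + j) →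
  Sys G C {d 0, d (m + 1)} → Cyc G (C \ inner m d)

def MoveStmt : Prop := ∀ (V : Type) [Fintype V] (G Γ : SimpleGraph V) (C : Finset V) (a b : V),
  Ctx G Γ C → a ≠ b → a ∉ C → b ∉ C → Act G C a → Act G C b → Sys G C {a, b} →
  ∃ (D : List V) (C' : Finset V), D ≠ [] ∧ D.Nodup ∧ (∀ x ∈ D, x ∈ C ∧ x ∉ C') ∧
    (a :: (D ++ [b])).IsChain Γ.Adj ∧ C' ⊆ C ∧ C'.card < C.card ∧ Ctx G Γ C' ∧
    Cls G C' {x | x ∈ a :: (D ++ [b])} ∧
    ∀ S : Set V, Cov G C S → Cov G C' (S ∪ {x | x ∈ D})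

def Move0Stmt : Prop := ∀ (V : Type) [Fintype V] (G Γ : SimpleGraph V) (C : Finset V) (x w : V),
  Ctx G Γ C → w ∈ C → Cov G C {x} →
  ∃ C' ⊆ C, w ∉ C' ∧ C'.card < C.card ∧ Ctx G Γ C' ∧
    ∀ S : Set V, Cov G C S → Cov G C' (S ∪ {w})

/-! ### The game -/

def CyStmt : Prop := ∀ (V : Type) [Fintype V] (G : SimpleGraph V) (C : Finset V),
  NoSt G C.card → ∀ Γ L, ¬ CYs G Γ C L

def PsStmt : Prop := ∀ (V : Type) [Fintype V] (G : SimpleGraph V) (C : Finset V),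
  NoSt G C.card → (∀ Γ L, ¬ CYs G Γ C L) → ∀ Γ p A q B s, ¬ Ps G Γ C p A q B s

def KfinStmt : Prop := ∀ (V : Type) [Fintype V] (G Γ : SimpleGraph V) (C : Finset V)
  (c : Fin 4 → V) (A : Fin 4 → List V), NoSt G C.card → Ks G Γ C c A →
  (∀ i, ∃ a ∈ A i, Act G C a) → False

def KsStmt : Prop := ∀ (V : Type) [Fintype V] (G : SimpleGraph V) (C : Finset V),
  NoSt G C.card → (∀ Γ L, ¬ CYs G Γ C L) → (∀ Γ p A q B s, ¬ Ps G Γ C p A q B s) →
  ∀ Γ c A, ¬ Ks G Γ C c A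

/-- Girth twelve and minimum degree three force a Petersen minor. -/
def AStmt : Prop := ∀ (V : Type) [Fintype V] (G : SimpleGraph V), Gi G →
  (∀ u v, G.Adj u v → 3 ≤ dg G univ u) → (∃ u v, G.Adj u v) → Pet G

/-! ### The final state -/

def XpetStmt : Prop := ∀ (V : Type) [Fintype V] (G Γ : SimpleGraph V) (C : Finset V)
  (c : Fin 4 → V) (A : Fin 4 → List V) (t : Fin 4 → V), Ks G Γ C c A → (∀ i, t i ∈ A i) →
  ¬ Cross (HK G C A t) [t 0, t 1, t 2, t 3]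

def ZredStmt : Prop := ∀ (V : Type) [Fintype V] (G Γ : SimpleGraph V) (C : Finset V)
  (c : Fin 4 → V) (A : Fin 4 → List V) (t : Fin 4 → V), Ks G Γ C c A → (∀ i, t i ∈ A i) →
  (∀ i, ∃ a ∈ A i, Act G C a) → ∀ Z ⊆ C, Cyc G Z → ∀ y₁ y₂ y₃, Bd3 (HK G C A t) Z y₁ y₂ y₃ →
  ∃ (Γ' : SimpleGraph V) (C' : Finset V) (A' : Fin 4 → List V),
    C'.card < C.card ∧ Ks G Γ' C' c A'

/-- A cycle behind a three-cut runs through two or three pieces. -/
def PatStmt : Prop := ∀ (V : Type) [Fintype V] (H : SimpleGraph V) (Z : Finset V) (y₁ y₂ y₃ : V),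
  Bd3 H Z y₁ y₂ y₃ → ¬ Cyc H Z →
  (∀ z ∈ Z, ∀ y ∉ Z, ∀ w ∈ comp H Z z, ∀ w' ∈ comp H Z z, H.Adj y w → H.Adj y w' → w = w') →
  ∀ x, Ev H x → (∀ u v, x s(u, v) ≠ 0 → u ∈ Z ∨ v ∈ Z) → x ≠ 0 →
  (∃ z₁ ∈ Z, ∃ z₂ ∈ Z, ∃ a ∉ Z, ∃ b ∉ Z, Disjoint (comp H Z z₁) (comp H Z z₂) ∧ a ≠ b ∧
    Act H (comp H Z z₁) a ∧ Act H (comp H Z z₁) b ∧ Act H (comp H Z z₂) a ∧
    Act H (comp H Z z₂) b) ∨
  (∃ z₁ ∈ Z, ∃ z₂ ∈ Z, ∃ z₃ ∈ Z, ∃ a ∉ Z, ∃ b ∉ Z, ∃ e ∉ Z,
    Disjoint (comp H Z z₁) (comp H Z z₂) ∧ Disjoint (comp H Z z₁) (comp H Z z₃) ∧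
    Disjoint (comp H Z z₂) (comp H Z z₃) ∧ a ≠ b ∧ a ≠ e ∧ b ≠ e ∧
    Act H (comp H Z z₁) a ∧ Act H (comp H Z z₁) b ∧ Act H (comp H Z z₂) a ∧
    Act H (comp H Z z₂) e ∧ Act H (comp H Z z₃) b ∧ Act H (comp H Z z₃) e)

/-- Pieces with seven single neighbours. -/
def Fc0Stmt : Prop := ∀ (V : Type) [Fintype V] (G : SimpleGraph V), Gi G →
  (∀ (Y₁ Y₂ X : Finset V) (a b : V), Pc G Y₁ → Pc G Y₂ → Disjoint Y₁ Y₂ → X.card ≤ 7 →
    Disjoint X Y₁ → Disjoint X Y₂ → Cov G Y₁ ↑X → Cov G Y₂ ↑X → a ∈ X → b ∈ X → a ≠ b →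
    Act G Y₁ a → Act G Y₁ b → Act G Y₂ a → Act G Y₂ b → False) ∧
  ∀ (Y₁ Y₂ Y₃ X X₀ : Finset V) (a b e : V), Pc G Y₁ → Pc G Y₂ → Pc G Y₃ → Disjoint Y₁ Y₂ →
    Disjoint Y₁ Y₃ → Disjoint Y₂ Y₃ → X₀.card ≤ 4 → X = insert a (insert b (insert e X₀)) →
    Disjoint X Y₁ → Disjoint X Y₂ → Disjoint X Y₃ → Cov G Y₁ ↑X → Cov G Y₂ ↑X → Cov G Y₃ ↑X →
    a ≠ b → a ≠ e → b ≠ e → Act G Y₁ a → Act G Y₁ b → Act G Y₂ a → Act G Y₂ e → Act G Y₃ b →
    Act G Y₃ e → False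

/-- Pieces with one class and four single neighbours. -/
def Fc1Stmt : Prop := ∀ (V : Type) [Fintype V] (G : SimpleGraph V) (C X : Finset V) (S : Set V),
  Gi G → Cls G C S → X.card ≤ 4 →
  (∀ Y ⊆ C, Pc G Y → Cov G Y (S ∪ ↑X) → Y.card ≤ 3) ∧
  (∀ Y₁ ⊆ C, ∀ Y₂ ⊆ C, ∀ y ∈ X, Pc G Y₁ → Pc G Y₂ → Disjoint Y₁ Y₂ → Disjoint X Y₁ →
    Disjoint X Y₂ → Cov G Y₁ (S ∪ ↑X) → Cov G Y₂ (S ∪ ↑X) → y ∈ C → Act G Y₁ y → Act G Y₂ y →
    (∃ a ∈ S, Act G Y₁ a) → (∃ a ∈ S, Act G Y₂ a) → False) ∧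
  ∀ Y₁ ⊆ C, ∀ Y₂ ⊆ C, ∀ Y₃ ⊆ C, ∀ y ∈ X, ∀ y' ∈ X, Pc G Y₁ → Pc G Y₂ → Pc G Y₃ →
    Disjoint Y₁ Y₂ → Disjoint Y₁ Y₃ → Disjoint Y₂ Y₃ → Disjoint X Y₁ → Disjoint X Y₂ →
    Disjoint X Y₃ → Cov G Y₁ (S ∪ ↑X) → Cov G Y₂ (S ∪ ↑X) → Cov G Y₃ (S ∪ ↑X) → y ≠ y' →
    y ∈ C → y' ∈ C → Act G Y₁ y → Act G Y₂ y' → Act G Y₃ y → Act G Y₃ y' →
    (∃ a ∈ S, Act G Y₁ a) → (∃ a ∈ S, Act G Y₂ a) → False

/-- Pieces with two classes and two single neighbours. -/
def Fc2Stmt : Prop := ∀ (V : Type) [Fintype V] (G : SimpleGraph V) (C : Finset V) (y e : V)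
  (S₁ S₂ : Set V), Gi G → Cls G C S₁ → Cls G C S₂ →
  (∀ Y ⊆ C, Pc G Y → Cov G Y (S₁ ∪ S₂ ∪ {y, e}) → Y.card ≤ 2) ∧
  ∀ Y₁ ⊆ C, ∀ Y₂ ⊆ C, Pc G Y₁ → Pc G Y₂ → Disjoint Y₁ Y₂ → y ∉ Y₁ → y ∉ Y₂ → e ∉ Y₁ → e ∉ Y₂ →
    Cov G Y₁ (S₁ ∪ S₂ ∪ {y, e}) → Cov G Y₂ (S₁ ∪ S₂ ∪ {y, e}) → y ∈ C → Act G Y₁ y →
    Act G Y₂ y → (∃ a ∈ S₁, Act G Y₁ a) → (∃ a ∈ S₁, Act G Y₂ a) → False

def FcaStmt : Prop := ∀ (V : Type) [Fintype V] (G Γ : SimpleGraph V) (C : Finset V)
  (c : Fin 4 → V) (A : Fin 4 → List V) (t : Fin 4 → V), Ks G Γ C c A → (∀ i, t i ∈ A i) →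
  ∀ Z ⊆ C, ¬ Cyc G Z → ∀ y₁ y₂ y₃, Bd3 (HK G C A t) Z y₁ y₂ y₃ →
  ∀ x, Ev (HK G C A t) x → (∀ u v, x s(u, v) ≠ 0 → u ∈ Z ∨ v ∈ Z) → x = 0

/-- Every nonempty even set is heavy. -/
def WeightStmt : Prop := ∀ (V : Type) [Fintype V] (G Γ : SimpleGraph V) (C : Finset V)
  (c : Fin 4 → V) (A : Fin 4 → List V) (t : Fin 4 → V), Ks G Γ C c A → (∀ i, t i ∈ A i) →
  ∀ ω : Sym2 V → ℕ, (∀ u ∈ C, ∀ v ∈ C, 2 ≤ ω s(u, v)) → (∀ i, 6 ≤ ω s(t i, t (i + 1))) →
  (∀ u ∈ C, ∀ i, (if kk G A u ≤ 1 then 8 else 9) ≤ ω s(u, t i)) →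
  ∀ x, Ev (HK G C A t) x → x ≠ 0 → 24 ≤ ∑ e ∈ univ.filter (fun e => x e ≠ 0), ω e

def IneqStmt : Prop := ∀ (V : Type) [Fintype V] (G Γ : SimpleGraph V) (C : Finset V)
  (c : Fin 4 → V) (A : Fin 4 → List V) (t : Fin 4 → V), Ks G Γ C c A → (∀ i, t i ∈ A i) →
  ∀ F, Basis (HK G C A t) [t 0, t 1, t 2, t 3] F →
  ∀ S ⊆ C, ∑ v ∈ S, (5 * dg G S v + 2 * min 3 (2 * kk G A v)) ≤ 12 * S.card

/-- Balls around far apart vertices of a core. -/
def BallStmt : Prop := ∀ (V : Type) [Fintype V] (G : SimpleGraph V) (W : Finset V) (D : V → ℕ),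
  Gi G → (∀ v ∈ W, 2 ≤ dg G W v) →
  (∀ u ∈ W, ∀ v ∈ W, u ≠ v → ∀ r, Wk G W u v r → 10 ≤ D u + D v + r) →
  ∑ v ∈ W, (9 - 2 * D v) ≤ W.card

def PruneStmt : Prop := ∀ (V : Type) [Fintype V] (G : SimpleGraph V) (C X : Finset V)
  (k : V → ℕ), Gi G → Cyc G C → Disjoint X C → X.card ≤ 4 →
  (∀ v ∈ C, 3 ≤ dg G C v + k v + dg G X v) →
  (∀ S ⊆ C, ∑ v ∈ S, (5 * dg G S v + 2 * min 3 (2 * k v)) ≤ 12 * S.card) → False

/-! ### The two paths theorem -/

def MergeStmt : Prop := ∀ (V : Type) (F : Finset (Vec V)) (e : Sym2 V), cov F e ≤ 2 →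
  ∃ F' : Finset (Vec V), (∀ f ∈ F', f e = 0 ∧ (f ∈ F ∨ ∃ g ∈ F, ∃ h ∈ F, f = g + h)) ∧
    (∀ e', cov F' e' ≤ cov F e') ∧
    ∀ x ∈ Submodule.span (ZMod 2) (F : Set (Vec V)), x e = 0 →
      x ∈ Submodule.span (ZMod 2) (F' : Set (Vec V))

def DimStmt : Prop := ∀ (V : Type) [Fintype V] (E : Finset (Sym2 V)) (W : Finset V)
  (F : Finset (Vec V)), W.Nonempty → (∀ u v, s(u, v) ∈ E → u ≠ v ∧ u ∈ W ∧ v ∈ W) →
  (∀ x : Vec V, (∀ e, x e ≠ 0 → e ∈ E) → (∀ v, par x v = 0) →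
    x ∈ Submodule.span (ZMod 2) (F : Set (Vec V))) →
  E.card + 1 ≤ F.card + W.card

/-- From a vertex of odd degree a path in the edge set leads to another one. -/
def HandStmt : Prop := ∀ (V : Type) [Fintype V] (x : Vec V) (a : V), (∀ v, x s(v, v) = 0) →
  par x a ≠ 0 → ∃ (L : ℕ) (f : ℕ → V), f 0 = a ∧ f L ≠ a ∧ par x (f L) ≠ 0 ∧
    (∀ j < L, x s(f j, f (j + 1)) ≠ 0) ∧ ∀ i ≤ L, ∀ j ≤ L, f i = f j → i = j

def SplitStmt : Prop := ∀ (V : Type) [Fintype V] (H : SimpleGraph V) (x y : V) (I J : List V),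
  Frame H (x :: (I ++ y :: J)) → ¬ Cross H (x :: (I ++ y :: J)) → FC H (x :: (I ++ y :: J)) →
  I ≠ [] → J ≠ [] → (∀ u ∈ I, ∀ v ∈ J, ¬ R H (univ \ {x, y}) u v) → TPih H →
  ∃ F, Basis H (x :: (I ++ y :: J)) F

/-- Either the graph is the frame, or there is a pendant edge, or one can peel, or split. -/
def LinkStmt : Prop := ∀ (V : Type) [Fintype V] (H : SimpleGraph V) (L : List V),
  Frame H L → ¬ Cross H L → FC H L →
  (∀ u v, H.Adj u v → Fr L u v ∨ Fr L v u) ∨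
  (∃ v ∉ L, ∃ p, ∀ w, H.Adj v w ↔ w = p) ∨
  (∃ (a b : V) (M : List V) (U : Finset V), L ~r b :: (M ++ [a]) ∧ Conn H U ∧ (∀ u ∈ U, u ∉ L) ∧
    Act H U a ∧ Act H U b) ∨
  ∃ (x y : V) (I J : List V), L ~r x :: (I ++ y :: J) ∧ I ≠ [] ∧ J ≠ [] ∧
    ∀ u ∈ I, ∀ v ∈ J, ¬ R H (univ \ {x, y}) u v

def ExtqStmt : Prop := ∀ (V : Type) [Fintype V] (H : SimpleGraph V) (a b : V) (M : List V)
  (U : Finset V), Frame H (b :: (M ++ [a])) → Conn H U → (∀ u ∈ U, u ∉ b :: (M ++ [a])) →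
  Act H U a → Act H U b →
  ∃ k q, q 0 = a ∧ q k = b ∧ PQ H M k q ∧ RR H M k q ∧ NC H k q

def XlStmt : Prop := ∀ (V : Type) [Fintype V] (H : SimpleGraph V) (M : List V) (k : ℕ)
  (q : ℕ → V), PQ H M k q → ¬ Cross H (q k :: (M ++ [q 0])) → XL H M k q

def LensStmt : Prop := ∀ (V : Type) [Fintype V] (H : SimpleGraph V) (M : List V) (k : ℕ)
  (q : ℕ → V), PQ H M k q → FC H (q k :: (M ++ [q 0])) → NC H k q → LL H M k q

def GoodStmt : Prop := ∀ (V : Type) [Fintype V] (H : SimpleGraph V) (M : List V) (k : ℕ)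
  (q : ℕ → V), PQ H M k q → RR H M k q → XL H M k q → LL H M k q →
  (∀ U, ¬ Good H M k q U) ∧
    ∀ U i l, Disjoint U (qs k q) → Disjoint U (KK H M k q) → i + 2 ≤ l → l ≤ k → ¬ Span H q U i l

def PcrossStmt : Prop := ∀ (V : Type) [Fintype V] (H : SimpleGraph V) (M : List V) (k : ℕ)
  (q : ℕ → V), PQ H M k q → ¬ Cross H (q k :: (M ++ [q 0])) → NC H k q →
  (∀ U, ¬ Good H M k q U) →
  (∀ U i l, Disjoint U (qs k q) → Disjoint U (KK H M k q) → i + 2 ≤ l → l ≤ k →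
    ¬ Span H q U i l) →
  ¬ Cross (H.deleteEdges {s(q 0, q k)}) (q k :: (M ++ (List.range k).map q))

def PeelStmt : Prop := ∀ (V : Type) [Fintype V] (H : SimpleGraph V) (M : List V) (k : ℕ)
  (q : ℕ → V), PQ H M k q → FC H (q k :: (M ++ [q 0])) →
  ¬ Cross (H.deleteEdges {s(q 0, q k)}) (q k :: (M ++ (List.range k).map q)) → TPih H →
  ∃ F, Basis H (q k :: (M ++ [q 0])) F

/-- The base case and the pendant edge. -/
def BaseStmt : Prop := ∀ (V : Type) [Fintype V] (H : SimpleGraph V) (L : List V), Frame H L →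
  ((∀ u v, H.Adj u v → Fr L u v ∨ Fr L v u) → ∃ F, Basis H L F) ∧
  ∀ v ∉ L, ∀ p, (∀ w, H.Adj v w ↔ w = p) → ¬ Cross H L → FC H L → TPih H → ∃ F, Basis H L F

def TPStmt : Prop := ∀ (V : Type) [Fintype V] (H : SimpleGraph V) (L : List V),
  Frame H L → ¬ Cross H L → FC H L → ∃ F, Basis H L F

/-! ### Flows -/

def CertAt (n : ℕ) : Prop := ∃ (K : ℕ) (J : List (ℤ × List Z5)), 0 < K ∧
  (∀ p ∈ J, p.2.length = n ∧ p.2.sum = 0 ∧ (0 ≤ p.1 ∨ Ext p.2)) ∧
  ∀ (V : Type) (τ : List V), τ.length = n →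
    (K : ℤ) * ((nzl n).map (chi τ)).sum + (J.map fun p => p.1 * chi τ p.2).sum = 0

def CertStmt : Prop := ∀ n, 5 ≤ n → n ≤ 11 → CertAt n

def PosStmt : Prop := ∀ (V : Type) (n : ℕ), n ≤ 11 → ∀ f ∈ Vn V n, (∀ b, 0 ≤ f b) →
  (∀ b : List Z5, b.length = n → b.sum = 0 → Ext b → f b = 0) → ∀ b, f b = 0

/-- A boundary on at most eleven terminals can be replaced by an extendable one. -/
def CycStmt : Prop := ∀ (V E : Type) [Fintype V] (G : MG V E) (B : Finset E) (τ : List V)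
  (b : List Z5) (ψ : E → Z5), τ.length ≤ 11 → b.length = τ.length → (∀ e ∈ B, ψ e ≠ 0) →
  bd5 G B ψ = push τ b →
  ∃ (b' : List Z5) (ψ' : E → Z5), b'.length = τ.length ∧ b'.sum = 0 ∧ Ext b' ∧
    (∀ e ∈ B, ψ' e ≠ 0) ∧ bd5 G B ψ' = push τ b'

/-- A smallest counterexample has no short cycle. -/
def ShortStmt : Prop := ∀ (V E : Type) [Fintype V] (G : MG V E), Min5 G →
  ∀ (n : ℕ) (v : ℕ → V) (e : ℕ → E), 1 ≤ n → n ≤ 11 → (∀ i < n, ∀ j < n, v i = v j → i = j) →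
  (∀ i < n, ∀ j < n, e i = e j → i = j) → v n = v 0 →
  (∀ i < n, e i ∈ G.A ∧ G.Ends (e i) (v i) (v (i + 1))) → False

/-- A smallest counterexample has no vertex on exactly one or two edges, loops excluded. -/
def DegStmt : Prop := ∀ (V E : Type) [Fintype V] (G : MG V E), Min5 G →
  (∀ e ∈ G.A, G.l e ≠ G.r e) → ∀ v, (∃ e ∈ G.A, G.Inc e v) →
  3 ≤ (G.A.filter fun e => G.Inc e v).card

def FlowStmt : Prop := ∀ (V E : Type) [Fintype V] (G : MG V E), G.Bridgeless → ¬ G.HasP → Flow5 G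

def IntStmt : Prop := ∀ (V E : Type) [Fintype V] (G : MG V E), Flow5 G →
  ∃ φ : E → ℤ, (∀ e ∈ G.A, φ e ≠ 0 ∧ |φ e| ≤ 4) ∧
    ∀ v, ∑ e ∈ G.A.filter (fun e => G.l e = v), φ e = ∑ e ∈ G.A.filter (fun e => G.r e = v), φ e

end Pool.Agent.MP_e6539c_co.P5

end MrgPart1

-- ======== part 2: formerly Pool.Agent.MP_e6539c_co.P5.Short
section MrgPart2

/-! A smallest counterexample has no short cycle and no vertex of degree one or two. -/

set_option autoImplicit false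

namespace Pool.Agent.MP_e6539c_co.P5

open Finset
open Pool.Agent.MP_e6539c_co.TW (MG)
open scoped Classical

namespace Short

variable {V E : Type} {G : MG V E}

theorem bd5_minor [Fintype V] (A' B : Finset E) (ρ : V → V) (ψ : E → Z5) (x : V) :
    bd5 (G.minor A' ρ) B ψ x = ∑ v ∈ univ.filter (fun v => ρ v = x), bd5 G B ψ v := by
  unfold bd5
  rw [sum_comm]
  apply sum_congr rfl
  intro e _
  rw [sum_sub_distrib, sum_ite_eq, sum_ite_eq]
  simp only [MG.minor, Function.comp, mem_filter, mem_univ, true_and]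
  congr

theorem bd5_congr {B : Finset E} {ψ ψ' : E → Z5} (h : ∀ e ∈ B, ψ e = ψ' e) (v : V) :
    bd5 G B ψ v = bd5 G B ψ' v :=
  sum_congr rfl fun e he => by rw [h e he]

theorem bd5_split {B D : Finset E} (h : D ⊆ B) (ψ : E → Z5) (v : V) :
    bd5 G B ψ v = bd5 G (B \ D) ψ v + bd5 G D ψ v := (sum_sdiff h).symm

/-- the value on the edge `e` that carries `x` away from its end `u` -/
noncomputable def car (G : MG V E) (e : E) (u : V) (x : Z5) : Z5 := if G.l e = u then x else -x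

theorem car_ne {e : E} {u : V} {x : Z5} (hx : x ≠ 0) : car G e u x ≠ 0 := by
  unfold car
  split_ifs
  · exact hx
  · exact neg_ne_zero.2 hx

theorem car_term {e : E} {u w : V} (h : G.Ends e u w) (x : Z5) (z : V) :
    ((if G.l e = z then car G e u x else 0) - (if G.r e = z then car G e u x else 0)) =
      (if u = z then x else 0) - (if w = z then x else 0) := by
  unfold car
  rcases h with ⟨h1, h2⟩ | ⟨h1, h2⟩
  · rw [h1, h2, if_pos rfl]
  · rw [h1, h2]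
    by_cases huw : w = u
    · subst huw
      simp
    · rw [if_neg huw]
      by_cases a : u = z <;> by_cases b : w = z <;> simp [a, b]

/-- contracting a nonempty set of edges gives a flow on the remaining edges -/
theorem contract [Fintype V] (hG : Min5 G) {D : Finset E} (hD : D ⊆ G.A) (hne : D.Nonempty)
    {ρ : V → V} (hρ : G.Fib ρ) (hl : ∀ e ∈ D, ρ (G.l e) = ρ (G.r e)) :
    ∃ ψ : E → Z5, (∀ e ∈ G.A \ D, ψ e ≠ 0) ∧
      ∀ x, ∑ v ∈ univ.filter (fun v => ρ v = x), bd5 G (G.A \ D) ψ v = 0 := by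
  have hc : (G.A \ D).card < G.A.card := card_lt_card (sdiff_ssubset hD hne)
  have hb : (G.minor (G.A \ D) ρ).Bridgeless := by
    intro Y
    have e1 : (G.minor (G.A \ D) ρ).cut (G.minor (G.A \ D) ρ).A Y = G.cut (G.A \ D) (ρ ⁻¹' Y) := rfl
    have e2 : G.cut D (ρ ⁻¹' Y) = ∅ := by
      apply filter_eq_empty_iff.2
      intro e he
      simp only [Set.mem_preimage, hl e he, not_true_eq_false, not_false_eq_true]
    have e3 := MG.card_cut_split (G := G) hD (ρ ⁻¹' Y)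
    rw [e2, card_empty, add_zero] at e3
    rw [e1, ← e3]
    exact hG.br _
  obtain ⟨ψ, h1, h2⟩ := hG.mn _ ρ sdiff_subset hc hρ hb
  exact ⟨ψ, h1, fun x => by rw [← bd5_minor (G.A \ D)]; exact h2 x⟩

theorem fib_single [Fintype V] {ρ : V → V} {f : V → Z5} {x : V} (h : ∀ v, ρ v = x ↔ v = x)
    (h0 : ∑ v ∈ univ.filter (fun v => ρ v = x), f v = 0) : f x = 0 := by
  have e : univ.filter (fun v => ρ v = x) = {x} := by
    ext v; simp [h]
  rwa [e, sum_singleton] at h0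

theorem push_map (l : List ℕ) (v : ℕ → V) (β : ℕ → Z5) (x : V) :
    push (l.map v) (l.map β) x = (l.map fun i => if v i = x then β i else 0).sum := by
  induction l with
  | nil => simp [push]
  | cons a l ih => simp only [List.map_cons, push, List.sum_cons, ih]

theorem sum_map_range (n : ℕ) (f : ℕ → Z5) :
    ((List.range n).map f).sum = ∑ i ∈ range n, f i := by
  induction n with
  | zero => simp
  | succ n ih => rw [List.sum_range_succ, sum_range_succ, ih]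

theorem push_range (n : ℕ) (v : ℕ → V) (β : ℕ → Z5) (x : V) :
    push ((List.range n).map v) ((List.range n).map β) x =
      ∑ i ∈ range n, if v i = x then β i else 0 := by
  rw [push_map, sum_map_range]

theorem exists_map_range (b : List Z5) : ∃ β : ℕ → Z5, b = (List.range b.length).map β := by
  refine ⟨fun i => b.getD i 0, List.ext_getElem (by simp) fun i h1 h2 => ?_⟩
  simp [h1]

theorem take_map_range (n i : ℕ) (hi : i ≤ n) (β : ℕ → Z5) :
    (((List.range n).map β).take i).sum = ∑ j ∈ range i, β j := by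
  rw [← List.map_take, List.take_range, min_eq_left hi, sum_map_range]

/-- values on the edges of a cycle with prescribed boundary -/
theorem cycle_flow {n : ℕ} {v : ℕ → V} {e : ℕ → E}
    (he : ∀ i < n, ∀ j < n, e i = e j → i = j) (hn : v n = v 0)
    (hE : ∀ i < n, G.Ends (e i) (v i) (v (i + 1))) (β : ℕ → Z5) (c : Z5)
    (h0 : ∑ j ∈ range n, β j = 0) (hc : ∀ i ≤ n, ∑ j ∈ range i, β j ≠ c) :
    ∃ φ : E → Z5, (∀ x ∈ (range n).image e, φ x ≠ 0) ∧
      ∀ z, bd5 G ((range n).image e) φ z = -∑ i ∈ range n, if v i = z then β i else 0 := by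
  let g : ℕ → Z5 := fun i => c - ∑ j ∈ range i, β j
  let φ : E → Z5 := fun x => ∑ i ∈ range n, if e i = x then car G (e i) (v i) (g (i + 1)) else 0
  have hφ : ∀ j < n, φ (e j) = car G (e j) (v j) (g (j + 1)) := by
    intro j hj
    simp only [φ]
    rw [sum_eq_single j, if_pos rfl]
    · intro i hi hij
      exact if_neg fun h => hij (he i (mem_range.1 hi) j hj h)
    · intro h
      exact absurd (mem_range.2 hj) h
  refine ⟨φ, fun x hx => ?_, fun z => ?_⟩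
  · obtain ⟨j, hj, rfl⟩ := mem_image.1 hx
    rw [hφ j (mem_range.1 hj)]
    exact car_ne (sub_ne_zero.2 (hc (j + 1) (mem_range.1 hj)).symm)
  · unfold bd5
    rw [sum_image fun i hi j hj h => he i (mem_range.1 hi) j (mem_range.1 hj) h]
    have e1 : ∀ i ∈ range n, ((if G.l (e i) = z then φ (e i) else 0) -
        (if G.r (e i) = z then φ (e i) else 0)) =
        ((if v i = z then g i else 0) - (if v (i + 1) = z then g (i + 1) else 0)) -
          (if v i = z then β i else 0) := by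
      intro i hi
      rw [hφ i (mem_range.1 hi), car_term (hE i (mem_range.1 hi))]
      have : g (i + 1) = g i - β i := by
        simp only [g, sum_range_succ]; ring
      by_cases h : v i = z
      · simp only [if_pos h]
        rw [this]; ring
      · simp only [if_neg h]
        ring
    rw [sum_congr rfl e1, sum_sub_distrib, sum_range_sub' fun i => if v i = z then g i else 0, hn]
    have : g n = g 0 := by simp [g, h0]
    rw [this]
    ring

theorem conn_cycle {n : ℕ} {v : ℕ → V} {e : ℕ → E} {W : Set V} (hW : ∀ i < n, v i ∈ W)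
    (hE : ∀ i < n, e i ∈ G.A ∧ G.Ends (e i) (v i) (v (i + 1))) :
    ∀ i < n, G.Conn G.A W (v 0) (v i) := by
  intro i
  induction i with
  | zero => exact fun _ => MG.Conn.refl _
  | succ i ih =>
    intro hi
    have hi' : i < n := Nat.lt_of_succ_lt hi
    exact (ih hi').trans (MG.Conn.single (hW i hi') (hW _ hi) ⟨e i, hE i hi'⟩)

/-- collapsing a connected set `S` to one of its vertices -/
theorem fib_collapse {S : Set V} {a : V} (ha : a ∈ S) (hS : ∀ u ∈ S, G.Conn G.A S a u) :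
    G.Fib fun w => if w ∈ S then a else w := by
  intro u w huw
  simp only at huw
  by_cases hu : u ∈ S <;> by_cases hw : w ∈ S
  · refine ((hS u hu).symm.trans (hS w hw)).mono subset_rfl fun x hx => ?_
    simp only [Set.mem_ofPred_eq, if_pos hx, if_pos hu]
  · rw [if_pos hu, if_neg hw] at huw
    exact absurd (huw ▸ ha) hw
  · rw [if_neg hu, if_pos hw] at huw
    exact absurd (huw ▸ ha) hu
  · rw [if_neg hu, if_neg hw] at huw
    rw [huw]
    exact MG.Conn.refl _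

theorem collapse_out {S : Set V} {a x : V} (ha : a ∈ S) (hx : x ∉ S) (v : V) :
    (if v ∈ S then a else v) = x ↔ v = x := by
  by_cases hv : v ∈ S
  · rw [if_pos hv]
    exact ⟨fun h => absurd (h ▸ ha) hx, fun h => absurd (h ▸ hv) hx⟩
  · rw [if_neg hv]

/-- gluing values on `G.A \ D` and on `D` -/
theorem glue {D : Finset E} (hD : D ⊆ G.A) {ψ φ : E → Z5} (h1 : ∀ e ∈ G.A \ D, ψ e ≠ 0)
    (h2 : ∀ e ∈ D, φ e ≠ 0) (h3 : ∀ z, bd5 G (G.A \ D) ψ z + bd5 G D φ z = 0) : Flow5 G := by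
  refine ⟨fun x => if x ∈ D then φ x else ψ x, fun x hx => ?_, fun z => ?_⟩
  · by_cases h : x ∈ D
    · simp only [if_pos h]; exact h2 x h
    · simp only [if_neg h]; exact h1 x (mem_sdiff.2 ⟨hx, h⟩)
  · rw [bd5_split hD, bd5_congr (ψ' := ψ) fun x hx => if_neg (mem_sdiff.1 hx).2,
      bd5_congr (ψ' := φ) fun x hx => if_pos hx]
    exact h3 z

end Short

open Short in
theorem short (h : CycStmt) : ShortStmt := by
  intro V E _ G hG n v e h1 h11 hv he hn hE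
  let S : Set V := {w | ∃ i < n, v i = w}
  have hS : ∀ i < n, v i ∈ S := fun i hi => ⟨i, hi, rfl⟩
  have h0 : v 0 ∈ S := hS 0 h1
  have hS' : ∀ i < n, v (i + 1) ∈ S := fun i hi => by
    rcases Nat.lt_or_eq_of_le (Nat.succ_le_of_lt hi) with h | h
    · exact hS _ h
    · have : i + 1 = n := h
      rw [this, hn]; exact h0
  have hD : (range n).image e ⊆ G.A := fun x hx => by
    obtain ⟨j, hj, rfl⟩ := mem_image.1 hx
    exact (hE j (mem_range.1 hj)).1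
  obtain ⟨ψ, hψ1, hψ2⟩ := contract hG hD ⟨e 0, mem_image_of_mem _ (mem_range.2 h1)⟩
    (fib_collapse h0 (by rintro u ⟨i, hi, rfl⟩; exact conn_cycle hS hE i hi)) (by
      intro x hx
      obtain ⟨j, hj, rfl⟩ := mem_image.1 hx
      have hj' := mem_range.1 hj
      rcases (hE j hj').2 with ⟨a, b⟩ | ⟨a, b⟩ <;>
        simp only [a, b, if_pos (hS j hj'), if_pos (hS' j hj')])
  have hb : bd5 G (G.A \ (range n).image e) ψ = push ((List.range n).map v)
      ((List.range n).map fun i => bd5 G (G.A \ (range n).image e) ψ (v i)) := by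
    funext x
    rw [push_range]
    by_cases hx : x ∈ S
    · obtain ⟨j, hj, rfl⟩ := hx
      rw [sum_eq_single j, if_pos rfl]
      · intro i hi hij
        exact if_neg fun h => hij (hv i (mem_range.1 hi) j hj h)
      · intro h
        exact absurd (mem_range.2 hj) h
    · rw [fib_single (collapse_out h0 hx) (hψ2 x), sum_eq_zero]
      intro i hi
      exact if_neg fun h => hx ⟨i, mem_range.1 hi, h⟩
  obtain ⟨b', ψ', l1, l2, ⟨c, hc⟩, l4, l5⟩ := h V E G _ _ _ ψ (by simpa using h11) (by simp) hψ1 hb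
  obtain ⟨β, hβ⟩ := exists_map_range b'
  have l1' : b'.length = n := by simpa using l1
  rw [l1'] at hβ hc
  subst hβ
  obtain ⟨φ, p1, p2⟩ := cycle_flow he hn (fun i hi => (hE i hi).2) β c
    (by rw [← sum_map_range]; exact l2) fun i hi => by
      rw [← take_map_range n i hi]; exact hc i hi
  refine hG.nf (glue hD l4 p1 fun z => ?_)
  rw [l5, push_range, p2, add_neg_cancel]

open Short in
theorem deg : DegStmt := by
  intro V E _ G hG hl v ⟨e₀, he₀, hi₀⟩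
  by_contra hlt
  have hcut : G.cut G.A {v} = G.A.filter fun e => G.Inc e v := by
    apply filter_congr
    intro e he
    have := hl e he
    simp only [Set.mem_singleton_iff, MG.Inc]
    constructor
    · intro h
      by_contra h'
      rw [not_or] at h'
      exact h ⟨fun a => absurd a h'.1, fun a => absurd a h'.2⟩
    · rintro (h | h) h'
      · exact this (h.trans (h'.1 h).symm)
      · exact this ((h'.2 h).trans h.symm)
  have h1 := hG.br {v}
  rw [hcut] at h1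
  have h0 : 0 < (G.A.filter fun e => G.Inc e v).card := card_pos.2 ⟨e₀, mem_filter.2 ⟨he₀, hi₀⟩⟩
  obtain ⟨e₁, e₂, h12, hF⟩ := card_eq_two.1 (show (G.A.filter fun e => G.Inc e v).card = 2 by omega)
  have m : ∀ e, (e ∈ G.A ∧ G.Inc e v) ↔ (e = e₁ ∨ e = e₂) := fun e => by
    rw [← mem_filter (p := fun e => G.Inc e v), hF, mem_insert, mem_singleton]
  obtain ⟨a1, i1⟩ := (m e₁).2 (Or.inl rfl)
  obtain ⟨a2, i2⟩ := (m e₂).2 (Or.inr rfl)
  obtain ⟨w, hw⟩ := i1.exists_ends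
  have hvw : v ≠ w := by
    rintro rfl
    rcases hw with ⟨a, b⟩ | ⟨a, b⟩ <;> exact hl e₁ a1 (a.trans b.symm)
  let S : Set V := {v, w}
  have hv : v ∈ S := Or.inl rfl
  have hw' : w ∈ S := Or.inr rfl
  have hD : ({e₁} : Finset E) ⊆ G.A := singleton_subset_iff.2 a1
  obtain ⟨ψ, hψ1, hψ2⟩ := contract hG hD (singleton_nonempty _)
    (fib_collapse hv (by
      rintro u (rfl | rfl)
      · exact MG.Conn.refl _
      · exact MG.Conn.single hv hw' ⟨e₁, a1, hw⟩)) (by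
      intro x hx
      rw [mem_singleton.1 hx]
      rcases hw with ⟨a, b⟩ | ⟨a, b⟩ <;> simp only [a, b, if_pos hv, if_pos hw'])
  have m2 : e₂ ∈ G.A \ {e₁} := mem_sdiff.2 ⟨a2, fun h => h12 (mem_singleton.1 h).symm⟩
  have hβ : bd5 G (G.A \ {e₁}) ψ v ≠ 0 := by
    unfold bd5
    rw [sum_eq_single e₂]
    · have n2 := hl e₂ a2
      have z2 := hψ1 e₂ m2
      rcases i2 with h | h
      · rw [if_pos h, if_neg fun h' => n2 (h.trans h'.symm), sub_zero]; exact z2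
      · rw [if_pos h, if_neg fun h' => n2 (h'.trans h.symm), zero_sub]; exact neg_ne_zero.2 z2
    · intro e he hne
      have he' := mem_sdiff.1 he
      have : ¬ G.Inc e v := fun hi => by
        rcases (m e).1 ⟨he'.1, hi⟩ with h | h
        · exact he'.2 (mem_singleton.2 h)
        · exact hne h
      rw [if_neg fun h => this (Or.inl h), if_neg fun h => this (Or.inr h), sub_zero]
    · intro h
      exact absurd m2 h
  have hsum : bd5 G (G.A \ {e₁}) ψ v + bd5 G (G.A \ {e₁}) ψ w = 0 := by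
    rw [← sum_pair hvw, ← hψ2 v]
    refine sum_congr ?_ fun _ _ => rfl
    ext u
    simp only [mem_filter, mem_univ, true_and, mem_insert, mem_singleton]
    by_cases hu : u ∈ S
    · rw [if_pos hu]; exact ⟨fun _ => rfl, fun _ => hu⟩
    · rw [if_neg hu]; exact ⟨fun h => absurd h hu, Or.inl⟩
  refine hG.nf (glue hD hψ1 (φ := fun _ => car G e₁ v (-bd5 G (G.A \ {e₁}) ψ v))
    (fun _ _ => car_ne (neg_ne_zero.2 hβ)) fun z => ?_)
  have e : bd5 G {e₁} (fun _ => car G e₁ v (-bd5 G (G.A \ {e₁}) ψ v)) z =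
      (if v = z then -bd5 G (G.A \ {e₁}) ψ v else 0) -
        (if w = z then -bd5 G (G.A \ {e₁}) ψ v else 0) := by
    rw [← car_term hw]
    exact sum_singleton _ _
  rw [e]
  by_cases hz : v = z
  · subst hz
    rw [if_pos rfl, if_neg hvw.symm]; ring
  · by_cases hz' : w = z
    · subst hz'
      rw [if_neg hz, if_pos rfl]
      linear_combination hsum
    · rw [if_neg hz, if_neg hz', sub_zero, add_zero]
      refine fib_single (collapse_out hv ?_) (hψ2 z)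
      rintro (h | h)
      · exact hz h.symm
      · exact hz' h.symm

end Pool.Agent.MP_e6539c_co.P5

end MrgPart2

-- marker of a merged file
example : 731051 + 278161 = 731051 + 278161 := rfl
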