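import Mathlib.Data.Fin.VecNotation
import Pool.Agent.MP_e6539c_co.P5.Short

-- ======== part 0: formerly Pool.Agent.MP_e6539c_co.P5.Basic
section MrgPart0

/-! Walks, degrees, forests, classes, marks. -/

set_option autoImplicit false

namespace Pool.Agent.MP_e6539c_co.P5

open Finset
open Pool.Agent.MP_7be75d_co (R Conn comp)
open Pool.Agent.MP_7be75d_co
open scoped Classical

variable {V : Type} {G : SimpleGraph V}

namespace Wk

variable {W W' : Finset V} {a b c : V} {r s : ℕ}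

theorem left (h : Wk G W a b r) : a ∈ W := by
  induction h with
  | refl h => exact h
  | tail _ _ _ ih => exact ih

theorem right (h : Wk G W a b r) : b ∈ W := by
  cases h with
  | refl h => exact h
  | tail _ _ h => exact h

theorem mono' {G' : SimpleGraph V} (h : Wk G W a b r)
    (hG : ∀ x y, G.Adj x y → x ∈ W → y ∈ W → G'.Adj x y) (hW : W ⊆ W') : Wk G' W' a b r := by
  induction h with
  | refl h => exact refl (hW h)
  | tail h1 h2 h3 ih => exact tail ih (hG _ _ h2 h1.right h3) (hW h3)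

theorem mono (h : Wk G W a b r) (hW : W ⊆ W') : Wk G W' a b r := h.mono' (fun _ _ h _ _ => h) hW

theorem succ (h : Wk G W a b r) : Wk G W a b (r + 1) := by
  induction h with
  | refl h => exact refl h
  | tail _ h2 h3 ih => exact tail ih h2 h3

theorem le (h : Wk G W a b r) (hr : r ≤ s) : Wk G W a b s := by
  induction hr with
  | refl => exact h
  | step _ ih => exact ih.succ

theorem trans (h : Wk G W a b r) (h' : Wk G W b c s) : Wk G W a c (r + s) := by
  induction h' with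
  | refl _ => exact h.le (Nat.le_add_right _ _)
  | tail _ h2 h3 ih => exact tail ih h2 h3

theorem single (h : G.Adj a b) (ha : a ∈ W) (hb : b ∈ W) : Wk G W a b 1 := tail (refl ha) h hb

theorem head (h : G.Adj a b) (ha : a ∈ W) (h' : Wk G W b c r) : Wk G W a c (r + 1) := by
  have := (single h ha h'.left).trans h'
  rwa [Nat.add_comm] at this

theorem symm (h : Wk G W a b r) : Wk G W b a r := by
  induction h with
  | refl h => exact refl h
  | tail _ h2 h3 ih => exact head h2.symm h3 ih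

theorem toR (h : Wk G W a b r) : R G W a b := by
  induction h with
  | refl _ => exact R.refl
  | tail h1 h2 h3 ih => exact ih.tail h2 h1.right h3

theorem eq_of_zero (h : Wk G W a b 0) : a = b := by
  cases h with
  | refl _ => rfl

/-- Two walks joined through a vertex `y`. -/
theorem via {y d : V} (h : Wk G W a b r) (h1 : G.Adj y b) (hy : y ∈ W) (h2 : G.Adj y c)
    (h' : Wk G W c d s) : Wk G W a d (r + s + 2) := by
  have := ((h.tail h1.symm hy).tail h2 h'.left).trans h'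
  exact this.le (by omega)

theorem of_fun {f : ℕ → V} {i j : ℕ} (hij : i ≤ j) (hW : ∀ t, i ≤ t → t ≤ j → f t ∈ W)
    (hA : ∀ t, i ≤ t → t < j → G.Adj (f t) (f (t + 1))) : Wk G W (f i) (f j) (j - i) := by
  induction hij with
  | refl => exact refl (hW _ le_rfl le_rfl)
  | @step j h ih =>
    have h : i ≤ j := h
    have := (ih (fun t a b => hW t a (by omega)) (fun t a b => hA t a (by omega))).tail
      (hA j h (by omega)) (hW (j + 1) (by omega) le_rfl)
    exact this.le (by simp only [Nat.succ_eq_add_one]; omega)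

theorem exists_path (h : Wk G W a b r) : ∃ (L : ℕ) (f : ℕ → V), L ≤ r ∧ f 0 = a ∧ f L = b ∧
    (∀ j ≤ L, f j ∈ W) ∧ (∀ j < L, G.Adj (f j) (f (j + 1))) ∧
    ∀ i ≤ L, ∀ j ≤ L, f i = f j → i = j := by
  induction h with
  | refl h => exact ⟨0, fun _ => a, Nat.zero_le _, rfl, rfl, fun _ _ => h, by simp, by omega⟩
  | @tail b c r _ h2 h3 ih =>
    obtain ⟨L, f, h0, f0, f1, f2, f3, f4⟩ := ih
    by_cases hc : ∃ i ≤ L, f i = c
    · obtain ⟨i, hi, rfl⟩ := hc
      exact ⟨i, f, by omega, f0, rfl, fun j hj => f2 j (by omega), fun j hj => f3 j (by omega),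
        fun s hs t ht => f4 s (by omega) t (by omega)⟩
    · push Not at hc
      refine ⟨L + 1, fun j => if j ≤ L then f j else c, by omega, by simp [f0], by simp,
        fun j hj => ?_, fun j hj => ?_, fun s hs t ht => ?_⟩
      · by_cases h : j ≤ L <;> simp [h, f2, h3]
      · by_cases h : j + 1 ≤ L
        · simp only [h, show j ≤ L by omega, if_true]
          exact f3 j (by omega)
        · have : j = L := by omega
          subst this
          simp [f1, h2]
      · by_cases h1 : s ≤ L <;> by_cases h2 : t ≤ L <;> simp only [h1, h2, if_true, if_false]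
        · exact f4 s h1 t h2
        · exact fun h => absurd h (hc s h1)
        · exact fun h => absurd h.symm (hc t h2)
        · omega

end Wk

theorem card_of_path {W : Finset V} {L : ℕ} {f : ℕ → V} (h1 : ∀ j ≤ L, f j ∈ W)
    (h2 : ∀ i ≤ L, ∀ j ≤ L, f i = f j → i = j) : L + 1 ≤ W.card := by
  rw [← card_range (L + 1)]
  exact card_le_card_of_injOn f (fun j hj => h1 j (by simpa [Nat.lt_succ_iff] using hj))
    (fun i hi j hj => h2 i (by simpa [Nat.lt_succ_iff] using hi) j
      (by simpa [Nat.lt_succ_iff] using hj))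

theorem wk_of_R {W : Finset V} {a b : V} (h : R G W a b) (ha : a ∈ W) :
    Wk G W a b (W.card - 1) := by
  obtain ⟨L, f, rfl, rfl, f2, f3, f4⟩ := h.exists_path ha
  have := card_of_path f2 f4
  exact (Wk.of_fun (Nat.zero_le L) (fun t _ h => f2 t h) (fun t _ h => f3 t h)).le (by omega)

theorem conn_wk {W : Finset V} {a b : V} (h : Conn G W) (ha : a ∈ W) (hb : b ∈ W) :
    Wk G W a b (W.card - 1) := wk_of_R (h.2 a ha b hb) ha

/-- The first vertex of `A` on a walk. -/
theorem first_hit {W A : Finset V} {s t : V} (h : R G W s t) (ht : t ∈ A) :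
    ∃ a ∈ A, R G (insert a (W \ A)) s a ∧ R G W s a := by
  by_cases hs : s ∈ A
  · exact ⟨s, hs, R.refl, R.refl⟩
  have hst : s ≠ t := fun e => hs (e ▸ ht)
  obtain ⟨-, -, hsW, -⟩ := h.exists_adj hst
  obtain ⟨x, y, hx, hy, hxW, hyW, hxy, hr⟩ := h.exit (S := W \ A) (mem_sdiff.2 ⟨hsW, hs⟩)
    (fun h => (mem_sdiff.1 h).2 ht)
  have hyA : y ∈ A := by
    by_contra hc
    exact hy (mem_sdiff.2 ⟨hyW, hc⟩)
  exact ⟨y, hyA, (hr.mono (inter_subset_right.trans (subset_insert _ _))).tail hxy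
    (mem_insert_of_mem hx) (mem_insert_self _ _), (hr.mono inter_subset_left).tail hxy hxW hyW⟩

/-- Two vertices of a connected set are adjacent or joined by a connected set. -/
theorem conn_open {X : Finset V} {x y : V} (h : Conn G X) (hx : x ∈ X) (hy : y ∈ X)
    (hxy : x ≠ y) : G.Adj x y ∨ ∃ U ⊆ X \ {x, y}, Conn G U ∧ Act G U x ∧ Act G U y := by
  obtain ⟨L, f, rfl, rfl, f2, f3, f4⟩ := (h.2 x hx y hy).exists_path hx
  rcases Nat.lt_or_ge L 2 with hL | hL
  · have : L = 1 := by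
      rcases Nat.eq_zero_or_pos L with h | h
      · subst h; exact absurd rfl hxy
      · omega
    subst this
    exact Or.inl (f3 0 (by omega))
  · obtain ⟨L, rfl⟩ : ∃ M, L = M + 1 := ⟨L - 1, by omega⟩
    refine Or.inr ⟨(Icc 1 L).image f, fun z hz => ?_,
      conn_segment (by omega) (fun j _ h => f3 j (by omega)),
      ⟨f 1, mem_image_of_mem _ (mem_Icc.2 ⟨le_rfl, by omega⟩), f3 0 (by omega)⟩,
      ⟨f L, mem_image_of_mem _ (mem_Icc.2 ⟨by omega, le_rfl⟩), (f3 L (by omega)).symm⟩⟩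
    obtain ⟨j, hj, rfl⟩ := mem_image.1 hz
    rw [mem_Icc] at hj
    simp only [mem_sdiff, mem_insert, mem_singleton, not_or]
    exact ⟨f2 j (by omega), fun h => by have := f4 j (by omega) 0 (by omega) h; omega,
      fun h => by have := f4 j (by omega) (L + 1) le_rfl h; omega⟩

theorem conn_of_chain : ∀ {l : List V}, l ≠ [] → l.IsChain G.Adj → Conn G l.toFinset
  | [], h, _ => absurd rfl h
  | [a], _, _ => by simpa using Conn.singleton a
  | a :: b :: l, _, h => by
    rw [List.isChain_cons_cons] at h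
    rw [List.toFinset_cons]
    exact (conn_of_chain (by simp) h.2).insert (a := b) (by simp) h.1.symm

theorem Act.mono {C C' : Finset V} {x : V} (h : Act G C x) (hC : C ⊆ C') : Act G C' x := by
  obtain ⟨w, hw, h⟩ := h
  exact ⟨w, hC hw, h⟩

theorem Cov.mono {C : Finset V} {S S' : Set V} (h : Cov G C S) (hS : S ⊆ S') : Cov G C S' :=
  fun w hw x hx a => hS (h w hw x hx a)

/-- A cover may be cut down to its active vertices. -/
theorem Cov.of_act {C : Finset V} {S S' : Set V} (h : Cov G C S)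
    (hS : ∀ x ∈ S, x ∉ C → Act G C x → x ∈ S') : Cov G C S' :=
  fun w hw x hx a => hS x (h w hw x hx a) hx ⟨w, hw, a⟩

/-! ### Degrees and forests -/

theorem dg_mono {W W' : Finset V} (h : W ⊆ W') (v : V) : dg G W v ≤ dg G W' v :=
  card_le_card (filter_subset_filter _ h)

theorem two_le_dg {W : Finset V} {v : V} :
    2 ≤ dg G W v ↔ ∃ a ∈ W, ∃ b ∈ W, a ≠ b ∧ G.Adj v a ∧ G.Adj v b := by
  unfold dg
  rw [show (2 ≤ (W.filter (G.Adj v)).card) = (1 < (W.filter (G.Adj v)).card) from rfl,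
    one_lt_card]
  simp only [mem_filter]
  constructor
  · rintro ⟨a, ⟨a1, a2⟩, b, ⟨b1, b2⟩, h⟩
    exact ⟨a, a1, b, b1, h, a2, b2⟩
  · rintro ⟨a, a1, b, b1, h, a2, b2⟩
    exact ⟨a, ⟨a1, a2⟩, b, ⟨b1, b2⟩, h⟩

/-- A vertex with more than `A.card` neighbours in `W` has one outside `A`. -/
theorem exists_nbr {W A : Finset V} {v : V} (h : A.card < dg G W v) :
    ∃ w ∈ W, w ∉ A ∧ G.Adj v w := by
  obtain ⟨w, hw, hA⟩ := exists_mem_notMem_of_card_lt_card h
  exact ⟨w, (mem_filter.1 hw).1, hA, (mem_filter.1 hw).2⟩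

theorem dg_union_le (W W' : Finset V) (v : V) : dg G (W ∪ W') v ≤ dg G W v + dg G W' v := by
  unfold dg
  rw [filter_union]
  exact card_union_le _ _

theorem dg_erase {W : Finset V} {u v : V} (hu : u ∈ W) :
    dg G W v = dg G (W.erase u) v + if G.Adj v u then 1 else 0 := by
  unfold dg
  conv_lhs => rw [← insert_erase hu, filter_insert]
  split_ifs
  · rw [card_insert_of_notMem (by simp)]
  · rfl

theorem dg_congr {G' : SimpleGraph V} {W : Finset V} {v : V}
    (h : ∀ w ∈ W, G.Adj v w ↔ G'.Adj v w) : dg G W v = dg G' W v := by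
  unfold dg
  rw [filter_congr h]

theorem Cyc.mono {C C' : Finset V} (h : Cyc G C) (hC : C ⊆ C') : Cyc G C' := by
  obtain ⟨W, h1, h2, h3⟩ := h
  exact ⟨W, h1.trans hC, h2, h3⟩

theorem Cyc.mono' {G' : SimpleGraph V} {C : Finset V} (h : Cyc G C)
    (hG : ∀ x y, G.Adj x y → x ∈ C → y ∈ C → G'.Adj x y) : Cyc G' C := by
  obtain ⟨W, h1, h2, h3⟩ := h
  refine ⟨W, h1, h2, fun v hv => (h3 v hv).trans (card_le_card fun w hw => ?_)⟩
  rw [mem_filter] at hw ⊢
  exact ⟨hw.1, hG _ _ hw.2 (h1 hv) (h1 hw.1)⟩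

theorem Cyc.exists_comp {C : Finset V} (h : Cyc G C) : ∃ y ∈ C, Cyc G (comp G C y) := by
  obtain ⟨W, h1, ⟨y, hy⟩, h3⟩ := h
  refine ⟨y, h1 hy, W ∩ comp G C y, inter_subset_right,
    ⟨y, mem_inter.2 ⟨hy, self_mem_comp (h1 hy)⟩⟩, fun v hv => ?_⟩
  rw [mem_inter] at hv
  refine (h3 v hv.1).trans (card_le_card fun w hw => ?_)
  rw [mem_filter] at hw ⊢
  exact ⟨mem_inter.2 ⟨hw.1, comp_closed hv.2 (h1 hw.1) hw.2⟩, hw.2⟩

/-- Removing a vertex with at most one neighbour keeps a cycle. -/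
theorem Cyc.erase {C : Finset V} {u : V} (h : Cyc G C) (hu : dg G C u ≤ 1) :
    Cyc G (C.erase u) := by
  obtain ⟨W, h1, h2, h3⟩ := h
  refine ⟨W, fun w hw => mem_erase.2 ⟨?_, h1 hw⟩, h2, h3⟩
  rintro rfl
  have := (h3 w hw).trans (dg_mono h1 w)
  omega

theorem exists_leaf {Y : Finset V} (h : ¬ Cyc G Y) (hY : Y.Nonempty) : ∃ u ∈ Y, dg G Y u ≤ 1 := by
  by_contra hc
  push Not at hc
  exact h ⟨Y, subset_rfl, hY, hc⟩

theorem forest_count : ∀ (n : ℕ) (Y : Finset V), Y.card = n + 1 → ¬ Cyc G Y →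
    ∑ v ∈ Y, dg G Y v ≤ 2 * n := by
  intro n
  induction n with
  | zero =>
    intro Y h _
    obtain ⟨a, rfl⟩ := card_eq_one.1 h
    simp [dg, filter_singleton]
  | succ n ih =>
    intro Y h hY
    obtain ⟨u, hu, hd⟩ := exists_leaf hY (card_pos.1 (by omega))
    have h1 := ih (Y.erase u) (by rw [card_erase_of_mem hu, h]; rfl)
      (fun c => hY (c.mono (erase_subset _ _)))
    rw [← add_sum_erase _ _ hu, sum_congr rfl (fun v _ => dg_erase (G := G) (v := v) hu),
      sum_add_distrib]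
    have h2 : ∑ v ∈ Y.erase u, (if G.Adj v u then 1 else 0) ≤ dg G Y u := by
      rw [← card_filter]
      refine card_le_card fun w hw => ?_
      rw [mem_filter] at hw ⊢
      exact ⟨mem_of_mem_erase hw.1, hw.2.symm⟩
    omega

theorem forest_count' {Y : Finset V} (hY : Y.Nonempty) (h : ¬ Cyc G Y) :
    ∑ v ∈ Y, dg G Y v + 2 ≤ 2 * Y.card := by
  have := card_pos.2 hY
  have h1 := forest_count (Y.card - 1) Y (by omega) h
  omega

/-- Removing a vertex with at most one neighbour keeps a set connected. -/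
theorem conn_erase {W : Finset V} {u : V} (h : Conn G W) (hu : dg G W u ≤ 1)
    (hne : (W.erase u).Nonempty) : Conn G (W.erase u) := by
  refine ⟨hne, fun a ha b hb => ?_⟩
  rw [mem_erase] at ha hb
  obtain ⟨L, f, rfl, rfl, f2, f3, f4⟩ := (h.2 a ha.2 b hb.2).exists_path ha.2
  refine (Wk.of_fun (Nat.zero_le L) (fun t _ ht => mem_erase.2 ⟨?_, f2 t ht⟩)
    (fun t _ h => f3 t h)).toR
  rintro rfl
  have t0 : t ≠ 0 := fun e => ha.1 (by rw [e])
  have t1 : t ≠ L := fun e => hb.1 (by rw [e])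
  obtain ⟨s, rfl⟩ : ∃ s, t = s + 1 := ⟨t - 1, by omega⟩
  have := two_le_dg.2 ⟨f s, f2 s (by omega), f (s + 1 + 1), f2 _ (by omega),
    fun e => by have := f4 s (by omega) _ (by omega) e; omega, (f3 s (by omega)).symm,
    f3 _ (by omega)⟩
  omega

/-! ### Classes -/

theorem Cls.mono {W W' : Finset V} {S S' : Set V} (h : Cls G W S) (hW : W' ⊆ W) (hS : S' ⊆ S) :
    Cls G W' S' := by
  have m : ∀ p, Mark G W' S' p → Mark G W S p := fun p h => ⟨hS h.1, hW h.2.1, h.2.2⟩
  exact ⟨fun x hx c => h.out x (hS hx) (hW c),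
    fun p q r a b c d => h.two p q r (m p a) (m q b) c (d.mono hW),
    fun p q s r₁ r₂ r₃ a b c d e f g i j => h.three p q s r₁ r₂ r₃ (m p a) (m q b) (m s c) d e f
      (g.mono hW) (i.mono hW) (j.mono hW)⟩

theorem cls_sub (hG : Gi G) {W : Finset V} {S : Set V} (hS : S.Subsingleton)
    (h : ∀ x ∈ S, x ∉ W) : Cls G W S := by
  have k : ∀ p q r, Mark G W S p → Mark G W S q → p ≠ q → Wk G W p.2 q.2 r → 10 ≤ r := by
    intro p q r a b c d
    have e : q.1 = p.1 := hS b.1 a.1
    exact hG W p.1 p.2 q.2 r (h _ a.1) a.2.2 (e ▸ b.2.2) (fun t => c (Prod.ext e.symm t)) d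
  refine ⟨h, fun p q r a b c d => ?_, fun p q s r₁ r₂ r₃ a b c d e f g i _ => ?_⟩
  · have := k p q r a b c d; omega
  · have := k p q _ a b d g
    have := k p s _ a c e i
    omega

theorem cls_empty (W : Finset V) : Cls G W ∅ :=
  ⟨fun _ h => h.elim, fun _ _ _ h => h.1.elim, fun _ _ _ _ _ _ h => h.1.elim⟩

theorem cls_single (hG : Gi G) {W : Finset V} {x : V} (h : x ∉ W) : Cls G W {x} :=
  cls_sub hG Set.subsingleton_singleton (by simpa using h)

theorem cls_short (hG : Gi G) {W : Finset V} {l : List V} (hl : l.length ≤ 1)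
    (h : ∀ x ∈ l, x ∉ W) : Cls G W {x | x ∈ l} := by
  refine cls_sub hG ?_ h
  match l, hl with
  | [], _ => simp
  | [a], _ => simp

/-- Two small connected sets do not have two common neighbours. -/
theorem share2 (hG : Gi G) {Y₁ Y₂ : Finset V} {a b : V} (c1 : Conn G Y₁) (c2 : Conn G Y₂)
    (hd : Disjoint Y₁ Y₂) (hab : a ≠ b) (ha1 : a ∉ Y₁) (ha2 : a ∉ Y₂) (h1 : Act G Y₁ a)
    (h2 : Act G Y₁ b) (h3 : Act G Y₂ a) (h4 : Act G Y₂ b) : 10 ≤ Y₁.card + Y₂.card := by
  obtain ⟨w1, m1, a1⟩ := h1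
  obtain ⟨w2, m2, a2⟩ := h2
  obtain ⟨w3, m3, a3⟩ := h3
  obtain ⟨w4, m4, a4⟩ := h4
  have := hG (insert b (Y₁ ∪ Y₂)) a w1 w3 _ (by simp [hab, ha1, ha2]) a1 a3
    (fun e => disjoint_left.1 hd m1 (e ▸ m3))
    (((conn_wk c1 m1 m2).mono (subset_union_left.trans (subset_insert _ _))).via a2
      (mem_insert_self _ _) a4
      ((conn_wk c2 m4 m3).mono (subset_union_right.trans (subset_insert _ _))))
  have := card_pos.2 c1.1
  have := card_pos.2 c2.1
  omega

/-! ### Counting marks -/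

variable [Fintype V]

theorem mem_mks {Y : Finset V} {S : Set V} {p : V × V} :
    p ∈ mks G Y S ↔ p.1 ∉ Y ∧ p.1 ∈ S ∧ p.2 ∈ Y ∧ G.Adj p.1 p.2 := by
  simp [mks, Mark]

theorem mks_mono {Y : Finset V} {S S' : Set V} (h : S ⊆ S') : mks G Y S ⊆ mks G Y S' :=
  fun _ hp => by
    rw [mem_mks] at hp ⊢
    exact ⟨hp.1, h hp.2.1, hp.2.2⟩

theorem mks_union_le (Y : Finset V) (S S' : Set V) :
    (mks G Y (S ∪ S')).card ≤ (mks G Y S).card + (mks G Y S').card := by
  refine le_trans (card_le_card fun p hp => ?_) (card_union_le _ _)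
  simp only [mem_union, mem_mks, Set.mem_union] at hp ⊢
  tauto

/-- The degrees into `W` are paid by the edges inside `Y` and the marks. -/
theorem sum_dg_le {Y W : Finset V} {S : Set V}
    (h : ∀ w ∈ Y, ∀ x ∈ W, x ∉ Y → G.Adj x w → x ∈ S) :
    ∑ v ∈ Y, dg G W v ≤ ∑ v ∈ Y, dg G Y v + (mks G Y S).card := by
  rw [card_eq_sum_card_fiberwise (f := Prod.snd) (t := Y) (fun p hp => (mem_mks.1 hp).2.2.1),
    ← sum_add_distrib]
  refine sum_le_sum fun v hv => ?_
  have : W.filter (G.Adj v) ⊆ Y.filter (G.Adj v) ∪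
      ((mks G Y S).filter (fun p => p.2 = v)).image Prod.fst := by
    intro x hx
    rw [mem_filter] at hx
    by_cases hY : x ∈ Y
    · exact mem_union_left _ (mem_filter.2 ⟨hY, hx.2⟩)
    · exact mem_union_right _ (mem_image.2 ⟨(x, v), mem_filter.2
        ⟨mem_mks.2 ⟨hY, h v hv x hx.1 hY hx.2.symm, hv, hx.2.symm⟩, rfl⟩, rfl⟩)
  exact (card_le_card this).trans ((card_union_le _ _).trans
    (Nat.add_le_add_left card_image_le _))

/-- A piece with `n` vertices sends out at least `n + 2` edges. -/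
theorem Pc.count {Y : Finset V} {S : Set V} (h : Pc G Y) (hS : Cov G Y S) :
    Y.card + 2 ≤ (mks G Y S).card := by
  have h1 := forest_count' h.conn.1 h.acyc
  have h2 := sum_dg_le (G := G) (W := univ) (fun w hw x _ => hS w hw x)
  have h3 : Y.card * 3 ≤ ∑ v ∈ Y, dg G univ v := card_nsmul_le_sum Y _ 3 h.deg
  omega

theorem mks_cls_one {Y : Finset V} {S : Set V} (h : Conn G Y) (hS : Cls G Y S)
    (hY : Y.card ≤ 4) : (mks G Y S).card ≤ 1 := by
  refine card_le_one.2 fun p hp q hq => ?_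
  by_contra hc
  rw [mem_mks] at hp hq
  have := hS.two p q _ hp.2 hq.2 hc (conn_wk h hp.2.2.1 hq.2.2.1)
  omega

theorem mks_cls_two {Y : Finset V} {S : Set V} (h : Conn G Y) (hS : Cls G Y S)
    (hY : Y.card ≤ 6) : (mks G Y S).card ≤ 2 := by
  by_contra hc
  obtain ⟨p, q, s, hp, hq, hs, a, b, c⟩ := two_lt_card_iff.1 (not_le.1 hc)
  rw [mem_mks] at hp hq hs
  have := hS.three p q s _ _ _ hp.2 hq.2 hs.2 a b c (conn_wk h hp.2.2.1 hq.2.2.1)
    (conn_wk h hp.2.2.1 hs.2.2.1) (conn_wk h hq.2.2.1 hs.2.2.1)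
  omega

omit [Fintype V] in
/-- An outside vertex has at most one neighbour in a small connected set. -/
theorem nbr_unique (hG : Gi G) {Y : Finset V} (h : Conn G Y) (hY : Y.card ≤ 10) {x w w' : V}
    (hx : x ∉ Y) (hw : w ∈ Y) (hw' : w' ∈ Y) (a : G.Adj x w) (a' : G.Adj x w') : w = w' := by
  by_contra hc
  have := hG Y x w w' _ hx a a' hc (conn_wk h hw hw')
  omega

theorem mks_fin (hG : Gi G) {Y : Finset V} (X : Finset V) (h : Conn G Y) (hY : Y.card ≤ 10) :
    (mks G Y ↑X).card ≤ (X.filter fun x => x ∉ Y ∧ Act G Y x).card := by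
  refine card_le_card_of_injOn Prod.fst (fun p hp => ?_) (fun p hp q hq e => ?_)
  · rw [mem_coe, mem_mks] at hp
    exact mem_coe.2 (mem_filter.2 ⟨hp.2.1, hp.1, p.2, hp.2.2⟩)
  · rw [mem_coe, mem_mks] at hp hq
    exact Prod.ext e (nbr_unique hG h hY hp.1 hp.2.2.1 hq.2.2.1 hp.2.2.2 (e ▸ hq.2.2.2))

theorem pc_comp {C U : Finset V} {y : V} (hd : Deg3 G C) (hU : U ⊆ C) (h : ¬ Cyc G U)
    (hy : y ∈ U) : Pc G (comp G U y) :=
  ⟨comp_conn hy, fun c => h (c.mono comp_subset), fun v hv => hd v (hU (comp_subset hv))⟩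

end Pool.Agent.MP_e6539c_co.P5

end MrgPart0

-- ======== part 1: formerly Pool.Agent.MP_e6539c_co.P5.Basic2
section MrgPart1

/-! Contractions, the terminal graph, lists of single marks. -/

set_option autoImplicit false

namespace Pool.Agent.MP_e6539c_co.P5

open Finset
open Pool.Agent.MP_7be75d_co (R Conn comp)
open Pool.Agent.MP_7be75d_co
open Pool.Agent.MP_e6539c_co.TW (MG)
open scoped Classical

variable {V : Type} {G Γ : SimpleGraph V}

theorem gmap_adj {ρ : V → V} {p q : V} :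
    (gmap Γ ρ).Adj p q ↔ p ≠ q ∧ ∃ u v, ρ u = p ∧ ρ v = q ∧ Γ.Adj u v := Iff.rfl

theorem gmap_of {ρ : V → V} {u v : V} (h : Γ.Adj u v) (hne : ρ u ≠ ρ v) :
    (gmap Γ ρ).Adj (ρ u) (ρ v) := ⟨hne, u, v, rfl, rfl, h⟩

theorem gmap_fix {ρ : V → V} {u v : V} (h : Γ.Adj u v) (hu : ρ u = u) (hv : ρ v = v) :
    (gmap Γ ρ).Adj u v := ⟨h.ne, u, v, hu, hv, h⟩

theorem gmap_chain {ρ : V → V} {l : List V} (h : l.IsChain Γ.Adj) (hl : ∀ x ∈ l, ρ x = x) :
    l.IsChain (gmap Γ ρ).Adj := by
  induction l with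
  | nil => simp
  | cons a l ih =>
    cases l with
    | nil => simp
    | cons b l =>
      rw [List.isChain_cons_cons] at h ⊢
      exact ⟨gmap_fix h.1 (hl a (by simp)) (hl b (by simp)),
        ih h.2 (fun x hx => hl x (List.mem_cons_of_mem _ hx))⟩

theorem petE_all : ∀ i < 10, ∃ p ∈ MG.petE, p.1 = i ∨ p.2 = i := by decide

/-- A Petersen minor of a contraction lifts. -/
theorem pet_gmap [Fintype V] {ρ : V → V}
    (hρ : ∀ u v, ρ u = ρ v → R Γ (univ.filter fun w => ρ w = ρ u) u v)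
    (h : Pet (gmap Γ ρ)) : Pet Γ := by
  obtain ⟨B, b1, b2, b3⟩ := h
  have ne : ∀ i < 10, ∃ u, ρ u ∈ B i := by
    intro i hi
    obtain ⟨p, hp, h⟩ := petE_all i hi
    obtain ⟨u, hu, v, hv, -, u', v', rfl, rfl, -⟩ := b3 p hp
    rcases h with rfl | rfl
    · exact ⟨u', hu⟩
    · exact ⟨v', hv⟩
  refine ⟨fun i => univ.filter fun w => ρ w ∈ B i, fun i hi => ?_, fun i hi j hj hij => ?_,
    fun p hp => ?_⟩
  · obtain ⟨u, hu⟩ := ne i hi
    have fib : ∀ x y, ρ x ∈ B i → ρ x = ρ y → R Γ (univ.filter fun w => ρ w ∈ B i) x y :=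
      fun x y hx e => (hρ x y e).mono fun w hw => by
        simp only [mem_filter, mem_univ, true_and] at hw ⊢
        rwa [hw]
    refine Conn.of_center (a := u) (by simpa using hu) fun b hb => ?_
    have hb : ρ b ∈ B i := by simpa using hb
    have key : ∀ y, ρ y = ρ b → R Γ (univ.filter fun w => ρ w ∈ B i) u y := by
      refine ((b1 i hi).2 _ hu _ hb).ind
        (P := fun z => ∀ y, ρ y = z → R Γ (univ.filter fun w => ρ w ∈ B i) u y)
        (fun y e => fib u y hu e.symm) ?_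
      rintro x z - ih ⟨-, x', z', rfl, rfl, a⟩ hx hz y e
      exact ((ih x' rfl).tail a (by simpa using hx) (by simpa using hz)).trans
        (fib z' y hz e.symm)
    exact key b rfl
  · refine disjoint_left.2 fun x h1 h2 => ?_
    simp only [mem_filter, mem_univ, true_and] at h1 h2
    exact disjoint_left.1 (b2 i hi j hj hij) h1 h2
  · obtain ⟨u, hu, v, hv, -, u', v', rfl, rfl, a⟩ := b3 p hp
    exact ⟨u', by simpa using hu, v', by simpa using hv, a⟩

variable [Fintype V]

theorem Deg3.mono {C C' : Finset V} (h : Deg3 G C) (hC : C' ⊆ C) : Deg3 G C' :=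
  fun v hv => h v (hC hv)

theorem Ctx.sub {C C' : Finset V} (h : Ctx G Γ C) (hC : C' ⊆ C) (h1 : Conn G C')
    (h2 : Cyc G C') : Ctx G Γ C' :=
  ⟨h.gi, h1, h2, h.deg.mono hC, fun w hw => h.agree w (hC hw), h.np⟩

theorem Ctx.adj {C : Finset V} (h : Ctx G Γ C) {x w : V} (hw : w ∈ C) :
    Γ.Adj x w ↔ G.Adj x w := by
  rw [Γ.adj_comm, h.agree w hw, G.adj_comm]

theorem Ctx.gmap {C : Finset V} (h : Ctx G Γ C) {ρ : V → V}
    (hρ : ∀ u v, ρ u = ρ v → R Γ (univ.filter fun w => ρ w = ρ u) u v)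
    (h1 : ∀ u, u ∈ C ∨ ρ u ∈ C ∨ Act G C u → ρ u = u) : Ctx G (gmap Γ ρ) C := by
  refine ⟨h.gi, h.conn, h.cyc, h.deg, fun w hw x => ⟨?_, fun a => ?_⟩,
    fun p => h.np (pet_gmap hρ p)⟩
  · rintro ⟨-, u, v, rfl, rfl, a⟩
    have e := h1 u (Or.inr (Or.inl hw))
    rw [e] at hw ⊢
    have a' := (h.agree u hw v).1 a
    rwa [h1 v (Or.inr (Or.inr ⟨u, hw, a'.symm⟩))]
  · exact gmap_fix ((h.agree w hw x).2 a) (h1 w (Or.inl hw))
      (h1 x (Or.inr (Or.inr ⟨w, hw, a.symm⟩)))

/-- Contract the vertex `u` into the vertex `y`. -/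
noncomputable def con (Γ : SimpleGraph V) (u y : V) : SimpleGraph V :=
  gmap Γ fun x => if x = u then y else x

omit [Fintype V] in
theorem con_adj {u y p q : V} (h : Γ.Adj p q) (hp : p ≠ u) (hq : q ≠ u) :
    (con Γ u y).Adj p q := gmap_fix h (by simp [hp]) (by simp [hq])

omit [Fintype V] in
theorem con_new {u y q : V} (h : Γ.Adj u q) (hq : q ≠ y) : (con Γ u y).Adj y q :=
  ⟨hq.symm, u, q, by simp, by simp [h.ne'], h⟩

omit [Fintype V] in
theorem con_chain {u y : V} {l : List V} (h : l.IsChain Γ.Adj) (hl : u ∉ l) :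
    l.IsChain (con Γ u y).Adj :=
  gmap_chain h fun x hx => by
    have : x ≠ u := fun e => hl (e ▸ hx)
    simp [this]

omit [Fintype V] in
/-- Contraction of a list vertex into its predecessor. -/
theorem con_chain_pred {u y : V} {l₁ l₂ : List V} (h : (l₁ ++ y :: u :: l₂).IsChain Γ.Adj)
    (hn : (l₁ ++ y :: u :: l₂).Nodup) : (l₁ ++ y :: l₂).IsChain (con Γ u y).Adj := by
  rw [List.isChain_split] at h ⊢
  have hn' := List.nodup_append.1 hn
  have h2 := hn'.2.1
  simp only [List.nodup_cons, List.mem_cons, not_or] at h2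
  refine ⟨con_chain h.1 ?_, ?_⟩
  · simp only [List.mem_append, List.mem_singleton, not_or]
    exact ⟨fun c => hn'.2.2 u c u (by simp) rfl, fun c => h2.1.1 c.symm⟩
  · cases l₂ with
    | nil => simp
    | cons z l₂ =>
      have h3 := h.2
      rw [List.isChain_cons_cons, List.isChain_cons_cons] at h3
      rw [List.isChain_cons_cons]
      exact ⟨con_new h3.2.1 (fun c => h2.1.2 (by simp [c])), con_chain h3.2.2 h2.2.1⟩

omit [Fintype V] in
theorem chain_rev {l : List V} (h : l.IsChain Γ.Adj) : l.reverse.IsChain Γ.Adj :=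
  List.isChain_reverse.2 (h.imp fun _ _ a => a.symm)

theorem Ctx.con {C : Finset V} (h : Ctx G Γ C) {u y : V} (a : Γ.Adj u y) (hu : u ∉ C)
    (hy : y ∉ C) (hi : ¬ Act G C u) : Ctx G (con Γ u y) C := by
  refine h.gmap (fun p q e => ?_) (fun x hx => ?_)
  · by_cases hp : p = u <;> by_cases hq : q = u
    · rw [hp, hq]; exact R.refl
    · subst hp
      have : y = q := by simpa [hq] using e
      subst this
      exact R.single a (by simp) (by simp)
    · subst hq
      have : p = y := by simpa [hp] using e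
      subst this
      exact R.single a.symm (by simp) (by simp)
    · have : p = q := by simpa [hp, hq] using e
      subst this
      exact R.refl
  · by_cases e : x = u
    · subst e
      simp [hu, hy, hi] at hx
    · simp [e]

/-! ### The terminal graph -/

section HK

variable {C : Finset V} {c : Fin 4 → V} {A : Fin 4 → List V} {t : Fin 4 → V}

theorem Ks.t_out (h : Ks G Γ C c A) (ht : ∀ i, t i ∈ A i) (i : Fin 4) : t i ∉ C :=
  h.outA i _ (ht i)

theorem Ks.t_inj (h : Ks G Γ C c A) (ht : ∀ i, t i ∈ A i) : Function.Injective t := by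
  intro i j e
  by_contra hc
  exact h.disj i j hc _ (ht i) (e ▸ ht j)

omit [Fintype V] in
theorem hk_adj_in (ho : ∀ i, t i ∉ C) {x y : V} (hx : x ∈ C) :
    (HK G C A t).Adj x y ↔ (y ∈ C ∧ G.Adj x y) ∨ ∃ i, y = t i ∧ ∃ a ∈ A i, G.Adj x a := by
  simp only [HK, SimpleGraph.fromRel_adj]
  constructor
  · rintro ⟨-, (h | h | ⟨i, h, -⟩) | (h | ⟨-, i, h, -⟩ | ⟨i, -, h⟩)⟩
    · exact Or.inl h.2
    · exact Or.inr h.2
    · exact absurd (h ▸ hx) (ho i)
    · exact Or.inl ⟨h.1, h.2.2.symm⟩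
    · exact absurd (h ▸ hx) (ho i)
    · exact absurd (h ▸ hx) (ho _)
  · rintro (h | ⟨i, rfl, h⟩)
    · exact ⟨h.2.ne, Or.inl (Or.inl ⟨hx, h⟩)⟩
    · exact ⟨fun e => ho i (e ▸ hx), Or.inl (Or.inr (Or.inl ⟨hx, i, rfl, h⟩))⟩

omit [Fintype V] in
theorem hk_adj_CC (ho : ∀ i, t i ∉ C) {x y : V} (hx : x ∈ C) (hy : y ∈ C) :
    (HK G C A t).Adj x y ↔ G.Adj x y := by
  rw [hk_adj_in ho hx]
  exact ⟨fun h => h.elim (fun h => h.2) fun ⟨i, e, _⟩ => absurd (e ▸ hy) (ho i),
    fun h => Or.inl ⟨hy, h⟩⟩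

omit [Fintype V] in
theorem hk_adj_Ct (ho : ∀ i, t i ∉ C) (hi : Function.Injective t) {x : V} (hx : x ∈ C)
    (i : Fin 4) : (HK G C A t).Adj x (t i) ↔ ∃ a ∈ A i, G.Adj x a := by
  rw [hk_adj_in ho hx]
  exact ⟨fun h => h.elim (fun h => absurd h.1 (ho i)) fun ⟨j, e, h⟩ => hi e ▸ h,
    fun h => Or.inr ⟨i, rfl, h⟩⟩

omit [Fintype V] in
theorem hk_adj_tt (ho : ∀ i, t i ∉ C) (hi : Function.Injective t) (i j : Fin 4) :
    (HK G C A t).Adj (t i) (t j) ↔ j = i + 1 ∨ i = j + 1 := by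
  simp only [HK, SimpleGraph.fromRel_adj, ho, false_and, false_or, hi.eq_iff, ne_eq]
  revert i j
  decide

omit [Fintype V] in
theorem hk_mem {x y : V} (h : (HK G C A t).Adj x y) : x ∈ C ∨ ∃ i, x = t i := by
  simp only [HK, SimpleGraph.fromRel_adj] at h
  rcases h.2 with (h | h | ⟨i, h, -⟩) | (h | ⟨-, i, h, -⟩ | ⟨i, -, h⟩)
  exacts [Or.inl h.1, Or.inl h.1, Or.inr ⟨_, h⟩, Or.inl h.2.1, Or.inr ⟨_, h⟩, Or.inr ⟨_, h⟩]

/-- Edges from an arc end at distance at least four. -/
theorem Ks.arc_far (h : Ks G Γ C c A) {i : Fin 4} {a a' w w' : V} {r : ℕ} (ha : a ∈ A i)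
    (ha' : a' ∈ A i) (h1 : G.Adj a w) (h2 : G.Adj a' w') (hne : (a, w) ≠ (a', w'))
    (hw : Wk G C w w' r) : 4 ≤ r := by
  have : Cls G C {x | x ∈ A i} := by
    rcases h.ty i with k | k
    · exact k.mono subset_rfl fun x hx => by simp [show x ∈ A i from hx]
    · exact cls_short h.ctx.gi k (h.outA i)
  exact this.two (a, w) (a', w') r ⟨ha, hw.left, h1⟩ ⟨ha', hw.right, h2⟩ hne hw

end HK

/-! ### Lists of single marks -/

section RT

omit [Fintype V]

variable {Y A A' X : Finset V} {u v : V} {T T' : List ℕ}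

theorem RT.nil : RT G Y A X v [] := ⟨[], rfl, by simp, by simp⟩

theorem RT.card (h : RT G Y A X v T) : T.length ≤ X.card := by
  obtain ⟨M, rfl, h2, h3⟩ := h
  rw [List.length_map, ← List.length_map Prod.fst, ← List.toFinset_card_of_nodup h2]
  refine card_le_card fun x hx => ?_
  obtain ⟨p, hp, rfl⟩ := List.mem_map.1 (List.mem_toFinset.1 hx)
  exact (h3 p hp).1

theorem RT.mono (h : RT G Y A X v T) (hA : A ⊆ A') : RT G Y A' X v T := by
  obtain ⟨M, h1, h2, h3⟩ := h
  refine ⟨M, h1, h2, fun p hp => ?_⟩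
  obtain ⟨a, w, b, c⟩ := h3 p hp
  exact ⟨a, w, hA b, c⟩

theorem RT.shift (h : RT G Y A X u T) (a : G.Adj u v) (hv : v ∈ Y) :
    RT G Y A X v (T.map (· + 1)) := by
  obtain ⟨M, rfl, h2, h3⟩ := h
  refine ⟨M.map fun p => (p.1, p.2 + 1), by simp [Function.comp_def],
    by simpa [Function.comp_def] using h2, fun p hp => ?_⟩
  obtain ⟨q, hq, rfl⟩ := List.mem_map.1 hp
  obtain ⟨b, w, c, d, e⟩ := h3 q hq
  exact ⟨b, w, c, d, e.tail a hv⟩

theorem RT.sublist (h : RT G Y A X v T) (hT : List.Sublist T' T) : RT G Y A X v T' := by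
  obtain ⟨M, rfl, h2, h3⟩ := h
  obtain ⟨M', h4, rfl⟩ := List.sublist_map_iff.1 hT
  exact ⟨M', rfl, h2.sublist (h4.map _), fun p hp => h3 p (h4.subset hp)⟩

theorem RT.perm (h : RT G Y A X v T) (hT : T.Perm T') : RT G Y A X v T' := by
  obtain ⟨M, h1, h2, h3⟩ := h
  have : ∃ M' : List (V × ℕ), M'.map Prod.snd = T' ∧ M.Perm M' := by
    clear h2 h3
    induction hT generalizing M with
    | nil => exact ⟨M, h1, List.Perm.refl _⟩
    | cons x _ ih =>
      obtain ⟨p, M, rfl, rfl, e⟩ := List.map_eq_cons_iff.1 h1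
      obtain ⟨M', a, b⟩ := ih M e
      exact ⟨p :: M', by simp [a], b.cons p⟩
    | swap x y l =>
      obtain ⟨p, M, rfl, rfl, e⟩ := List.map_eq_cons_iff.1 h1
      obtain ⟨q, M, rfl, rfl, rfl⟩ := List.map_eq_cons_iff.1 e
      exact ⟨q :: p :: M, rfl, List.Perm.swap _ _ _⟩
    | trans _ _ ih1 ih2 =>
      obtain ⟨M', a, b⟩ := ih1 M h1
      obtain ⟨M'', c, d⟩ := ih2 M' a
      exact ⟨M'', c, b.trans d⟩
  obtain ⟨M', a, b⟩ := this
  exact ⟨M', a, (b.map _).nodup_iff.1 h2, fun p hp => h3 p (b.mem_iff.2 hp)⟩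

theorem RT.weaken (h : RT G Y A X v T) (hT : List.Forall₂ (· ≤ ·) T T') : RT G Y A X v T' := by
  obtain ⟨M, rfl, h2, h3⟩ := h
  have : ∃ M' : List (V × ℕ), M'.map Prod.snd = T' ∧ M'.map Prod.fst = M.map Prod.fst ∧
      ∀ p ∈ M', ∃ q ∈ M, q.1 = p.1 ∧ q.2 ≤ p.2 := by
    clear h2 h3
    induction M generalizing T' with
    | nil => exact ⟨[], by simpa using hT, rfl, by simp⟩
    | cons p M ih =>
      cases hT with
      | cons a b =>
        obtain ⟨M', e1, e2, e3⟩ := ih b
        refine ⟨(p.1, _) :: M', by rw [List.map_cons, e1], by simp [e2], fun q hq => ?_⟩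
        rcases List.mem_cons.1 hq with rfl | hq
        · exact ⟨p, by simp, rfl, a⟩
        · obtain ⟨s, s1, s2⟩ := e3 q hq
          exact ⟨s, List.mem_cons_of_mem _ s1, s2⟩
  obtain ⟨M', e1, e2, e3⟩ := this
  refine ⟨M', e1, e2 ▸ h2, fun p hp => ?_⟩
  obtain ⟨q, q1, q2, q3⟩ := e3 p hp
  obtain ⟨b, w, c, d, e⟩ := h3 q q1
  exact ⟨q2 ▸ b, w, c, q2 ▸ d, e.le q3⟩

theorem RT.append (hG : Gi G) (hX : Disjoint X Y) (hA : Disjoint A A') (h : RT G Y A X v T)
    (h' : RT G Y A' X v T') (hs : ∀ a ∈ T, ∀ b ∈ T', a + b < 10) :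
    RT G Y (A ∪ A') X v (T ++ T') := by
  obtain ⟨M, rfl, h2, h3⟩ := h
  obtain ⟨M', rfl, h2', h3'⟩ := h'
  refine ⟨M ++ M', by simp, ?_, fun p hp => ?_⟩
  · rw [List.map_append, List.nodup_append]
    refine ⟨h2, h2', fun x hx y hy e => ?_⟩
    obtain ⟨p, hp, rfl⟩ := List.mem_map.1 hx
    obtain ⟨q, hq, rfl⟩ := List.mem_map.1 hy
    obtain ⟨b, w, c, d, f⟩ := h3 p hp
    obtain ⟨-, w', c', d', f'⟩ := h3' q hq
    have := hG Y p.1 w w' _ (disjoint_left.1 hX b) d (e ▸ d')
      (fun e => disjoint_left.1 hA c (e ▸ c')) (f.trans f'.symm)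
    have := hs _ (List.mem_map_of_mem hp) _ (List.mem_map_of_mem hq)
    omega
  · rcases List.mem_append.1 hp with hp | hp
    · obtain ⟨b, w, c, d⟩ := h3 p hp
      exact ⟨b, w, mem_union_left _ c, d⟩
    · obtain ⟨b, w, c, d⟩ := h3' p hp
      exact ⟨b, w, mem_union_right _ c, d⟩

theorem RT.init (hv : v ∈ Y) : RT G Y {v} X v (List.replicate (dg G X v) 0) := by
  refine ⟨(X.filter (G.Adj v)).toList.map fun x => (x, 0), ?_, ?_, fun p hp => ?_⟩
  · simp [Function.comp_def, dg]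
  · simpa [Function.comp_def] using nodup_toList _
  · obtain ⟨x, hx, rfl⟩ := List.mem_map.1 hp
    rw [mem_toList, mem_filter] at hx
    exact ⟨hx.1, v, mem_singleton_self _, hx.2.symm, Wk.refl hv⟩

end RT

end Pool.Agent.MP_e6539c_co.P5

end MrgPart1

-- ======== part 2: formerly Pool.Agent.MP_e6539c_co.P5.Cy
section MrgPart2

/-! The cycle state of the territory game. -/

set_option autoImplicit false

namespace Pool.Agent.MP_e6539c_co.P5

open Finset
open Pool.Agent.MP_7be75d_co (R Conn comp)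
open Pool.Agent.MP_7be75d_co
open scoped Classical

namespace CyAux

variable {V : Type} {G Γ : SimpleGraph V}

theorem cl_of {L : List V}
    (h : ∀ a z, 3 ≤ L.length → L.head? = some a → L.getLast? = some z → Γ.Adj z a) :
    ∀ x M y, L = x :: (M ++ [y]) → M ≠ [] → Γ.Adj y x := by
  intro x M y e hM
  subst e
  refine h x y ?_ rfl ?_
  · have := List.length_pos_iff.2 hM
    simp only [List.length_cons, List.length_append, List.length_nil]
    omega
  · rw [← List.cons_append, List.getLast?_append]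
    rfl

variable [Fintype V] {C : Finset V} {L : List V}

theorem cl' (h : CYs G Γ C L) {a z : V} (h3 : 3 ≤ L.length) (ha : L.head? = some a)
    (hz : L.getLast? = some z) : Γ.Adj z a := by
  obtain ⟨T, rfl⟩ : ∃ T, L = a :: T := by
    cases L with
    | nil => simp at ha
    | cons b T => exact ⟨T, by simp only [List.head?_cons, Option.some.injEq] at ha; rw [ha]⟩
  rcases List.eq_nil_or_concat' T with e | ⟨M, y, e⟩
  · subst e; simp at h3
  · subst e
    have : y = z := by
      rw [← List.cons_append, List.getLast?_append] at hz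
      simpa using hz
    subst this
    refine h.cl a M y rfl fun e => ?_
    subst e
    simp at h3

theorem shrink (h : CYs G Γ C L) {x : V} (hi : ¬ Act G C x) {Γ' : SimpleGraph V} {L' : List V}
    (ctx : Ctx G Γ' C) (sub : List.Sublist L' L) (hall : ∀ y ∈ L, y ≠ x → y ∈ L')
    (ch : L'.IsChain Γ'.Adj)
    (cl : ∀ a z, 3 ≤ L'.length → L'.head? = some a → L'.getLast? = some z → Γ'.Adj z a) :
    CYs G Γ' C L' := by
  refine ⟨ctx, h.nd.sublist sub, fun y hy => h.out y (sub.subset hy), ch, cl_of cl,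
    h.cov.of_act fun y hy _ ay => hall y hy fun e => hi (e ▸ ay), ?_⟩
  rcases h.ty with c | c
  · exact Or.inl (c.mono le_rfl fun y hy => sub.subset hy)
  · exact Or.inr (sub.length_le.trans c)

/-- An inactive vertex of the frame is removed. -/
theorem drop (h : CYs G Γ C L) {x : V} (hx : x ∈ L) (hi : ¬ Act G C x) :
    ∃ Γ' L', L'.length < L.length ∧ CYs G Γ' C L' := by
  obtain ⟨l1, l2, rfl⟩ := List.append_of_mem hx
  rcases List.eq_nil_or_concat' l1 with e | ⟨l, y, e⟩
  · subst e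
    cases l2 with
    | nil =>
      exact ⟨Γ, [], by simp, shrink h hi h.ctx (by simp) (fun y hy hne => by simp_all)
        (by simp) fun a z h3 => by simp at h3⟩
    | cons y T =>
      have nd := List.nodup_cons.1 h.nd
      have ch := List.isChain_cons_cons.1 h.ch
      refine ⟨con Γ x y, y :: T, by simp, shrink h hi
        (h.ctx.con ch.1 (h.out x hx) (h.out y (by simp)) hi) (by simp)
        (fun z hz hne => (List.mem_cons.1 hz).resolve_left hne) (con_chain ch.2 nd.1)
        fun a z h3 ha hz => ?_⟩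
      obtain rfl : y = a := by simpa using ha
      have k := cl' h (a := x) (z := z) (by simp at h3 ⊢; omega) rfl
        (by rw [List.nil_append, List.getLast?_cons_cons]; exact hz)
      refine (con_new k.symm fun e => ?_).symm
      cases T with
      | nil => simp at h3
      | cons t T =>
        rw [List.getLast?_cons_cons] at hz
        exact (List.nodup_cons.1 nd.2).1 (e ▸ List.mem_of_getLast? hz)
  · subst e
    have e1 : l ++ [y] ++ x :: l2 = l ++ y :: x :: l2 := by simp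
    have nd := h.nd
    have ch := h.ch
    rw [e1] at nd ch
    have a : Γ.Adj y x := (List.isChain_cons_cons.1 ch.right_of_append).1
    have n1 := List.nodup_append.1 nd
    have n2 := List.nodup_cons.1 n1.2.1
    have n3 := List.nodup_cons.1 n2.2
    have hxn : x ∉ l ++ y :: l2 := by
      intro c
      rcases List.mem_append.1 c with c | c
      · exact n1.2.2 x c x (by simp) rfl
      · rcases List.mem_cons.1 c with c | c
        · exact a.ne c.symm
        · exact n3.1 c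
    refine ⟨con Γ x y, l ++ y :: l2, by simp, shrink h hi
      (h.ctx.con a.symm (h.out x hx) (h.out y (by simp)) hi) ?_ (fun z hz hne => ?_)
      (con_chain_pred ch nd) fun b z h3 hb hz => ?_⟩
    · rw [e1]
      exact List.Sublist.append_left
        (List.Sublist.cons_cons _ (List.sublist_cons_self _ _)) _
    · simp only [List.mem_append, List.mem_cons, List.not_mem_nil] at hz ⊢
      tauto
    · have len : 3 ≤ (l ++ [y] ++ x :: l2).length := by
        simp only [List.length_append, List.length_cons, List.length_nil] at h3 ⊢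
        omega
      have hb' : (l ++ [y] ++ x :: l2).head? = some b := by
        cases l with
        | nil => simpa using hb
        | cons c l => simpa using hb
      rcases List.eq_nil_or_concat' l2 with e | ⟨l3, t, e⟩
      · subst e
        obtain rfl : y = z := by simpa using hz
        have k := cl' h (z := x) len hb' (by simp)
        refine con_new k fun e => ?_
        cases l with
        | nil => simp at h3
        | cons c l =>
          obtain rfl : c = b := by simpa using hb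
          exact n1.2.2 c (by simp) y (by simp) e
      · subst e
        have hz' : t = z := by
          rw [← List.cons_append, ← List.append_assoc, List.getLast?_append] at hz
          simpa using hz
        subst hz'
        have k := cl' h (z := t) len hb' (by
          rw [← List.cons_append, ← List.append_assoc, List.getLast?_append]; rfl)
        exact con_adj k (fun e => hxn (e ▸ by simp))
          (fun e => hxn (e ▸ List.mem_of_head? hb))

theorem sys (h : CYs G Γ C L) (X₀ : Set V) : Sys G C X₀ := by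
  rcases h.ty with c | c
  · exact Or.inl ⟨_, ∅, ∅, c, cls_empty _, cls_empty _, h.cov.mono fun x hx =>
      Or.inl (Or.inl (Or.inr hx))⟩
  · exact Or.inr (Or.inr ⟨L.toFinset, (List.toFinset_card_le L).trans (by omega),
      h.cov.mono fun x hx => Or.inr (List.mem_toFinset.2 hx)⟩)

/-- After a move between the first two vertices the extended frame has no repetition. -/
theorem nd_ins {a b : V} {T D : List V} (h : CYs G Γ C (a :: b :: T)) (ndD : D.Nodup)
    (hD : ∀ x ∈ D, x ∈ C) : (a :: (D ++ b :: T)).Nodup := by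
  have n1 := List.nodup_cons.1 h.nd
  refine List.nodup_cons.2 ⟨fun c => ?_, List.nodup_append.2 ⟨ndD, n1.2, fun x hx y hy e => ?_⟩⟩
  · rcases List.mem_append.1 c with c | c
    · exact h.out a (by simp) (hD a c)
    · exact n1.1 c
  · exact h.out y (List.mem_cons_of_mem _ hy) (e ▸ hD x hx)

end CyAux

theorem cy (h : MoveStmt) (h0 : Move0Stmt) : CyStmt := by
  intro V _ G C hno
  suffices H : ∀ n (Γ : SimpleGraph V) (L : List V), L.length < n → ¬ CYs G Γ C L from
    fun Γ L => H _ Γ L (Nat.lt_succ_self _)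
  intro n
  induction n with
  | zero => intro Γ L hn; omega
  | succ n ih =>
    intro Γ L hn hL
    by_cases hA : ∃ u ∈ L, ¬ Act G C u
    · obtain ⟨u, hu, hi⟩ := hA
      obtain ⟨Γ', L', hl, h'⟩ := CyAux.drop hL hu hi
      exact ih Γ' L' (by omega) h'
    have act : ∀ u ∈ L, Act G C u := fun u hu => by
      by_contra c
      exact hA ⟨u, hu, c⟩
    match L, hL, act with
    | [], hL, _ =>
      obtain ⟨W, hW, ⟨w, hw⟩, -⟩ := hL.ctx.cyc
      obtain ⟨C', -, wn, lt, ctx, cv⟩ := h0 V G Γ C w w hL.ctx (hW hw)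
        (hL.cov.mono fun x hx => absurd hx List.not_mem_nil)
      refine (hno Γ C' lt).1 [w] ⟨ctx, by simp, by simpa using wn, by simp,
        CyAux.cl_of fun a z h3 => by simp at h3, (cv _ hL.cov).mono fun x hx => ?_,
        Or.inr (by simp)⟩
      simpa using hx
    | [x], hL, act =>
      obtain ⟨w, hw, a⟩ := act x (by simp)
      have ox := hL.out x (by simp)
      obtain ⟨C', sub, wn, lt, ctx, cv⟩ := h0 V G Γ C x w hL.ctx hw
        (hL.cov.mono fun y hy => by simpa using hy)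
      refine (hno Γ C' lt).1 [x, w] ⟨ctx, by simpa using a.ne, fun y hy => ?_,
        List.isChain_cons_cons.2 ⟨(hL.ctx.adj hw).2 a, List.isChain_singleton _⟩,
        CyAux.cl_of fun a z h3 => by simp at h3, (cv _ hL.cov).mono fun y hy => ?_,
        Or.inr (by simp)⟩
      · rcases List.mem_cons.1 hy with e | e
        · exact fun c => ox (e ▸ sub c)
        · rw [List.mem_singleton.1 e]; exact wn
      · simpa [or_comm] using hy
    | a :: b :: T, hL, act =>
      have ch := List.isChain_cons_cons.1 hL.ch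
      obtain ⟨D, C', -, ndD, hD, chD, sub, lt, ctx, cls, cv⟩ := h V G Γ C a b hL.ctx ch.1.ne
        (hL.out a (by simp)) (hL.out b (by simp)) (act a (by simp)) (act b (by simp))
        (CyAux.sys hL _)
      have nd := CyAux.nd_ins hL ndD fun x hx => (hD x hx).1
      have out : ∀ x ∈ a :: (D ++ b :: T), x ∉ C' := by
        intro x hx
        by_cases hx' : x ∈ D
        · exact (hD x hx').2
        · refine fun c => hL.out x ?_ (sub c)
          simp only [List.mem_cons, List.mem_append] at hx ⊢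
          tauto
      have cov : Cov G C' {x | x ∈ a :: (D ++ b :: T)} := (cv _ hL.cov).mono fun x hx => by
        simp only [Set.mem_ofPred_eq, List.mem_cons, List.mem_append, Set.mem_union] at hx ⊢
        tauto
      rcases List.eq_nil_or_concat' T with e | ⟨M, s, e⟩
      · subst e
        refine (hno Γ C' lt).1 (a :: (D ++ [b])) ⟨ctx, nd, out, chD, fun x M y e _ => ?_, cov,
          Or.inl cls⟩
        obtain ⟨rfl, e'⟩ := List.cons.inj e
        obtain ⟨rfl, -⟩ := List.cons.inj (List.append_inj' e' rfl).2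
        exact ch.1.symm
      · subst e
        by_cases hact : ∃ x ∈ D, Act G C' x
        · refine (hno Γ C' lt).2.1 a D b M s ⟨ctx, nd, out, chD, ch.2, ch.1,
            (hL.cl a (b :: M) s rfl (by simp)).symm, cov, Or.inl cls, ?_, hact⟩
          rcases hL.ty with c | c
          · exact Or.inl (c.mono sub fun x hx => List.mem_cons_of_mem _ hx)
          · right
            simp only [List.length_cons, List.length_append] at c
            omega
        · refine (hno Γ C' lt).1 _ ⟨ctx, hL.nd, fun x hx c => hL.out x hx (sub c), hL.ch, hL.cl,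
            (cv _ hL.cov).of_act fun x hx _ ax => hx.resolve_right fun c => hact ⟨x, c, ax⟩, ?_⟩
          rcases hL.ty with c | c
          · exact Or.inl (c.mono sub le_rfl)
          · exact Or.inr c

end Pool.Agent.MP_e6539c_co.P5

end MrgPart2

-- ======== part 3: formerly Pool.Agent.MP_e6539c_co.P5.Fca
section MrgPart3

/-! Behind a three-cut of the terminal graph, an acyclic part carries no cycle. -/

set_option autoImplicit false

namespace Pool.Agent.MP_e6539c_co.P5

open Finset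
open Pool.Agent.MP_7be75d_co (R Conn comp)
open Pool.Agent.MP_7be75d_co
open scoped Classical

namespace Fca

variable {V : Type} [Fintype V]

/-- The closed arc. -/
def arc (c : Fin 4 → V) (A : Fin 4 → List V) (i : Fin 4) : Set V :=
  {x | x ∈ c i :: (A i ++ [c (i + 1)])}

/-- The terminals on the cut whose closed arc is a class. -/
noncomputable def IL (G : SimpleGraph V) (C : Finset V) (c : Fin 4 → V) (A : Fin 4 → List V)
    (t : Fin 4 → V) (Ys : Finset V) : Finset (Fin 4) :=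
  univ.filter fun i => t i ∈ Ys ∧ Cls G C (arc c A i)

/-- The single vertices on the cut. -/
noncomputable def BB (G : SimpleGraph V) (C : Finset V) (c : Fin 4 → V) (A : Fin 4 → List V)
    (t : Fin 4 → V) (Z Ys : Finset V) : Finset V :=
  (Ys \ Z) \ (IL G C c A t Ys).image t

/-- The situation of the module. -/
structure St (G Γ : SimpleGraph V) (C : Finset V) (c : Fin 4 → V) (A : Fin 4 → List V)
    (t : Fin 4 → V) (Z Ys : Finset V) : Prop where
  ks : Ks G Γ C c A
  ht : ∀ i, t i ∈ A i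
  sub : Z ⊆ C
  acyc : ¬ Cyc G Z
  bd : ∀ z ∈ Z, ∀ w, (HK G C A t).Adj z w → w ∈ Z ∨ w ∈ Ys
  card : Ys.card ≤ 3

variable {G Γ : SimpleGraph V} {C : Finset V} {c : Fin 4 → V} {A : Fin 4 → List V}
  {t : Fin 4 → V} {Z Ys : Finset V}

omit [Fintype V] in
theorem arc_A {i : Fin 4} {a : V} (h : a ∈ A i) : a ∈ arc c A i := by
  simp [arc, h]

omit [Fintype V] in
theorem arc_l (i : Fin 4) : c i ∈ arc c A i := by simp [arc]

omit [Fintype V] in
theorem arc_r (i : Fin 4) : c (i + 1) ∈ arc c A i := by simp [arc]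

omit [Fintype V] in
theorem mem_IL {i : Fin 4} : i ∈ IL G C c A t Ys ↔ t i ∈ Ys ∧ Cls G C (arc c A i) := by
  simp [IL]

omit [Fintype V] in
theorem mem_BB {a : V} :
    a ∈ BB G C c A t Z Ys ↔ a ∈ Ys ∧ a ∉ Z ∧ ∀ i ∈ IL G C c A t Ys, t i ≠ a := by
  simp [BB, and_assoc]

omit [Fintype V] in
theorem two_of_card {B : Finset V} {a b e : V} (h : B.card ≤ 2) (ha : a ∈ B) (hb : b ∈ B)
    (he : e ∈ B) (hab : a ≠ b) (hae : a ≠ e) : b = e := by
  by_contra hc
  have := two_lt_card_iff.2 ⟨a, b, e, ha, hb, he, hab, hae, hc⟩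
  omega

namespace St

theorem comp_eq (h : St G Γ C c A t Z Ys) (z : V) : comp (HK G C A t) Z z = comp G Z z := by
  have ho := h.ks.t_out h.ht
  ext w
  simp only [mem_comp]
  exact ⟨fun k => ⟨k.1, k.2.mono'
      (fun x y a hx hy => (hk_adj_CC ho (h.sub hx) (h.sub hy)).1 a) subset_rfl⟩,
    fun k => ⟨k.1, k.2.mono'
      (fun x y a hx hy => (hk_adj_CC ho (h.sub hx) (h.sub hy)).2 a) subset_rfl⟩⟩

theorem pc (h : St G Γ C c A t Z Ys) {z : V} (hz : z ∈ Z) : Pc G (comp G Z z) :=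
  pc_comp h.ks.ctx.deg h.sub h.acyc hz

theorem psub (h : St G Γ C c A t Z Ys) (z : V) : comp G Z z ⊆ C := comp_subset.trans h.sub

/-- A short arc is its terminal. -/
theorem short (h : St G Γ C c A t Z Ys) {i : Fin 4} (h1 : t i ∈ Ys) (h2 : i ∉ IL G C c A t Ys)
    {a : V} (ha : a ∈ A i) : a = t i := by
  rcases h.ks.ty i with k | k
  · exact absurd (mem_IL.2 ⟨h1, k⟩) h2
  · have h3 := h.ht i
    match hA : A i, k, ha, h3 with
    | [b], _, ha, h3 =>
      rw [List.mem_singleton] at ha h3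
      rw [ha, h3]

theorem real_BB (h : St G Γ C c A t Z Ys) {w x : V} (hw : w ∈ Z) (hx : x ∉ Z) (hC : x ∈ C)
    (a : G.Adj x w) : x ∈ BB G C c A t Z Ys := by
  have ho := h.ks.t_out h.ht
  refine mem_BB.2 ⟨(h.bd w hw x ((hk_adj_CC ho (h.sub hw) hC).2 a.symm)).resolve_left hx, hx,
    fun i _ e => ho i (e ▸ hC)⟩

theorem term_BB (h : St G Γ C c A t Z Ys) {i : Fin 4} (h1 : t i ∈ Ys)
    (h2 : i ∉ IL G C c A t Ys) : t i ∈ BB G C c A t Z Ys :=
  mem_BB.2 ⟨h1, fun k => h.ks.t_out h.ht i (h.sub k),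
    fun _ hj e => h2 (h.ks.t_inj h.ht e ▸ hj)⟩

/-- The outside neighbours of a piece. -/
theorem cov (h : St G Γ C c A t Z Ys) {z w x : V} (hw : w ∈ comp G Z z) (hx : x ∉ comp G Z z)
    (a : G.Adj x w) :
    (∃ i ∈ IL G C c A t Ys, x ∈ arc c A i) ∨ x ∈ BB G C c A t Z Ys ∨ ∃ j, x = c j := by
  have ho := h.ks.t_out h.ht
  have hwZ : w ∈ Z := comp_subset hw
  have hxZ : x ∉ Z := fun k => hx (comp_closed hw k a.symm)
  by_cases hC : x ∈ C
  · exact Or.inr (Or.inl (h.real_BB hwZ hxZ hC a))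
  · obtain ⟨i, e | e⟩ := h.ks.cov w (h.sub hwZ) x hC a
    · exact Or.inr (Or.inr ⟨i, e⟩)
    · have h1 : t i ∈ Ys := (h.bd w hwZ (t i) ((hk_adj_Ct ho (h.ks.t_inj h.ht) (h.sub hwZ) i).2
        ⟨x, e, a.symm⟩)).resolve_left fun k => ho i (h.sub k)
      by_cases h2 : i ∈ IL G C c A t Ys
      · exact Or.inl ⟨i, h2, arc_A e⟩
      · exact Or.inr (Or.inl (h.short h1 h2 e ▸ h.term_BB h1 h2))

/-- Every piece has a neighbour in the territory. -/
theorem real (h : St G Γ C c A t Z Ys) {z : V} (hz : z ∈ Z) :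
    ∃ y ∈ BB G C c A t Z Ys, y ∈ C ∧ Act G (comp G Z z) y := by
  have : ∃ b ∈ C, b ∉ comp G Z z := by
    by_contra hc
    push Not at hc
    exact (h.pc hz).acyc (h.ks.ctx.cyc.mono hc)
  obtain ⟨b, hb, hb'⟩ := this
  obtain ⟨x, y, h1, h2, -, h4, h5⟩ :=
    h.ks.ctx.conn.exit (h.sub hz) (self_mem_comp (G := G) hz) hb hb'
  exact ⟨y, h.real_BB (comp_subset h1) (fun k => h2 (comp_closed h1 k h5)) h4 h5.symm, h4,
    x, h1, h5.symm⟩

theorem card_le (h : St G Γ C c A t Z Ys) :
    (BB G C c A t Z Ys).card + (IL G C c A t Ys).card ≤ 3 := by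
  have d : Disjoint (BB G C c A t Z Ys) ((IL G C c A t Ys).image t) := sdiff_disjoint
  rw [← card_image_of_injective (IL G C c A t Ys) (h.ks.t_inj h.ht), ← card_union_of_disjoint d]
  refine le_trans (card_le_card fun x hx => ?_) h.card
  rcases mem_union.1 hx with hx | hx
  · exact (mem_BB.1 hx).1
  · obtain ⟨i, hi, rfl⟩ := mem_image.1 hx
    exact (mem_IL.1 hi).1

/-- A neighbour in the terminal graph is a single vertex or the terminal of a class. -/
theorem dich (h : St G Γ C c A t Z Ys) {w a : V} (hw : w ∈ Z) (ha : a ∉ Z)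
    (k : (HK G C A t).Adj a w) : (a ∈ BB G C c A t Z Ys ∧ G.Adj a w) ∨
      ∃ i ∈ IL G C c A t Ys, a = t i ∧ ∃ a' ∈ A i, G.Adj a' w := by
  have ho := h.ks.t_out h.ht
  rcases (hk_adj_in ho (h.sub hw)).1 k.symm with ⟨h1, h2⟩ | ⟨i, rfl, a', h1, h2⟩
  · exact Or.inl ⟨h.real_BB hw ha h1 h2.symm, h2.symm⟩
  · by_cases h3 : i ∈ IL G C c A t Ys
    · exact Or.inr ⟨i, h3, rfl, a', h1, h2.symm⟩
    · have h4 : t i ∈ Ys := (h.bd w hw _ k.symm).resolve_left ha
      exact Or.inl ⟨h.term_BB h4 h3, h.short h4 h3 h1 ▸ h2.symm⟩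

theorem act_BB (h : St G Γ C c A t Z Ys) {z a : V} (ha : a ∈ BB G C c A t Z Ys)
    (k : Act (HK G C A t) (comp G Z z) a) : Act G (comp G Z z) a := by
  obtain ⟨w, hw, k⟩ := k
  rcases h.dich (comp_subset hw) (mem_BB.1 ha).2.1 k with ⟨-, k'⟩ | ⟨i, hi, e, -⟩
  · exact ⟨w, hw, k'⟩
  · exact absurd e.symm ((mem_BB.1 ha).2.2 i hi)

theorem act_term (h : St G Γ C c A t Z Ys) {z : V} {i : Fin 4}
    (k : Act (HK G C A t) (comp G Z z) (t i)) : ∃ a ∈ arc c A i, Act G (comp G Z z) a := by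
  obtain ⟨w, hw, k⟩ := k
  obtain ⟨a, h1, h2⟩ :=
    (hk_adj_Ct (h.ks.t_out h.ht) (h.ks.t_inj h.ht) (h.psub z hw) i).1 k.symm
  exact ⟨a, arc_A h1, w, hw, h2.symm⟩

theorem act_or (h : St G Γ C c A t Z Ys) {z a : V} (ha : a ∉ Z)
    (k : Act (HK G C A t) (comp G Z z) a) :
    a ∈ BB G C c A t Z Ys ∨ ∃ i ∈ IL G C c A t Ys, a = t i := by
  obtain ⟨w, hw, k⟩ := k
  rcases h.dich (comp_subset hw) ha k with ⟨k', -⟩ | ⟨i, hi, e, -⟩
  · exact Or.inl k'
  · exact Or.inr ⟨i, hi, e⟩

theorem BB_out (_h : St G Γ C c A t Z Ys) {z a : V} (ha : a ∈ BB G C c A t Z Ys) :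
    a ∉ comp G Z z := fun k => (mem_BB.1 ha).2.1 (comp_subset k)

theorem c_out (h : St G Γ C c A t Z Ys) (z : V) (j : Fin 4) : c j ∉ comp G Z z :=
  fun k => h.ks.outc j (h.psub z k)

/-- A cut vertex has at most one neighbour in a small piece. -/
theorem uniq (h : St G Γ C c A t Z Ys) (h1 : ∀ z ∈ Z, (comp G Z z).card ≤ 10)
    (h2 : ∀ z ∈ Z, ∀ i ∈ IL G C c A t Ys, (comp G Z z).card ≤ 4) :
    ∀ z ∈ Z, ∀ y ∉ Z, ∀ w ∈ comp (HK G C A t) Z z, ∀ w' ∈ comp (HK G C A t) Z z,
      (HK G C A t).Adj y w → (HK G C A t).Adj y w' → w = w' := by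
  intro z hz y hy w hw w' hw' a a'
  rw [h.comp_eq] at hw hw'
  rcases h.dich (comp_subset hw) hy a with ⟨b1, b2⟩ | ⟨i, hi, rfl, u, u1, u2⟩
  · rcases h.dich (comp_subset hw') hy a' with ⟨-, b3⟩ | ⟨i, hi, e, -⟩
    · exact nbr_unique h.ks.ctx.gi (h.pc hz).conn (h1 z hz) (h.BB_out b1) hw hw' b2 b3
    · exact absurd e.symm ((mem_BB.1 b1).2.2 i hi)
  · obtain ⟨u', u3, u4⟩ :=
      (hk_adj_Ct (h.ks.t_out h.ht) (h.ks.t_inj h.ht) (h.psub z hw') i).1 a'.symm
    by_contra hc
    have := h.ks.arc_far u1 u3 u2 u4.symm (fun e => hc (congrArg Prod.snd e))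
      ((conn_wk (h.pc hz).conn hw hw').mono (h.psub z))
    have := h2 z hz i hi
    omega

end St

/-- The two patterns, in terms of the pieces. -/
def Pat (G : SimpleGraph V) (H : SimpleGraph V) (Z : Finset V) : Prop :=
  (∃ z₁ ∈ Z, ∃ z₂ ∈ Z, ∃ a ∉ Z, ∃ b ∉ Z, Disjoint (comp G Z z₁) (comp G Z z₂) ∧ a ≠ b ∧
    Act H (comp G Z z₁) a ∧ Act H (comp G Z z₁) b ∧ Act H (comp G Z z₂) a ∧
    Act H (comp G Z z₂) b) ∨
  (∃ z₁ ∈ Z, ∃ z₂ ∈ Z, ∃ z₃ ∈ Z, ∃ a ∉ Z, ∃ b ∉ Z, ∃ e ∉ Z,
    Disjoint (comp G Z z₁) (comp G Z z₂) ∧ Disjoint (comp G Z z₁) (comp G Z z₃) ∧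
    Disjoint (comp G Z z₂) (comp G Z z₃) ∧ a ≠ b ∧ a ≠ e ∧ b ≠ e ∧
    Act H (comp G Z z₁) a ∧ Act H (comp G Z z₁) b ∧ Act H (comp G Z z₂) a ∧
    Act H (comp G Z z₂) e ∧ Act H (comp G Z z₃) b ∧ Act H (comp G Z z₃) e)

/-- What the pattern lemma gives once the pieces are small. -/
def Small (G : SimpleGraph V) (C : Finset V) (c : Fin 4 → V) (A : Fin 4 → List V)
    (t : Fin 4 → V) (Z Ys : Finset V) : Prop :=
  (∀ z ∈ Z, (comp G Z z).card ≤ 10) →
    (∀ z ∈ Z, ∀ i ∈ IL G C c A t Ys, (comp G Z z).card ≤ 4) → Pat G (HK G C A t) Z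

/-! ### No class -/

theorem case0 (hT : TreeStmt) (h0 : Fc0Stmt) (h : St G Γ C c A t Z Ys)
    (hI : IL G C c A t Ys = ∅) (hp : Small G C c A t Z Ys) : False := by
  have hG := h.ks.ctx.gi
  have hB : (BB G C c A t Z Ys).card ≤ 3 := by have := h.card_le; omega
  have hc : (univ.image c).card ≤ 4 := card_image_le.trans (by simp)
  have cv : ∀ z, Cov G (comp G Z z) ↑(BB G C c A t Z Ys ∪ univ.image c) := by
    intro z w hw x hx a
    rcases h.cov hw hx a with ⟨i, hi, -⟩ | k | ⟨j, rfl⟩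
    · simp [hI] at hi
    · simp [k]
    · simp
  have dj : ∀ z, Disjoint (BB G C c A t Z Ys ∪ univ.image c) (comp G Z z) := by
    intro z
    refine disjoint_left.2 fun x hx => ?_
    rcases mem_union.1 hx with k | k
    · exact h.BB_out k
    · obtain ⟨j, -, rfl⟩ := mem_image.1 k
      exact h.c_out z j
  have hX : (BB G C c A t Z Ys ∪ univ.image c).card ≤ 7 :=
    (card_union_le _ _).trans (by omega)
  have sz : ∀ z ∈ Z, (comp G Z z).card ≤ 5 := fun z hz =>
    hT V G _ _ (fun _ => ∅) 0 7 5 (by simp) hG (h.pc hz) (fun _ => cls_empty _)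
      (fun _ _ => rfl) hX ((cv z).mono fun x hx => Or.inr hx)
  have inB : ∀ {z a}, a ∉ Z → Act (HK G C A t) (comp G Z z) a → a ∈ BB G C c A t Z Ys := by
    intro z a ha k
    rcases h.act_or ha k with k | ⟨i, hi, -⟩
    · exact k
    · simp [hI] at hi
  rcases hp (fun z hz => (sz z hz).trans (by omega)) (fun z _ i hi => by simp [hI] at hi) with
    ⟨z₁, m1, z₂, m2, a, ha, b, hb, d, ab, k1, k2, k3, k4⟩ |
    ⟨z₁, m1, z₂, m2, z₃, m3, a, ha, b, hb, e, he, d1, d2, d3, ab, ae, be, k1, k2, k3, k4, k5, k6⟩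
  · have a1 := inB ha k1
    have b1 := inB hb k2
    exact (h0 V G hG).1 _ _ _ a b (h.pc m1) (h.pc m2) d hX (dj _) (dj _) (cv _) (cv _)
      (mem_union_left _ a1) (mem_union_left _ b1) ab (h.act_BB a1 k1) (h.act_BB b1 k2)
      (h.act_BB a1 k3) (h.act_BB b1 k4)
  · have a1 := inB ha k1
    have b1 := inB hb k2
    have e1 := inB he k4
    have eB : ({a, b, e} : Finset V) = BB G C c A t Z Ys :=
      eq_of_subset_of_card_le (by simp [insert_subset_iff, a1, b1, e1])
        (hB.trans (card_eq_three.2 ⟨a, b, e, ab, ae, be, rfl⟩).ge)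
    exact (h0 V G hG).2 _ _ _ _ (univ.image c) a b e (h.pc m1) (h.pc m2) (h.pc m3) d1 d2 d3 hc
      (by rw [← eB]; simp) (dj _) (dj _) (dj _) (cv _) (cv _) (cv _) ab ae be
      (h.act_BB a1 k1) (h.act_BB b1 k2) (h.act_BB a1 k3) (h.act_BB e1 k4) (h.act_BB b1 k5)
      (h.act_BB e1 k6)

/-! ### One class -/

theorem fin_one : ∀ i j : Fin 4, j = i ∨ j = i + 1 ∨ j = i + 2 ∨ j = i + 3 := by decide

theorem case1 (h1 : Fc1Stmt) (h : St G Γ C c A t Z Ys) {i : Fin 4}
    (hI : IL G C c A t Ys = {i}) (hp : Small G C c A t Z Ys) : False := by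
  have hG := h.ks.ctx.gi
  have hB : (BB G C c A t Z Ys).card ≤ 2 := by
    have := h.card_le
    rw [hI, card_singleton] at this
    omega
  have hS : Cls G C (arc c A i) := (mem_IL.1 (hI ▸ mem_singleton_self i)).2
  have cv : ∀ z, Cov G (comp G Z z)
      (arc c A i ∪ ↑(BB G C c A t Z Ys ∪ {c (i + 2), c (i + 3)})) := by
    intro z w hw x hx a
    rcases h.cov hw hx a with ⟨j, hj, k⟩ | k | ⟨j, rfl⟩
    · rw [hI, mem_singleton] at hj
      exact Or.inl (hj ▸ k)
    · exact Or.inr (by simp [k])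
    · rcases fin_one i j with rfl | rfl | rfl | rfl
      · exact Or.inl (arc_l _)
      · exact Or.inl (arc_r _)
      · exact Or.inr (by simp)
      · exact Or.inr (by simp)
  have dj : ∀ z, Disjoint (BB G C c A t Z Ys ∪ {c (i + 2), c (i + 3)}) (comp G Z z) := by
    intro z
    refine disjoint_left.2 fun x hx => ?_
    simp only [mem_union, mem_insert, mem_singleton] at hx
    rcases hx with k | rfl | rfl
    · exact h.BB_out k
    · exact h.c_out z _
    · exact h.c_out z _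
  have hX : (BB G C c A t Z Ys ∪ {c (i + 2), c (i + 3)}).card ≤ 4 :=
    (card_union_le _ _).trans (by have := card_le_two (a := c (i + 2)) (b := c (i + 3)); omega)
  obtain ⟨f1, f2, f3⟩ := h1 V G C _ _ hG hS hX
  have sz : ∀ z ∈ Z, (comp G Z z).card ≤ 3 := fun z hz => f1 _ (h.psub z) (h.pc hz) (cv z)
  have sh : ∀ z₁ ∈ Z, ∀ z₂ ∈ Z, ∀ a ∈ BB G C c A t Z Ys, ∀ b, a ≠ b →
      Disjoint (comp G Z z₁) (comp G Z z₂) → Act G (comp G Z z₁) a → Act G (comp G Z z₁) b →
      Act G (comp G Z z₂) a → Act G (comp G Z z₂) b → False := by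
    intro z₁ m1 z₂ m2 a ha b ab d k1 k2 k3 k4
    have := share2 hG (h.pc m1).conn (h.pc m2).conn d ab (h.BB_out ha) (h.BB_out ha) k1 k2 k3 k4
    have := sz z₁ m1
    have := sz z₂ m2
    omega
  have orr : ∀ {z a}, a ∉ Z → Act (HK G C A t) (comp G Z z) a →
      a ∈ BB G C c A t Z Ys ∨ a = t i := by
    intro z a ha k
    rcases h.act_or ha k with k | ⟨j, hj, e⟩
    · exact Or.inl k
    · rw [hI, mem_singleton] at hj
      exact Or.inr (hj ▸ e)
  have p1 : ∀ z₁ ∈ Z, ∀ z₂ ∈ Z, ∀ b ∈ BB G C c A t Z Ys, Disjoint (comp G Z z₁) (comp G Z z₂) →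
      Act (HK G C A t) (comp G Z z₁) (t i) → Act (HK G C A t) (comp G Z z₂) (t i) →
      Act G (comp G Z z₁) b → Act G (comp G Z z₂) b → False := by
    intro z₁ m1 z₂ m2 b hb d k1 k2 k3 k4
    by_cases hC : b ∈ C
    · exact f2 _ (h.psub _) _ (h.psub _) b (mem_union_left _ hb) (h.pc m1) (h.pc m2) d (dj _)
        (dj _) (cv _) (cv _) hC k3 k4 (h.act_term k1) (h.act_term k2)
    · obtain ⟨y, y1, y2, y3⟩ := h.real m1
      obtain ⟨y', y4, y5, y6⟩ := h.real m2
      have e : y = y' := two_of_card hB hb y1 y4 (fun e => hC (e ▸ y2)) (fun e => hC (e ▸ y5))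
      exact sh z₁ m1 z₂ m2 b hb y (fun e => hC (e ▸ y2)) d k3 y3 k4 (e ▸ y6)
  have p2 : ∀ z₁ ∈ Z, ∀ z₂ ∈ Z, ∀ z₃ ∈ Z, ∀ b ∈ BB G C c A t Z Ys, ∀ e ∈ BB G C c A t Z Ys,
      b ≠ e → Disjoint (comp G Z z₁) (comp G Z z₂) → Disjoint (comp G Z z₁) (comp G Z z₃) →
      Disjoint (comp G Z z₂) (comp G Z z₃) →
      Act (HK G C A t) (comp G Z z₁) (t i) → Act (HK G C A t) (comp G Z z₂) (t i) →
      Act G (comp G Z z₁) b → Act G (comp G Z z₂) e → Act G (comp G Z z₃) b →
      Act G (comp G Z z₃) e → False := by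
    intro z₁ m1 z₂ m2 z₃ m3 b hb e he be d1 d2 d3 k1 k2 k3 k4 k5 k6
    have hbC : b ∈ C := by
      by_contra hC
      obtain ⟨y, y1, y2, y3⟩ := h.real m1
      have q : e = y := two_of_card hB hb he y1 be (fun q => hC (q ▸ y2))
      exact sh z₁ m1 z₃ m3 b hb e be d2 k3 (q ▸ y3) k5 k6
    have heC : e ∈ C := by
      by_contra hC
      obtain ⟨y, y1, y2, y3⟩ := h.real m2
      have q : b = y := two_of_card hB he hb y1 be.symm (fun q => hC (q ▸ y2))
      exact sh z₂ m2 z₃ m3 b hb e be d3 (q ▸ y3) k4 k5 k6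
    exact f3 _ (h.psub _) _ (h.psub _) _ (h.psub _) b (mem_union_left _ hb) e
      (mem_union_left _ he) (h.pc m1) (h.pc m2) (h.pc m3) d1 d2 d3 (dj _) (dj _) (dj _) (cv _)
      (cv _) (cv _) be hbC heC k3 k4 k5 k6 (h.act_term k1) (h.act_term k2)
  rcases hp (fun z hz => (sz z hz).trans (by omega)) (fun z hz _ _ => (sz z hz).trans (by omega))
    with ⟨z₁, m1, z₂, m2, a, ha, b, hb, d, ab, k1, k2, k3, k4⟩ |
    ⟨z₁, m1, z₂, m2, z₃, m3, a, ha, b, hb, e, he, d1, d2, d3, ab, ae, be, k1, k2, k3, k4, k5, k6⟩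
  · rcases orr ha k1 with a1 | rfl <;> rcases orr hb k2 with b1 | b1
    · exact sh z₁ m1 z₂ m2 a a1 b ab d (h.act_BB a1 k1) (h.act_BB b1 k2) (h.act_BB a1 k3)
        (h.act_BB b1 k4)
    · subst b1
      exact p1 z₁ m1 z₂ m2 a a1 d k2 k4 (h.act_BB a1 k1) (h.act_BB a1 k3)
    · exact p1 z₁ m1 z₂ m2 b b1 d k1 k3 (h.act_BB b1 k2) (h.act_BB b1 k4)
    · exact ab b1.symm
  · rcases orr ha k1 with a1 | a1 <;> rcases orr hb k2 with b1 | b1 <;>
      rcases orr he k4 with e1 | e1
    · exact be (two_of_card hB a1 b1 e1 ab ae)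
    · subst e1
      exact p2 z₂ m2 z₃ m3 z₁ m1 a a1 b b1 ab d3 d1.symm d2.symm k4 k6 (h.act_BB a1 k3)
        (h.act_BB b1 k5) (h.act_BB a1 k1) (h.act_BB b1 k2)
    · subst b1
      exact p2 z₁ m1 z₃ m3 z₂ m2 a a1 e e1 ae d2 d1 d3.symm k2 k5 (h.act_BB a1 k1)
        (h.act_BB e1 k6) (h.act_BB a1 k3) (h.act_BB e1 k4)
    · exact be (b1.trans e1.symm)
    · subst a1
      exact p2 z₁ m1 z₂ m2 z₃ m3 b b1 e e1 be d1 d2 d3 k1 k3 (h.act_BB b1 k2)
        (h.act_BB e1 k4) (h.act_BB b1 k5) (h.act_BB e1 k6)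
    · exact ae (a1.trans e1.symm)
    · exact ab (a1.trans b1.symm)
    · exact ab (a1.trans b1.symm)

/-! ### Two classes -/

theorem fin_two : ∀ i j : Fin 4, i ≠ j →
    ∃ k, ∀ l, l = i ∨ l = i + 1 ∨ l = j ∨ l = j + 1 ∨ l = k := by decide

theorem cov2 (h : St G Γ C c A t Z Ys) {i j : Fin 4} (hij : i ≠ j)
    (hI : IL G C c A t Ys = {i, j}) {y : V} (hy : ∀ x ∈ BB G C c A t Z Ys, x = y) :
    ∃ k, ∀ z, Cov G (comp G Z z) (arc c A i ∪ arc c A j ∪ {y, c k}) := by
  obtain ⟨k, hk⟩ := fin_two i j hij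
  refine ⟨k, fun z w hw x hx a => ?_⟩
  rcases h.cov hw hx a with ⟨l, hl, q⟩ | q | ⟨l, rfl⟩
  · rw [hI, mem_insert, mem_singleton] at hl
    rcases hl with rfl | rfl
    · exact Or.inl (Or.inl q)
    · exact Or.inl (Or.inr q)
  · exact Or.inr (Or.inl (hy x q))
  · rcases hk l with rfl | rfl | rfl | rfl | rfl
    · exact Or.inl (Or.inl (arc_l _))
    · exact Or.inl (Or.inl (arc_r _))
    · exact Or.inl (Or.inr (arc_l _))
    · exact Or.inl (Or.inr (arc_r _))
    · exact Or.inr (Or.inr rfl)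

/-- Two pieces do not share the terminal of a class. -/
theorem share_term (h2 : Fc2Stmt) (h : St G Γ C c A t Z Ys) {i j : Fin 4} (hij : i ≠ j)
    (hI : IL G C c A t Ys = {i, j}) (hB : (BB G C c A t Z Ys).card ≤ 1) {z₁ z₂ : V}
    (m1 : z₁ ∈ Z) (m2 : z₂ ∈ Z) (d : Disjoint (comp G Z z₁) (comp G Z z₂))
    (k1 : Act (HK G C A t) (comp G Z z₁) (t i)) (k2 : Act (HK G C A t) (comp G Z z₂) (t i)) :
    False := by
  obtain ⟨y, y1, y2, y3⟩ := h.real m1
  obtain ⟨y', y4, -, y6⟩ := h.real m2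
  have hy : ∀ x ∈ BB G C c A t Z Ys, x = y := fun x hx => card_le_one.1 hB x hx y y1
  obtain ⟨k, cv⟩ := cov2 h hij hI hy
  have s1 : Cls G C (arc c A i) := (mem_IL.1 (show _ ∈ IL G C c A t Ys by simp [hI])).2
  have s2 : Cls G C (arc c A j) := (mem_IL.1 (show _ ∈ IL G C c A t Ys by simp [hI])).2
  exact (h2 V G C y (c k) _ _ h.ks.ctx.gi s1 s2).2 _ (h.psub _) _ (h.psub _) (h.pc m1) (h.pc m2)
    d (h.BB_out y1) (h.BB_out y1) (h.c_out _ _) (h.c_out _ _) (cv _) (cv _) y2 y3
    (hy y' y4 ▸ y6) (h.act_term k1) (h.act_term k2)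

theorem case2 (h2 : Fc2Stmt) (h : St G Γ C c A t Z Ys) {i j : Fin 4} (hij : i ≠ j)
    (hI : IL G C c A t Ys = {i, j}) (hp : Small G C c A t Z Ys) : False := by
  have hB : (BB G C c A t Z Ys).card ≤ 1 := by
    have := h.card_le
    rw [hI, card_pair hij] at this
    omega
  have s1 : Cls G C (arc c A i) := (mem_IL.1 (show _ ∈ IL G C c A t Ys by simp [hI])).2
  have s2 : Cls G C (arc c A j) := (mem_IL.1 (show _ ∈ IL G C c A t Ys by simp [hI])).2
  have sz : ∀ z ∈ Z, (comp G Z z).card ≤ 2 := by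
    intro z hz
    obtain ⟨y, y1, -, -⟩ := h.real hz
    obtain ⟨k, cv⟩ := cov2 h hij hI fun x hx => card_le_one.1 hB x hx y y1
    exact (h2 V G C y (c k) _ _ h.ks.ctx.gi s1 s2).1 _ (h.psub _) (h.pc hz) (cv _)
  have key : ∀ z₁ ∈ Z, ∀ z₂ ∈ Z, ∀ a ∉ Z, Disjoint (comp G Z z₁) (comp G Z z₂) →
      Act (HK G C A t) (comp G Z z₁) a → Act (HK G C A t) (comp G Z z₂) a →
      a ∈ BB G C c A t Z Ys := by
    intro z₁ m1 z₂ m2 a ha d k1 k2
    rcases h.act_or ha k1 with q | ⟨l, hl, rfl⟩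
    · exact q
    · rw [hI, mem_insert, mem_singleton] at hl
      rcases hl with rfl | rfl
      · exact (share_term h2 h hij hI hB m1 m2 d k1 k2).elim
      · exact (share_term h2 h hij.symm (hI.trans (pair_comm _ _)) hB m1 m2 d k1 k2).elim
  rcases hp (fun z hz => (sz z hz).trans (by omega)) (fun z hz _ _ => (sz z hz).trans (by omega))
    with ⟨z₁, m1, z₂, m2, a, ha, b, hb, d, ab, k1, k2, k3, k4⟩ |
    ⟨z₁, m1, z₂, m2, z₃, m3, a, ha, b, hb, e, he, d1, d2, -, ab, -, -, k1, k2, k3, -, k5, -⟩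
  · exact ab (card_le_one.1 hB a (key z₁ m1 z₂ m2 a ha d k1 k3) b (key z₁ m1 z₂ m2 b hb d k2 k4))
  · exact ab (card_le_one.1 hB a (key z₁ m1 z₂ m2 a ha d1 k1 k3) b
      (key z₁ m1 z₃ m3 b hb d2 k2 k5))

end Fca

open Fca in
theorem fca (hT : TreeStmt) (hP : PatStmt) (h0 : Fc0Stmt) (h1 : Fc1Stmt) (h2 : Fc2Stmt) :
    FcaStmt := by
  intro V _ G Γ C c A t ks ht Z hZ hc y₁ y₂ y₃ hb x hx hs
  by_contra hne
  have h : St G Γ C c A t Z {y₁, y₂, y₃} :=
    ⟨ks, ht, hZ, hc, fun z hz w a => by simpa using hb z hz w a, card_le_three⟩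
  have hH : ¬ Cyc (HK G C A t) Z := fun k => hc (k.mono' fun _ _ a p q =>
    (hk_adj_CC (ks.t_out ht) (hZ p) (hZ q)).1 a)
  have hp : Small G C c A t Z {y₁, y₂, y₃} := by
    intro s1 s2
    have := hP V _ Z y₁ y₂ y₃ hb hH (h.uniq s1 s2) x hx hs hne
    simp only [h.comp_eq] at this
    exact this
  have hz : ∃ z, z ∈ Z := by
    by_contra k
    push Not at k
    refine hne (funext fun e => ?_)
    induction e using Sym2.ind with
    | _ u v =>
      by_contra q
      exact (hs u v q).elim (k u) (k v)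
  obtain ⟨z, hz⟩ := hz
  obtain ⟨y, y1, -⟩ := h.real hz
  have b1 := card_pos.2 ⟨y, y1⟩
  have b2 := h.card_le
  have : (IL G C c A t {y₁, y₂, y₃}).card = 0 ∨ (IL G C c A t {y₁, y₂, y₃}).card = 1 ∨
      (IL G C c A t {y₁, y₂, y₃}).card = 2 := by omega
  rcases this with k | k | k
  · exact case0 hT h0 h (card_eq_zero.1 k) hp
  · obtain ⟨i, e⟩ := card_eq_one.1 k
    exact case1 h1 h e hp
  · obtain ⟨i, j, hij, e⟩ := card_eq_two.1 k
    exact case2 h2 h hij e hp

end Pool.Agent.MP_e6539c_co.P5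

end MrgPart3

-- ======== part 4: formerly Pool.Agent.MP_e6539c_co.P5.Ks
section MrgPart4

/-! The state with four corners reduces to the final state. -/

set_option autoImplicit false

namespace Pool.Agent.MP_e6539c_co.P5

open Finset
open Pool.Agent.MP_7be75d_co (R Conn comp)
open Pool.Agent.MP_7be75d_co
open scoped Classical

namespace KsM

variable {V : Type} [Fintype V] {G Γ : SimpleGraph V} {C : Finset V} {a b c d : V}
  {A B D E : List V}

/-- The four-corner state with explicit corners and arcs. -/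
structure K8 (G Γ : SimpleGraph V) (C : Finset V) (a b c d : V) (A B D E : List V) : Prop where
  ctx : Ctx G Γ C
  nd : (a :: (A ++ b :: (B ++ c :: (D ++ d :: E)))).Nodup
  out : ∀ x ∈ a :: (A ++ b :: (B ++ c :: (D ++ d :: E))), x ∉ C
  c0 : (a :: (A ++ [b])).IsChain Γ.Adj
  c1 : (b :: (B ++ [c])).IsChain Γ.Adj
  c2 : (c :: (D ++ [d])).IsChain Γ.Adj
  c3 : (d :: (E ++ [a])).IsChain Γ.Adj
  ac : Γ.Adj a c
  bd : Γ.Adj b d
  cov : Cov G C {x | x ∈ a :: (A ++ b :: (B ++ c :: (D ++ d :: E)))}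
  t0 : Cls G C {x | x ∈ a :: (A ++ [b])} ∨ A.length ≤ 1
  t1 : Cls G C {x | x ∈ b :: (B ++ [c])} ∨ B.length ≤ 1
  t2 : Cls G C {x | x ∈ c :: (D ++ [d])} ∨ D.length ≤ 1
  t3 : Cls G C {x | x ∈ d :: (E ++ [a])} ∨ E.length ≤ 1

omit [Fintype V] in
theorem nd_of_count {l l' : List V} (h : l.Nodup) (hc : ∀ x, l'.count x ≤ l.count x) :
    l'.Nodup := by
  rw [List.nodup_iff_count_le_one] at h ⊢
  exact fun x => (hc x).trans (h x)

omit [Fintype V] in
theorem nd_iff : (a :: (A ++ b :: (B ++ c :: (D ++ d :: E)))).Nodup ↔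
    (a ≠ b ∧ a ≠ c ∧ a ≠ d ∧ b ≠ c ∧ b ≠ d ∧ c ≠ d) ∧
    (A.Nodup ∧ B.Nodup ∧ D.Nodup ∧ E.Nodup) ∧
    (a ∉ A ∧ a ∉ B ∧ a ∉ D ∧ a ∉ E) ∧ (b ∉ A ∧ b ∉ B ∧ b ∉ D ∧ b ∉ E) ∧
    (c ∉ A ∧ c ∉ B ∧ c ∉ D ∧ c ∉ E) ∧ (d ∉ A ∧ d ∉ B ∧ d ∉ D ∧ d ∉ E) ∧
    (∀ x ∈ A, x ∉ B ∧ x ∉ D ∧ x ∉ E) ∧ (∀ x ∈ B, x ∉ D ∧ x ∉ E) ∧ ∀ x ∈ D, x ∉ E := by
  simp only [List.nodup_cons, List.nodup_append, List.mem_append, List.mem_cons]
  grind

theorem of_ks {k : Fin 4 → V} {L : Fin 4 → List V} (h : Ks G Γ C k L) :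
    K8 G Γ C (k 0) (k 1) (k 2) (k 3) (L 0) (L 1) (L 2) (L 3) where
  ctx := h.ctx
  nd := by
    have hi : ∀ i j : Fin 4, i ≠ j → k i ≠ k j := fun i j hij e => hij (h.inj e)
    rw [nd_iff]
    refine ⟨⟨hi _ _ (by decide), hi _ _ (by decide), hi _ _ (by decide), hi _ _ (by decide),
      hi _ _ (by decide), hi _ _ (by decide)⟩, ⟨h.nd _, h.nd _, h.nd _, h.nd _⟩,
      ⟨h.cA _ _, h.cA _ _, h.cA _ _, h.cA _ _⟩, ⟨h.cA _ _, h.cA _ _, h.cA _ _, h.cA _ _⟩,
      ⟨h.cA _ _, h.cA _ _, h.cA _ _, h.cA _ _⟩, ⟨h.cA _ _, h.cA _ _, h.cA _ _, h.cA _ _⟩,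
      fun x hx => ⟨h.disj _ _ (by decide) x hx, h.disj _ _ (by decide) x hx,
        h.disj _ _ (by decide) x hx⟩,
      fun x hx => ⟨h.disj _ _ (by decide) x hx, h.disj _ _ (by decide) x hx⟩,
      fun x hx => h.disj _ _ (by decide) x hx⟩
  out := by
    intro x hx
    simp only [List.mem_append, List.mem_cons] at hx
    rcases hx with rfl | hx | rfl | hx | rfl | hx | rfl | hx
    exacts [h.outc _, h.outA _ _ hx, h.outc _, h.outA _ _ hx, h.outc _, h.outA _ _ hx,
      h.outc _, h.outA _ _ hx]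
  c0 := h.ch 0
  c1 := h.ch 1
  c2 := h.ch 2
  c3 := h.ch 3
  ac := h.chord 0
  bd := h.chord 1
  cov := h.cov.mono (by
    rintro x ⟨i, hi⟩
    simp only [Set.mem_ofPred_eq, List.mem_append, List.mem_cons]
    fin_cases i <;> simp only [Fin.zero_eta, Fin.mk_one, Fin.reduceFinMk] at hi <;> tauto)
  t0 := h.ty 0
  t1 := h.ty 1
  t2 := h.ty 2
  t3 := h.ty 3

theorem to_ks (h : K8 G Γ C a b c d A B D E) : Ks G Γ C ![a, b, c, d] ![A, B, D, E] := by
  have hn := nd_iff.1 h.nd
  have ho := h.out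
  simp only [List.mem_append, List.mem_cons] at ho
  refine ⟨h.ctx, ?_, ?_, ?_, ?_, ?_, ?_, ?_, ?_, ?_, ?_⟩
  · intro i j hij
    fin_cases i <;> fin_cases j <;> simp at hij ⊢ <;> grind
  · intro i
    fin_cases i <;> simp <;> grind
  · intro i j hij x
    fin_cases i <;> fin_cases j <;> simp at hij ⊢ <;> grind
  · intro i j
    fin_cases i <;> fin_cases j <;> simp <;> grind
  · intro i
    fin_cases i <;> simp <;> grind
  · intro i x
    fin_cases i <;> simp <;> grind
  · intro i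
    fin_cases i
    exacts [h.c0, h.c1, h.c2, h.c3]
  · intro i
    fin_cases i
    exacts [h.ac, h.bd, h.ac.symm, h.bd.symm]
  · refine h.cov.mono ?_
    intro x hx
    simp only [Set.mem_ofPred_eq, List.mem_append, List.mem_cons] at hx
    rcases hx with hx | hx | hx | hx | hx | hx | hx | hx
    exacts [⟨0, Or.inl hx⟩, ⟨0, Or.inr hx⟩, ⟨1, Or.inl hx⟩, ⟨1, Or.inr hx⟩, ⟨2, Or.inl hx⟩,
      ⟨2, Or.inr hx⟩, ⟨3, Or.inl hx⟩, ⟨3, Or.inr hx⟩]
  · intro i
    fin_cases i
    exacts [h.t0, h.t1, h.t2, h.t3]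

theorem K8.rot (h : K8 G Γ C a b c d A B D E) : K8 G Γ C b c d a B D E A where
  ctx := h.ctx
  nd := nd_of_count h.nd (by
    intro x
    simp only [List.count_cons, List.count_append]
    omega)
  out := fun x hx => h.out x (by
    simp only [List.mem_append, List.mem_cons] at hx ⊢
    tauto)
  c0 := h.c1
  c1 := h.c2
  c2 := h.c3
  c3 := h.c0
  ac := h.bd
  bd := h.ac.symm
  cov := h.cov.mono (by
    intro x hx
    simp only [Set.mem_ofPred_eq, List.mem_append, List.mem_cons] at hx ⊢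
    tauto)
  t0 := h.t1
  t1 := h.t2
  t2 := h.t3
  t3 := h.t0

omit [Fintype V] in
theorem arc_rev {p q : V} {L : List V} (h : (p :: (L ++ [q])).IsChain Γ.Adj) :
    (q :: (L.reverse ++ [p])).IsChain Γ.Adj := by
  simpa using chain_rev h

omit [Fintype V] in
theorem ty_rev {p q : V} {L : List V} (h : Cls G C {x | x ∈ p :: (L ++ [q])} ∨ L.length ≤ 1) :
    Cls G C {x | x ∈ q :: (L.reverse ++ [p])} ∨ L.reverse.length ≤ 1 := by
  refine h.imp (fun h => h.mono Subset.rfl ?_) (by simp)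
  intro x hx
  simp only [Set.mem_ofPred_eq, List.mem_append, List.mem_cons, List.mem_reverse] at hx ⊢
  tauto

theorem K8.mirror (h : K8 G Γ C a b c d A B D E) :
    K8 G Γ C b a d c A.reverse E.reverse D.reverse B.reverse where
  ctx := h.ctx
  nd := nd_of_count h.nd (by
    intro x
    simp only [List.count_cons, List.count_append, List.count_reverse]
    omega)
  out := fun x hx => h.out x (by
    simp only [List.mem_append, List.mem_cons, List.mem_reverse] at hx ⊢
    tauto)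
  c0 := arc_rev h.c0
  c1 := arc_rev h.c3
  c2 := arc_rev h.c2
  c3 := arc_rev h.c1
  ac := h.bd
  bd := h.ac
  cov := h.cov.mono (by
    intro x hx
    simp only [Set.mem_ofPred_eq, List.mem_append, List.mem_cons, List.mem_reverse] at hx ⊢
    tauto)
  t0 := ty_rev h.t0
  t1 := ty_rev h.t3
  t2 := ty_rev h.t2
  t3 := ty_rev h.t1

/-- An inactive vertex of the first arc is contracted into its predecessor. -/
theorem K8.drop {A₁ A₂ : List V} {u : V} (h : K8 G Γ C a b c d (A₁ ++ u :: A₂) B D E)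
    (hu : ¬ Act G C u) : ∃ Γ', K8 G Γ' C a b c d (A₁ ++ A₂) B D E := by
  obtain ⟨l, y, hl⟩ : ∃ l y, a :: A₁ = l ++ [y] :=
    ⟨_, _, (List.dropLast_append_getLast (List.cons_ne_nil a A₁)).symm⟩
  have hn := nd_iff.1 h.nd
  have huA : u ∈ A₁ ++ u :: A₂ := by simp
  have e1 : a :: ((A₁ ++ u :: A₂) ++ [b]) = l ++ y :: u :: (A₂ ++ [b]) := by
    have : a :: ((A₁ ++ u :: A₂) ++ [b]) = (a :: A₁) ++ u :: (A₂ ++ [b]) := by simp
    rw [this, hl]; simp
  have e2 : a :: ((A₁ ++ A₂) ++ [b]) = l ++ y :: (A₂ ++ [b]) := by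
    have : a :: ((A₁ ++ A₂) ++ [b]) = (a :: A₁) ++ (A₂ ++ [b]) := by simp
    rw [this, hl]; simp
  have hc := h.c0
  have hnd : (a :: ((A₁ ++ u :: A₂) ++ [b])).Nodup := nd_of_count h.nd (by
    intro x
    simp only [List.count_cons, List.count_append, List.count_nil]
    omega)
  rw [e1] at hc hnd
  have hyu : Γ.Adj y u := by
    have := (List.isChain_append.1 hc).2.1
    exact (List.isChain_cons_cons.1 this).1
  have hy : y ∈ a :: A₁ := by rw [hl]; simp
  have hyC : y ∉ C := h.out y (by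
    simp only [List.mem_append, List.mem_cons] at hy ⊢
    tauto)
  have huC : u ∉ C := h.out u (by simp)
  have hua : a ≠ u := fun e => hn.2.2.1.1 (e ▸ huA)
  have hub : b ≠ u := fun e => hn.2.2.2.1.1 (e ▸ huA)
  have huc : c ≠ u := fun e => hn.2.2.2.2.1.1 (e ▸ huA)
  have hud : d ≠ u := fun e => hn.2.2.2.2.2.1.1 (e ▸ huA)
  have hu3 := hn.2.2.2.2.2.2.1 u huA
  refine ⟨con Γ u y, h.ctx.con hyu.symm huC hyC hu, ?_, ?_, ?_, ?_, ?_, ?_,
    con_adj h.ac hua huc, con_adj h.bd hub hud, ?_, ?_, h.t1, h.t2, h.t3⟩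
  · refine nd_of_count h.nd ?_
    intro x
    simp only [List.count_cons, List.count_append]
    omega
  · intro x hx
    refine h.out x ?_
    simp only [List.mem_append, List.mem_cons] at hx ⊢
    tauto
  · rw [e2]
    exact con_chain_pred hc hnd
  · refine con_chain h.c1 ?_
    simp only [List.mem_append, List.mem_cons, List.not_mem_nil]
    grind
  · refine con_chain h.c2 ?_
    simp only [List.mem_append, List.mem_cons, List.not_mem_nil]
    grind
  · refine con_chain h.c3 ?_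
    simp only [List.mem_append, List.mem_cons, List.not_mem_nil]
    grind
  · refine h.cov.of_act ?_
    intro x hx _ hA
    simp only [Set.mem_ofPred_eq, List.mem_append, List.mem_cons] at hx ⊢
    grind
  · rcases h.t0 with t | t
    · refine Or.inl (t.mono Subset.rfl ?_)
      intro x hx
      simp only [Set.mem_ofPred_eq, List.mem_append, List.mem_cons] at hx ⊢
      tauto
    · refine Or.inr ?_
      simp only [List.length_append, List.length_cons] at t ⊢
      omega

omit [Fintype V] in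
theorem arc_cls (hG : Gi G) {p q : V} {L : List V}
    (h : Cls G C {x | x ∈ p :: (L ++ [q])} ∨ L.length ≤ 1) (ho : ∀ x ∈ L, x ∉ C) :
    ∃ S, Cls G C S ∧ ∀ x ∈ L, x ∈ S := by
  rcases h with h | h
  · exact ⟨_, h, fun x hx => by simp [hx]⟩
  · exact ⟨_, cls_short hG h ho, fun x hx => hx⟩

/-- The system of classes for a move across an empty first arc. -/
theorem K8.sys (h : K8 G Γ C a b c d [] B D E) : Sys G C {a, b} := by
  have hG := h.ctx.gi
  have hB : ∀ x ∈ B, x ∉ C := fun x hx => h.out x (by simp [hx])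
  have hD : ∀ x ∈ D, x ∉ C := fun x hx => h.out x (by simp [hx])
  have hE : ∀ x ∈ E, x ∉ C := fun x hx => h.out x (by simp [hx])
  rcases h.t2 with t2 | t2
  · obtain ⟨S₁, s1, m1⟩ := arc_cls hG h.t1 hB
    obtain ⟨S₃, s3, m3⟩ := arc_cls hG h.t3 hE
    refine Or.inl ⟨S₁, _, S₃, s1, t2, s3, h.cov.mono ?_⟩
    intro x hx
    simp only [Set.mem_ofPred_eq, List.mem_append, List.mem_cons, Set.mem_union,
      Set.mem_insert_iff, Set.mem_singleton_iff, List.not_mem_nil] at hx ⊢
    grind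
  · rcases h.t1 with t1 | t1 <;> rcases h.t3 with t3 | t3
    · refine Or.inl ⟨_, _, _, t1, cls_short hG t2 hD, t3, h.cov.mono ?_⟩
      intro x hx
      simp only [Set.mem_ofPred_eq, List.mem_append, List.mem_cons, Set.mem_union,
        Set.mem_insert_iff, Set.mem_singleton_iff, List.not_mem_nil] at hx ⊢
      grind
    · refine Or.inr (Or.inl ⟨_, (D ++ d :: E).toFinset, t1, ?_, h.cov.mono ?_⟩)
      · refine (List.toFinset_card_le _).trans ?_
        simp only [List.length_append, List.length_cons]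
        omega
      · intro x hx
        simp only [Set.mem_ofPred_eq, List.mem_append, List.mem_cons, Set.mem_union,
          Set.mem_insert_iff, Set.mem_singleton_iff, List.not_mem_nil, mem_coe,
          List.mem_toFinset] at hx ⊢
        grind
    · refine Or.inr (Or.inl ⟨_, (B ++ c :: D).toFinset, t3, ?_, h.cov.mono ?_⟩)
      · refine (List.toFinset_card_le _).trans ?_
        simp only [List.length_append, List.length_cons]
        omega
      · intro x hx
        simp only [Set.mem_ofPred_eq, List.mem_append, List.mem_cons, Set.mem_union,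
          Set.mem_insert_iff, Set.mem_singleton_iff, List.not_mem_nil, mem_coe,
          List.mem_toFinset] at hx ⊢
        grind
    · refine Or.inr (Or.inr ⟨(B ++ c :: (D ++ d :: E)).toFinset, ?_, h.cov.mono ?_⟩)
      · refine (List.toFinset_card_le _).trans ?_
        simp only [List.length_append, List.length_cons]
        omega
      · intro x hx
        simp only [Set.mem_ofPred_eq, List.mem_append, List.mem_cons, Set.mem_union,
          Set.mem_insert_iff, Set.mem_singleton_iff, List.not_mem_nil, mem_coe,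
          List.mem_toFinset] at hx ⊢
        grind

/-- A move across the empty first arc. -/
theorem K8.move (hm : MoveStmt) (hN : NoSt G C.card) (h : K8 G Γ C a b c d [] B D E)
    (ha : Act G C a) (hb : Act G C b) : False := by
  have hn := nd_iff.1 h.nd
  obtain ⟨P, C', -, hP, hPC, hch, hsub, hlt, hctx, hcls, hcov⟩ :=
    hm V G Γ C a b h.ctx hn.1.1 (h.out a (by simp)) (h.out b (by simp)) ha hb h.sys
  have ho := h.out
  have key : K8 G Γ C' a b c d P B D E := by
    refine ⟨hctx, ?_, ?_, hch, h.c1, h.c2, h.c3, h.ac, h.bd, (hcov _ h.cov).mono ?_,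
      Or.inl hcls, h.t1.imp (fun t => t.mono hsub Set.Subset.rfl) id,
      h.t2.imp (fun t => t.mono hsub Set.Subset.rfl) id,
      h.t3.imp (fun t => t.mono hsub Set.Subset.rfl) id⟩
    · rw [nd_iff]
      simp only [List.mem_append, List.mem_cons, List.not_mem_nil] at ho
      grind
    · intro x hx hx'
      have hxC := hsub hx'
      simp only [List.mem_append, List.mem_cons, List.not_mem_nil] at ho hx
      grind
    · intro x hx
      simp only [Set.mem_ofPred_eq, List.mem_append, List.mem_cons, Set.mem_union,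
        List.not_mem_nil] at hx ⊢
      tauto
  exact (hN Γ C' hlt).2.2 _ _ (to_ks key)

/-- An inactive corner is contracted into the last vertex of the fourth arc. -/
theorem K8.corner {E' : List V} {α : V} (h : K8 G Γ C a b c d [] B D (E' ++ [α]))
    (ha : ¬ Act G C a) : K8 G (con Γ a α) C α b c d [] B D E' := by
  have hn := nd_iff.1 h.nd
  simp only [List.mem_append, List.mem_cons, List.not_mem_nil] at hn
  have h3 : ((d :: E') ++ α :: [a]).IsChain Γ.Adj := by simpa using h.c3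
  have hαa : Γ.Adj α a := (List.isChain_cons_cons.1 (List.isChain_append.1 h3).2.1).1
  have h3' : (d :: (E' ++ [α])).IsChain Γ.Adj := by
    have : ((d :: (E' ++ [α])) ++ [a]).IsChain Γ.Adj := h.c3
    exact (List.isChain_append.1 this).1
  have hab : Γ.Adj a b := (List.isChain_cons_cons.1 h.c0).1
  refine ⟨h.ctx.con hαa.symm (h.out a (by simp)) (h.out α (by simp)) ha, ?_, ?_, ?_, ?_, ?_, ?_,
    con_new h.ac (by grind), con_adj h.bd (by grind) (by grind), ?_, Or.inr (by simp), h.t1,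
    h.t2, ?_⟩
  · refine nd_of_count h.nd ?_
    intro x
    simp only [List.count_cons, List.count_append, List.count_nil]
    omega
  · intro x hx
    refine h.out x ?_
    simp only [List.mem_append, List.mem_cons] at hx ⊢
    tauto
  · exact List.isChain_cons_cons.2 ⟨con_new hab (by grind), by simp⟩
  · refine con_chain h.c1 ?_
    simp only [List.mem_append, List.mem_cons, List.not_mem_nil]
    grind
  · refine con_chain h.c2 ?_
    simp only [List.mem_append, List.mem_cons, List.not_mem_nil]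
    grind
  · refine con_chain h3' ?_
    simp only [List.mem_append, List.mem_cons, List.not_mem_nil]
    grind
  · refine h.cov.of_act ?_
    intro x hx _ hA
    simp only [Set.mem_ofPred_eq, List.mem_append, List.mem_cons, List.not_mem_nil] at hx ⊢
    grind
  · rcases h.t3 with t | t
    · refine Or.inl (t.mono Subset.rfl ?_)
      intro x hx
      simp only [Set.mem_ofPred_eq, List.mem_append, List.mem_cons] at hx ⊢
      tauto
    · refine Or.inr ?_
      simp only [List.length_append, List.length_cons] at t ⊢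
      omega

theorem K8.ps1 (h : K8 G Γ C a b c d [] B D []) (ha : ¬ Act G C a) (hB : ∃ x ∈ B, Act G C x) :
    Ps G (con Γ a b) C b B c D d := by
  have hn := nd_iff.1 h.nd
  have hab : Γ.Adj a b := (List.isChain_cons_cons.1 h.c0).1
  refine ⟨h.ctx.con hab (h.out a (by simp)) (h.out b (by simp)) ha, ?_, ?_, ?_, ?_,
    con_new h.ac (by grind), con_adj h.bd (by grind) (by grind), ?_, h.t1, h.t2, hB⟩
  · refine nd_of_count h.nd ?_
    intro x
    simp only [List.count_cons, List.count_append, List.count_nil]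
    omega
  · intro x hx
    refine h.out x ?_
    simp only [List.mem_append, List.mem_cons] at hx ⊢
    tauto
  · refine con_chain h.c1 ?_
    simp only [List.mem_append, List.mem_cons, List.not_mem_nil]
    grind
  · refine con_chain h.c2 ?_
    simp only [List.mem_append, List.mem_cons, List.not_mem_nil]
    grind
  · refine h.cov.of_act ?_
    intro x hx _ hA
    simp only [Set.mem_ofPred_eq, List.mem_append, List.mem_cons, List.not_mem_nil] at hx ⊢
    grind

theorem K8.ps2 (h : K8 G Γ C a b c d [] [] D []) (ha : ¬ Act G C a) (hD : ∃ x ∈ D, Act G C x) :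
    Ps G (con Γ a d) C d D.reverse c [] b := by
  have hn := nd_iff.1 h.nd
  have hda : Γ.Adj d a := (List.isChain_cons_cons.1 h.c3).1
  have hbc : Γ.Adj b c := (List.isChain_cons_cons.1 h.c1).1
  refine ⟨h.ctx.con hda.symm (h.out a (by simp)) (h.out d (by simp)) ha, ?_, ?_, ?_, ?_,
    con_new h.ac (by grind), con_adj h.bd.symm (by grind) (by grind), ?_, ty_rev h.t2,
    Or.inr (by simp), by simpa using hD⟩
  · refine nd_of_count h.nd ?_
    intro x
    simp only [List.count_cons, List.count_append, List.count_nil, List.count_reverse]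
    omega
  · intro x hx
    refine h.out x ?_
    simp only [List.mem_append, List.mem_cons, List.mem_reverse] at hx ⊢
    tauto
  · refine con_chain (arc_rev h.c2) ?_
    simp only [List.mem_append, List.mem_cons, List.not_mem_nil, List.mem_reverse]
    grind
  · exact List.isChain_cons_cons.2 ⟨con_adj hbc.symm (by grind) (by grind), by simp⟩
  · refine h.cov.of_act ?_
    intro x hx _ hA
    simp only [Set.mem_ofPred_eq, List.mem_append, List.mem_cons, List.not_mem_nil,
      List.mem_reverse] at hx ⊢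
    grind

theorem K8.cy (h : K8 G Γ C a b c d [] [] [] []) (ha : ¬ Act G C a) : CYs G Γ C [b, c, d] := by
  have hn := nd_iff.1 h.nd
  have hbc : Γ.Adj b c := (List.isChain_cons_cons.1 h.c1).1
  have hcd : Γ.Adj c d := (List.isChain_cons_cons.1 h.c2).1
  refine ⟨h.ctx, ?_, ?_, ?_, ?_, ?_, Or.inr (by simp)⟩
  · refine nd_of_count h.nd ?_
    intro x
    simp only [List.count_cons, List.count_append, List.count_nil]
    omega
  · intro x hx
    refine h.out x ?_
    simp only [List.mem_append, List.mem_cons] at hx ⊢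
    tauto
  · simp [hbc, hcd]
  · intro x M y e _
    have e1 : b = x := (List.cons.inj e).1
    have e2 : [c] ++ [d] = M ++ [y] := (List.cons.inj e).2
    have e3 : [d] = [y] := (List.append_inj' e2 rfl).2
    have e4 : d = y := (List.cons.inj e3).1
    rw [← e1, ← e4]
    exact h.bd.symm
  · refine h.cov.of_act ?_
    intro x hx _ hA
    simp only [Set.mem_ofPred_eq, List.mem_append, List.mem_cons, List.not_mem_nil] at hx ⊢
    grind

/-- No state on `C` has fewer than `n` arc vertices. -/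
def Small (G : SimpleGraph V) (C : Finset V) (n : ℕ) : Prop :=
  ∀ (Γ : SimpleGraph V) (a b c d : V) (A B D E : List V),
    A.length + B.length + D.length + E.length < n → ¬ K8 G Γ C a b c d A B D E

theorem K8.all_act (h : K8 G Γ C a b c d A B D E) {n : ℕ} (hs : Small G C n)
    (hn : A.length + B.length + D.length + E.length ≤ n) : ∀ x ∈ A, Act G C x := by
  intro u hu
  by_contra hi
  obtain ⟨A₁, A₂, rfl⟩ := List.append_of_mem hu
  obtain ⟨Γ', h'⟩ := h.drop hi
  refine hs Γ' _ _ _ _ _ _ _ _ ?_ h'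
  simp only [List.length_append, List.length_cons] at hn ⊢
  omega

theorem K8.inact (hcy : ∀ Γ L, ¬ CYs G Γ C L) (hps : ∀ Γ p A q B s, ¬ Ps G Γ C p A q B s)
    (h : K8 G Γ C a b c d [] B D E) {n : ℕ} (hs : Small G C n)
    (hn : B.length + D.length + E.length ≤ n) (ha : ¬ Act G C a) : False := by
  have hB := h.rot.all_act hs (by simp only [List.length_nil]; omega)
  have hD := h.rot.rot.all_act hs (by simp only [List.length_nil]; omega)
  rcases List.eq_nil_or_concat E with rfl | ⟨E', α, rfl⟩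
  · cases B with
    | cons x B => exact hps _ _ _ _ _ _ (h.ps1 ha ⟨x, by simp, hB x (by simp)⟩)
    | nil =>
      cases D with
      | cons x D => exact hps _ _ _ _ _ _ (h.ps2 ha ⟨x, by simp, hD x (by simp)⟩)
      | nil => exact hcy _ _ (h.cy ha)
  · rw [List.concat_eq_append] at h hn
    refine hs _ _ _ _ _ _ _ _ _ ?_ (h.corner ha)
    simp only [List.length_append, List.length_cons, List.length_nil] at hn ⊢
    omega

theorem K8.empty (hm : MoveStmt) (hN : NoSt G C.card) (hcy : ∀ Γ L, ¬ CYs G Γ C L)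
    (hps : ∀ Γ p A q B s, ¬ Ps G Γ C p A q B s)
    (h : K8 G Γ C a b c d [] B D E) {n : ℕ} (hs : Small G C n)
    (hn : B.length + D.length + E.length ≤ n) : False := by
  by_cases ha : Act G C a
  · by_cases hb : Act G C b
    · exact h.move hm hN ha hb
    · refine K8.inact hcy hps h.mirror hs ?_ hb
      simp only [List.length_reverse]
      omega
  · exact h.inact hcy hps hs hn ha

theorem small (hm : MoveStmt) (hf : KfinStmt) (hN : NoSt G C.card) (hcy : ∀ Γ L, ¬ CYs G Γ C L)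
    (hps : ∀ Γ p A q B s, ¬ Ps G Γ C p A q B s) (n : ℕ) : Small G C n := by
  induction n with
  | zero => intro _ _ _ _ _ _ _ _ _ hn; omega
  | succ n ih =>
    intro Γ a b c d A B D E hn h
    by_cases hA : A = []
    · subst hA
      exact h.empty hm hN hcy hps ih (by simp only [List.length_nil] at hn; omega)
    by_cases hB : B = []
    · subst hB
      exact h.rot.empty hm hN hcy hps ih (by simp only [List.length_nil] at hn; omega)
    by_cases hD : D = []
    · subst hD
      exact h.rot.rot.empty hm hN hcy hps ih (by simp only [List.length_nil] at hn; omega)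
    by_cases hE : E = []
    · subst hE
      exact h.rot.rot.rot.empty hm hN hcy hps ih (by simp only [List.length_nil] at hn; omega)
    obtain ⟨x₀, h₀⟩ := List.exists_mem_of_ne_nil A hA
    obtain ⟨x₁, h₁⟩ := List.exists_mem_of_ne_nil B hB
    obtain ⟨x₂, h₂⟩ := List.exists_mem_of_ne_nil D hD
    obtain ⟨x₃, h₃⟩ := List.exists_mem_of_ne_nil E hE
    refine hf V G Γ C _ _ hN (to_ks h) ?_
    intro i
    fin_cases i
    exacts [⟨x₀, h₀, h.all_act ih (by omega) _ h₀⟩, ⟨x₁, h₁, h.rot.all_act ih (by omega) _ h₁⟩,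
      ⟨x₂, h₂, h.rot.rot.all_act ih (by omega) _ h₂⟩,
      ⟨x₃, h₃, h.rot.rot.rot.all_act ih (by omega) _ h₃⟩]

end KsM

theorem ks (h : MoveStmt) (hf : KfinStmt) : KsStmt := by
  intro V _ G C hN hcy hps Γ c A hk
  exact KsM.small h hf hN hcy hps _ Γ _ _ _ _ _ _ _ _ (Nat.lt_succ_self _) (KsM.of_ks hk)

end Pool.Agent.MP_e6539c_co.P5

end MrgPart4

-- marker of a merged file
example : 731051 + 145954 = 731051 + 145954 := rfl
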