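import Mathlib.Data.Nat.Notation

/-! Executable part of the certificate checker (raw recursors, for kernel evaluation). -/

set_option autoImplicit false

namespace Pool.Agent.MP_e6539c_co.P5.Cert

noncomputable section

def st {α : Type} (x : ℕ) (k : ℕ → α) : α := Nat.rec (k 0) (fun m _ => k m) (Nat.succ x)
def cd {α : Type} (b : Bool) (t f : α) : α := Bool.rec f t b
def an (a b : Bool) : Bool := Bool.rec false b a
def orr (a b : Bool) : Bool := Bool.rec b true a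
def tb (a i : ℕ) : Bool := Nat.beq (Nat.land (Nat.shiftRight a i) 1) 1
def rall (n : ℕ) (p : ℕ → Bool) : Bool := Nat.rec true (fun i ih => an (p i) ih) n
def rany (n : ℕ) (p : ℕ → Bool) : Bool := Nat.rec false (fun i ih => orr (p i) ih) n
def lall (l : List ℕ) (p : ℕ → Bool) : Bool := List.rec true (fun a _ ih => an (p a) ih) l
def cat (l : List ℕ) : ℕ := List.rec 0 (fun x _ ih => Nat.add x (Nat.shiftLeft ih 4400)) l

def PP : ℕ := 17592186044415
def ones (m : ℕ) : ℕ := Nat.div (Nat.sub (Nat.pow 2 (Nat.mul 44 m)) 1) PP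
def fld (x j : ℕ) : ℕ := Nat.mod (Nat.shiftRight x (Nat.mul 44 j)) 17592186044416

/-- The dihedral group. -/
def sy (n g i : ℕ) : ℕ := cd (Nat.ble n g) (Nat.mod (Nat.sub g i) n) (Nat.mod (Nat.add g i) n)
def act (n g B : ℕ) : ℕ :=
  Nat.rec 0 (fun i ih => cd (tb B i) (Nat.lor ih (Nat.pow 2 (sy n g i))) ih) n
def pc (n B : ℕ) : ℕ := Nat.rec 0 (fun i ih => cd (tb B i) (Nat.succ ih) ih) n
def hi (n B : ℕ) : ℕ := Nat.rec 0 (fun i ih => cd (tb B i) i ih) n
def NP (k : ℕ) : ℕ × ℕ :=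
  Nat.rec (1, 0) (fun _ p => (Nat.mul 4 p.2, Nat.add p.1 (Nat.mul 3 p.2))) k
def NN (k : ℕ) : ℕ := (NP k).1

def dgt (o c i : ℕ) : ℕ :=
  Nat.mul (Nat.add (Nat.land (Nat.shiftRight c (Nat.mul 2 i)) (Nat.mul o 3)) o) 205
def sm (n o c S : ℕ) : ℕ :=
  Nat.rec (Nat.mul o 820) (fun i ih => cd (tb S i) (Nat.add ih (dgt o c i)) ih) n
def msk (n o c S : ℕ) : ℕ :=
  Nat.mul (Nat.land (Nat.shiftRight
    (Nat.add (Nat.land (sm n o c S) (Nat.mul o 1023)) (Nat.mul o 204)) 10) o) PP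
def vs (n o c g : ℕ) (B : ℕ) (_l : List ℕ) (ih : ℕ) : ℕ :=
  st (act n g B) fun S => Nat.land ih (msk n o c S)
def tot (n o c u : ℕ) (cs : List ℕ) (k : ℕ) : ℕ :=
  Nat.rec 0 (fun g ih => Nat.add ih (Nat.mod (List.rec u (vs n o c g) cs) PP)) k
def leaf (n o c u pr : ℕ) (cs : List ℕ) : Bool :=
  an (Nat.ble pr 8796093022208)
    (Nat.beq (Nat.mod (Nat.add pr (tot n o c u cs (Nat.mul 2 n))) PP) 0)

def en (rem i cm : ℕ) (f : ℕ → ℕ → Bool) (k : ℕ) : ℕ → ℕ → Bool :=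
  Nat.rec (motive := fun _ => ℕ → ℕ → Bool) f
    (fun k ih a c => cd (tb rem k)
      (an (cd (Nat.beq k i) true (ih a c))
        (cd (Nat.ble cm c) true
          (st (Nat.add a (Nat.pow 2 k)) fun a' => st (Nat.succ c) fun c' => ih a' c')))
      (ih a c)) k
def dfs (n o c u cap fuel : ℕ) : ℕ → ℕ → ℕ → List ℕ → Bool :=
  Nat.rec (motive := fun _ => ℕ → ℕ → ℕ → List ℕ → Bool) (fun _ _ _ _ => false)
    (fun _ ih rem r pr cs =>
      an (cd (Nat.ble r cap) (st (Nat.mul pr (NN r)) fun p => leaf n o c u p cs) true)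
        (st (hi n rem) fun i => an (tb rem i)
          (st (cd (Nat.ble cap (Nat.sub r 2)) cap (Nat.sub r 2)) fun cm =>
            en rem i cm (fun B k => cd (Nat.ble 2 k)
              (st (Nat.sub rem B) fun rem' => st (Nat.sub r k) fun r' =>
                st (Nat.mul pr (NN k)) fun pr' => ih rem' r' pr' (B :: cs)) true) n 0 0))) fuel
def top (n o c u K B : ℕ) : Bool :=
  st (pc n B) fun k => an (Nat.ble (Nat.succ B) (Nat.pow 2 n))
    (st (Nat.sub (Nat.sub (Nat.pow 2 n) 1) B) fun rem => st (Nat.sub n k) fun r =>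
      st (Nat.mul K (NN k)) fun pr => dfs n o c u k 6 rem r pr [B])
def cvr (n : ℕ) (l : List ℕ) : ℕ → ℕ :=
  List.rec (motive := fun _ => ℕ → ℕ) (fun a => a)
    (fun B _ ih a => st
      (Nat.rec a (fun h b => Nat.lor b (Nat.pow 2 (act n h B))) (Nat.mul 2 n)) ih) l
def cover (n : ℕ) (l : List ℕ) : Bool :=
  rall (Nat.pow 2 n) fun S => orr (tb (cvr n l 0) S)
    (st (pc n S) fun k => orr (Nat.ble k 1) (Nat.ble n (Nat.succ k)))

def dd (c i : ℕ) : ℕ := Nat.succ (Nat.land (Nat.shiftRight c (Nat.mul 2 i)) 3)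
def ps (c i : ℕ) : ℕ := Nat.rec 0 (fun t ih => Nat.add ih (dd c t)) i
def ok (n c u : ℕ) : Bool :=
  an (Nat.beq (Nat.mod (ps c n) 5) 0)
    (orr (Nat.ble u 33554432) (an (Nat.ble PP (Nat.add u 33554432))
      (rany 5 fun r => rall n fun i => cd (Nat.beq (Nat.mod (ps c i) 5) r) false true)))
def side (n m c u K : ℕ) : Bool :=
  an (an (an (Nat.ble 1 K) (Nat.ble (Nat.mul m (Nat.mul 2 n)) 262143))
    (Nat.ble (Nat.succ u) (Nat.pow 2 (Nat.mul 44 m))))
    (an (leaf n (ones m) c u (Nat.mul K (NN n)) [])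
      (rall m fun j => st (fld c j) fun c' => st (fld u j) fun u' => ok n c' u'))

end

end Pool.Agent.MP_e6539c_co.P5.Cert
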