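import Mathlib.Tactic.Linarith.Frontend
import Mathlib.Tactic.NormNum.Ineq
import Mathlib.Algebra.Ring.GeomSum
import Mathlib.Algebra.BigOperators.ModEq
import Mathlib.Data.Int.ConditionallyCompleteOrder
import Mathlib.Data.Int.Star
import Mathlib.Algebra.Order.Ring.Star
import Mathlib.Tactic.Algebra.Basic
import Pool.Agent.MP_e6539c_co.P5.CertDefs

/-! Soundness of the packed arithmetic of the certificate checker. -/

set_option autoImplicit false

namespace Pool.Agent.MP_e6539c_co.P5.Cert

open Finset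

@[simp] theorem st_eq {α : Type} (x : ℕ) (k : ℕ → α) : st x k = k x := rfl
theorem cd_eq {α : Type} (b : Bool) (t f : α) : cd b t f = if b = true then t else f := by
  cases b <;> rfl
@[simp] theorem an_iff (a b : Bool) : an a b = true ↔ a = true ∧ b = true := by
  cases a <;> cases b <;> simp [an]
@[simp] theorem orr_iff (a b : Bool) : orr a b = true ↔ a = true ∨ b = true := by
  cases a <;> cases b <;> simp [orr]
@[simp] theorem tb_eq (a i : ℕ) : tb a i = a.testBit i := by
  unfold tb Nat.testBit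
  rw [Nat.land_eq, Nat.shiftRight_eq, Nat.and_comm, Nat.one_and_eq_mod_two]
  rcases Nat.mod_two_eq_zero_or_one (a >>> i) with h | h <;> rw [h] <;> rfl
theorem rall_iff (n : ℕ) (p : ℕ → Bool) : rall n p = true ↔ ∀ i < n, p i = true := by
  induction n with
  | zero => simp [rall]
  | succ n ih =>
    have : rall (n + 1) p = an (p n) (rall n p) := rfl
    rw [this, an_iff, ih, Nat.forall_lt_succ_right, and_comm]
theorem rany_iff (n : ℕ) (p : ℕ → Bool) : rany n p = true ↔ ∃ i < n, p i = true := by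
  induction n with
  | zero => simp [rany]
  | succ n ih =>
    have : rany (n + 1) p = orr (p n) (rany n p) := rfl
    rw [this, orr_iff, ih, Nat.exists_lt_succ_right, or_comm]
theorem lall_iff (l : List ℕ) (p : ℕ → Bool) : lall l p = true ↔ ∀ a ∈ l, p a = true := by
  induction l with
  | nil => simp [lall]
  | cons a l ih =>
    have : lall (a :: l) p = an (p a) (lall l p) := rfl
    simp [this, ih]

/-- Numbers in fields of 44 bits. -/
def pack (f : ℕ → ℕ) (m : ℕ) : ℕ := ∑ j ∈ range m, 2 ^ (44 * j) * f j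

theorem pack_congr {f g : ℕ → ℕ} {m : ℕ} (h : ∀ j < m, f j = g j) : pack f m = pack g m :=
  sum_congr rfl fun j hj => by rw [h j (mem_range.1 hj)]

theorem pack_add (f g : ℕ → ℕ) (m : ℕ) : pack f m + pack g m = pack (fun j => f j + g j) m := by
  simp [pack, mul_add, sum_add_distrib]

theorem pack_mul (f : ℕ → ℕ) (m c : ℕ) : pack f m * c = pack (fun j => f j * c) m := by
  simp [pack, sum_mul, mul_assoc]

theorem pack_lt {f : ℕ → ℕ} {m : ℕ} (h : ∀ j < m, f j < 2 ^ 44) : pack f m < 2 ^ (44 * m) := by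
  induction m with
  | zero => simp [pack]
  | succ m ih =>
    have h1 := ih fun j hj => h j (by omega)
    have h2 := h m (by omega)
    rw [pack, sum_range_succ, ← pack, Nat.mul_succ, pow_add]
    calc pack f m + 2 ^ (44 * m) * f m < 2 ^ (44 * m) * (f m + 1) := by rw [mul_add]; omega
      _ ≤ _ := Nat.mul_le_mul_left _ h2

theorem tb_pack {f : ℕ → ℕ} {m : ℕ} (h : ∀ j < m, f j < 2 ^ 44) (j i : ℕ) (hi : i < 44) :
    (pack f m).testBit (44 * j + i) = (decide (j < m) && (f j).testBit i) := by
  induction m with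
  | zero => simp [pack]
  | succ m ih =>
    have h0 : ∀ j < m, f j < 2 ^ 44 := fun j hj => h j (by omega)
    rw [pack, sum_range_succ, ← pack, add_comm, Nat.testBit_two_pow_mul_add _ (pack_lt h0)]
    rcases lt_trichotomy j m with hj | hj | hj
    · rw [if_pos (by omega), ih h0]; simp [hj, Nat.lt_succ_of_lt hj]
    · subst hj; rw [if_neg (by omega)]; simp
    · rw [if_neg (by omega), Nat.testBit_lt_two_pow]
      · simp [show ¬ j < m + 1 by omega]
      · exact (h m (by omega)).trans_le (Nat.pow_le_pow_right (by norm_num) (by omega))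

theorem pack_ext {x y : ℕ} (h : ∀ j i, i < 44 → x.testBit (44 * j + i) = y.testBit (44 * j + i)) :
    x = y := by
  apply Nat.eq_of_testBit_eq
  intro k
  have := h (k / 44) (k % 44) (Nat.mod_lt _ (by norm_num))
  rwa [Nat.div_add_mod] at this

theorem fld_lt (x j : ℕ) : fld x j < 2 ^ 44 := Nat.mod_lt _ (by norm_num)

theorem tb_fld (x j i : ℕ) : (fld x j).testBit i = (decide (i < 44) && x.testBit (44 * j + i)) := by
  have : fld x j = (x >>> (44 * j)) % 2 ^ 44 := rfl
  rw [this, Nat.testBit_mod_two_pow, Nat.testBit_shiftRight]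

theorem fld_pack {f : ℕ → ℕ} {m : ℕ} (h : ∀ j < m, f j < 2 ^ 44) {j : ℕ} (hj : j < m) :
    fld (pack f m) j = f j := by
  apply Nat.eq_of_testBit_eq
  intro i
  rw [tb_fld]
  by_cases hi : i < 44
  · rw [tb_pack h j i hi]; simp [hi, hj]
  · rw [Nat.testBit_lt_two_pow ((h j hj).trans_le (Nat.pow_le_pow_right (by norm_num) (by omega)))]
    simp [hi]

theorem pack_fld {x m : ℕ} (h : x < 2 ^ (44 * m)) : x = pack (fld x) m := by
  apply pack_ext
  intro j i hi
  rw [tb_pack (fun j _ => fld_lt x j) j i hi, tb_fld]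
  by_cases hj : j < m
  · simp [hj, hi]
  · rw [Nat.testBit_lt_two_pow (h.trans_le (Nat.pow_le_pow_right (by norm_num) (by omega)))]
    simp [hj]

theorem shr_land (x s t m : ℕ) (g : ℕ → ℕ) (hg : ∀ j < m, g j < 2 ^ t) (ht : s + t ≤ 44) :
    (x >>> s) &&& pack g m = pack (fun j => (fld x j >>> s) &&& g j) m := by
  have hg' : ∀ j < m, g j < 2 ^ 44 := fun j hj =>
    (hg j hj).trans_le (Nat.pow_le_pow_right (by norm_num) (by omega))
  apply pack_ext
  intro j i hi
  rw [tb_pack (fun j hj => Nat.and_le_right.trans_lt (hg' j hj)) j i hi, Nat.testBit_and,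
    tb_pack hg' j i hi, Nat.testBit_and, Nat.testBit_shiftRight, Nat.testBit_shiftRight, tb_fld]
  by_cases hj : j < m
  · by_cases hit : i < t
    · simp [hj, show s + i < 44 by omega, add_left_comm]
    · rw [Nat.testBit_lt_two_pow
        ((hg j hj).trans_le (Nat.pow_le_pow_right (by norm_num) (by omega)) : g j < 2 ^ i)]
      simp
  · simp [hj]

theorem shr_land' {f g : ℕ → ℕ} {m : ℕ} (s t : ℕ) (hf : ∀ j < m, f j < 2 ^ 44)
    (hg : ∀ j < m, g j < 2 ^ t) (ht : s + t ≤ 44) :
    (pack f m >>> s) &&& pack g m = pack (fun j => (f j >>> s) &&& g j) m := by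
  rw [shr_land _ s t m g hg ht]
  exact pack_congr fun j hj => by rw [fld_pack hf hj]

theorem pack_mod (f : ℕ → ℕ) (m : ℕ) : pack f m ≡ ∑ j ∈ range m, f j [MOD PP] := by
  induction m with
  | zero => rfl
  | succ m ih =>
    rw [pack, sum_range_succ, sum_range_succ, ← pack]
    refine ih.add ?_
    have h : 2 ^ 44 ≡ 1 [MOD PP] := by decide
    have := (h.pow m).mul_right (f m)
    rwa [← pow_mul, one_pow, one_mul] at this

theorem ones_eq (m : ℕ) : ones m = pack (fun _ => 1) m := by
  have := Nat.geomSum_eq (m := 2 ^ 44) (by norm_num) m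
  simp only [← pow_mul] at this
  simp only [pack, mul_one, this]
  rfl

theorem dd_eq (c i : ℕ) : dd c i = ((c >>> (2 * i)) &&& 3) + 1 := rfl

theorem dd_le (c i : ℕ) : 1 ≤ dd c i ∧ dd c i ≤ 4 := by
  have : (c >>> (2 * i)) &&& 3 ≤ 3 := Nat.and_le_right
  rw [dd_eq]; omega

theorem dgt_eq (m c i : ℕ) (hi : i < 11) :
    dgt (ones m) c i = pack (fun j => dd (fld c j) i * 205) m := by
  have : dgt (ones m) c i = (((c >>> (2 * i)) &&& (ones m * 3)) + ones m) * 205 := rfl
  rw [this, ones_eq, pack_mul, shr_land c (2 * i) 2 m _ (by simp) (by omega), pack_add, pack_mul]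
  simp [dd_eq]

/-- The sum of the digits of `c` on the set `S`. -/
noncomputable def ds (n c S : ℕ) : ℕ := ∑ i ∈ range n, if S.testBit i then dd c i else 0

theorem ds_le (n c S : ℕ) : ds n c S ≤ 4 * n := by
  have : ∀ i ∈ range n, (if S.testBit i then dd c i else 0) ≤ 4 := fun i _ => by
    have := (dd_le c i).2
    split_ifs <;> omega
  simpa [mul_comm, ds] using sum_le_sum this

theorem sm_eq (n m c S : ℕ) (hn : n ≤ 11) :
    sm n (ones m) c S = pack (fun j => 820 + ds n (fld c j) S * 205) m := by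
  induction n with
  | zero =>
    have : sm 0 (ones m) c S = ones m * 820 := rfl
    rw [this, ones_eq, pack_mul]; simp [ds]
  | succ n ih =>
    have : sm (n + 1) (ones m) c S =
      cd (tb S n) (sm n (ones m) c S + dgt (ones m) c n) (sm n (ones m) c S) := rfl
    rw [this, cd_eq, tb_eq, ih (by omega), dgt_eq m c n (by omega), pack_add]
    split_ifs with h <;> refine pack_congr fun j _ => ?_ <;> simp [ds, sum_range_succ, h]
    ring

theorem msk_pt : ∀ s < 45, (((((820 + s * 205) >>> 0) &&& (1 * 1023)) + 1 * 204) >>> 10 &&& 1) =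
    if s % 5 = 0 then 1 else 0 := by decide +kernel

theorem msk_eq (n m c S : ℕ) (hn : n ≤ 11) :
    msk n (ones m) c S = pack (fun j => if ds n (fld c j) S % 5 = 0 then PP else 0) m := by
  have : msk n (ones m) c S = (((((sm n (ones m) c S >>> 0) &&& (ones m * 1023)) + ones m * 204)
    >>> 10) &&& ones m) * PP := rfl
  have hd := fun j => ds_le n (fld c j) S
  rw [this, sm_eq n m c S hn, ones_eq, pack_mul, pack_mul,
    shr_land' 0 10 (fun j _ => by have := hd j; omega) (by simp) (by omega), pack_add,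
    shr_land' 10 1 (fun j _ => lt_of_le_of_lt (Nat.add_le_add_right Nat.and_le_right _)
      (by norm_num)) (by simp) (by omega), pack_mul]
  refine pack_congr fun j _ => ?_
  rw [msk_pt _ (by have := hd j; omega)]
  split_ifs <;> simp

open scoped Classical in
theorem val_eq (n m c u g : ℕ) (hn : n ≤ 11) (hu : u < 2 ^ (44 * m)) (cs : List ℕ) :
    (List.rec u (vs n (ones m) c g) cs : ℕ) =
      pack (fun j => if ∀ B ∈ cs, ds n (fld c j) (act n g B) % 5 = 0 then fld u j else 0) m := by
  induction cs with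
  | nil => simpa using pack_fld hu
  | cons B cs ih =>
    have : (List.rec u (vs n (ones m) c g) (B :: cs) : ℕ) =
      ((List.rec u (vs n (ones m) c g) cs : ℕ) >>> 0) &&& msk n (ones m) c (act n g B) := rfl
    rw [this, ih, msk_eq n m c _ hn, shr_land' 0 44 _ _ le_rfl]
    · refine pack_congr fun j _ => ?_
      have h : fld u j &&& PP = fld u j := by
        rw [show PP = 2 ^ 44 - 1 from rfl, Nat.and_two_pow_sub_one_eq_mod,
          Nat.mod_eq_of_lt (fld_lt u j)]
      simp only [List.forall_mem_cons]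
      by_cases h1 : ds n (fld c j) (act n g B) % 5 = 0
      · by_cases h2 : ∀ B ∈ cs, ds n (fld c j) (act n g B) % 5 = 0
        · rw [if_pos h1, if_pos h2, if_pos ⟨h1, h2⟩]; exact h
        · rw [if_neg h2, if_neg (not_and_of_not_right _ h2)]; simp
      · rw [if_neg h1, if_neg (not_and_of_not_left _ h1)]; simp
    · intro j _
      have := fld_lt u j
      split_ifs <;> omega
    · intro j _
      split_ifs <;> simp [PP]

/-- The signed value of a field. -/
def mu (u : ℕ) : ℤ := if u ≤ 33554432 then u else (u : ℤ) - PP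

open scoped Classical in
theorem leaf_sound {n m c u pr : ℕ} {cs : List ℕ} (hn : n ≤ 11) (hu : u < 2 ^ (44 * m))
    (hm : m * (2 * n) ≤ 262143) (hb : ∀ j < m, |mu (fld u j)| ≤ 33554432)
    (h : leaf n (ones m) c u pr cs = true) :
    (pr : ℤ) + ∑ g ∈ range (2 * n), ∑ j ∈ range m,
      (if ∀ B ∈ cs, ds n (fld c j) (act n g B) % 5 = 0 then mu (fld u j) else 0) = 0 := by
  obtain ⟨h1, h2⟩ := (an_iff _ _).1 h
  have h1 : pr ≤ 8796093022208 := Nat.le_of_ble_eq_true h1
  have h2 : (pr + tot n (ones m) c u cs (2 * n)) % PP = 0 := Nat.eq_of_beq_eq_true h2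
  have ht : ∀ k, (tot n (ones m) c u cs k : ℤ) ≡ ∑ g ∈ range k, ∑ j ∈ range m,
      (if ∀ B ∈ cs, ds n (fld c j) (act n g B) % 5 = 0 then mu (fld u j) else 0) [ZMOD PP] := by
    intro k
    induction k with
    | zero => rfl
    | succ k ih =>
      have : tot n (ones m) c u cs (k + 1) =
        tot n (ones m) c u cs k + (List.rec u (vs n (ones m) c k) cs : ℕ) % PP := rfl
      rw [this, sum_range_succ, Nat.cast_add]
      refine ih.add ?_
      rw [val_eq n m c u k hn hu]
      refine (Int.natCast_modEq_iff.2 ((Nat.mod_modEq _ _).trans (pack_mod _ _))).trans ?_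
      rw [Nat.cast_sum]
      refine Int.ModEq.sum fun j _ => ?_
      split_ifs
      · unfold mu
        split_ifs
        · rfl
        · exact (Int.modEq_iff_dvd.2 (by simp))
      · rfl
  have hd : ((PP : ℕ) : ℤ) ∣ _ := (Int.modEq_zero_iff_dvd).1
    (((ht (2 * n)).symm.add_left pr).trans (by
      rw [← Nat.cast_add]; exact Int.natCast_modEq_iff.2 h2))
  refine Int.eq_zero_of_abs_lt_dvd hd ?_
  have hs : |∑ g ∈ range (2 * n), ∑ j ∈ range m,
      (if ∀ B ∈ cs, ds n (fld c j) (act n g B) % 5 = 0 then mu (fld u j) else 0)| ≤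
      ∑ g ∈ range (2 * n), ∑ j ∈ range m, (33554432 : ℤ) := by
    refine (abs_sum_le_sum_abs _ _).trans (sum_le_sum fun g _ => (abs_sum_le_sum_abs _ _).trans
      (sum_le_sum fun j hj => ?_))
    split_ifs
    · exact hb j (mem_range.1 hj)
    · simp
  simp only [sum_const, card_range, nsmul_eq_mul] at hs
  have hm' : ((m * (2 * n) : ℕ) : ℤ) ≤ 262143 := by exact_mod_cast hm
  push_cast at hm' hs
  have hP : ((PP : ℕ) : ℤ) = 17592186044415 := rfl
  rw [hP, abs_lt]
  rw [abs_le] at hs
  constructor <;> nlinarith [hs.1, hs.2]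

noncomputable def cmp (n g h : ℕ) : ℕ :=
  cd (Nat.ble n g) (cd (Nat.ble n h) ((g + n - h) % n) (n + (g - h) % n))
    (cd (Nat.ble n h) (n + (g + h) % n) ((g + h) % n))

set_option synthInstance.maxSize 2000 in
theorem grp : ∀ n < 12, 5 ≤ n → ∀ h < 2 * n, (∀ i < n, sy n h i < n) ∧
    (∀ i < n, ∀ k < n, sy n h i = sy n h k → i = k) ∧ (∀ g < 2 * n, cmp n g h < 2 * n) ∧
    (∀ g < 2 * n, ∀ g' < 2 * n, cmp n g h = cmp n g' h → g = g') ∧
    ∀ g < 2 * n, ∀ i < n, sy n g (sy n h i) = sy n (cmp n g h) i := by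
  decide +kernel

end Pool.Agent.MP_e6539c_co.P5.Cert
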