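import Mathlib.Algebra.BigOperators.Pi
import Mathlib.Tactic.IntervalCases
import Mathlib.Tactic.Monotonicity.Lemmas
import Pool.Agent.MP_e6539c_co.P5.CertP
import Pool.Agent.MP_e6539c_co.P5.Short
import Pool.Agent.MP_e6539c_co.P5.Ks

-- ======== part 0: formerly Pool.Agent.MP_e6539c_co.P5.CertS
section MrgPart0

/-! Soundness of the search over all partitions of the terminals. -/

set_option autoImplicit false

namespace Pool.Agent.MP_e6539c_co.P5.Cert

open Finset
open scoped Classical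

/-- The set `{i < k | p i}` as a number. -/
noncomputable def bm (p : ℕ → Prop) (k : ℕ) : ℕ := ∑ i ∈ range k, if p i then 2 ^ i else 0
/-- The size of `{i < k | p i}`. -/
noncomputable def cn (p : ℕ → Prop) (k : ℕ) : ℕ := ∑ i ∈ range k, if p i then 1 else 0

theorem bm_succ (p : ℕ → Prop) (k : ℕ) : bm p (k + 1) = bm p k + if p k then 2 ^ k else 0 :=
  sum_range_succ _ _
theorem cn_succ (p : ℕ → Prop) (k : ℕ) : cn p (k + 1) = cn p k + if p k then 1 else 0 :=
  sum_range_succ _ _

theorem bm_lt (p : ℕ → Prop) (k : ℕ) : bm p k < 2 ^ k := by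
  induction k with
  | zero => simp [bm]
  | succ k ih => rw [bm_succ, pow_succ]; split_ifs <;> omega

theorem tb_bm (p : ℕ → Prop) (k i : ℕ) : (bm p k).testBit i = true ↔ i < k ∧ p i := by
  induction k with
  | zero => simp [bm]
  | succ k ih =>
    rw [bm_succ]
    split_ifs with h
    · rw [add_comm, ← mul_one (2 ^ k), Nat.testBit_two_pow_mul_add _ (bm_lt p k)]
      split_ifs with hi
      · rw [ih]; simp [hi, Nat.lt_succ_of_lt hi]
      · rw [Nat.testBit_one_eq_true_iff_self_eq_zero]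
        constructor
        · intro h'
          obtain rfl : i = k := by omega
          exact ⟨by omega, h⟩
        · intro h'; omega
    · rw [add_zero, ih]
      constructor
      · exact fun h' => ⟨by omega, h'.2⟩
      · rintro ⟨h1, h2⟩
        refine ⟨?_, h2⟩
        by_contra h3
        obtain rfl : i = k := by omega
        exact h h2

theorem bm_split {p q r : ℕ → Prop} (k : ℕ) (h : ∀ i, p i → q i) (h' : ∀ i, r i ↔ q i ∧ ¬ p i) :
    bm q k = bm p k + bm r k ∧ cn q k = cn p k + cn r k := by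
  unfold bm cn
  rw [← sum_add_distrib, ← sum_add_distrib]
  constructor <;> refine sum_congr rfl fun i _ => ?_ <;> have := h i <;> have := h' i <;>
    by_cases hp : p i <;> by_cases hq : q i <;> simp_all

theorem cn_mono {p q : ℕ → Prop} (k : ℕ) (h : ∀ i, p i → q i) : cn p k ≤ cn q k := by
  have := (bm_split (r := fun i => q i ∧ ¬ p i) k h fun _ => Iff.rfl).2
  omega

theorem cn_congr {p q : ℕ → Prop} {k : ℕ} (h : ∀ i < k, p i ↔ q i) : cn p k = cn q k :=
  sum_congr rfl fun i hi => by simp [h i (mem_range.1 hi)]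

theorem bm_true (k : ℕ) : bm (fun _ => True) k = 2 ^ k - 1 := by
  have := Nat.geomSum_eq (m := 2) le_rfl k
  simpa [bm] using this

theorem cn_true (k : ℕ) : cn (fun _ => True) k = k := by simp [cn]

theorem pc_eq (n B : ℕ) : pc n B = cn (fun i => B.testBit i = true) n := by
  induction n with
  | zero => rfl
  | succ n ih =>
    have : pc (n + 1) B = cd (tb B n) (pc n B + 1) (pc n B) := rfl
    rw [this, cd_eq, tb_eq, cn_succ, ih]
    split_ifs <;> rfl

theorem pc_bm (n : ℕ) (p : ℕ → Prop) : pc n (bm p n) = cn p n := by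
  rw [pc_eq]; exact cn_congr fun i hi => by simp [tb_bm, hi]

theorem sum_bd (p : ℕ → Prop) (k : ℕ) (F : ℕ → ℕ) (hF : ∀ i, 1 ≤ F i ∧ F i ≤ 4) :
    cn p k ≤ ∑ i ∈ range k, (if p i then F i else 0) ∧
      ∑ i ∈ range k, (if p i then F i else 0) ≤ 4 * cn p k := by
  unfold cn
  rw [mul_sum]
  constructor <;> refine sum_le_sum fun i _ => ?_ <;> have := hF i <;> split_ifs <;> omega

theorem en_sound {rem i cm : ℕ} {f : ℕ → ℕ → Bool} {p : ℕ → Prop} (hi : p i) (k : ℕ)
    (hp : ∀ t < k, p t → rem.testBit t = true) : ∀ a c, en rem i cm f k a c = true →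
    c + cn p k ≤ cm → f (a + bm p k) (c + cn p k) = true := by
  induction k with
  | zero => intro a c h _; exact h
  | succ k ih =>
    intro a c h hc
    have ih := ih fun t ht => hp t (by omega)
    have : en rem i cm f (k + 1) a c = cd (tb rem k)
      (an (cd (Nat.beq k i) true (en rem i cm f k a c))
        (cd (Nat.ble cm c) true (en rem i cm f k (a + 2 ^ k) (c + 1)))) (en rem i cm f k a c) := rfl
    rw [this, cd_eq, tb_eq] at h
    rw [cn_succ] at hc ⊢
    rw [bm_succ]
    by_cases hk : p k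
    · rw [if_pos (hp k (by omega) hk), an_iff, cd_eq, cd_eq, if_neg (c := Nat.ble cm c = true)
        (by rw [Nat.ble_eq]; rw [if_pos hk] at hc; omega)] at h
      rw [if_pos hk] at hc
      rw [if_pos hk, if_pos hk, add_comm (bm p k), add_comm (cn p k), ← add_assoc, ← add_assoc]
      exact ih _ _ h.2 (by omega)
    · rw [if_neg hk] at hc
      rw [if_neg hk, if_neg hk]
      refine ih _ _ ?_ hc
      split_ifs at h
      · rw [an_iff, cd_eq, if_neg (by rw [Nat.beq_eq]; rintro rfl; exact hk hi)] at h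
        exact h.1
      · exact h

theorem tb_act (n g B k l : ℕ) :
    (Nat.rec 0 (fun i ih => cd (tb B i) (Nat.lor ih (Nat.pow 2 (sy n g i))) ih) l : ℕ).testBit k
      = true ↔ ∃ i < l, B.testBit i = true ∧ sy n g i = k := by
  induction l with
  | zero => simp
  | succ l ih =>
    rw [Nat.exists_lt_succ_right, ← ih]
    simp only [cd_eq, tb_eq]
    split_ifs with h
    · simp [h, Nat.testBit_two_pow]
    · simp [h]

theorem sum_perm {M : Type} [AddCommMonoid M] {n : ℕ} {f : ℕ → ℕ} (h1 : ∀ i < n, f i < n)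
    (h2 : ∀ i < n, ∀ k < n, f i = f k → i = k) (F : ℕ → M) :
    (range n).image f = range n ∧ ∑ i ∈ range n, F (f i) = ∑ i ∈ range n, F i := by
  have hi : Set.InjOn f (range n : Finset ℕ) := fun i hi k hk =>
    h2 i (mem_range.1 hi) k (mem_range.1 hk)
  have : (range n).image f = range n := by
    refine eq_of_subset_of_card_le (fun x hx => ?_) (by rw [card_image_of_injOn hi])
    obtain ⟨i, hi, rfl⟩ := mem_image.1 hx
    exact mem_range.2 (h1 i (mem_range.1 hi))
  exact ⟨this, by rw [← sum_image hi, this]⟩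

theorem tb_act_sy {n h B i : ℕ} (hn : n < 12) (h5 : 5 ≤ n) (hh : h < 2 * n) (hi : i < n) :
    (act n h B).testBit (sy n h i) = true ↔ B.testBit i = true := by
  refine (tb_act n h B _ n).trans ⟨?_, fun hb => ⟨i, hi, hb, rfl⟩⟩
  rintro ⟨k, hk, hb, e⟩
  rwa [← (grp n hn h5 h hh).2.1 k hk i hi e]

theorem ds_act {n g : ℕ} (hn : n < 12) (h5 : 5 ≤ n) (hg : g < 2 * n) (c : ℕ) (p : ℕ → Prop) :
    ds n c (act n g (bm p n)) = ∑ i ∈ range n, if p i then dd c (sy n g i) else 0 := by
  obtain ⟨h1, h2, -⟩ := grp n hn h5 g hg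
  rw [ds, ← (sum_perm h1 h2 _).2]
  refine sum_congr rfl fun i hi => ?_
  simp [tb_act_sy hn h5 hg (mem_range.1 hi), tb_bm, mem_range.1 hi]

variable {V : Type}

/-- The digit sum on the block with label `x`. -/
noncomputable def bs (n c g : ℕ) (lab : ℕ → V) (x : V) : ℕ :=
  ∑ i ∈ range n, if lab i = x then dd c (sy n g i) else 0

/-- The identity for the partition given by `lab`. -/
def Goal (n m c u K : ℕ) (lab : ℕ → V) : Prop :=
  ((K * ∏ x ∈ (range n).image lab, NN (cn (lab · = x) n) : ℕ) : ℤ) + ∑ g ∈ range (2 * n),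
    ∑ j ∈ range m, (if ∀ x, bs n (fld c j) g lab x % 5 = 0 then mu (fld u j) else 0) = 0

structure Par (n m c u : ℕ) : Prop where
  lo : 5 ≤ n
  hi : n < 12
  hu : u < 2 ^ (44 * m)
  hm : m * (2 * n) ≤ 262143
  hb : ∀ j < m, |mu (fld u j)| ≤ 33554432
  hs : ∀ j < m, (∑ i ∈ range n, dd (fld c j) i) % 5 = 0

theorem leaf_goal {n m c u K : ℕ} (P : Par n m c u) {lab : ℕ → V} {T : Finset V} {x : V}
    {cs : List ℕ} (hx : x ∉ T) (him : (range n).image lab = insert x T)
    (hcs : ∀ B, B ∈ cs ↔ ∃ y ∈ T, B = bm (lab · = y) n)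
    (h : leaf n (ones m) c u ((K * ∏ y ∈ T, NN (cn (lab · = y) n)) * NN (cn (lab · = x) n)) cs
      = true) : Goal n m c u K lab := by
  have := leaf_sound (by have := P.hi; omega) P.hu P.hm P.hb h
  unfold Goal
  rw [him, prod_insert hx, mul_comm (NN _), ← mul_assoc]
  refine Eq.trans ?_ this
  congr 1
  refine sum_congr rfl fun g hg => sum_congr rfl fun j hj => if_congr ?_ rfl rfl
  have hg := mem_range.1 hg
  constructor
  · intro h B hB
    obtain ⟨y, -, rfl⟩ := (hcs B).1 hB
    rw [ds_act P.hi P.lo hg]; exact h y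
  · intro h
    have hT : ∀ y ∈ T, bs n (fld c j) g lab y % 5 = 0 := fun y hy => by
      have := h _ ((hcs _).2 ⟨y, hy, rfl⟩)
      rwa [ds_act P.hi P.lo hg] at this
    have hl : ∀ i ∈ range n, lab i ∈ insert x T := fun i hi => him ▸ mem_image_of_mem lab hi
    have hsum : ∑ y ∈ insert x T, bs n (fld c j) g lab y = ∑ i ∈ range n, dd (fld c j) i := by
      obtain ⟨h1, h2, -⟩ := grp n P.hi P.lo g hg
      rw [← (sum_perm h1 h2 _).2]
      unfold bs
      rw [sum_comm]
      exact sum_congr rfl fun i hi => by simp [hl i hi]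
    have h5 : 5 ∣ ∑ y ∈ T, bs n (fld c j) g lab y :=
      dvd_sum fun y hy => Nat.dvd_of_mod_eq_zero (hT y hy)
    have hs := P.hs j (mem_range.1 hj)
    rw [sum_insert hx] at hsum
    intro y
    by_cases hy : y ∈ insert x T
    · rcases mem_insert.1 hy with rfl | hy
      · omega
      · exact hT y hy
    · rw [bs, sum_eq_zero fun i hi => if_neg fun e : lab i = y => hy (e ▸ hl i hi), Nat.zero_mod]

theorem dfs_sound {n m c u K cap : ℕ} (P : Par n m c u) {lab : ℕ → V}
    (h2 : ∀ i < n, 2 ≤ cn (lab · = lab i) n) (hcap : ∀ x, cn (lab · = x) n ≤ cap) (fuel : ℕ) :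
    ∀ (T : Finset V) (cs : List ℕ), T ⊆ (range n).image lab →
      (∀ B, B ∈ cs ↔ ∃ y ∈ T, B = bm (lab · = y) n) →
      dfs n (ones m) c u cap fuel (bm (lab · ∉ T) n) (cn (lab · ∉ T) n)
        (K * ∏ y ∈ T, NN (cn (lab · = y) n)) cs = true → Goal n m c u K lab := by
  induction fuel with
  | zero => intro T cs _ _ h; exact absurd h (by simp [dfs])
  | succ fuel ih =>
    intro T cs hT hcs h
    have e : ∀ rem r pr, dfs n (ones m) c u cap (fuel + 1) rem r pr cs =
      an (cd (Nat.ble r cap) (leaf n (ones m) c u (pr * NN r) cs) true)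
        (an (tb rem (hi n rem)) (en rem (hi n rem) (cd (Nat.ble cap (r - 2)) cap (r - 2))
          (fun B k => cd (Nat.ble 2 k) (dfs n (ones m) c u cap fuel (rem - B) (r - k) (pr * NN k)
            (B :: cs)) true) n 0 0)) := fun _ _ _ => rfl
    rw [e, an_iff, an_iff, tb_eq, tb_bm] at h
    obtain ⟨hl, ⟨hi1, hi2⟩, he⟩ := h
    generalize hi n (bm (lab · ∉ T) n) = i at hi1 hi2 he
    have hx : lab i ∈ (range n).image lab := mem_image_of_mem lab (mem_range.2 hi1)
    by_cases hall : ∀ k < n, lab k ∉ T → lab k = lab i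
    · have hc : cn (lab · ∉ T) n = cn (lab · = lab i) n :=
        cn_congr fun k hk => ⟨hall k hk, fun e => e ▸ hi2⟩
      rw [hc, cd_eq, if_pos (Nat.ble_eq ▸ hcap _)] at hl
      refine leaf_goal P hi2 (subset_antisymm (fun y hy => ?_) (insert_subset hx hT)) hcs hl
      obtain ⟨k, hk, rfl⟩ := mem_image.1 hy
      by_cases hk' : lab k ∈ T
      · exact mem_insert_of_mem hk'
      · exact mem_insert.2 (Or.inl (hall k (mem_range.1 hk) hk'))
    · push Not at hall
      obtain ⟨k, hk, hk1, hk2⟩ := hall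
      obtain ⟨s1, s2⟩ := bm_split (p := (lab · = lab i)) (q := (lab · ∉ T))
        (r := (lab · ∉ insert (lab i) T)) n (fun t e => e ▸ hi2) (fun t => by simp [and_comm])
      have hr : 2 ≤ cn (lab · ∉ insert (lab i) T) n := (h2 k hk).trans
        (cn_mono n fun t e => by rw [e]; simp [hk1, hk2])
      have := en_sound (p := (lab · = lab i)) rfl n
        (fun t ht e => (tb_bm _ _ _).2 ⟨ht, e ▸ hi2⟩) 0 0 he (by
          have := hcap (lab i)
          rw [cd_eq]; split_ifs <;> omega)
      simp only [zero_add] at this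
      rw [cd_eq, if_pos (Nat.ble_eq ▸ h2 i hi1), s1, s2, Nat.add_sub_cancel_left,
        Nat.add_sub_cancel_left, mul_assoc, mul_comm _ (NN _),
        ← prod_insert (f := fun y => NN (cn (lab · = y) n)) hi2] at this
      refine ih _ _ (insert_subset hx hT) (fun B => ?_) this
      simp [hcs]

theorem goal_sy {n m c u K h : ℕ} (P : Par n m c u) (hh : h < 2 * n) {lab : ℕ → V}
    (hG : Goal n m c u K fun i => lab (sy n h i)) : Goal n m c u K lab := by
  obtain ⟨h1, h2, h3, h4, h5⟩ := grp n P.hi P.lo h hh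
  unfold Goal at hG ⊢
  refine Eq.trans ?_ hG
  rw [← (sum_perm h3 h4 fun g => ∑ j ∈ range m,
    (if ∀ x, bs n (fld c j) g (fun i => lab (sy n h i)) x % 5 = 0 then mu (fld u j) else 0)).2]
  congr 1
  · have : (range n).image (fun i => lab (sy n h i)) = (range n).image lab := by
      conv_rhs => rw [← (sum_perm h1 h2 fun _ => 0).1, image_image]
      rfl
    rw [this]
    congr 2
    refine prod_congr rfl fun x _ => congrArg NN ?_
    exact ((sum_perm h1 h2 fun i => if lab i = x then 1 else 0).2).symm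
  · refine sum_congr rfl fun g hg => sum_congr rfl fun j _ => if_congr ?_ rfl rfl
    refine forall_congr' fun x => ?_
    rw [bs, bs, ← (sum_perm h1 h2 _).2, sum_congr rfl fun i hi => by
      rw [h5 g (mem_range.1 hg) i (mem_range.1 hi)]]

theorem cvr_sound (n S : ℕ) (l : List ℕ) : ∀ a, (cvr n l a).testBit S = true →
    a.testBit S = true ∨ ∃ B ∈ l, ∃ h < 2 * n, act n h B = S := by
  induction l with
  | nil => exact fun a h => Or.inl h
  | cons B l ih =>
    intro a h
    have key : ∀ k, (Nat.rec a (fun h b => Nat.lor b (Nat.pow 2 (act n h B))) k : ℕ).testBit S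
        = true → a.testBit S = true ∨ ∃ h < k, act n h B = S := by
      intro k
      induction k with
      | zero => exact Or.inl
      | succ k ih =>
        intro h
        simp only [Nat.lor_eq, Nat.testBit_or, Nat.pow_eq, Nat.testBit_two_pow, Bool.or_eq_true,
          decide_eq_true_eq] at h ih
        rw [Nat.exists_lt_succ_right]
        exact h.elim (fun h => (ih h).imp_right Or.inl) fun h => Or.inr (Or.inr h)
    rcases ih _ h with h | ⟨B', hB, h⟩
    · exact (key _ h).imp_right fun h => ⟨B, List.mem_cons_self, h⟩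
    · exact Or.inr ⟨B', List.mem_cons_of_mem _ hB, h⟩

theorem goal_all {n m c u K : ℕ} (P : Par n m c u) {l : List ℕ} (hv : cover n l = true)
    (ht : ∀ B ∈ l, top n (ones m) c u K B = true)
    (h0 : leaf n (ones m) c u (K * NN n) [] = true) (lab : ℕ → V) : Goal n m c u K lab := by
  have hn := P.lo
  by_cases h2 : ∀ i < n, 2 ≤ cn (lab · = lab i) n
  swap
  · push Not at h2
    obtain ⟨i, hi, h2⟩ := h2
    have h1 : 1 ≤ cn (lab · = lab i) n := by
      have := single_le_sum (f := fun k => if lab k = lab i then 1 else 0)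
        (fun _ _ => Nat.zero_le _) (mem_range.2 hi)
      rwa [if_pos rfl] at this
    unfold Goal
    rw [prod_eq_zero (mem_image_of_mem lab (mem_range.2 hi))
      (by rw [show cn (lab · = lab i) n = 1 by omega]; rfl), sum_eq_zero]
    · simp
    · refine fun g _ => sum_eq_zero fun j _ => if_neg fun h => ?_
      have := sum_bd (lab · = lab i) n (fun i => dd (fld c j) (sy n g i)) fun _ => dd_le _ _
      have := h (lab i)
      unfold bs at this
      omega
  obtain ⟨i, hi, hmax⟩ := exists_max_image (range n) (fun i => cn (lab · = lab i) n)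
    ⟨0, mem_range.2 (by omega)⟩
  have hi := mem_range.1 hi
  have hcap : ∀ x, cn (lab · = x) n ≤ cn (lab · = lab i) n := fun x => by
    by_cases hx : ∃ k < n, lab k = x
    · obtain ⟨k, hk, rfl⟩ := hx
      exact hmax k (mem_range.2 hk)
    · rw [cn, sum_eq_zero fun k hk => if_neg fun e => hx ⟨k, mem_range.1 hk, e⟩]
      exact Nat.zero_le _
  by_cases hall : ∀ k < n, lab k = lab i
  · refine leaf_goal (T := ∅) (x := lab i) (cs := []) P (by simp) ?_ (by simp) ?_
    · ext y
      simp only [mem_image, mem_range, insert_empty_eq, mem_singleton]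
      exact ⟨fun ⟨k, hk, e⟩ => e ▸ hall k hk, fun e => ⟨i, hi, e.symm⟩⟩
    · rw [cn_congr (q := fun _ => True) fun k hk => by simp [hall k hk], cn_true]
      simpa using h0
  push Not at hall
  obtain ⟨k, hk, hk2⟩ := hall
  have sp := fun f : ℕ → V => bm_split (p := (f · = lab i)) (q := fun _ => True)
    (r := (f · ∉ ({lab i} : Finset V))) n (fun _ _ => trivial) (fun t => by simp)
  simp only [bm_true, cn_true] at sp
  have hr : 2 ≤ cn (lab · ∉ ({lab i} : Finset V)) n := (h2 k hk).trans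
    (cn_mono n fun t e => by rw [e]; simp [hk2])
  have := (rall_iff _ _).1 hv _ (bm_lt (lab · = lab i) n)
  simp only [orr_iff, tb_eq, st_eq, pc_bm, Nat.ble_eq] at this
  have hs := (sp lab).2
  have h2i := h2 i hi
  obtain ⟨B, hB, h, hh, e⟩ := (cvr_sound n _ l 0 (this.resolve_right (by omega))).resolve_left
    (by simp)
  obtain ⟨h1, hj, -⟩ := grp n P.hi P.lo h hh
  have hc : ∀ x, cn (fun t => lab (sy n h t) = x) n = cn (lab · = x) n := fun x =>
    (sum_perm h1 hj fun t => if lab t = x then 1 else 0).2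
  obtain ⟨t1, t2⟩ := (an_iff _ _).1 (ht B hB)
  have hB : B = bm (fun t => lab (sy n h t) = lab i) n := by
    apply Nat.eq_of_testBit_eq
    intro t
    rw [Bool.eq_iff_iff, tb_bm]
    by_cases htn : t < n
    · rw [← tb_act_sy P.hi P.lo hh htn, e, tb_bm]; simp [htn, h1 t htn]
    · rw [Nat.testBit_lt_two_pow ((Nat.le_of_ble_eq_true t1).trans
        (Nat.pow_le_pow_right (by norm_num) (by omega)))]
      simp [htn]
  refine goal_sy P hh (dfs_sound (cap := pc n B) P (fun t ht => hc _ ▸ h2 _ (h1 t ht))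
    (fun x => by rw [hB, pc_bm, hc, hc]; exact hcap x) 6 {lab i} [B] ?_ (by simp [hB]) ?_)
  · obtain ⟨t, ht, e⟩ := mem_image.1 ((sum_perm h1 hj fun _ => 0).1.ge (mem_range.2 hi))
    exact singleton_subset_iff.2 (mem_image.2 ⟨t, ht, by rw [e]⟩)
  · obtain ⟨s1, s2⟩ := sp fun t => lab (sy n h t)
    have t2 : dfs n (ones m) c u (pc n B) 6 (2 ^ n - 1 - B) (n - pc n B) (K * NN (pc n B)) [B]
      = true := t2
    rw [prod_singleton, ← pc_bm n (fun t => lab (sy n h t) = lab i), ← hB]
    rw [← pc_bm, ← hB] at s2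
    rw [← hB] at s1
    rwa [show bm _ n = 2 ^ n - 1 - B by omega, show cn _ n = n - pc n B by omega]

end Pool.Agent.MP_e6539c_co.P5.Cert

end MrgPart0

-- ======== part 1: formerly Pool.Agent.MP_e6539c_co.P5.CertF
section MrgPart1

/-! From the checks to the certificate. -/

set_option autoImplicit false

namespace Pool.Agent.MP_e6539c_co.P5.Cert

open Finset
open scoped Classical

variable {V : Type}

theorem sum_map_range {M : Type} [AddCommMonoid M] (f : ℕ → M) (n : ℕ) :
    ((List.range n).map f).sum = ∑ i ∈ range n, f i := by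
  induction n with
  | zero => simp
  | succ n ih => rw [List.range_succ, List.map_append, List.sum_append, ih, sum_range_succ]; simp

theorem sum_flat {α : Type} (F : ℕ → List α) (φ : α → ℤ) (n : ℕ) :
    (((List.range n).flatMap F).map φ).sum = ∑ g ∈ range n, ((F g).map φ).sum := by
  induction n with
  | zero => simp
  | succ n ih =>
    rw [List.range_succ, List.flatMap_append, List.map_append, List.sum_append, ih, sum_range_succ]
    simp

theorem push_range (x : V) (n : ℕ) : ∀ (lab : ℕ → V) (f : ℕ → Z5),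
    push ((List.range n).map lab) ((List.range n).map f) x =
      ∑ i ∈ range n, if lab i = x then f i else 0 := by
  induction n with
  | zero => intro lab f; simp [push]
  | succ n ih =>
    intro lab f
    rw [List.range_succ_eq_map, List.map_cons, List.map_cons, List.map_map, List.map_map, push,
      sum_range_succ']
    exact (add_comm _ _).trans (congrArg₂ _ (ih _ _) rfl)

theorem len_nzl (n : ℕ) : ∀ b ∈ nzl n, b.length = n := by
  induction n with
  | zero => simp [nzl]
  | succ n ih =>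
    intro b hb
    obtain ⟨a, ha, hb⟩ := List.mem_flatMap.1 hb
    have := ih a ha
    simp only [List.mem_cons, List.not_mem_nil, or_false] at hb
    rcases hb with rfl | rfl | rfl | rfl <;> simp [this]

/-- The number of nowhere-zero lists of length `k` with sum `s`. -/
noncomputable def AA (k : ℕ) (s : Z5) : ℤ := if s = 0 then (NP k).1 else (NP k).2

theorem AA_succ (k : ℕ) (s : Z5) :
    AA (k + 1) s = AA k (s - 1) + AA k (s - 2) + AA k (s - 3) + AA k (s - 4) := by
  have e : NP (k + 1) = (4 * (NP k).2, (NP k).1 + 3 * (NP k).2) := rfl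
  have hs : ∀ s : Z5, (s = 0 ∧ s - 1 ≠ 0 ∧ s - 2 ≠ 0 ∧ s - 3 ≠ 0 ∧ s - 4 ≠ 0) ∨
    (s ≠ 0 ∧ s - 1 = 0 ∧ s - 2 ≠ 0 ∧ s - 3 ≠ 0 ∧ s - 4 ≠ 0) ∨
    (s ≠ 0 ∧ s - 1 ≠ 0 ∧ s - 2 = 0 ∧ s - 3 ≠ 0 ∧ s - 4 ≠ 0) ∨
    (s ≠ 0 ∧ s - 1 ≠ 0 ∧ s - 2 ≠ 0 ∧ s - 3 = 0 ∧ s - 4 ≠ 0) ∨
    (s ≠ 0 ∧ s - 1 ≠ 0 ∧ s - 2 ≠ 0 ∧ s - 3 ≠ 0 ∧ s - 4 = 0) := by decide
  unfold AA
  rw [e]
  rcases hs s with h | h | h | h | h <;> obtain ⟨h0, h1, h2, h3, h4⟩ := h <;>
    simp only [h1, h2, h3, h4, if_true, if_false] <;> simp only [h0, if_true, if_false] <;>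
    push_cast <;> ring

theorem sum_nzl (φ : List Z5 → ℤ) (l : List (List Z5)) :
    ((l.flatMap fun b => [1 :: b, 2 :: b, 3 :: b, 4 :: b]).map φ).sum =
      (l.map fun b => φ (1 :: b)).sum + (l.map fun b => φ (2 :: b)).sum +
        (l.map fun b => φ (3 :: b)).sum + (l.map fun b => φ (4 :: b)).sum := by
  induction l with
  | nil => simp
  | cons a l ih =>
    rw [List.flatMap_cons, List.map_append, List.sum_append, ih]
    simp only [List.map_cons, List.sum_cons, List.map_nil, List.sum_nil]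
    ring

theorem count_nzl (U : Finset V) (n : ℕ) : ∀ (lab : ℕ → V) (t : V → Z5), (∀ i < n, lab i ∈ U) →
    (∀ x ∉ U, t x = 0) →
    ((nzl n).map fun b => if ∀ x, push ((List.range n).map lab) b x = t x then (1 : ℤ) else 0).sum
      = ∏ x ∈ U, AA (cn (lab · = x) n) (t x) := by
  induction n with
  | zero =>
    intro lab t _ ht
    have e : ∀ s, AA 0 s = if s = 0 then 1 else 0 := fun s => rfl
    simp only [nzl, List.map_cons, List.map_nil, List.sum_cons, List.sum_nil, add_zero, cn,
      range_zero, sum_empty, e, prod_boole, List.range_zero, push]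
    refine if_congr ⟨fun h x _ => (h x).symm, fun h x => ?_⟩ rfl rfl
    by_cases hx : x ∈ U
    · exact (h x hx).symm
    · exact (ht x hx).symm
  | succ n ih =>
    intro lab t hl ht
    have h0 := hl 0 (by omega)
    have key : ∀ y : Z5, ((nzl n).map fun b => if ∀ x, push ((List.range (n + 1)).map lab) (y :: b) x
        = t x then (1 : ℤ) else 0).sum = AA (cn (fun i => lab (i + 1) = lab 0) n) (t (lab 0) - y) *
        ∏ x ∈ U.erase (lab 0), AA (cn (lab · = x) (n + 1)) (t x) := by
      intro y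
      have := ih (fun i => lab (i + 1)) (fun x => t x - if lab 0 = x then y else 0)
        (fun i hi => hl _ (by omega))
        (fun x hx => by rw [ht x hx, if_neg fun e : lab 0 = x => hx (e ▸ h0), sub_zero])
      rw [← mul_prod_erase U _ h0, if_pos rfl] at this
      rw [prod_congr rfl fun x hx => (by
        simp only [cn, sum_range_succ', (ne_of_mem_erase hx).symm, if_false, add_zero, sub_zero] :
          AA (cn (lab · = x) (n + 1)) (t x) = AA (cn (fun i => lab (i + 1) = x) n) (t x - if lab 0 = x then y else 0)), ← this]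
      congr 1
      refine List.map_congr_left fun b _ => if_congr (forall_congr' fun x => ?_) rfl rfl
      rw [List.range_succ_eq_map, List.map_cons, List.map_map, push, eq_sub_iff_add_eq']
      rfl
    rw [nzl, sum_nzl, key, key, key, key, ← mul_prod_erase U _ h0,
      show cn (lab · = lab 0) (n + 1) = cn (fun i => lab (i + 1) = lab 0) n + 1 by
        simp only [cn, sum_range_succ', if_true], AA_succ]
    ring

theorem ext_sy {n g r : ℕ} (hn : 0 < n) (d : ℕ → Z5) (h0 : ∑ i ∈ range n, d i = 0)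
    (hr : ∀ i < n, ∑ t ∈ range i, d t ≠ r) : Ext ((List.range n).map fun i => d (sy n g i)) := by
  have per : ∀ k, ∑ t ∈ range (k + n), d (t % n) = ∑ t ∈ range k, d (t % n) := by
    intro k
    rw [add_comm, sum_range_add, sum_congr rfl fun t ht => by rw [Nat.mod_eq_of_lt (mem_range.1 ht)],
      h0]
    simp
  have av : ∀ k, ∑ t ∈ range k, d (t % n) ≠ r := by
    intro k
    induction k using Nat.strong_induction_on with
    | _ k ih =>
      by_cases hk : k < n
      · rw [sum_congr rfl fun t ht => by rw [Nat.mod_eq_of_lt ((mem_range.1 ht).trans hk)]]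
        exact hr k hk
      · obtain ⟨k, rfl⟩ : ∃ k', k = k' + n := ⟨k - n, by omega⟩
        rw [per]; exact ih k (by omega)
  have tk : ∀ i ≤ n, (((List.range n).map fun i => d (sy n g i)).take i).sum =
      ∑ t ∈ range i, d (sy n g t) := fun i hi => by
    rw [← List.map_take, List.take_range, min_eq_left hi, sum_map_range]
  unfold Ext
  simp only [List.length_map, List.length_range]
  by_cases hg : n ≤ g
  · have e : ∀ t, sy n g t = (g - t) % n := fun t => by
      rw [sy, cd_eq, if_pos (Nat.ble_eq ▸ hg)]; rfl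
    refine ⟨∑ t ∈ range (g + 1), d (t % n) - r, fun i hi => ?_⟩
    have : ∀ i ≤ n, ∑ t ∈ range i, d (sy n g t) + ∑ t ∈ range (g + 1 - i), d (t % n) =
        ∑ t ∈ range (g + 1), d (t % n) := by
      intro i
      induction i with
      | zero => simp
      | succ i ih =>
        intro hi
        rw [← ih (by omega), show g + 1 - i = g + 1 - (i + 1) + 1 by omega, sum_range_succ,
          sum_range_succ, e, show g + 1 - (i + 1) = g - i by omega]
        ring
    rw [tk i hi, ← this i hi]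
    intro h
    exact av (g + 1 - i) (by linear_combination -h)
  · have e : ∀ t, sy n g t = (g + t) % n := fun t => by
      rw [sy, cd_eq, if_neg (Nat.ble_eq ▸ hg)]; rfl
    refine ⟨r - ∑ t ∈ range g, d (t % n), fun i hi => ?_⟩
    rw [tk i hi]
    intro h
    refine av (g + i) ?_
    rw [sum_range_add]
    simp only [e] at h
    linear_combination h

theorem ps_eq (c i : ℕ) : ps c i = ∑ t ∈ range i, dd c t := by
  induction i with
  | zero => rfl
  | succ i ih => rw [sum_range_succ, ← ih]; rfl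

theorem cast5 (a : ℕ) : (a : Z5) = 0 ↔ a % 5 = 0 := by
  rw [ZMod.natCast_eq_zero_iff, Nat.dvd_iff_mod_eq_zero]

theorem certAt {n m c u K : ℕ} {l : List ℕ} (h5 : 5 ≤ n) (h12 : n < 12)
    (hs : side n m c u K = true) (hv : cover n l = true)
    (ht : ∀ B ∈ l, top n (ones m) c u K B = true) : CertAt n := by
  simp only [side, an_iff, Nat.ble_eq, rall_iff, st_eq] at hs
  obtain ⟨⟨⟨hK, hm⟩, hu⟩, h0, hok⟩ := hs
  simp only [ok, an_iff, orr_iff, Nat.ble_eq, Nat.beq_eq, rany_iff, rall_iff, ps_eq, cd_eq] at hok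
  have P : Par n m c u := ⟨h5, h12, hu, hm, fun j hj => by
    have h1 := fld_lt u j
    have h2 := (hok j hj).2
    have hP : PP = 17592186044415 := rfl
    rw [mu, abs_le, hP]
    rw [hP, Nat.add_eq] at h2
    split_ifs <;> omega, fun j hj => (hok j hj).1⟩
  refine ⟨K, (List.range (2 * n)).flatMap fun g => (List.range m).map fun j =>
    (mu (fld u j), (List.range n).map fun i => (dd (fld c j) (sy n g i) : Z5)), hK, ?_, ?_⟩
  · intro p hp
    simp only [List.mem_flatMap, List.mem_map, List.mem_range] at hp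
    obtain ⟨g, hg, j, hj, rfl⟩ := hp
    obtain ⟨h1, h2, -⟩ := grp n h12 h5 g hg
    have hz : ∑ i ∈ range n, (dd (fld c j) i : Z5) = 0 := by
      rw [← Nat.cast_sum, cast5]; exact P.hs j hj
    refine ⟨by simp, ?_, ?_⟩
    · rw [sum_map_range, (sum_perm h1 h2 fun i => (dd (fld c j) i : Z5)).2, hz]
    · rcases (hok j hj).2 with h | ⟨-, r, hr, h⟩
      · left; simp [mu, h]
      · refine Or.inr (ext_sy (r := r) (by omega) (fun i => (dd (fld c j) i : Z5)) hz fun i hi e => ?_)
        have := h i hi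
        rw [← Nat.cast_sum, ZMod.natCast_eq_natCast_iff', Nat.mod_eq_of_lt hr] at e
        rw [if_pos (by exact e)] at this
        exact Bool.noConfusion this
  · intro V τ hτ
    obtain ⟨lab, rfl⟩ : ∃ lab : ℕ → V, τ = (List.range n).map lab := by
      refine ⟨fun i => τ.getD i (τ[0]'(by omega)), List.ext_getElem (by simp [hτ]) ?_⟩
      intro i h1 h2
      simp [h1]
    refine Eq.trans ?_ (goal_all P hv ht h0 lab)
    congr 1
    · have := count_nzl ((range n).image lab) n lab (fun _ => 0)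
        (fun i hi => mem_image_of_mem _ (mem_range.2 hi)) fun _ _ => rfl
      rw [Nat.cast_mul, Nat.cast_prod]
      congr 1
      refine Eq.trans (congrArg List.sum (List.map_congr_left fun b hb => ?_)) (this.trans ?_)
      · simp [chi, len_nzl n b hb]
      · simp [AA, NN]
    · rw [sum_flat]
      refine sum_congr rfl fun g _ => ?_
      rw [List.map_map, sum_map_range]
      refine sum_congr rfl fun j _ => ?_
      simp only [Function.comp, chi, List.length_map, true_and, push_range, mul_ite, mul_one,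
        mul_zero]
      refine if_congr (forall_congr' fun x => ?_) rfl rfl
      rw [← cast5, bs]
      push_cast
      rfl

end Pool.Agent.MP_e6539c_co.P5.Cert

end MrgPart1

-- ======== part 2: formerly Pool.Agent.MP_e6539c_co.P5.Basic3
section MrgPart2

/-! Frames, crosses and edge vectors. -/

set_option autoImplicit false

namespace Pool.Agent.MP_e6539c_co.P5

open Finset
open Pool.Agent.MP_7be75d_co (R Conn comp)
open Pool.Agent.MP_7be75d_co
open scoped Classical

variable {V : Type} {H : SimpleGraph V} {L L' : List V}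

theorem Fr.rot {x y : V} (h : Fr L x y) (r : L ~r L') : Fr L' x y := by
  obtain ⟨M, h⟩ := h
  exact ⟨M, r.symm.trans h⟩

theorem Fr.left {x y : V} (h : Fr L x y) : x ∈ L := by
  obtain ⟨M, h⟩ := h
  exact h.mem_iff.2 (by simp)

theorem Fr.right {x y : V} (h : Fr L x y) : y ∈ L := by
  obtain ⟨M, h⟩ := h
  exact h.mem_iff.2 (by simp)

theorem rot_iff : L ~r L' ↔ ∃ A B, L = A ++ B ∧ L' = B ++ A := by
  constructor
  · intro h
    obtain ⟨n, hn, rfl⟩ := List.isRotated_iff_mod.1 h
    exact ⟨L.take n, L.drop n, by simp, List.rotate_eq_drop_append_take hn⟩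
  · rintro ⟨A, B, rfl, rfl⟩
    exact List.isRotated_append

/-- Consecutive vertices of a cyclic list. -/
theorem fr_iff {x y : V} :
    Fr L x y ↔ (∃ A B, L = A ++ x :: y :: B) ∨ ∃ M, L = y :: (M ++ [x]) := by
  constructor
  · rintro ⟨M, h⟩
    obtain ⟨A, B, rfl, e⟩ := rot_iff.1 h
    match B, e with
    | [], e => exact Or.inl ⟨[], M, by simpa using e.symm⟩
    | [b], e =>
      simp only [List.cons_append, List.nil_append, List.cons.injEq] at e
      obtain ⟨rfl, rfl⟩ := e
      exact Or.inr ⟨M, by simp⟩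
    | b :: b' :: B, e =>
      simp only [List.cons_append, List.cons.injEq] at e
      obtain ⟨rfl, rfl, -⟩ := e
      exact Or.inl ⟨A, B, rfl⟩
  · rintro (⟨A, B, rfl⟩ | ⟨M, rfl⟩)
    · exact ⟨B ++ A, rot_iff.2 ⟨A, x :: y :: B, rfl, by simp⟩⟩
    · exact ⟨M, rot_iff.2 ⟨y :: M, [x], by simp, by simp⟩⟩

/-- Consecutive vertices by index. -/
theorem fr_iff_get {x y : V} (h2 : 2 ≤ L.length) :
    Fr L x y ↔ ∃ i, i < L.length ∧ L[i]? = some x ∧ L[(i + 1) % L.length]? = some y := by
  rw [fr_iff]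
  constructor
  · rintro (⟨A, B, rfl⟩ | ⟨M, rfl⟩)
    · refine ⟨A.length, by simp, by simp, ?_⟩
      rw [Nat.mod_eq_of_lt (by simp), List.getElem?_append_right (by omega)]
      simp
    · exact ⟨M.length + 1, by simp, by simp, by simp⟩
  · rintro ⟨i, hi, a, b⟩
    by_cases h : i + 1 < L.length
    · rw [Nat.mod_eq_of_lt h] at b
      refine Or.inl ⟨L.take i, L.drop (i + 2), ?_⟩
      rw [List.getElem?_eq_some_iff] at a b
      obtain ⟨_, rfl⟩ := a
      obtain ⟨_, rfl⟩ := b
      rw [← List.drop_eq_getElem_cons, ← List.drop_eq_getElem_cons, List.take_append_drop]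
    · have e : i + 1 = L.length := by omega
      rw [e, Nat.mod_self] at b
      right
      match L, h2 with
      | z :: w :: M, _ =>
        obtain rfl : z = y := by simpa using b
        refine ⟨(w :: M).dropLast, ?_⟩
        have : i = M.length + 1 := by simpa using e
        subst this
        have a' : (w :: M).getLast (by simp) = x := by
          rw [List.getLast_eq_getElem]
          simpa using a
        rw [← a', List.dropLast_append_getLast]

/-- A chain closed by an edge is a frame. -/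
theorem frame_of {a b : V} {M : List V} (nd : (a :: (M ++ [b])).Nodup) (hM : M ≠ [])
    (ch : (a :: (M ++ [b])).IsChain H.Adj) (cl : H.Adj b a) : Frame H (a :: (M ++ [b])) := by
  refine ⟨nd, ?_, fun x y h => ?_⟩
  · have := List.length_pos_iff.2 hM
    simp only [List.length_cons, List.length_append, List.length_nil]
    omega
  · rcases fr_iff.1 h with ⟨A, B, e⟩ | ⟨N, e⟩
    · rw [e, List.isChain_append_cons_cons] at ch
      exact ch.2.1
    · simp only [List.cons.injEq] at e
      obtain ⟨rfl, e⟩ := e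
      obtain rfl : b = x := by simpa using (List.append_inj' e rfl).2
      exact cl

theorem Frame.chain (h : Frame H L) : L.IsChain H.Adj := by
  rw [List.isChain_iff_forall_rel_of_append_cons_cons]
  intro a b l₁ l₂ e
  exact h.adj a b (fr_iff.2 (Or.inl ⟨l₁, l₂, e⟩))

theorem Frame.rot (h : Frame H L) (r : L ~r L') : Frame H L' :=
  ⟨r.nodup_iff.1 h.nd, r.perm.length_eq ▸ h.len, fun x y f => h.adj x y (f.rot r.symm)⟩

theorem Cross.rot (h : Cross H L) (r : L ~r L') : Cross H L' := by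
  obtain ⟨x, u, y, v, M, X₁, X₂, a, b, c, d, e, f, g⟩ := h
  exact ⟨x, u, y, v, M, X₁, X₂, r.symm.trans a, b, c, d, e, fun z => by rw [← r.mem_iff]; exact f z,
    fun z => by rw [← r.mem_iff]; exact g z⟩

theorem Cross.mono {H' : SimpleGraph V} (h : Cross H L) (hH : H ≤ H') : Cross H' L := by
  obtain ⟨x, u, y, v, M, X₁, X₂, a, b, c, d, e, f, g⟩ := h
  exact ⟨x, u, y, v, M, X₁, X₂, a, b, c.mono' fun _ _ h _ _ => hH h,
    d.mono' fun _ _ h _ _ => hH h, e, f, g⟩

theorem cross_mk {x u y v : V} {X₁ X₂ : Finset V} (s : List.Sublist [x, u, y, v] L)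
    (c₁ : Conn H X₁) (c₂ : Conn H X₂) (d : Disjoint X₁ X₂)
    (h₁ : ∀ z, (z ∈ X₁ ∧ z ∈ L) ↔ (z = x ∨ z = y))
    (h₂ : ∀ z, (z ∈ X₂ ∧ z ∈ L) ↔ (z = u ∨ z = v)) : Cross H L :=
  ⟨x, u, y, v, L, X₁, X₂, List.IsRotated.refl _, s, c₁, c₂, d, h₁, h₂⟩

/-- A cross can be read off the list itself. -/
theorem Cross.norm (h : Cross H L) : ∃ (x u y v : V) (X₁ X₂ : Finset V),
    List.Sublist [x, u, y, v] L ∧ Conn H X₁ ∧ Conn H X₂ ∧ Disjoint X₁ X₂ ∧
    (∀ z, (z ∈ X₁ ∧ z ∈ L) ↔ (z = x ∨ z = y)) ∧ ∀ z, (z ∈ X₂ ∧ z ∈ L) ↔ (z = u ∨ z = v) := by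
  obtain ⟨x, u, y, v, M, X₁, X₂, a, b, c, d, e, f, g⟩ := h
  obtain ⟨A, B, rfl, rfl⟩ := rot_iff.1 a
  obtain ⟨l₁, l₂, e', s1, s2⟩ := List.sublist_append_iff.1 b
  have s := s2.append s1
  have f' : ∀ z, (z ∈ X₁ ∧ z ∈ A ++ B) ↔ (z = y ∨ z = x) := fun z => (f z).trans or_comm
  have g' : ∀ z, (z ∈ X₂ ∧ z ∈ A ++ B) ↔ (z = v ∨ z = u) := fun z => (g z).trans or_comm
  match l₁, e' with
  | [], e' =>
    obtain rfl : [x, u, y, v] = l₂ := e'
    exact ⟨x, u, y, v, X₁, X₂, s, c, d, e, f, g⟩
  | [_], e' =>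
    simp only [List.cons_append, List.nil_append, List.cons.injEq] at e'
    obtain ⟨rfl, rfl⟩ := e'
    exact ⟨u, y, v, x, X₂, X₁, s, d, c, e.symm, g, f'⟩
  | [_, _], e' =>
    simp only [List.cons_append, List.nil_append, List.cons.injEq] at e'
    obtain ⟨rfl, rfl, rfl⟩ := e'
    exact ⟨y, v, x, u, X₁, X₂, s, c, d, e, f', g'⟩
  | [_, _, _], e' =>
    simp only [List.cons_append, List.nil_append, List.cons.injEq] at e'
    obtain ⟨rfl, rfl, rfl, rfl⟩ := e'
    exact ⟨v, x, u, y, X₂, X₁, s, d, c, e.symm, g', f⟩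
  | _ :: _ :: _ :: _ :: l, e' =>
    simp only [List.cons_append, List.cons.injEq, List.nil_eq, List.append_eq_nil_iff] at e'
    obtain ⟨rfl, rfl, rfl, rfl, rfl, rfl⟩ := e'
    exact ⟨x, u, y, v, X₁, X₂, s, c, d, e, f, g⟩

theorem fr_four {t : Fin 4 → V} {x y : V} (h : Fr [t 0, t 1, t 2, t 3] x y) :
    ∃ i, x = t i ∧ y = t (i + 1) := by
  obtain ⟨i, hi, a, b⟩ := (fr_iff_get (by simp)).1 h
  simp only [List.length_cons, List.length_nil] at hi a b
  interval_cases i <;> simp at a b
  exacts [⟨0, a.symm, b.symm⟩, ⟨1, a.symm, b.symm⟩, ⟨2, a.symm, b.symm⟩, ⟨3, a.symm, b.symm⟩]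

theorem fr_four' (t : Fin 4 → V) (i : Fin 4) : Fr [t 0, t 1, t 2, t 3] (t i) (t (i + 1)) := by
  refine (fr_iff_get (by simp)).2 ⟨i, by simp, ?_⟩
  fin_cases i <;> simp

theorem cov_union_le (F F' : Finset (Vec V)) (e : Sym2 V) :
    cov (F ∪ F') e ≤ cov F e + cov F' e := by
  unfold cov
  rw [filter_union]
  exact card_union_le _ _

theorem cov_eq_zero {F : Finset (Vec V)} {e : Sym2 V} (h : ∀ f ∈ F, f e = 0) : cov F e = 0 := by
  unfold cov
  rw [card_eq_zero, filter_eq_empty_iff]
  exact fun f hf => not_not.2 (h f hf)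

theorem cov_insert_le (f : Vec V) (F : Finset (Vec V)) (e : Sym2 V) :
    cov (insert f F) e ≤ cov F e + if f e = 0 then 0 else 1 := by
  unfold cov
  rw [filter_insert]
  by_cases h : f e = 0
  · simp [h]
  · simpa [h] using card_insert_le _ _

theorem ncard_lt {H' : SimpleGraph V} [Finite V] (hle : H' ≤ H) {a b : V} (h : H.Adj a b)
    (h' : ¬ H'.Adj a b) : H'.edgeSet.ncard < H.edgeSet.ncard :=
  Set.ncard_lt_ncard ⟨SimpleGraph.edgeSet_mono hle, fun c => h' (c (show s(a, b) ∈ _ from h))⟩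
    (Set.toFinite _)

variable [Fintype V]

theorem FC.rot (h : FC H L) (r : L ~r L') : FC H L' :=
  fun Z a b c hz => h Z a b c fun z m k => hz z m (r.mem_iff.1 k)

theorem Basis.rot {F : Finset (Vec V)} (h : Basis H L F) (r : L ~r L') : Basis H L' F :=
  ⟨h.ev, h.two, fun x y f => h.one x y (f.rot r.symm), h.span⟩

/-! ### Edge vectors -/

omit [Fintype V] in
theorem z2_add_self (x : Vec V) : x + x = 0 := by
  funext e
  exact CharTwo.add_self_eq_zero (x e)

theorem z2_ne {a : ZMod 2} : a ≠ 0 ↔ a = 1 := by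
  revert a; decide

theorem par_add (x y : Vec V) (v : V) : par (x + y) v = par x v + par y v := by
  simp [par, sum_add_distrib]

theorem par_smul (c : ZMod 2) (x : Vec V) (v : V) : par (c • x) v = c * par x v := by
  simp [par, mul_sum]

theorem par_zero (v : V) : par (0 : Vec V) v = 0 := by simp [par]

theorem par_sum {ι : Type} (s : Finset ι) (x : ι → Vec V) (v : V) :
    par (∑ i ∈ s, x i) v = ∑ i ∈ s, par (x i) v := by
  simp only [par, Finset.sum_apply]
  exact sum_comm

/-- The vector of a single edge. -/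
noncomputable def ed (a b : V) : Vec V := fun e => if e = s(a, b) then 1 else 0

theorem par_ed {a b : V} (h : a ≠ b) (v : V) :
    par (ed a b) v = (if v = a then 1 else 0) + (if v = b then 1 else 0) := by
  unfold par ed
  by_cases h1 : v = a
  · subst h1
    simp [h]
  · by_cases h2 : v = b
    · subst h2
      simp [h1]
    · simp [h1, h2]

/-- The sum of the parities over a set counts the edges that leave it. -/
theorem sum_par_closed {x : Vec V} (hd : ∀ v, x s(v, v) = 0) (S : Finset V) :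
    ∑ v ∈ S, par x v = ∑ v ∈ S, ∑ w ∈ univ \ S, x s(v, w) := by
  have h0 : ∑ v ∈ S, ∑ w ∈ S, x s(v, w) = 0 := by
    rw [← sum_product']
    refine sum_involution (fun p _ => p.swap) (fun p _ => ?_) (fun p _ h e => h ?_)
      (fun p hp => by simpa [and_comm] using hp) (fun p _ => by simp)
    · rw [Prod.fst_swap, Prod.snd_swap, Sym2.eq_swap]
      exact CharTwo.add_self_eq_zero _
    · have : p.2 = p.1 := congrArg Prod.fst e
      rw [this, hd]
  have : ∀ v, par x v = ∑ w ∈ univ \ S, x s(v, w) + ∑ w ∈ S, x s(v, w) :=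
    fun v => (sum_sdiff (subset_univ S)).symm
  rw [sum_congr rfl fun v _ => this v, sum_add_distrib, h0, add_zero]

theorem sum_par {x : Vec V} (hd : ∀ v, x s(v, v) = 0) : ∑ v, par x v = 0 := by
  simpa using sum_par_closed hd univ

theorem Ev.diag {x : Vec V} (h : Ev H x) (v : V) : x s(v, v) = 0 := by
  by_contra hc
  exact (h.1 v v hc).ne rfl

theorem Ev.add {x y : Vec V} (h : Ev H x) (h' : Ev H y) : Ev H (x + y) := by
  refine ⟨fun u v c => ?_, fun v => by rw [par_add, h.2, h'.2, add_zero]⟩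
  by_cases e : x s(u, v) = 0
  · exact h'.1 u v (by simpa [e] using c)
  · exact h.1 u v e

theorem Ev.mono {H' : SimpleGraph V} {x : Vec V} (h : Ev H x)
    (hH : ∀ u v, x s(u, v) ≠ 0 → H.Adj u v → H'.Adj u v) : Ev H' x :=
  ⟨fun u v c => hH u v c (h.1 u v c), h.2⟩

/-- A vertex on an edge of an even set is on a second one. -/
theorem second_edge {x : Vec V} {u v : V} (h : par x u = 0) (c : x s(u, v) ≠ 0) :
    ∃ w, w ≠ v ∧ x s(u, w) ≠ 0 := by
  by_contra hc
  push Not at hc
  apply c
  rw [← h, par, sum_eq_single v (fun w _ hw => hc w hw) (by simp)]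

/-- The vector of the walk `f i, …, f j`. -/
noncomputable def pv (f : ℕ → V) (i j : ℕ) : Vec V := ∑ t ∈ Ico i j, ed (f t) (f (t + 1))

theorem par_pv {f : ℕ → V} {i j : ℕ} (hij : i ≤ j)
    (hA : ∀ t, i ≤ t → t < j → f t ≠ f (t + 1)) (v : V) :
    par (pv f i j) v = (if v = f i then 1 else 0) + (if v = f j then 1 else 0) := by
  induction hij with
  | refl => simp [pv, par_zero, CharTwo.add_self_eq_zero]
  | @step j h ih =>
    have h : i ≤ j := h
    rw [pv, sum_Ico_succ_top h, par_add, ← pv, ih fun t a b => hA t a (by omega),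
      par_ed (hA j h (by omega)), add_assoc, ← add_assoc (if v = f j then _ else _),
      CharTwo.add_self_eq_zero, zero_add]

omit [Fintype V] in
theorem pv_supp {f : ℕ → V} {i j : ℕ} {e : Sym2 V} (h : pv f i j e ≠ 0) :
    ∃ t, i ≤ t ∧ t < j ∧ e = s(f t, f (t + 1)) := by
  by_contra hc
  push Not at hc
  apply h
  rw [pv, Finset.sum_apply]
  refine sum_eq_zero fun t ht => ?_
  rw [mem_Ico] at ht
  simp [ed, hc t ht.1 ht.2]

omit [Fintype V] in
theorem pv_edge {f : ℕ → V} {i j t : ℕ} (h1 : i ≤ t) (h2 : t < j)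
    (inj : ∀ a, i ≤ a → a ≤ j → ∀ b, i ≤ b → b ≤ j → f a = f b → a = b) :
    pv f i j s(f t, f (t + 1)) = 1 := by
  rw [pv, Finset.sum_apply, sum_eq_single t]
  · simp [ed]
  · intro s hs hne
    rw [mem_Ico] at hs
    simp only [ed, ite_eq_right_iff, Sym2.eq_iff]
    rintro (⟨a, -⟩ | ⟨a, b⟩)
    · exact absurd (inj _ h1 (by omega) _ hs.1 (by omega) a).symm hne
    · have := inj _ h1 (by omega) _ (by omega) (by omega) a
      have := inj _ (by omega) (by omega) _ hs.1 (by omega) b
      omega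
  · intro h
    exact absurd (mem_Ico.2 ⟨h1, h2⟩) h

/-- The vector of a walk inside `S`. -/
theorem vec_of_R {S : Finset V} {a b : V} (h : R H S a b) : ∃ x : Vec V,
    (∀ u v, x s(u, v) ≠ 0 → H.Adj u v ∧ u ∈ S ∧ v ∈ S) ∧
    ∀ v, par x v = (if v = a then 1 else 0) + (if v = b then 1 else 0) := by
  refine h.ind (P := fun b => ∃ x : Vec V, (∀ u v, x s(u, v) ≠ 0 → H.Adj u v ∧ u ∈ S ∧ v ∈ S) ∧
    ∀ v, par x v = (if v = a then 1 else 0) + (if v = b then 1 else 0))
    ⟨0, by simp, fun v => by rw [par_zero, CharTwo.add_self_eq_zero]⟩ ?_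
  rintro p q - ⟨x, x1, x2⟩ e hp hq
  refine ⟨x + ed p q, fun u v c => ?_, fun v => ?_⟩
  · by_cases k : x s(u, v) = 0
    · have : s(u, v) = s(p, q) := by
        by_contra t
        exact c (by rw [Pi.add_apply, k, ed, if_neg t, add_zero])
      rcases Sym2.eq_iff.1 this with ⟨rfl, rfl⟩ | ⟨rfl, rfl⟩
      exacts [⟨e, hp, hq⟩, ⟨e.symm, hq, hp⟩]
    · exact x1 u v k
  · rw [par_add, x2, par_ed e.ne, add_assoc, ← add_assoc (if v = p then _ else _),
      CharTwo.add_self_eq_zero, zero_add]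

/-! ### The part that reaches `M` -/

section PQ

variable {M : List V} {k : ℕ} {q : ℕ → V}

omit [Fintype V] in
theorem mem_qs {x : V} : x ∈ qs k q ↔ ∃ i ≤ k, q i = x := by
  simp [qs]

theorem mem_KK {v : V} : v ∈ KK H M k q ↔ ∃ m ∈ M, R H (univ \ qs k q) m v := by simp [KK]

theorem KK_of_M {m : V} (h : m ∈ M) : m ∈ KK H M k q := mem_KK.2 ⟨m, h, R.refl⟩

omit [Fintype V] in
theorem PQ.M_off (h : PQ H M k q) {m : V} (hm : m ∈ M) : m ∉ qs k q := fun c => by
  obtain ⟨i, hi, rfl⟩ := mem_qs.1 c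
  exact h.off i hi hm

omit [Fintype V] in
theorem PQ.M_ne (h : PQ H M k q) : M ≠ [] := by
  rintro rfl
  simpa using h.fr.len

theorem PQ.KK_off (h : PQ H M k q) {v : V} (hv : v ∈ KK H M k q) : v ∉ qs k q := by
  obtain ⟨m, hm, r⟩ := mem_KK.1 hv
  simpa using r.mem (by simpa using h.M_off hm)

theorem PQ.KK_closed (h : PQ H M k q) {v w : V} (hv : v ∈ KK H M k q) (a : H.Adj v w)
    (hw : w ∉ qs k q) : w ∈ KK H M k q := by
  have := h.KK_off hv
  obtain ⟨m, hm, r⟩ := mem_KK.1 hv
  exact mem_KK.2 ⟨m, hm, r.tail a (by simpa using this) (by simpa using hw)⟩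

theorem PQ.KK_reach (h : PQ H M k q) {v : V} (hv : v ∈ KK H M k q) :
    ∃ m ∈ M, R H (KK H M k q) m v := by
  obtain ⟨m, hm, r⟩ := mem_KK.1 hv
  exact ⟨m, hm, (r.closed (S := KK H M k q) (KK_of_M hm) fun x hx y hy _ a =>
    h.KK_closed hx a (by simpa using hy)).2.mono inter_subset_right⟩

/-- A connected set off the path lies inside or outside `KK`. -/
theorem PQ.KK_or (h : PQ H M k q) {U : Finset V} (c : Conn H U) (d : Disjoint U (qs k q)) :
    U ⊆ KK H M k q ∨ Disjoint U (KK H M k q) := by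
  by_cases e : Disjoint U (KK H M k q)
  · exact Or.inr e
  · obtain ⟨a, a1, a2⟩ := not_disjoint_iff.1 e
    exact Or.inl (c.subset_of_closed a1 a2 fun x hx y hy _ b =>
      h.KK_closed hx b (disjoint_left.1 d hy))

end PQ

end Pool.Agent.MP_e6539c_co.P5

end MrgPart2

-- ======== part 3: formerly Pool.Agent.MP_e6539c_co.P5.Link
section MrgPart3

/-! The case distinction of the two paths theorem. -/

set_option autoImplicit false

namespace Pool.Agent.MP_e6539c_co.P5

open Finset
open Pool.Agent.MP_7be75d_co (R Conn comp)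
open Pool.Agent.MP_7be75d_co
open scoped Classical

namespace Link

variable {V : Type} {H : SimpleGraph V} {L : List V}

/-- A connected set off the frame that joins `x` and `y`. -/
def Br (H : SimpleGraph V) (L : List V) (x y : V) : Prop :=
  ∃ U, Conn H U ∧ (∀ u ∈ U, u ∉ L) ∧ Act H U x ∧ Act H U y

/-- A chord or a bridge. -/
def Lk (H : SimpleGraph V) (L : List V) (x y : V) : Prop :=
  (H.Adj x y ∧ ¬ Fr L x y ∧ ¬ Fr L y x) ∨ Br H L x y

theorem Lk.symm {x y : V} (h : Lk H L x y) : Lk H L y x := by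
  rcases h with ⟨a, b, c⟩ | ⟨U, a, b, c, d⟩
  · exact Or.inl ⟨a.symm, c, b⟩
  · exact Or.inr ⟨U, a, b, d, c⟩

theorem body {x y : V} (h : H.Adj x y ∨ Br H L x y) : ∃ U : Finset V,
    Conn H (insert x (insert y U)) ∧ (∀ u ∈ U, u ∉ L) ∧
      (U.Nonempty → Conn H U ∧ Act H U x ∧ Act H U y) := by
  rcases h with h | ⟨U, a, b, ⟨w, hw, c⟩, ⟨w', hw', d⟩⟩
  · exact ⟨∅, by simpa using Conn.pair h, by simp, by simp⟩
  · exact ⟨U, (a.insert hw' d.symm).insert (mem_insert_of_mem hw) c.symm, b,
      fun _ => ⟨a, ⟨w, hw, c⟩, ⟨w', hw', d⟩⟩⟩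

theorem rot_swap (x y : V) (I J : List V) : x :: (I ++ y :: J) ~r y :: (J ++ x :: I) :=
  rot_iff.2 ⟨x :: I, y :: J, by simp, by simp⟩

theorem exists_rot {x y : V} (hx : x ∈ L) (hy : y ∈ L) (h : x ≠ y) :
    ∃ I J, L ~r x :: (I ++ y :: J) := by
  obtain ⟨A, B, rfl⟩ := List.append_of_mem hx
  have : y ∈ B ++ A := by
    simp only [List.mem_append, List.mem_cons] at hy ⊢
    rcases hy with k | k | k
    exacts [Or.inr k, absurd k.symm h, Or.inl k]
  obtain ⟨I, J, e⟩ := List.append_of_mem this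
  exact ⟨I, J, rot_iff.2 ⟨A, x :: B, rfl, by simp [← e]⟩⟩

variable [Fintype V]

/-- Behind a cut of one vertex some vertex has degree at most one. -/
theorem pend (hD : DimStmt) (hF : FC H L) {Z : Finset V} {y : V} (hZ : Z.Nonempty)
    (off : ∀ z ∈ Z, z ∉ L) (bd : Bd3 H Z y y y) (h2 : ∀ z ∈ Z, 2 ≤ dg H univ z) : False := by
  let K : SimpleGraph V :=
    { Adj := fun u v => H.Adj u v ∧ (u ∈ Z ∨ v ∈ Z)
      symm := ⟨fun _ _ h => ⟨h.1.symm, h.2.symm⟩⟩
      loopless := ⟨fun _ h => h.1.ne rfl⟩ }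
  let W : Finset V := univ.filter fun w => ∃ z, K.Adj w z
  have dZ : ∀ z ∈ Z, 2 ≤ K.degree z := fun z hz => by
    refine (h2 z hz).trans (card_le_card fun w hw => ?_)
    rw [SimpleGraph.mem_neighborFinset]
    exact ⟨(mem_filter.1 hw).2, Or.inl hz⟩
  have dW : ∀ w ∈ W, 2 ≤ K.degree w + if w = y then 1 else 0 := fun w hw => by
    obtain ⟨z, hz⟩ := (mem_filter.1 hw).2
    by_cases e : w ∈ Z
    · exact (dZ w e).trans (Nat.le_add_right _ _)
    · have hzZ : z ∈ Z := hz.2.resolve_left e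
      have : w = y := by
        have := bd z hzZ w hz.1.symm
        tauto
      have p : 0 < K.degree w := (K.degree_pos_iff_exists_adj w).2 ⟨z, hz⟩
      rw [if_pos this]
      omega
  have ne : W.Nonempty := by
    obtain ⟨z, hz⟩ := hZ
    have p : 0 < K.degree z := by have := dZ z hz; omega
    exact ⟨z, mem_filter.2 ⟨mem_univ _, (K.degree_pos_iff_exists_adj z).1 p⟩⟩
  have s1 : W.card * 2 ≤ ∑ w ∈ W, (K.degree w + if w = y then 1 else 0) :=
    card_nsmul_le_sum W _ 2 dW
  have s2 : ∑ w ∈ W, (if w = y then 1 else 0) ≤ 1 := by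
    rw [sum_ite_eq']
    split_ifs <;> omega
  have s3 : ∑ w ∈ W, K.degree w ≤ ∑ w, K.degree w := sum_le_sum_of_subset (subset_univ _)
  have s4 := K.sum_degrees_eq_twice_card_edges
  have s5 := hD V K.edgeFinset W ∅ ne (fun u v h => by
    have h : K.Adj u v := by simpa using h
    exact ⟨h.ne, mem_filter.2 ⟨mem_univ _, v, h⟩, mem_filter.2 ⟨mem_univ _, u, h.symm⟩⟩)
    (fun x a b => by
      have k : ∀ u v, x s(u, v) ≠ 0 → K.Adj u v := fun u v c => by simpa using a _ c
      rw [hF Z y y y off bd x ⟨fun u v c => (k u v c).1, b⟩ fun u v c => (k u v c).2]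
      exact Submodule.zero_mem _)
  rw [sum_add_distrib] at s1
  rw [card_empty] at s5
  omega

theorem exists_lk (hD : DimStmt) (hF : FC H L) {u v : V} (a : H.Adj u v) (hv : v ∉ L)
    (np : ∀ v ∉ L, ∀ p, ¬ ∀ w, H.Adj v w ↔ w = p) : ∃ x ∈ L, ∃ y ∈ L, x ≠ y ∧ Br H L x y := by
  have hv' : v ∈ univ \ L.toFinset := by simpa using hv
  have c := comp_conn (G := H) hv'
  have off : ∀ z ∈ comp H (univ \ L.toFinset) v, z ∉ L := fun z hz => by
    simpa using comp_subset hz
  by_contra hc
  have one : ∀ x ∈ L, ∀ y ∈ L, Act H (comp H (univ \ L.toFinset) v) x →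
      Act H (comp H (univ \ L.toFinset) v) y → x = y := fun x hx y hy p q => by
    by_contra e
    exact hc ⟨x, hx, y, hy, e, _, c, off, p, q⟩
  obtain ⟨y, hy⟩ : ∃ y, ∀ x ∈ L, Act H (comp H (univ \ L.toFinset) v) x → x = y := by
    by_cases e : ∃ y ∈ L, Act H (comp H (univ \ L.toFinset) v) y
    · obtain ⟨y, p, q⟩ := e
      exact ⟨y, fun x hx r => one x hx y p r q⟩
    · exact ⟨v, fun x hx r => absurd ⟨x, hx, r⟩ e⟩
  refine pend hD hF (y := y) c.1 off (fun z hz w b => ?_) fun z hz => ?_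
  · by_cases e : w ∈ L
    · exact Or.inr (Or.inl (hy w e ⟨z, hz, b.symm⟩))
    · exact Or.inl (comp_closed hz (by simpa using e) b)
  · obtain ⟨p, hp⟩ : ∃ p, H.Adj z p := by
      by_cases e : z = v
      · exact ⟨u, e ▸ a.symm⟩
      · obtain ⟨p, -, hp⟩ := c.exists_adj hz (self_mem_comp hv') e
        exact ⟨p, hp⟩
    have := np z (off z hz) p
    by_contra k
    refine this fun w => ⟨fun b => ?_, fun b => b ▸ hp⟩
    by_contra e
    exact k (two_le_dg.2 ⟨w, mem_univ _, p, mem_univ _, e, b, hp⟩)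

/-- A walk between the two sides gives an edge or a bridge between the two sides. -/
theorem across {x y u v : V} {I J : List V} (nd : (x :: (I ++ y :: J)).Nodup) (hu : u ∈ I)
    (hv : v ∈ J) (h : R H (univ \ {x, y}) u v) :
    ∃ u' ∈ I, ∃ v' ∈ J, H.Adj u' v' ∨ Br H (x :: (I ++ y :: J)) u' v' := by
  have dIJ : ∀ z ∈ I, z ∉ J := fun z a b => by
    simp only [List.nodup_cons, List.nodup_append] at nd
    exact nd.2.2.2 z a z (List.mem_cons_of_mem _ b) rfl
  obtain ⟨v', hv', r, -⟩ := first_hit h (A := J.toFinset) (by simpa using hv)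
  obtain ⟨u', hu', r', -⟩ := first_hit r.symm (A := I.toFinset) (by simpa using hu)
  rw [List.mem_toFinset] at hv' hu'
  have m : v' ∈ insert u' (insert v' ((univ \ {x, y}) \ J.toFinset) \ I.toFinset) := by
    refine mem_insert_of_mem (mem_sdiff.2 ⟨mem_insert_self _ _, ?_⟩)
    exact fun c => dIJ v' (List.mem_toFinset.1 c) hv'
  obtain ⟨X, hX, c, a, b⟩ := r'.exists_conn m
  refine ⟨u', hu', v', hv', ?_⟩
  rcases conn_open c b a (fun e => dIJ u' hu' (e ▸ hv')) with k | ⟨U, s, k1, k2, k3⟩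
  · exact Or.inl k
  · refine Or.inr ⟨U, k1, fun z hz => ?_, k2, k3⟩
    have h1 := mem_sdiff.1 (s hz)
    have h2 := hX h1.1
    have h3 := h1.2
    simp only [mem_insert, mem_singleton, mem_sdiff, mem_univ, true_and, List.mem_toFinset,
      not_or] at h2 h3
    simp only [List.mem_cons, List.mem_append]
    tauto

end Link

open Link in
theorem link (h : DimStmt) : LinkStmt := by
  intro V _ H L fr nc fc
  by_cases h1 : ∀ u v, H.Adj u v → Fr L u v ∨ Fr L v u
  · exact Or.inl h1
  by_cases h2 : ∃ v ∉ L, ∃ p, ∀ w, H.Adj v w ↔ w = p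
  · exact Or.inr (Or.inl h2)
  refine Or.inr (Or.inr ?_)
  have np : ∀ v ∉ L, ∀ p, ¬ ∀ w, H.Adj v w ↔ w = p := fun v a p b => h2 ⟨v, a, p, b⟩
  obtain ⟨x, hx, y, hy, xy, lk⟩ : ∃ x ∈ L, ∃ y ∈ L, x ≠ y ∧ Lk H L x y := by
    push Not at h1
    obtain ⟨u, v, a, b, c⟩ := h1
    by_cases hv : v ∈ L
    · by_cases hu : u ∈ L
      · exact ⟨u, hu, v, hv, a.ne, Or.inl ⟨a, b, c⟩⟩
      · obtain ⟨x, p, y, q, r, s⟩ := exists_lk h fc a.symm hu np
        exact ⟨x, p, y, q, r, Or.inr s⟩
    · obtain ⟨x, p, y, q, r, s⟩ := exists_lk h fc a hv np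
      exact ⟨x, p, y, q, r, Or.inr s⟩
  obtain ⟨I, J, rt⟩ := exists_rot hx hy xy
  obtain ⟨⟨x, y, I, J⟩, ⟨rt, lk⟩, mn⟩ := exists_min_of
    (p := fun t : V × V × List V × List V =>
      L ~r t.1 :: (t.2.2.1 ++ t.2.1 :: t.2.2.2) ∧ Lk H L t.1 t.2.1)
    (fun t => t.2.2.1.length) ⟨(x, y, I, J), rt, lk⟩
  dsimp only at rt lk mn
  by_cases hI : I = []
  · subst hI
    rcases lk with ⟨-, b, -⟩ | ⟨U, a, b, c, d⟩
    · exact absurd ⟨J, rt⟩ b
    · exact Or.inl ⟨x, y, J, U, rt.trans (rot_swap x y [] J), a, b, c, d⟩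
  have hJ : J ≠ [] := by
    rintro rfl
    have := mn (y, x, [], I) ⟨rt.trans (rot_swap x y I []), lk.symm⟩
    exact hI (List.length_eq_zero_iff.1 (by simpa using this))
  refine Or.inr ⟨x, y, I, J, rt, hI, hJ, fun u hu v hv r => ?_⟩
  have nd := rt.nodup_iff.1 fr.nd
  obtain ⟨u, hu, v, hv, k⟩ := across nd hu hv r
  obtain ⟨U', c', o', n'⟩ := body k
  obtain ⟨U, c, o, n⟩ := body (lk.imp_left And.left)
  have o2 : ∀ z ∈ U, z ∉ x :: (I ++ y :: J) := fun z a b => o z a (rt.mem_iff.2 b)
  by_cases d : Disjoint U U'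
  · refine nc (Cross.rot (cross_mk (x := x) (u := u) (y := y) (v := v) ?_ c c' ?_ ?_ ?_) rt.symm)
    · exact List.Sublist.cons_cons _ (List.Sublist.append (List.singleton_sublist.2 hu)
        (List.Sublist.cons_cons _ (List.singleton_sublist.2 hv)))
    · simp only [List.nodup_cons, List.nodup_append, List.mem_append, List.mem_cons,
        not_or] at nd
      have mu : u ∈ x :: (I ++ y :: J) := by simp [hu]
      have mv : v ∈ x :: (I ++ y :: J) := by simp [hv]
      have mx : x ∈ x :: (I ++ y :: J) := by simp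
      have my : y ∈ x :: (I ++ y :: J) := by simp
      rw [disjoint_left]
      intro z a b
      simp only [mem_insert] at a b
      rcases a with rfl | rfl | a <;> rcases b with b | b | b
      · exact nd.1.1 (b ▸ hu)
      · exact nd.1.2.2 (b ▸ hv)
      · exact o' _ b mx
      · exact nd.2.2.2 u hu z (Or.inl rfl) b.symm
      · exact nd.2.2.1.1 (b ▸ hv)
      · exact o' _ b my
      · exact o2 _ a (b ▸ mu)
      · exact o2 _ a (b ▸ mv)
      · exact disjoint_left.1 d a b
    · intro z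
      simp only [mem_insert]
      refine ⟨fun ⟨a, b⟩ => ?_, ?_⟩
      · rcases a with a | a | a
        exacts [Or.inl a, Or.inr a, absurd b (o2 z a)]
      · rintro (rfl | rfl) <;> simp
    · intro z
      simp only [mem_insert]
      refine ⟨fun ⟨a, b⟩ => ?_, ?_⟩
      · rcases a with a | a | a
        exacts [Or.inl a, Or.inr a, absurd b (o' z a)]
      · rintro (rfl | rfl) <;> simp [hu, hv]
  · obtain ⟨p, p1, p2⟩ := not_disjoint_iff.1 d
    obtain ⟨a1, a2, -⟩ := n ⟨p, p1⟩
    obtain ⟨b1, b2, -⟩ := n' ⟨p, p2⟩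
    obtain ⟨I1, I2, rfl⟩ := List.append_of_mem hu
    have := mn (x, u, I1, I2 ++ y :: J) ⟨by simpa using rt,
      Or.inr ⟨U ∪ U', a1.union b1 p1 p2, fun z hz => by
        rcases mem_union.1 hz with e | e
        exacts [o z e, fun t => o' z e (rt.mem_iff.1 t)],
        a2.mono subset_union_left, b2.mono subset_union_right⟩⟩
    simp only [List.length_append, List.length_cons] at this
    omega

end Pool.Agent.MP_e6539c_co.P5

end MrgPart3

-- marker of a merged file
example : 731051 + 377418 = 731051 + 377418 := rfl
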