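import Pool.Agent.MP_e6539c_co.P5.CertB

/-! Checking the certificate for eleven terminals. -/

set_option autoImplicit false
set_option linter.defProp false

namespace Pool.Agent.MP_e6539c_co.P5.Cert

noncomputable section

def t11_0 : lall [3, 5, 9, 17, 33, 7] (top 11 (ones 9634) c11 u11 595) = true := by
  decide +kernel
def t11_2 : lall [19] (top 11 (ones 9634) c11 u11 595) = true := by
  decide +kernel
def t11_4 : lall [35] (top 11 (ones 9634) c11 u11 595) = true := by
  decide +kernel
def t11_6 : lall [67] (top 11 (ones 9634) c11 u11 595) = true := by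
  decide +kernel
def t11_8 : lall [73] (top 11 (ones 9634) c11 u11 595) = true := by
  decide +kernel
def t11_10 : lall [15, 23, 27] (top 11 (ones 9634) c11 u11 595) = true := by
  decide +kernel
def t11_12 : lall [51, 71, 75] (top 11 (ones 9634) c11 u11 595) = true := by
  decide +kernel
def t11_14 : lall [99, 139, 147] (top 11 (ones 9634) c11 u11 595) = true := by
  decide +kernel
def t11_16 : lall [165, 293, 31, 47, 55, 79] (top 11 (ones 9634) c11 u11 595) = true := by
  decide +kernel
def t11_18 : lall [173, 179, 199, 203, 295, 299, 301, 307, 331, 339, 341, 63] (top 11 (ones 9634) c11 u11 595) = true := by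
  decide +kernel

end

end Pool.Agent.MP_e6539c_co.P5.Cert
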