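import Pool.Agent.MP_e6539c_co.P5.CertB

/-! Checking the certificate for eleven terminals. -/

set_option autoImplicit false
set_option linter.defProp false

namespace Pool.Agent.MP_e6539c_co.P5.Cert

noncomputable section

def s11 : side 11 9634 c11 u11 595 = true := by decide +kernel
def v11 : cover 11 ([3, 5, 9, 17, 33, 7] ++ [11] ++ [19] ++ [21] ++ [35] ++ [37] ++ [67] ++ [69] ++ [73] ++ [137] ++ [15, 23, 27] ++ [39, 43, 45] ++ [51, 71, 75] ++ [77, 83, 85] ++ [99, 139, 147] ++ [149, 153, 163] ++ [165, 293, 31, 47, 55, 79] ++ [87, 91, 93, 103, 107, 143, 151, 155, 157, 167, 171] ++ [173, 179, 199, 203, 295, 299, 301, 307, 331, 339, 341, 63] ++ [95, 111, 119, 159, 175, 183, 187, 189, 207, 215, 219, 231, 303, 311, 335, 343, 347, 349, 359, 363, 365, 371, 411, 427, 683, 127, 191, 223, 239, 319, 351, 367, 375, 379, 381, 415, 431, 439, 443, 463, 471, 687, 695, 727, 731, 255, 383, 447, 479, 495, 703, 735, 751, 879, 887, 511, 767, 895, 959, 991]) = true := by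
  decide +kernel
def t11_1 : lall [11] (top 11 (ones 9634) c11 u11 595) = true := by
  decide +kernel
def t11_3 : lall [21] (top 11 (ones 9634) c11 u11 595) = true := by
  decide +kernel
def t11_5 : lall [37] (top 11 (ones 9634) c11 u11 595) = true := by
  decide +kernel
def t11_7 : lall [69] (top 11 (ones 9634) c11 u11 595) = true := by
  decide +kernel
def t11_9 : lall [137] (top 11 (ones 9634) c11 u11 595) = true := by
  decide +kernel
def t11_11 : lall [39, 43, 45] (top 11 (ones 9634) c11 u11 595) = true := by
  decide +kernel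
def t11_13 : lall [77, 83, 85] (top 11 (ones 9634) c11 u11 595) = true := by
  decide +kernel
def t11_15 : lall [149, 153, 163] (top 11 (ones 9634) c11 u11 595) = true := by
  decide +kernel
def t11_17 : lall [87, 91, 93, 103, 107, 143, 151, 155, 157, 167, 171] (top 11 (ones 9634) c11 u11 595) = true := by
  decide +kernel
def t11_19 : lall [95, 111, 119, 159, 175, 183, 187, 189, 207, 215, 219, 231, 303, 311, 335, 343, 347, 349, 359, 363, 365, 371, 411, 427, 683, 127, 191, 223, 239, 319, 351, 367, 375, 379, 381, 415, 431, 439, 443, 463, 471, 687, 695, 727, 731, 255, 383, 447, 479, 495, 703, 735, 751, 879, 887, 511, 767, 895, 959, 991] (top 11 (ones 9634) c11 u11 595) = true := by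
  decide +kernel

end

end Pool.Agent.MP_e6539c_co.P5.Cert
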