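import Pool.Agent.MP_e6539c_co.P5.Ks

/-! The smallest counterexample, and the passage to multigraphs given by an end map. -/

set_option autoImplicit false

namespace Pool.Agent.MP_e6539c_co.P5

open Finset
open Pool.Agent.MP_7be75d_co (R Conn comp)
open Pool.Agent.MP_7be75d_co
open Pool.Agent.MP_e6539c_co.TW (MG)
open scoped Classical

namespace Min

variable {V E : Type}

section

variable [Fintype V] {G : MG V E}

theorem no_loop (h : ShortStmt) (hG : Min5 G) (e : E) (he : e ∈ G.A) : G.l e ≠ G.r e := fun c =>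
  h V E G hG 1 (fun _ => G.l e) (fun _ => e) le_rfl (by omega) (by omega) (by omega) rfl
    fun _ _ => ⟨he, Or.inl ⟨rfl, c.symm⟩⟩

theorem no_par (h : ShortStmt) (hG : Min5 G) {e e' : E} (he : e ∈ G.A) (he' : e' ∈ G.A) {u v : V}
    (huv : u ≠ v) (h1 : G.Ends e u v) (h2 : G.Ends e' u v) : e = e' := by
  by_contra hne
  have two : ∀ i < 2, i = 0 ∨ i = 1 := by omega
  refine h V E G hG 2 (fun i => if i = 1 then v else u) (fun i => if i = 1 then e' else e)
    (by omega) (by omega) (fun i hi j hj => ?_) (fun i hi j hj => ?_) (by simp) fun i hi => ?_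
  · rcases two i hi with rfl | rfl <;> rcases two j hj with rfl | rfl <;> simp [huv, huv.symm]
  · rcases two i hi with rfl | rfl <;> rcases two j hj with rfl | rfl <;> simp [hne, Ne.symm hne]
  · rcases two i hi with rfl | rfl
    · simpa using ⟨he, h1⟩
    · simpa using ⟨he', h2.symm⟩

theorem no_cycle (h : ShortStmt) (hG : Min5 G) (n : ℕ) (v : ℕ → V) (h3 : 3 ≤ n) (h11 : n ≤ 11)
    (hi : ∀ i < n, ∀ j < n, v i = v j → i = j) (h0 : v n = v 0)
    (ha : ∀ i < n, G.Adj G.A (v i) (v (i + 1))) : False := by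
  have ha' : ∀ i, ∃ e, i < n → e ∈ G.A ∧ G.Ends e (v i) (v (i + 1)) := fun i => by
    by_cases c : i < n
    · obtain ⟨e, h1, h2⟩ := ha i c
      exact ⟨e, fun _ => ⟨h1, h2⟩⟩
    · obtain ⟨e, -, -⟩ := ha 0 (by omega)
      exact ⟨e, fun d => absurd d c⟩
  choose e he using ha'
  have hs : ∀ i < n, ∀ j < n, v i = v (j + 1) → i = j + 1 ∨ (i = 0 ∧ j + 1 = n) := by
    intro i ci j cj c
    rcases Nat.lt_or_ge (j + 1) n with d | d
    · exact Or.inl (hi i ci _ d c)
    · have d' : j + 1 = n := by omega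
      rw [d', h0] at c
      exact Or.inr ⟨hi i ci 0 (by omega) c, d'⟩
  refine h V E G hG n v e (by omega) h11 hi (fun i ci j cj c => ?_) h0 he
  have h1 := (he i ci).2
  rw [c] at h1
  rcases h1.unique (he j cj).2 with d | d
  · exact hi i ci j cj d.1
  · have d1 := hs i ci j cj d.1
    have d2 := hs j cj i ci d.2.symm
    omega

theorem gi (h : ShortStmt) (hG : Min5 G) : Gi (sg G) := by
  intro W x w w' r hx a a' hw hk
  by_contra hr
  obtain ⟨L, f, l, rfl, rfl, f2, f3, f4⟩ := hk.exists_path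
  have hL : L ≠ 0 := fun c => hw (by rw [c])
  refine no_cycle h hG (L + 2) (fun i => if 1 ≤ i ∧ i ≤ L + 1 then f (i - 1) else x) (by omega)
    (by omega) (fun i ci j cj c => ?_) (by simp) fun i ci => ?_
  · by_cases c1 : 1 ≤ i ∧ i ≤ L + 1 <;> by_cases c2 : 1 ≤ j ∧ j ≤ L + 1
    · rw [if_pos c1, if_pos c2] at c
      have := f4 _ (by omega) _ (by omega) c
      omega
    · rw [if_pos c1, if_neg c2] at c
      exact absurd (c ▸ f2 _ (by omega)) hx
    · rw [if_neg c1, if_pos c2] at c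
      exact absurd (c ▸ f2 _ (by omega)) hx
    · omega
  · rcases Nat.eq_zero_or_pos i with rfl | c0
    · rw [if_neg (by omega), if_pos (by omega)]
      exact a.2
    · rcases Nat.lt_or_ge i (L + 1) with c1 | c1
      · rw [if_pos (by omega), if_pos (by omega)]
        have := (f3 (i - 1) (by omega)).2
        rwa [show i - 1 + 1 = i + 1 - 1 by omega] at this
      · rw [if_pos (by omega), if_neg (by omega), show i - 1 = L by omega]
        exact a'.2.symm

theorem deg (h : ShortStmt) (hd : DegStmt) (hG : Min5 G) (u v : V) (a : (sg G).Adj u v) :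
    3 ≤ dg (sg G) univ u := by
  obtain ⟨-, e, he, hen⟩ := a
  refine (hd V E G hG (no_loop h hG) u ⟨e, he, hen.inc_left⟩).trans ?_
  have k : ∀ e ∈ G.A.filter fun e => G.Inc e u,
      u ≠ (if G.l e = u then G.r e else G.l e) ∧
        G.Ends e u (if G.l e = u then G.r e else G.l e) := by
    intro e he
    obtain ⟨h1, h2⟩ := mem_filter.1 he
    by_cases c : G.l e = u
    · rw [if_pos c]
      exact ⟨c ▸ no_loop h hG e h1, Or.inl ⟨c, rfl⟩⟩
    · rw [if_neg c]
      exact ⟨Ne.symm c, Or.inr ⟨rfl, h2.resolve_left c⟩⟩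
  refine card_le_card_of_injOn (fun e => if G.l e = u then G.r e else G.l e) (fun e he => ?_)
    fun e he e' he' c => ?_
  · exact mem_coe.2 (mem_filter.2 ⟨mem_univ _, (k e he).1, e, (mem_filter.1 he).1, (k e he).2⟩)
  · have h2 := (k e' he').2
    have c' : (if G.l e = u then G.r e else G.l e) = if G.l e' = u then G.r e' else G.l e' := c
    rw [← c'] at h2
    exact no_par h hG (mem_filter.1 he).1 (mem_filter.1 he').1 (k e he).1 (k e he).2 h2

omit [Fintype V] in
theorem hasP_of_pet (h : Pet (sg G)) : G.HasP := by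
  obtain ⟨B, b1, b2, b3⟩ := h
  refine ⟨fun i => ↑(B i), fun i hi u hu v hv => ?_, fun i hi j hj c => ?_, fun p hp => ?_⟩
  · exact Relation.ReflTransGen.mono (fun _ _ c => ⟨c.2.1, c.2.2, c.1.2⟩) _ _
      ((b1 i hi).2 u hu v hv)
  · exact disjoint_coe.2 (b2 i hi j hj c)
  · obtain ⟨u, hu, v, hv, a⟩ := b3 p hp
    exact ⟨u, hu, v, hv, a.2⟩

theorem no_min (h : ShortStmt) (hd : DegStmt) (hA : AStmt) (hG : Min5 G) : False := by
  refine hG.np (hasP_of_pet (hA V (sg G) (gi h hG) (deg h hd hG) ?_))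
  by_contra hc
  refine hG.nf ⟨fun _ => 0, fun e he => ?_, fun v => by simp [bd5]⟩
  exact (hc ⟨_, _, no_loop h hG e he, e, he, MG.ends_lr e⟩).elim

end

/-- The Petersen labels as two-element subsets. -/
def kn : Fin 10 → {s : Finset (Fin 5) // s.card = 2} :=
  ![⟨{0, 1}, by decide⟩, ⟨{2, 3}, by decide⟩, ⟨{0, 4}, by decide⟩, ⟨{1, 2}, by decide⟩,
    ⟨{3, 4}, by decide⟩, ⟨{2, 4}, by decide⟩, ⟨{1, 4}, by decide⟩, ⟨{1, 3}, by decide⟩,
    ⟨{0, 3}, by decide⟩, ⟨{0, 2}, by decide⟩]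

theorem kn_surj : ∀ s, ∃ l, kn l = s := by decide +kernel

theorem kn_adj : ∀ l m : Fin 10, Disjoint (kn l).1 (kn m).1 →
    l ≠ m ∧ ((l.1, m.1) ∈ MG.petE ∨ (m.1, l.1) ∈ MG.petE) := by decide +kernel

theorem kn_ne : ∀ l : Fin 10, ∃ p ∈ MG.petE, p.1 = l.1 ∨ p.2 = l.1 := by decide +kernel

/-- The multigraph with arbitrarily oriented edges. -/
noncomputable def mg [Fintype E] (ends : E → Sym2 V) : MG V E :=
  ⟨univ, fun e => (ends e).out.1, fun e => (ends e).out.2⟩

variable [Fintype E]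

theorem mg_lr (ends : E → Sym2 V) (e : E) :
    ends e = s((mg ends).l e, (mg ends).r e) := (Quot.out_eq (ends e)).symm

theorem mg_ends (ends : E → Sym2 V) (e : E) (x y : V) :
    (mg ends).Ends e x y ↔ ends e = s(x, y) := by
  rw [mg_lr ends e, Sym2.eq_iff]
  rfl

theorem mg_bridgeless (ends : E → Sym2 V) (hb : ∀ (e : E) (x y : V), ends e = s(x, y) →
    Relation.ReflTransGen (fun a b => ∃ e' : E, e' ≠ e ∧ ends e' = s(a, b)) x y) :
    (mg ends).Bridgeless := by
  intro S hS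
  obtain ⟨e, he⟩ := card_eq_one.1 hS
  have h0 : e ∈ (mg ends).cut (mg ends).A S := by simp [he]
  rw [(MG.ends_lr e).mem_cut_iff] at h0
  apply h0.2
  have := hb e _ _ (mg_lr ends e)
  generalize (mg ends).r e = y at this
  induction this with
  | refl => rfl
  | tail _ h2 ih =>
    obtain ⟨e', n, h'⟩ := h2
    have : e' ∉ (mg ends).cut (mg ends).A S := by simp [he, n]
    rw [((mg_ends ends _ _ _).2 h').mem_cut_iff, not_and, not_not] at this
    exact ih.trans (this (mem_univ _))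

theorem mg_pet (ends : E → Sym2 V) (h : (mg ends).HasP) :
    ∃ B : {s : Finset (Fin 5) // s.card = 2} → Set V,
      (∀ i, ((SimpleGraph.fromEdgeSet (Set.range ends)).induce (B i)).Connected) ∧
      (∀ i j, i ≠ j → Disjoint (B i) (B j)) ∧
      (∀ i j : {s : Finset (Fin 5) // s.card = 2}, Disjoint i.1 j.1 →
        ∃ x ∈ B i, ∃ y ∈ B j, (SimpleGraph.fromEdgeSet (Set.range ends)).Adj x y) := by
  obtain ⟨B, b1, b2, b3⟩ := h
  choose ι hι using kn_surj
  have dis : ∀ l m : Fin 10, l ≠ m → Disjoint (B l) (B m) :=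
    fun l m h => b2 l l.2 m m.2 (fun t => h (Fin.ext t))
  refine ⟨fun i => B (ι i), fun i => ?_, fun i j h => dis _ _ ?_, fun i j h => ?_⟩
  · obtain ⟨z, hz⟩ : (B (ι i)).Nonempty := by
      obtain ⟨p, hp, h⟩ := kn_ne (ι i)
      obtain ⟨u, hu, v, hv, -⟩ := b3 p hp
      rcases h with h | h
      · exact ⟨u, h ▸ hu⟩
      · exact ⟨v, h ▸ hv⟩
    have : Nonempty (B (ι i)) := ⟨⟨z, hz⟩⟩
    refine ⟨fun ⟨x, hx⟩ ⟨y, hy⟩ => ?_⟩
    have := b1 _ (ι i).2 x hx y hy
    induction this with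
    | refl => rfl
    | tail _ h2 ih =>
      obtain ⟨c1, c2, e, -, c3⟩ := h2
      rename_i b c _
      refine (ih c1).trans ?_
      by_cases h : b = c
      · subst h; rfl
      · refine SimpleGraph.Adj.reachable ?_
        simp only [SimpleGraph.comap_adj, Function.Embedding.coe_subtype,
          SimpleGraph.fromEdgeSet_adj]
        exact ⟨⟨e, (mg_ends ends _ _ _).1 c3⟩, h⟩
  · exact fun t => h (by rw [← hι i, t, hι])
  · rw [← hι i, ← hι j] at h
    obtain ⟨n, h⟩ := kn_adj _ _ h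
    have : ∃ x ∈ B (ι i), ∃ y ∈ B (ι j), (mg ends).Adj (mg ends).A x y := by
      rcases h with h | h
      · exact b3 _ h
      · obtain ⟨u, hu, v, hv, a⟩ := b3 _ h
        exact ⟨v, hv, u, hu, a.symm⟩
    obtain ⟨x, hx, y, hy, e, -, c⟩ := this
    refine ⟨x, hx, y, hy, (SimpleGraph.fromEdgeSet_adj _).2 ⟨⟨e, (mg_ends ends _ _ _).1 c⟩, ?_⟩⟩
    rintro rfl
    exact Set.disjoint_left.1 (dis _ _ n) hx hy

end Min

theorem flow (h : ShortStmt) (hd : DegStmt) (hA : AStmt) : FlowStmt := by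
  intro V E _ G h1 h2
  induction hn : G.A.card using Nat.strong_induction_on generalizing G with
  | _ n ih =>
    by_contra hf
    refine Min.no_min h hd hA ⟨h1, hf, h2, fun A' ρ hA' hc hρ hb => ?_⟩
    exact ih A'.card (hn ▸ hc) _ hb (fun hp => h2 (MG.hasP_minor hA' hρ hp)) rfl

/-- The five-flow theorem for multigraphs given by an end map. -/
theorem final (hF : FlowStmt) (hI : IntStmt) (V E : Type) [Fintype V] [Fintype E] [DecidableEq V]
    (ends : E → Sym2 V)
    (hb : ∀ (e : E) (x y : V), ends e = s(x, y) →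
      Relation.ReflTransGen (fun a b => ∃ e' : E, e' ≠ e ∧ ends e' = s(a, b)) x y)
    (hp : ¬ ∃ B : {s : Finset (Fin 5) // s.card = 2} → Set V,
      (∀ i, ((SimpleGraph.fromEdgeSet (Set.range ends)).induce (B i)).Connected) ∧
      (∀ i j, i ≠ j → Disjoint (B i) (B j)) ∧
      (∀ i j : {s : Finset (Fin 5) // s.card = 2}, Disjoint i.1 j.1 →
        ∃ x ∈ B i, ∃ y ∈ B j, (SimpleGraph.fromEdgeSet (Set.range ends)).Adj x y)) :
    ∃ tl hd : E → V, (∀ e, ends e = s(tl e, hd e)) ∧ ∃ φ : E → ℤ, (∀ e, φ e ≠ 0 ∧ |φ e| ≤ 4) ∧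
      ∀ v, ∑ e ∈ univ.filter (fun e => tl e = v), φ e =
        ∑ e ∈ univ.filter (fun e => hd e = v), φ e := by
  obtain ⟨φ, h1, h2⟩ := hI V E _ (hF V E (Min.mg ends) (Min.mg_bridgeless ends hb)
    fun c => hp (Min.mg_pet ends c))
  refine ⟨(Min.mg ends).l, (Min.mg ends).r, Min.mg_lr ends, φ, fun e => h1 e (mem_univ _),
    fun v => ?_⟩
  exact (congrArg (fun s => ∑ e ∈ s, φ e) (filter_congr_decidable _ _ _)).symm.trans
    ((h2 v).trans (congrArg (fun s => ∑ e ∈ s, φ e) (filter_congr_decidable _ _ _)))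

end Pool.Agent.MP_e6539c_co.P5
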