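import Mathlib.RingTheory.PicardGroup
import Pool.Agent.MP_e6539c_co.P5.Link
import Pool.Agent.MP_e6539c_co.P5.Ks

-- ======== part 0: formerly Pool.Agent.MP_e6539c_co.P5.Extq
section MrgPart0

/-! An extremal path between the ends of a frame: no rerouting and no chord. -/

set_option autoImplicit false

namespace Pool.Agent.MP_e6539c_co.P5

open Finset
open Pool.Agent.MP_7be75d_co (R Conn comp)
open Pool.Agent.MP_7be75d_co
open scoped Classical

namespace Extq

variable {V : Type} {H : SimpleGraph V}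

/-- A path from `x` to `y` through a connected set in which both have a neighbour. -/
theorem bridge {U : Finset V} {x y : V} (c : Conn H U) (hx : Act H U x) (hy : Act H U y) :
    ∃ (s : ℕ) (h : ℕ → V), 1 ≤ s ∧ h 0 = x ∧ h (s + 1) = y ∧ (∀ t, 1 ≤ t → t ≤ s → h t ∈ U) ∧
      (∀ t ≤ s, H.Adj (h t) (h (t + 1))) ∧
      ∀ t, 1 ≤ t → t ≤ s → ∀ t', 1 ≤ t' → t' ≤ s → h t = h t' → t = t' := by
  obtain ⟨w, hw, xw⟩ := hx
  obtain ⟨w', hw', yw⟩ := hy
  obtain ⟨L, f, f0, fL, fS, fA, fI⟩ := (c.2 w hw w' hw').exists_path hw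
  refine ⟨L + 1, fun n => if n = 0 then x else if n ≤ L + 1 then f (n - 1) else y, by omega,
    by simp, by simp, ?_, ?_, ?_⟩
  · intro t h1 h2
    simp only [show t ≠ 0 by omega, h2, if_true, if_false]
    exact fS _ (by omega)
  · intro t ht
    by_cases h0 : t = 0
    · subst h0
      simpa [f0] using xw
    · by_cases h1 : t = L + 1
      · subst h1
        simpa [fL] using yw.symm
      · simp only [h0, ht, show t + 1 ≠ 0 by omega, show t + 1 ≤ L + 1 by omega, if_true,
          if_false]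
        have := fA (t - 1) (by omega)
        rwa [show t - 1 + 1 = t + 1 - 1 by omega] at this
  · intro t h1 h2 t' h1' h2'
    simp only [show t ≠ 0 by omega, show t' ≠ 0 by omega, h2, h2', if_true, if_false]
    intro e
    have := fI _ (by omega) _ (by omega) e
    omega

/-- The path `q 0, …, q i, h 1, …, h s, q l, …`. -/
def spl (q h : ℕ → V) (i s l : ℕ) (n : ℕ) : V :=
  if n ≤ i then q n else if n ≤ i + s then h (n - i) else q (n - (i + s + 1) + l)

theorem spl_lo {q h : ℕ → V} {i s l n : ℕ} (hn : n ≤ i) : spl q h i s l n = q n := by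
  simp [spl, hn]

theorem spl_mid {q h : ℕ → V} {i s l n : ℕ} (h1 : i < n) (h2 : n ≤ i + s) :
    spl q h i s l n = h (n - i) := by
  simp [spl, h2, not_le.2 h1]

theorem spl_hi {q h : ℕ → V} {i s l n : ℕ} (h1 : i + s < n) :
    spl q h i s l n = q (n - (i + s + 1) + l) := by
  simp [spl, not_le.2 h1, show ¬ n ≤ i by omega]

/-- Splicing a detour into the path. -/
theorem splice {M : List V} {k : ℕ} {q h : ℕ → V} {i s l : ℕ} (P : PQ H M k q) (il : i < l)
    (lk : l ≤ k) (h0 : h 0 = q i) (h1 : h (s + 1) = q l)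
    (off : ∀ t, 1 ≤ t → t ≤ s → h t ∉ qs k q ∧ h t ∉ M) (adj : ∀ t ≤ s, H.Adj (h t) (h (t + 1)))
    (inj : ∀ t, 1 ≤ t → t ≤ s → ∀ t', 1 ≤ t' → t' ≤ s → h t = h t' → t = t')
    (two : 2 ≤ i + s + 1 + (k - l)) :
    spl q h i s l 0 = q 0 ∧ spl q h i s l (i + s + 1 + (k - l)) = q k ∧
      PQ H M (i + s + 1 + (k - l)) (spl q h i s l) ∧
      ∀ x ∈ qs (i + s + 1 + (k - l)) (spl q h i s l),
        (∃ n ≤ k, (n ≤ i ∨ l ≤ n) ∧ q n = x) ∨ ∃ t, 1 ≤ t ∧ t ≤ s ∧ h t = x := by
  have e0 : spl q h i s l 0 = q 0 := spl_lo (Nat.zero_le _)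
  have e1 : spl q h i s l (i + s + 1 + (k - l)) = q k := by
    rw [spl_hi (by omega)]
    congr 1
    omega
  have cases3 : ∀ n ≤ i + s + 1 + (k - l),
      (∃ m ≤ k, (m ≤ i ∧ m = n ∨ l ≤ m ∧ i + s < n ∧ m + (i + s + 1) = n + l) ∧
        spl q h i s l n = q m) ∨
      ∃ t, 1 ≤ t ∧ t ≤ s ∧ t + i = n ∧ spl q h i s l n = h t := by
    intro n hn
    by_cases a : n ≤ i
    · exact Or.inl ⟨n, by omega, Or.inl ⟨a, rfl⟩, spl_lo a⟩
    · by_cases b : n ≤ i + s
      · exact Or.inr ⟨n - i, by omega, by omega, by omega, spl_mid (by omega) b⟩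
      · exact Or.inl ⟨n - (i + s + 1) + l, by omega, Or.inr ⟨by omega, by omega, by omega⟩,
          spl_hi (by omega)⟩
  have mid : ∀ n, i ≤ n → n ≤ i + s + 1 → spl q h i s l n = h (n - i) := by
    intro n a b
    by_cases c : n = i
    · subst c
      rw [spl_lo le_rfl, Nat.sub_self, h0]
    · by_cases d : n = i + s + 1
      · subst d
        rw [spl_hi (by omega), show i + s + 1 - i = s + 1 by omega, h1]
        congr 1
        omega
      · exact spl_mid (by omega) (by omega)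
  refine ⟨e0, e1, ⟨by rw [e0, e1]; exact P.fr, two, ?_, ?_, ?_⟩, ?_⟩
  · intro n hn
    by_cases a : n + 1 ≤ i
    · rw [spl_lo a, spl_lo (by omega)]
      exact P.adj n (by omega)
    · by_cases b : n ≤ i + s
      · rw [mid n (by omega) (by omega), mid (n + 1) (by omega) (by omega),
          show n + 1 - i = n - i + 1 by omega]
        exact adj _ (by omega)
      · rw [spl_hi (by omega), spl_hi (by omega),
          show n + 1 - (i + s + 1) + l = n - (i + s + 1) + l + 1 by omega]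
        exact P.adj _ (by omega)
  · intro n hn n' hn' e
    rcases cases3 n hn with ⟨m, m1, m2, m3⟩ | ⟨t, t1, t2, t3, t4⟩ <;>
      rcases cases3 n' hn' with ⟨m', m1', m2', m3'⟩ | ⟨t', t1', t2', t3', t4'⟩
    · have := P.inj m m1 m' m1' (by rw [← m3, ← m3', e])
      omega
    · exact absurd (mem_qs.2 ⟨m, m1, by rw [← m3, ← t4', e]⟩) (off t' t1' t2').1
    · exact absurd (mem_qs.2 ⟨m', m1', by rw [← m3', ← t4, e]⟩) (off t t1 t2).1
    · have := inj t t1 t2 t' t1' t2' (by rw [← t4, ← t4', e])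
      omega
  · intro n hn
    rcases cases3 n hn with ⟨m, m1, -, m3⟩ | ⟨t, t1, t2, -, t4⟩
    · rw [m3]
      exact P.off m m1
    · rw [t4]
      exact (off t t1 t2).2
  · intro x hx
    obtain ⟨n, hn, rfl⟩ := mem_qs.1 hx
    rcases cases3 n hn with ⟨m, m1, m2, m3⟩ | ⟨t, t1, t2, -, t4⟩
    · exact Or.inl ⟨m, m1, by omega, m3.symm⟩
    · exact Or.inr ⟨t, t1, t2, t4.symm⟩

variable [Fintype V]

/-- A path that avoids the part reaching `M` does not shrink that part. -/
theorem KK_sub {M : List V} {k k' : ℕ} {q q' : ℕ → V} (P : PQ H M k q)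
    (h : ∀ x ∈ qs k' q', x ∉ KK H M k q) : KK H M k q ⊆ KK H M k' q' := by
  intro v hv
  obtain ⟨m, hm, r⟩ := P.KK_reach hv
  refine mem_KK.2 ⟨m, hm, r.mono fun x hx => ?_⟩
  exact mem_sdiff.2 ⟨mem_univ _, fun c => h x c hx⟩

omit [Fintype V] in
/-- The first path. -/
theorem first {a b : V} {M : List V} {U : Finset V} (fr : Frame H (b :: (M ++ [a])))
    (c : Conn H U) (hU : ∀ u ∈ U, u ∉ b :: (M ++ [a])) (ha : Act H U a) (hb : Act H U b) :
    ∃ k q, q 0 = a ∧ q k = b ∧ PQ H M k q := by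
  obtain ⟨s, h, s1, h0, h1, hm, adj, inj⟩ := bridge c ha hb
  have nd := fr.nd
  simp only [List.nodup_cons, List.mem_append, List.mem_singleton, not_or,
    List.nodup_append] at nd
  have aM : a ∉ M := fun c => nd.2.2.2 a c a (by simp) rfl
  have hne : ∀ t, 1 ≤ t → t ≤ s → h t ≠ a ∧ h t ≠ b ∧ h t ∉ M := by
    intro t t1 t2
    have := hU _ (hm t t1 t2)
    simp only [List.mem_cons, List.mem_append, List.not_mem_nil, or_false, not_or] at this
    exact ⟨this.2.2, this.1, this.2.1⟩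
  refine ⟨s + 1, h, h0, h1, by rw [h0, h1]; exact fr, by omega, fun t ht => adj t (by omega),
    ?_, ?_⟩
  · intro t ht t' ht' e
    by_cases a0 : t = 0
    · subst a0
      by_contra ne
      by_cases b1 : t' = s + 1
      · subst b1
        exact nd.1.2 (by rw [← h0, ← h1, e])
      · exact (hne t' (by omega) (by omega)).1 (by rw [← e, h0])
    · by_cases a1 : t = s + 1
      · subst a1
        by_contra ne
        by_cases b0 : t' = 0
        · subst b0
          exact nd.1.2 (by rw [← h0, ← h1, e])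
        · exact (hne t' (by omega) (by omega)).2.1 (by rw [← e, h1])
      · by_cases b0 : t' = 0
        · subst b0
          exact absurd (by rw [e, h0]) (hne t (by omega) (by omega)).1
        · by_cases b1 : t' = s + 1
          · subst b1
            exact absurd (by rw [e, h1]) (hne t (by omega) (by omega)).2.1
          · exact inj t (by omega) (by omega) t' (by omega) (by omega) e
  · intro t ht
    by_cases a0 : t = 0
    · subst a0
      rwa [h0]
    · by_cases a1 : t = s + 1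
      · subst a1
        rw [h1]
        exact nd.1.1
      · exact (hne t (by omega) (by omega)).2.2

/-- A rerouting through a set off `KK` strictly enlarges `KK`. -/
theorem reroute {M : List V} {k : ℕ} {q : ℕ → V} (P : PQ H M k q) {U : Finset V} {i j l : ℕ}
    (sp : Span H q U i l) (d1 : Disjoint U (qs k q)) (d2 : Disjoint U (KK H M k q)) (ij : i < j)
    (jl : j < l) (lk : l ≤ k) (act : Act H (KK H M k q) (q j)) :
    ∃ k' q', q' 0 = q 0 ∧ q' k' = q k ∧ PQ H M k' q' ∧
      (KK H M k q).card < (KK H M k' q').card := by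
  obtain ⟨s, h, s1, h0, h1, hm, adj, inj⟩ := bridge sp.1 sp.2.1 sp.2.2
  obtain ⟨e0, e1, P', mem⟩ := splice P (ij.trans jl) lk h0 h1
    (fun t a b => ⟨disjoint_left.1 d1 (hm t a b),
      fun c => disjoint_left.1 d2 (hm t a b) (KK_of_M c)⟩) adj inj (by omega)
  have sub := KK_sub P (k' := i + s + 1 + (k - l)) (q' := spl q h i s l) (by
    intro x hx c
    rcases mem x hx with ⟨n, n1, -, rfl⟩ | ⟨t, t1, t2, rfl⟩
    · exact P.KK_off c (mem_qs.2 ⟨n, n1, rfl⟩)
    · exact disjoint_left.1 d2 (hm t t1 t2) c)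
  have qj : q j ∈ qs k q := mem_qs.2 ⟨j, by omega, rfl⟩
  refine ⟨_, _, e0, e1, P', card_lt_card ((ssubset_iff_of_subset sub).2 ⟨q j, ?_,
    fun c => P.KK_off c qj⟩)⟩
  obtain ⟨w, hw, a⟩ := act
  refine P'.KK_closed (sub hw) a.symm fun c => ?_
  rcases mem _ c with ⟨n, n1, n2, e⟩ | ⟨t, t1, t2, e⟩
  · have := P.inj n n1 j (by omega) e
    omega
  · exact disjoint_left.1 d1 (hm t t1 t2) (e ▸ qj)

/-- A chord shortens the path and does not shrink `KK`. -/
theorem shorten {M : List V} {k : ℕ} {q : ℕ → V} (P : PQ H M k q) {i j : ℕ} (ij : i + 2 ≤ j)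
    (jk : j ≤ k) (a : H.Adj (q i) (q j)) (ne : ¬ (i = 0 ∧ j = k)) :
    ∃ k' q', q' 0 = q 0 ∧ q' k' = q k ∧ PQ H M k' q' ∧ k' < k ∧
      (KK H M k q).card ≤ (KK H M k' q').card := by
  obtain ⟨e0, e1, P', mem⟩ := splice (h := fun n => if n = 0 then q i else q j) (s := 0) P
    (show i < j by omega) jk (by simp) (by simp) (fun t a b => by omega)
    (fun t ht => by
      obtain rfl : t = 0 := by omega
      simpa using a) (fun t a b => by omega) (by omega)
  refine ⟨_, _, e0, e1, P', by omega, card_le_card (KK_sub P ?_)⟩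
  intro x hx c
  rcases mem x hx with ⟨n, n1, -, rfl⟩ | ⟨t, t1, t2, -⟩
  · exact P.KK_off c (mem_qs.2 ⟨n, n1, rfl⟩)
  · omega

end Extq

theorem extq : ExtqStmt := by
  intro V _ H a b M U fr c hU ha hb
  obtain ⟨k0, q0, s0, s1, s2⟩ := Extq.first fr c hU ha hb
  obtain ⟨⟨k, q⟩, ⟨e0, e1, P⟩, mx, mn⟩ := exists_lex_min
    (p := fun z : ℕ × (ℕ → V) => z.2 0 = a ∧ z.2 z.1 = b ∧ PQ H M z.1 z.2)
    (fun z => Fintype.card V - (KK H M z.1 z.2).card) (fun z => z.1) ⟨(k0, q0), s0, s1, s2⟩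
  refine ⟨k, q, e0, e1, P, ?_, ?_⟩
  · intro W i j l sp d1 d2 ij jl lk act
    obtain ⟨k', q', f0, f1, P', lt⟩ := Extq.reroute P sp d1 d2 ij jl lk act
    have := mx (k', q') ⟨f0.trans e0, f1.trans e1, P'⟩
    have := card_le_univ (KK H M k' q')
    dsimp only at *
    omega
  · intro i j ij jk adj
    by_contra ne
    obtain ⟨k', q', f0, f1, P', lt, le⟩ := Extq.shorten P ij jk adj ne
    have := mn (k', q') ⟨f0.trans e0, f1.trans e1, P'⟩ (Nat.sub_le_sub_left le _)
    dsimp only at *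
    omega

end Pool.Agent.MP_e6539c_co.P5

end MrgPart0

-- ======== part 1: formerly Pool.Agent.MP_e6539c_co.P5.Good
section MrgPart1

/-! There is no good set, and no spanning set away from the part that reaches `M`. -/

set_option autoImplicit false

namespace Pool.Agent.MP_e6539c_co.P5

open Finset
open Pool.Agent.MP_7be75d_co (R Conn comp)
open Pool.Agent.MP_7be75d_co
open scoped Classical

namespace GoodP

variable {V : Type} [Fintype V] {H : SimpleGraph V} {M : List V} {k : ℕ} {q : ℕ → V}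

omit [Fintype V] in
theorem span_mono {U U' : Finset V} {i l : ℕ} (h : Span H q U i l) (c : Conn H U')
    (s : U ⊆ U') : Span H q U' i l := ⟨c, h.2.1.mono s, h.2.2.mono s⟩

theorem mem_WW {z w : V} {K' : Finset V} :
    w ∈ WW k q z K' ↔ w ∉ qs k q ∧ w ≠ z ∧ w ∉ K' := by
  simp [WW]

/-- The neighbours of `U` in `K`. -/
noncomputable def Nb (H : SimpleGraph V) (K U : Finset V) : Finset V :=
  (K \ U).filter (Act H U)

omit [Fintype V] in
theorem mem_Nb {K U : Finset V} {w : V} : w ∈ Nb H K U ↔ w ∈ K ∧ w ∉ U ∧ Act H U w := by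
  simp [Nb, and_assoc]

omit [Fintype V] in
/-- A walk from outside `U` to `U` meets a neighbour of `U` first. -/
theorem hit {K W U : Finset V} {m u : V} (hW : W ⊆ K) (hm : m ∉ U) (hmW : m ∈ W)
    (h : R H W m u) (hu : u ∈ U) :
    ∃ w ∈ Nb H K U, w ∈ W ∧ R H (insert w (W \ (U ∪ Nb H K U))) m w := by
  obtain ⟨a, ha, h1, h2⟩ := first_hit (A := U ∪ Nb H K U) h (mem_union_left _ hu)
  rcases mem_union.1 ha with ha | ha
  · exfalso
    obtain ⟨y, hy, -, ay⟩ := h1.symm.exists_adj (fun c => hm (c ▸ ha))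
    rcases mem_insert.1 hy with c | c
    · exact ay.ne c.symm
    · have c' := mem_sdiff.1 c
      refine c'.2 (mem_union_right _ (mem_Nb.2 ⟨hW c'.1, fun d => c'.2 (mem_union_left _ d),
        a, ha, ay.symm⟩))
  · exact ⟨a, ha, h2.mem hmW, h1⟩

/-- The vertices that reach `M` minus `z` without using `z`. -/
noncomputable def Kz (H : SimpleGraph V) (M : List V) (k : ℕ) (q : ℕ → V) (z : V) : Finset V :=
  ((KK H M k q).erase z).filter fun v => ∃ m ∈ M, m ≠ z ∧ R H ((KK H M k q).erase z) m v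

theorem mem_Kz {z v : V} : v ∈ Kz H M k q z ↔ v ∈ (KK H M k q).erase z ∧
    ∃ m ∈ M, m ≠ z ∧ R H ((KK H M k q).erase z) m v := mem_filter

theorem Kz_M {z m : V} (hm : m ∈ M) : m ∈ Kz H M k q z ∨ m = z := by
  by_cases c : m = z
  · exact Or.inr c
  · exact Or.inl (mem_Kz.2 ⟨mem_erase.2 ⟨c, KK_of_M hm⟩, m, hm, c, R.refl⟩)

theorem Kz_closed {z v w : V} (hv : v ∈ Kz H M k q z) (a : H.Adj v w) (hw : w ∈ KK H M k q)
    (hz : w ≠ z) : w ∈ Kz H M k q z := by
  obtain ⟨h1, m, hm, hmz, r⟩ := mem_Kz.1 hv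
  exact mem_Kz.2 ⟨mem_erase.2 ⟨hz, hw⟩, m, hm, hmz, r.tail a h1 (mem_erase.2 ⟨hz, hw⟩)⟩

theorem Kz_sub {z : V} : Kz H M k q z ⊆ KK H M k q := fun _ h =>
  mem_of_mem_erase (mem_Kz.1 h).1

theorem Kz_ne {z v : V} (h : v ∈ Kz H M k q z) : v ≠ z := ne_of_mem_erase (mem_Kz.1 h).1

/-- A neighbour in `Kz` gives an exit that avoids every set disjoint from `Kz`. -/
theorem Kz_exit {z : V} {Y : Finset V} {j : ℕ} (h : Act H (Kz H M k q z) (q j))
    (hY : ∀ v ∈ Kz H M k q z, v ∉ Y) : Exit H M k q Y j := by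
  obtain ⟨y, hy, a⟩ := h
  obtain ⟨h1, m, hm, hmz, r⟩ := mem_Kz.1 hy
  have hmK : m ∈ Kz H M k q z := (Kz_M hm).resolve_right hmz
  have r' := (r.closed (S := Kz H M k q z) hmK (fun x hx w hw _ xw =>
    Kz_closed hx xw (mem_of_mem_erase hw) (ne_of_mem_erase hw))).2
  have sub : Kz H M k q z ⊆ KK H M k q \ Y := fun v hv => mem_sdiff.2 ⟨Kz_sub hv, hY v hv⟩
  exact ⟨m, hm, y, sub hy, a, r'.symm.mono (inter_subset_right.trans sub)⟩

/-- A connected set in `KK` that misses `z` and `Kz` lies in one that is adjacent to `z`. -/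
theorem reach_z (hP : PQ H M k q) {z : V} {U' : Finset V} (c : Conn H U')
    (s : U' ⊆ KK H M k q) (hz : ∀ u ∈ U', u ≠ z ∧ u ∉ Kz H M k q z) :
    ∃ S, U' ⊆ S ∧ Conn H S ∧ Act H S z ∧
      ∀ v ∈ S, v ∈ KK H M k q ∧ v ≠ z ∧ v ∉ Kz H M k q z := by
  obtain ⟨u, hu⟩ := c.1
  set T := KK H M k q \ insert z (Kz H M k q z) with hT
  have memT : ∀ v, v ∈ T ↔ v ∈ KK H M k q ∧ v ≠ z ∧ v ∉ Kz H M k q z := by
    intro v
    simp [hT]
  have sT : U' ⊆ T := fun v hv => (memT v).2 ⟨s hv, hz v hv⟩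
  have hS : ∀ v ∈ comp H T u, v ∈ KK H M k q ∧ v ≠ z ∧ v ∉ Kz H M k q z :=
    fun v hv => (memT v).1 (comp_subset hv)
  refine ⟨comp H T u, c.subset_comp sT hu (self_mem_comp (sT hu)), comp_conn (sT hu), ?_, hS⟩
  obtain ⟨m, hm, r⟩ := hP.KK_reach (s hu)
  have hmS : m ∉ comp H T u := fun d => by
    rcases Kz_M (H := H) (k := k) (q := q) (z := z) hm with e | e
    · exact (hS m d).2.2 e
    · exact (hS m d).2.1 e
  obtain ⟨x, y, hx, hy, -, hyK, a, -⟩ := r.symm.exit (self_mem_comp (sT hu)) hmS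
  by_cases e : y = z
  · exact ⟨x, hx, e ▸ a.symm⟩
  · exfalso
    by_cases e' : y ∈ Kz H M k q z
    · exact (hS x hx).2.2 (Kz_closed e' a.symm (hS x hx).1 (hS x hx).2.1)
    · exact hy (comp_closed hx ((memT y).2 ⟨hyK, e, e'⟩) a)

theorem second (hP : PQ H M k q) (hR : RR H M k q) (hL : LL H M k q) (U : Finset V) (i l : ℕ)
    (d1 : Disjoint U (qs k q)) (d2 : Disjoint U (KK H M k q)) (h1 : i + 2 ≤ l) (h2 : l ≤ k) :
    ¬ Span H q U i l := by
  obtain ⟨z, hz⟩ := List.exists_mem_of_ne_nil M hP.M_ne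
  have hW : ∀ w, w ∈ WW k q z ((KK H M k q).erase z) ↔ w ∉ qs k q ∧ w ∉ KK H M k q := by
    intro w
    rw [mem_WW, mem_erase]
    constructor
    · rintro ⟨a, b, c⟩
      exact ⟨a, fun d => c ⟨b, d⟩⟩
    · rintro ⟨a, b⟩
      exact ⟨a, fun d => b (d ▸ KK_of_M hz), fun d => b d.2⟩
  refine hL z ((KK H M k q).erase z) ?_ ?_ ?_ U ?_ i l h1 h2
  · intro m hm
    by_cases c : m = z
    · exact Or.inr c
    · exact Or.inl (mem_erase.2 ⟨c, KK_of_M hm⟩)
  · rintro w hw ⟨v, hv, a⟩
    exact ((hW w).1 hw).2 (hP.KK_closed (mem_of_mem_erase hv) a.symm ((hW w).1 hw).1)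
  · intro U' hU' i' j' l' a b c s d
    exact hR U' i' j' l' s (disjoint_left.2 fun v hv => ((hW v).1 (hU' hv)).1)
      (disjoint_left.2 fun v hv => ((hW v).1 (hU' hv)).2) a b c (d.mono (erase_subset _ _))
  · intro v hv
    exact (hW v).2 ⟨disjoint_left.1 d1 hv, disjoint_left.1 d2 hv⟩

theorem first (hP : PQ H M k q) (hR : RR H M k q) (hX : XL H M k q) (hL : LL H M k q)
    (U₀ : Finset V) : ¬ Good H M k q U₀ := by
  intro h₀
  obtain ⟨U, ⟨hUK, hUM, i, j, l, hij, hjl, hlk, hs, hE⟩, hmax⟩ :=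
    exists_max_of (p := Good H M k q) Finset.card (univ : Finset V).card
      (fun a _ => card_le_univ a) ⟨U₀, h₀⟩
  set K := KK H M k q with hK
  have hS : ∀ w ∈ Nb H K U, ¬ Exit H M k q (insert w U) j := by
    intro w hw
    obtain ⟨wK, wU, wa⟩ := mem_Nb.1 hw
    by_cases c : w ∈ M
    · exact hX U i j l hUK hUM hij hjl hlk hs w c wa
    · intro e
      obtain ⟨u, hu, a⟩ := wa
      have := hmax (insert w U) ⟨insert_subset wK hUK, fun v hv => by
        rcases mem_insert.1 hv with d | d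
        · exact d ▸ c
        · exact hUM v d, i, j, l, hij, hjl, hlk,
        span_mono hs (hs.1.insert hu a.symm) (subset_insert _ _), e⟩
      rw [card_insert_of_notMem wU] at this
      omega
  obtain ⟨u₀, hu₀⟩ := hs.1.1
  obtain ⟨m₀, hm₀, r₀⟩ := hP.KK_reach (hUK hu₀)
  obtain ⟨z, hz, -, ζ⟩ := hit (K := K) subset_rfl (fun c => hUM _ c hm₀) (KK_of_M hm₀) r₀ hu₀
  obtain ⟨zK, zU, za⟩ := mem_Nb.1 hz
  have hUz : ∀ u ∈ U, u ∉ Kz H M k q z := by
    intro u hu c
    obtain ⟨-, m', hm', hmz, r'⟩ := mem_Kz.1 c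
    obtain ⟨w, hw, hwz, ω⟩ := hit (K := K) (erase_subset _ _) (fun c => hUM _ c hm')
      (mem_erase.2 ⟨hmz, KK_of_M hm'⟩) r' hu
    obtain ⟨wK, wU, -⟩ := mem_Nb.1 hw
    have wz : w ≠ z := ne_of_mem_erase hwz
    obtain ⟨m, hm, y, hy, ay, rE⟩ := hE
    obtain ⟨a, ha, r1, r2⟩ := first_hit (A := {w, z, m}) rE (by simp)
    have haK := mem_sdiff.1 (r2.mem hy)
    have sub : ∀ b, a ≠ b → b = w ∨ b = z →
        insert a ((K \ U) \ {w, z, m}) ⊆ K \ insert b U := by
      intro b hb hb' v hv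
      rcases mem_insert.1 hv with d | d
      · subst d
        exact mem_sdiff.2 ⟨haK.1, fun e => (mem_insert.1 e).elim hb haK.2⟩
      · simp only [mem_sdiff, mem_insert, mem_singleton, not_or] at d ⊢
        refine ⟨d.1.1, ?_, d.1.2⟩
        rcases hb' with e | e
        · exact e ▸ d.2.1
        · exact e ▸ d.2.2.1
    have fin : ∀ b, a ≠ b → b = w ∨ b = z → ∀ m'' ∈ M, R H (K \ insert b U) a m'' → False := by
      intro b hb hb' m'' hm'' r
      refine hS b (by rcases hb' with e | e <;> rw [e] <;> assumption)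
        ⟨m'', hm'', y, sub b hb hb' (r1.symm.mem (mem_insert_self _ _)), ay,
          (r1.mono (sub b hb hb')).trans r⟩
    by_cases c1 : a = w
    · refine fin z (c1 ▸ wz) (Or.inr rfl) m' hm' (c1 ▸ ω.symm.mono ?_)
      intro v hv
      rcases mem_insert.1 hv with d | d
      · rw [d]
        exact mem_sdiff.2 ⟨wK, fun e => (mem_insert.1 e).elim wz wU⟩
      · have d' := mem_sdiff.1 d
        exact mem_sdiff.2 ⟨mem_of_mem_erase d'.1, fun e => (mem_insert.1 e).elim
          (ne_of_mem_erase d'.1) fun e' => d'.2 (mem_union_left _ e')⟩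
    · by_cases c2 : a = z
      · refine fin w c1 (Or.inl rfl) m₀ hm₀ (c2 ▸ ζ.symm.mono ?_)
        intro v hv
        rcases mem_insert.1 hv with d | d
        · rw [d]
          exact mem_sdiff.2 ⟨zK, fun e => (mem_insert.1 e).elim wz.symm zU⟩
        · have d' := mem_sdiff.1 d
          exact mem_sdiff.2 ⟨d'.1, fun e => (mem_insert.1 e).elim
            (fun e' => d'.2 (mem_union_right _ (e' ▸ hw))) fun e' => d'.2 (mem_union_left _ e')⟩
      · have c3 : a = m := by
          simp only [mem_insert, mem_singleton] at ha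
          tauto
        exact fin z c2 (Or.inr rfl) m hm (c3 ▸ R.refl)
  refine hL z (Kz H M k q z) (fun m hm => Kz_M hm) ?_ ?_ U ?_ i l (by omega) hlk hs
  · rintro w hw ⟨v, hv, a⟩
    obtain ⟨h1, h2, h3⟩ := mem_WW.1 hw
    exact h3 (Kz_closed hv a.symm (hP.KK_closed (Kz_sub hv) a.symm h1) h2)
  · intro U' hU' i' j' l' a b c s d
    have d1 : Disjoint U' (qs k q) := disjoint_left.2 fun v hv => (mem_WW.1 (hU' hv)).1
    rcases hP.KK_or s.1 d1 with e | e
    · obtain ⟨S, s1, s2, s3, s4⟩ := reach_z hP (z := z) s.1 e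
        (fun v hv => (mem_WW.1 (hU' hv)).2)
      have sM : ∀ v ∈ S, v ∉ M := fun v hv f => by
        rcases Kz_M (H := H) (k := k) (q := q) (z := z) f with g | g
        · exact (s4 v hv).2.2 g
        · exact (s4 v hv).2.1 g
      by_cases zM : z ∈ M
      · refine hX S i' j' l' (fun v hv => (s4 v hv).1) sM a b c (span_mono s s2 s1) z zM s3
          (Kz_exit d fun v hv f => ?_)
        rcases mem_insert.1 f with g | g
        · exact Kz_ne hv g
        · exact (s4 v g).2.2 hv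
      · obtain ⟨x, hx, ax⟩ := s3
        obtain ⟨u, hu, au⟩ := za
        have cY : Conn H (insert z U ∪ S) :=
          (hs.1.insert hu au.symm).union_adj s2 (mem_insert_self _ _) hx ax
        have := hmax (insert z U ∪ S) ⟨union_subset (insert_subset zK hUK)
          (fun v hv => (s4 v hv).1), fun v hv => by
            rcases mem_union.1 hv with g | g
            · rcases mem_insert.1 g with g | g
              · exact g ▸ zM
              · exact hUM v g
            · exact sM v g, i', j', l', a, b, c,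
          span_mono s cY (s1.trans subset_union_right), Kz_exit d fun v hv f => by
            rcases mem_union.1 f with g | g
            · rcases mem_insert.1 g with g | g
              · exact Kz_ne hv g
              · exact hUz v g hv
            · exact (s4 v g).2.2 hv⟩
        have h2 := card_le_card (subset_union_left (s₁ := insert z U) (s₂ := S))
        rw [card_insert_of_notMem zU] at h2
        omega
    · exact hR U' i' j' l' s d1 e a b c (d.mono Kz_sub)
  · intro v hv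
    exact mem_WW.2 ⟨hP.KK_off (hUK hv), fun c => zU (c ▸ hv), hUz v hv⟩

end GoodP

theorem good : GoodStmt := fun _ _ _ _ _ _ hP hR hX hL =>
  ⟨GoodP.first hP hR hX hL, GoodP.second hP hR hL⟩

end Pool.Agent.MP_e6539c_co.P5

end MrgPart1

-- ======== part 2: formerly Pool.Agent.MP_e6539c_co.P5.Ineq
section MrgPart2

/-! The Euler count for a generating family that covers every edge at most twice. -/

set_option autoImplicit false

namespace Pool.Agent.MP_e6539c_co.P5

open Finset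
open Pool.Agent.MP_7be75d_co (R Conn comp)
open Pool.Agent.MP_7be75d_co
open scoped Classical

namespace IneqM

variable {V : Type} [Fintype V]

/-- Merging along all edges of `D`. -/
theorem multi (hM : MergeStmt) {H : SimpleGraph V} {F : Finset (Vec V)} (hF : ∀ f ∈ F, Ev H f)
    (h2 : ∀ e, cov F e ≤ 2) (D : Finset (Sym2 V)) :
    ∃ F' : Finset (Vec V), (∀ f ∈ F', Ev H f ∧ ∀ e ∈ D, f e = 0) ∧ (∀ e, cov F' e ≤ cov F e) ∧
      ∀ x ∈ Submodule.span (ZMod 2) (F : Set (Vec V)), (∀ e ∈ D, x e = 0) →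
        x ∈ Submodule.span (ZMod 2) (F' : Set (Vec V)) := by
  induction D using Finset.induction_on with
  | empty => exact ⟨F, fun f hf => ⟨hF f hf, fun e he => absurd he (notMem_empty e)⟩,
      fun _ => le_rfl, fun x hx _ => hx⟩
  | insert e D _ ih =>
    obtain ⟨F1, a1, a2, a3⟩ := ih
    obtain ⟨F2, b1, b2, b3⟩ := hM V F1 e ((a2 e).trans (h2 e))
    refine ⟨F2, fun f hf => ?_, fun e' => (b2 e').trans (a2 e'), fun x hx hD =>
      b3 x (a3 x hx fun e' he' => hD e' (mem_insert_of_mem he')) (hD e (mem_insert_self _ _))⟩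
    obtain ⟨c1, c2⟩ := b1 f hf
    have : Ev H f ∧ ∀ e ∈ D, f e = 0 := by
      rcases c2 with c2 | ⟨g, hg, h, hh, rfl⟩
      · exact a1 f c2
      · refine ⟨(a1 g hg).1.add (a1 h hh).1, fun e' he' => ?_⟩
        rw [Pi.add_apply, (a1 g hg).2 e' he', (a1 h hh).2 e' he', add_zero]
    refine ⟨this.1, fun e' he' => ?_⟩
    rcases mem_insert.1 he' with rfl | he'
    · exact c1
    · exact this.2 e' he'

theorem double (F : Finset (Vec V)) (ω : Sym2 V → ℕ) :
    ∑ f ∈ F, ∑ e ∈ univ.filter (fun e => f e ≠ 0), ω e = ∑ e, ω e * cov F e := by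
  simp only [sum_filter]
  rw [sum_comm]
  refine sum_congr rfl fun e _ => ?_
  rw [← sum_filter, sum_const, smul_eq_mul, mul_comm]
  rfl

/-- The graph induced on `S`. -/
def ind (G : SimpleGraph V) (S : Finset V) : SimpleGraph V where
  Adj x y := G.Adj x y ∧ x ∈ S ∧ y ∈ S
  symm := ⟨fun _ _ h => ⟨h.1.symm, h.2.2, h.2.1⟩⟩
  loopless := ⟨fun _ h => h.1.ne rfl⟩

theorem hand (G : SimpleGraph V) (S : Finset V) : ∃ E : Finset (Sym2 V),
    (∀ e ∈ E, ∃ u ∈ S, ∃ v ∈ S, G.Adj u v ∧ e = s(u, v)) ∧ ∑ v ∈ S, dg G S v = 2 * E.card := by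
  refine ⟨(ind G S).edgeFinset, fun e he => ?_, ?_⟩
  · induction e using Sym2.ind with
    | h u v =>
      have : (ind G S).Adj u v := by simpa using he
      exact ⟨u, this.2.1, v, this.2.2, this.1, rfl⟩
  · rw [← SimpleGraph.sum_degrees_eq_twice_card_edges]
    refine sum_subset_zero_on_sdiff (subset_univ S) (fun v hv => ?_) fun v hv => ?_
    · rw [SimpleGraph.degree_eq_zero]
      intro w a
      exact (mem_sdiff.1 hv).2 a.2.1
    · rw [← SimpleGraph.card_neighborFinset_eq_degree]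
      unfold dg
      congr 1
      ext w
      simp only [mem_filter, SimpleGraph.mem_neighborFinset]
      exact ⟨fun h => ⟨h.2, hv, h.1⟩, fun h => ⟨h.2.2, h.1⟩⟩

/-- The weight of an edge. -/
noncomputable def wt (C : Finset V) (w : V → ℕ) : Sym2 V → ℕ :=
  Sym2.lift ⟨fun u v => if u ∈ C then (if v ∈ C then 2 else w u) else (if v ∈ C then w v else 6),
    fun u v => by by_cases a : u ∈ C <;> by_cases b : v ∈ C <;> simp [a, b]⟩

omit [Fintype V] in
theorem wt_mk (C : Finset V) (w : V → ℕ) (u v : V) : wt C w s(u, v) =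
    if u ∈ C then (if v ∈ C then 2 else w u) else (if v ∈ C then w v else 6) := rfl

theorem arith (k : ℕ) : 4 * min 3 (2 * k) + 2 * (k * if k ≤ 1 then 8 else 9) ≤ 24 * k := by
  split_ifs <;> omega

end IneqM

open IneqM

theorem ineq (hM : MergeStmt) (hD : DimStmt) (hW : WeightStmt) : IneqStmt := by
  intro V _ G Γ C c A t h ht F hF S hS
  have ho := h.t_out ht
  have hi := h.t_inj ht
  obtain ⟨E1, e1, n1⟩ := IneqM.hand G S
  let P : Finset (V × Fin 4) := (S ×ˢ univ).filter fun p => ∃ a ∈ A p.2, G.Adj p.1 a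
  have hP : ∀ p, p ∈ P ↔ p.1 ∈ S ∧ ∃ a ∈ A p.2, G.Adj p.1 a := fun p => by simp [P]
  have sP : ∀ g : V → ℕ, ∑ p ∈ P, g p.1 = ∑ v ∈ S, kk G A v * g v := by
    intro g
    rw [sum_filter, sum_product]
    refine sum_congr rfl fun v _ => ?_
    rw [← sum_filter]
    simp only [sum_const, smul_eq_mul]
    rfl
  have iP : Set.InjOn (fun p : V × Fin 4 => s(p.1, t p.2)) P := by
    intro p hp q _ e
    rcases Sym2.eq_iff.1 e with e | e
    · exact Prod.ext e.1 (hi e.2)
    · exact absurd (e.1 ▸ hS ((hP p).1 hp).1) (ho q.2)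
  have i3 : Function.Injective fun i : Fin 4 => s(t i, t (i + 1)) := by
    intro i j e
    rcases Sym2.eq_iff.1 e with e | e
    · exact hi e.1
    · exact (by decide : ∀ i j : Fin 4, i = j + 1 → i + 1 = j → i = j) i j (hi e.1) (hi e.2)
  let E2 := P.image fun p => s(p.1, t p.2)
  let E3 := (univ : Finset (Fin 4)).image fun i => s(t i, t (i + 1))
  have n2 : E2.card = ∑ v ∈ S, kk G A v := by
    rw [card_image_of_injOn iP, card_eq_sum_ones, sP fun _ => 1]
    simp
  have n3 : E3.card = 4 := by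
    rw [card_image_of_injective _ i3]
    rfl
  have d12 : Disjoint E1 E2 := by
    refine disjoint_left.2 fun e a b => ?_
    obtain ⟨u, hu, v, hv, -, rfl⟩ := e1 e a
    obtain ⟨p, -, e⟩ := mem_image.1 b
    rcases Sym2.eq_iff.1 e with e | e
    · exact ho p.2 (e.2 ▸ hS hv)
    · exact ho p.2 (e.2 ▸ hS hu)
  have d3 : Disjoint (E1 ∪ E2) E3 := by
    refine disjoint_left.2 fun e a b => ?_
    obtain ⟨i, -, rfl⟩ := mem_image.1 b
    rcases mem_union.1 a with a | a
    · obtain ⟨u, hu, v, hv, -, e⟩ := e1 _ a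
      rcases Sym2.eq_iff.1 e with e | e
      · exact ho i (e.1 ▸ hS hu)
      · exact ho i (e.1 ▸ hS hv)
    · obtain ⟨p, hp, e⟩ := mem_image.1 a
      rcases Sym2.eq_iff.1 e with e | e
      · exact ho i (e.1 ▸ hS ((hP p).1 hp).1)
      · exact ho (i + 1) (e.1 ▸ hS ((hP p).1 hp).1)
  have hE : ∀ e ∈ E1 ∪ E2 ∪ E3, ∃ u ∈ S ∪ univ.image t, ∃ v ∈ S ∪ univ.image t,
      (HK G C A t).Adj u v ∧ e = s(u, v) := by
    intro e he
    have mt : ∀ i, t i ∈ S ∪ univ.image t := fun i =>
      mem_union_right _ (mem_image_of_mem _ (mem_univ i))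
    rcases mem_union.1 he with he | he
    · rcases mem_union.1 he with he | he
      · obtain ⟨u, hu, v, hv, a, rfl⟩ := e1 e he
        exact ⟨u, mem_union_left _ hu, v, mem_union_left _ hv,
          (hk_adj_CC ho (hS hu) (hS hv)).2 a, rfl⟩
      · obtain ⟨p, hp, rfl⟩ := mem_image.1 he
        rw [hP] at hp
        exact ⟨p.1, mem_union_left _ hp.1, _, mt p.2, (hk_adj_Ct ho hi (hS hp.1) p.2).2 hp.2, rfl⟩
    · obtain ⟨i, -, rfl⟩ := mem_image.1 he
      exact ⟨_, mt i, _, mt (i + 1), (hk_adj_tt ho hi i (i + 1)).2 (Or.inl rfl), rfl⟩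
  have hE' : ∀ u v, s(u, v) ∈ E1 ∪ E2 ∪ E3 →
      (HK G C A t).Adj u v ∧ u ∈ S ∪ univ.image t ∧ v ∈ S ∪ univ.image t := by
    intro u v he
    obtain ⟨a, ha, b, hb, k, e⟩ := hE _ he
    rcases Sym2.eq_iff.1 e with ⟨rfl, rfl⟩ | ⟨rfl, rfl⟩
    · exact ⟨k, ha, hb⟩
    · exact ⟨k.symm, hb, ha⟩
  obtain ⟨F1, a1, a2, a3⟩ := multi hM hF.ev hF.two (univ \ (E1 ∪ E2 ∪ E3))
  have c1 : ∀ e, cov (F1.erase 0) e ≤ cov F e := fun e =>
    (card_le_card (filter_subset_filter _ (erase_subset _ _))).trans (a2 e)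
  have k1 := hD V (E1 ∪ E2 ∪ E3) (S ∪ univ.image t) (F1.erase 0)
    ⟨t 0, mem_union_right _ (mem_image_of_mem _ (mem_univ _))⟩
    (fun u v he => ⟨(hE' u v he).1.ne, (hE' u v he).2⟩) (fun x hx hp => by
      have := a3 x (hF.span x ⟨fun u v c => (hE' u v (hx _ c)).1, hp⟩) fun e he => by
        by_contra c
        exact (mem_sdiff.1 he).2 (hx e c)
      refine Submodule.span_le.2 (fun f hf => ?_) this
      by_cases c : f = 0
      · rw [c]
        exact Submodule.zero_mem _
      · exact Submodule.subset_span (mem_coe.2 (mem_erase.2 ⟨c, hf⟩)))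
  have k2 : (S ∪ univ.image t).card ≤ S.card + 4 :=
    (card_union_le _ _).trans (Nat.add_le_add_left card_image_le _)
  rw [card_union_of_disjoint d3, card_union_of_disjoint d12, n2, n3] at k1
  let w : V → ℕ := fun u => if kk G A u ≤ 1 then 8 else 9
  have k3 : 24 * (F1.erase 0).card ≤ ∑ e, wt C w e * cov (F1.erase 0) e := by
    rw [← double, mul_comm, ← smul_eq_mul]
    refine card_nsmul_le_sum _ _ _ fun f hf => ?_
    refine hW V G Γ C c A t h ht (wt C w) (fun u hu v hv => ?_) (fun i => ?_) (fun u hu i => ?_) f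
      (a1 f (mem_of_mem_erase hf)).1 (ne_of_mem_erase hf)
    · rw [wt_mk, if_pos hu, if_pos hv]
    · rw [wt_mk, if_neg (ho _), if_neg (ho _)]
    · rw [wt_mk, if_pos hu, if_neg (ho _)]
  have k4 : ∑ e, wt C w e * cov (F1.erase 0) e =
      ∑ e ∈ E1 ∪ E2 ∪ E3, wt C w e * cov (F1.erase 0) e := by
    refine (sum_subset (subset_univ _) fun e _ he => ?_).symm
    rw [cov_eq_zero fun f hf => (a1 f (mem_of_mem_erase hf)).2 e (mem_sdiff.2 ⟨mem_univ _, he⟩),
      mul_zero]
  have k5 : ∑ e ∈ E1, wt C w e * cov (F1.erase 0) e ≤ E1.card * 4 := by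
    rw [← smul_eq_mul]
    refine sum_le_card_nsmul _ _ _ fun e he => ?_
    obtain ⟨u, hu, v, hv, -, rfl⟩ := e1 e he
    rw [wt_mk, if_pos (hS hu), if_pos (hS hv)]
    have := (c1 s(u, v)).trans (hF.two _)
    omega
  have k6 : ∑ e ∈ E2, wt C w e * cov (F1.erase 0) e ≤ ∑ v ∈ S, kk G A v * (w v * 2) := by
    rw [sum_image iP, ← sP fun v => w v * 2]
    refine sum_le_sum fun p hp => ?_
    rw [wt_mk, if_pos (hS ((hP p).1 hp).1), if_neg (ho _)]
    exact Nat.mul_le_mul_left _ ((c1 _).trans (hF.two _))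
  have k7 : ∑ e ∈ E3, wt C w e * cov (F1.erase 0) e ≤ E3.card * 6 := by
    rw [← smul_eq_mul]
    refine sum_le_card_nsmul _ _ _ fun e he => ?_
    obtain ⟨i, -, rfl⟩ := mem_image.1 he
    rw [wt_mk, if_neg (ho _), if_neg (ho _)]
    have := (c1 s(t i, t (i + 1))).trans (hF.one _ _ (fr_four' t i))
    omega
  rw [k4, sum_union d3, sum_union d12] at k3
  have k8 : ∑ v ∈ S, (4 * min 3 (2 * kk G A v) + kk G A v * (w v * 2)) ≤
      ∑ v ∈ S, 24 * kk G A v := by
    refine sum_le_sum fun v _ => ?_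
    have := arith (kk G A v)
    rwa [mul_comm 2 (_ * _), mul_assoc] at this
  rw [sum_add_distrib, ← mul_sum, ← mul_sum] at k8
  rw [sum_add_distrib, ← mul_sum, ← mul_sum]
  omega

end Pool.Agent.MP_e6539c_co.P5

end MrgPart2

-- ======== part 3: formerly Pool.Agent.MP_e6539c_co.P5.Pcross
section MrgPart3

/-! No cross appears when the path replaces the frame edge between its ends. -/

set_option autoImplicit false

namespace Pool.Agent.MP_e6539c_co.P5

open Finset
open Pool.Agent.MP_7be75d_co (R Conn comp)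
open Pool.Agent.MP_7be75d_co
open scoped Classical

namespace Pcross

variable {V : Type} {H : SimpleGraph V} {M : List V} {k : ℕ} {q : ℕ → V}

theorem sub_range {l : List V} (h : l.Sublist ((List.range (k + 1)).map q)) :
    ∃ l' : List ℕ, l = l'.map q ∧ l'.Pairwise (· < ·) ∧ ∀ i ∈ l', i ≤ k := by
  obtain ⟨l', s, e⟩ := List.sublist_map_iff.1 h
  exact ⟨l', e, List.pairwise_lt_range.sublist s, fun i hi => by
    simpa [Nat.lt_succ_iff] using s.subset hi⟩

theorem mem_new {z : V} :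
    z ∈ (List.range (k + 1)).map q ++ M ↔ (∃ i ≤ k, q i = z) ∨ z ∈ M := by
  simp

theorem mem_old {z : V} : z ∈ q k :: (M ++ [q 0]) ↔ z = q k ∨ z ∈ M ∨ z = q 0 := by simp

/-- The set `X` meets the new frame exactly in `a` and `b`. -/
def Meet (M : List V) (k : ℕ) (q : ℕ → V) (X : Finset V) (a b : V) : Prop :=
  ∀ z, (z ∈ X ∧ ((∃ i ≤ k, q i = z) ∨ z ∈ M)) ↔ (z = a ∨ z = b)

theorem Meet.left {X : Finset V} {a b : V} (h : Meet M k q X a b) : a ∈ X :=
  ((h a).2 (Or.inl rfl)).1

theorem Meet.right {X : Finset V} {a b : V} (h : Meet M k q X a b) : b ∈ X :=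
  ((h b).2 (Or.inr rfl)).1

/-- Both ends on `M`: the set meets the old frame in the same two vertices. -/
theorem Meet.old {X : Finset V} {a b : V} (h : Meet M k q X a b) (ha : a ∈ M) (hb : b ∈ M)
    (z : V) : (z ∈ X ∧ z ∈ q k :: (M ++ [q 0])) ↔ (z = a ∨ z = b) := by
  rw [mem_old]
  constructor
  · rintro ⟨h1, rfl | h2 | rfl⟩
    · exact (h _).1 ⟨h1, Or.inl ⟨k, le_rfl, rfl⟩⟩
    · exact (h _).1 ⟨h1, Or.inr h2⟩
    · exact (h _).1 ⟨h1, Or.inl ⟨0, Nat.zero_le _, rfl⟩⟩
  · rintro (rfl | rfl)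
    · exact ⟨h.left, Or.inr (Or.inl ha)⟩
    · exact ⟨h.right, Or.inr (Or.inl hb)⟩

theorem Meet.path_MM (P : PQ H M k q) {X : Finset V} {a b : V} (h : Meet M k q X a b)
    (ha : a ∈ M) (hb : b ∈ M) {t : ℕ} (ht : t ≤ k) : q t ∉ X := fun c => by
  rcases (h _).1 ⟨c, Or.inl ⟨t, ht, rfl⟩⟩ with e | e
  · exact P.off t ht (e ▸ ha)
  · exact P.off t ht (e ▸ hb)

theorem Meet.path_qM (P : PQ H M k q) {X : Finset V} {i : ℕ} {b : V} (h : Meet M k q X (q i) b)
    (hi : i ≤ k) (hb : b ∈ M) {t : ℕ} (ht : t ≤ k) (c : q t ∈ X) : t = i := by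
  rcases (h _).1 ⟨c, Or.inl ⟨t, ht, rfl⟩⟩ with e | e
  · exact P.inj t ht i hi e
  · exact absurd (e ▸ hb) (P.off t ht)

theorem mem_seg {a b : ℕ} {z : V} :
    z ∈ (Icc a b).image q ↔ ∃ t, a ≤ t ∧ t ≤ b ∧ q t = z := by
  simp [and_assoc]

/-- One end on the path: extend the set along the path to an end `e` of the path. -/
theorem extend (P : PQ H M k q) {X : Finset V} {i a b e : ℕ} {y : V} (c : Conn H X)
    (h : Meet M k q X (q i) y) (hy : y ∈ M) (h1 : a ≤ i) (h2 : i ≤ b) (h3 : b ≤ k)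
    (h4 : a ≤ e) (h5 : e ≤ b) (h6 : e = 0 ∨ e = k)
    (h7 : ∀ t, a ≤ t → t ≤ b → t = 0 ∨ t = k → t = e) :
    Conn H (X ∪ (Icc a b).image q) ∧
      ∀ z, (z ∈ X ∪ (Icc a b).image q ∧ z ∈ q k :: (M ++ [q 0])) ↔ (z = q e ∨ z = y) := by
  refine ⟨c.union (conn_segment (h1.trans h2) fun j _ hj => P.adj j (by omega)) h.left
    (mem_seg.2 ⟨i, h1, h2, rfl⟩), fun z => ?_⟩
  rw [mem_old, mem_union, mem_seg]
  have key : ∀ s, s = 0 ∨ s = k → (q s ∈ X ∨ ∃ t, a ≤ t ∧ t ≤ b ∧ q t = q s) → s = e := by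
    intro s hs hz
    have sk : s ≤ k := by omega
    rcases hz with hz | ⟨t, t1, t2, t3⟩
    · have := h.path_qM P (by omega) hy sk hz
      exact h7 s (by omega) (by omega) hs
    · have := P.inj t (by omega) s sk t3
      exact h7 s (by omega) (by omega) hs
  constructor
  · rintro ⟨hz, rfl | hm | rfl⟩
    · exact Or.inl (congrArg q (key k (Or.inr rfl) hz))
    · rcases hz with hz | ⟨t, -, t2, rfl⟩
      · rcases (h z).1 ⟨hz, Or.inr hm⟩ with rfl | rfl
        · exact absurd hm (P.off i (by omega))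
        · exact Or.inr rfl
      · exact absurd hm (P.off t (by omega))
    · exact Or.inl (congrArg q (key 0 (Or.inl rfl) hz))
  · rintro (rfl | rfl)
    · refine ⟨Or.inr ⟨e, h4, h5, rfl⟩, ?_⟩
      rcases h6 with rfl | rfl
      · exact Or.inr (Or.inr rfl)
      · exact Or.inl rfl
    · exact ⟨Or.inl h.right, Or.inr (Or.inl hy)⟩

/-- Three ends on `M`. -/
theorem three (P : PQ H M k q) {X₁ X₂ : Finset V} {i : ℕ} {u y v : V} (hi : i ≤ k)
    (s : List.Sublist [u, y, v] M) (c₁ : Conn H X₁) (c₂ : Conn H X₂) (d : Disjoint X₁ X₂)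
    (m₁ : Meet M k q X₁ (q i) y) (m₂ : Meet M k q X₂ u v) : Cross H (q k :: (M ++ [q 0])) := by
  have hu : u ∈ M := s.subset (by simp)
  have hy : y ∈ M := s.subset (by simp)
  have hv : v ∈ M := s.subset (by simp)
  have dj : ∀ a b, b ≤ k → Disjoint (X₁ ∪ (Icc a b).image q) X₂ := by
    intro a b hb
    refine disjoint_union_left.2 ⟨d, disjoint_left.2 fun z hz hz' => ?_⟩
    obtain ⟨t, -, t2, rfl⟩ := mem_seg.1 hz
    exact m₂.path_MM P hu hv (by omega) hz'
  rcases hi.eq_or_lt with rfl | hi'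
  · obtain ⟨c, e⟩ := extend (a := i) (b := i) (e := i) P c₁ m₁ hy le_rfl le_rfl le_rfl le_rfl
      le_rfl (Or.inr rfl) (fun t _ _ _ => by omega)
    exact cross_mk ((s.trans (List.sublist_append_left _ _)).cons_cons _) c c₂ (dj _ _ le_rfl) e
      (m₂.old hu hv)
  · obtain ⟨c, e⟩ := extend (a := 0) (b := i) (e := 0) P c₁ m₁ hy (Nat.zero_le _) le_rfl hi
      le_rfl (Nat.zero_le _) (Or.inl rfl) (fun t _ _ _ => by omega)
    exact cross_mk (x := u) (u := y) (y := v) (v := q 0)
      ((s.append (List.Sublist.refl [q 0])).cons _) c₂ c (dj _ _ hi).symm (m₂.old hu hv)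
      (fun z => (e z).trans or_comm)

/-- Two ends on `M`. -/
theorem two (P : PQ H M k q) {X₁ X₂ : Finset V} {i j : ℕ} {y v : V} (hij : i < j) (hj : j ≤ k)
    (s : List.Sublist [y, v] M) (c₁ : Conn H X₁) (c₂ : Conn H X₂) (d : Disjoint X₁ X₂)
    (m₁ : Meet M k q X₁ (q i) y) (m₂ : Meet M k q X₂ (q j) v) :
    Cross H (q k :: (M ++ [q 0])) := by
  have hy : y ∈ M := s.subset (by simp)
  have hv : v ∈ M := s.subset (by simp)
  obtain ⟨c, e⟩ := extend (a := 0) (b := i) (e := 0) P c₁ m₁ hy (Nat.zero_le _) le_rfl (by omega)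
    le_rfl (Nat.zero_le _) (Or.inl rfl) (fun t _ _ _ => by omega)
  obtain ⟨c', e'⟩ := extend (a := j) (b := k) (e := k) P c₂ m₂ hv le_rfl hj le_rfl hj
    le_rfl (Or.inr rfl) (fun t _ _ _ => by omega)
  refine cross_mk (x := q k) (u := y) (y := v) (v := q 0)
    ((s.append (List.Sublist.refl [q 0])).cons_cons _) c' c ?_ e' (fun z => (e z).trans or_comm)
  refine disjoint_left.2 fun z hz hz' => ?_
  rw [mem_union, mem_seg] at hz hz'
  rcases hz with hz | ⟨t, t1, t2, rfl⟩
  · rcases hz' with hz' | ⟨t, -, t2, rfl⟩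
    · exact disjoint_left.1 d hz' hz
    · have := m₂.path_qM P hj hv (by omega) hz
      omega
  · rcases hz' with hz' | ⟨t', -, t3, t4⟩
    · have := m₁.path_qM P (by omega) hy t2 hz'
      omega
    · have := P.inj t' (by omega) t t2 t4
      omega

variable [Fintype V]

/-- Both ends on the path: the interior of the set spans them inside `KK`. -/
theorem open_span (P : PQ H M k q) (nc : NC H k q)
    (hs : ∀ U i l, Disjoint U (qs k q) → Disjoint U (KK H M k q) → i + 2 ≤ l → l ≤ k →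
      ¬ Span H q U i l)
    {X : Finset V} {i l : ℕ} (hil : i + 2 ≤ l) (hl : l ≤ k)
    (c : Conn (H.deleteEdges {s(q 0, q k)}) X) (m : Meet M k q X (q i) (q l)) :
    ∃ U ⊆ X, U ⊆ KK H M k q ∧ (∀ u ∈ U, u ∉ M) ∧ Span H q U i l := by
  have hne : q i ≠ q l := fun e => by have := P.inj i (by omega) l hl e; omega
  rcases conn_open c m.left m.right hne with a | ⟨U, hU, cU, ⟨w, w1, w2⟩, w', w3, w4⟩
  · rw [SimpleGraph.deleteEdges_adj] at a
    obtain ⟨rfl, rfl⟩ := nc i l hil hl a.1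
    exact absurd rfl a.2
  · have off : ∀ u ∈ U, ¬ ((∃ t ≤ k, q t = u) ∨ u ∈ M) := by
      intro u hu h
      have h1 := mem_sdiff.1 (hU hu)
      exact h1.2 (by simpa using (m u).1 ⟨h1.1, h⟩)
    have cU' : Conn H U := cU.mono' fun _ _ a _ _ => (SimpleGraph.deleteEdges_adj.1 a).1
    have sp : Span H q U i l := ⟨cU', ⟨w, w1, (SimpleGraph.deleteEdges_adj.1 w2).1⟩,
      w', w3, (SimpleGraph.deleteEdges_adj.1 w4).1⟩
    have dq : Disjoint U (qs k q) :=
      disjoint_left.2 fun u hu h => off u hu (Or.inl (mem_qs.1 h))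
    rcases P.KK_or cU' dq with h | h
    · exact ⟨U, hU.trans sdiff_subset, h, fun u hu h => off u hu (Or.inr h), sp⟩
    · exact absurd sp (hs U i l dq h hil hl)

/-- One end on the path and one on `M`: the set gives an exit. -/
theorem exit_of (P : PQ H M k q) {X U : Finset V} {j : ℕ} {v : V} (hj : j ≤ k) (hv : v ∈ M)
    (c : Conn H X) (m : Meet M k q X (q j) v) (d : Disjoint U X) : Exit H M k q U j := by
  have hne : v ≠ q j := fun e => P.off j hj (e ▸ hv)
  obtain ⟨x, y, hx, hy, -, hyX, a, r⟩ := (c.2 v m.right _ m.left).exit (S := X.erase (q j))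
    (mem_erase.2 ⟨hne, m.right⟩) (notMem_erase _ _)
  obtain rfl : y = q j := by
    by_contra e
    exact hy (mem_erase.2 ⟨e, hyX⟩)
  obtain ⟨h1, h2⟩ := r.closed (S := KK H M k q) (KK_of_M hv) fun z hz w hw _ b => by
    refine P.KK_closed hz b fun h => ?_
    obtain ⟨t, ht, rfl⟩ := mem_qs.1 h
    have hw' := mem_erase.1 (mem_inter.1 hw).2
    exact hw'.1 (congrArg q (m.path_qM P hj hv ht hw'.2))
  refine ⟨v, hv, x, mem_sdiff.2 ⟨h1, fun h => disjoint_left.1 d h (mem_of_mem_erase hx)⟩, a.symm,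
    h2.symm.mono fun z hz => ?_⟩
  rw [mem_inter, mem_inter] at hz
  exact mem_sdiff.2 ⟨hz.2, fun h => disjoint_left.1 d h hz.1.1⟩

/-- A walk from `M` that first meets `U ∪ U'` in `U'` gives an exit through `U'`. -/
theorem exit_hit {U U' : Finset V} {j : ℕ} {m a : V} (hm : m ∈ M) (ha : a ∈ U')
    (hU' : U' ⊆ KK H M k q) (c : Conn H U') (d : Disjoint U U') (act : Act H U' (q j))
    (r : R H (insert a (KK H M k q \ (U ∪ U'))) m a) : Exit H M k q U j := by
  obtain ⟨y, hy, b⟩ := act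
  have sub : U' ⊆ KK H M k q \ U :=
    fun z hz => mem_sdiff.2 ⟨hU' hz, fun h => disjoint_left.1 d h hz⟩
  refine ⟨m, hm, y, sub hy, b, (c.r hy ha sub).trans (r.symm.mono ?_)⟩
  exact insert_subset (sub ha) (sdiff_subset_sdiff subset_rfl subset_union_left)

end Pcross

open Pcross in
theorem pcross : PcrossStmt := by
  intro V _ H M k q P hc nc hg hs h
  have rot : (q k :: (M ++ (List.range k).map q)) ~r ((List.range (k + 1)).map q ++ M) :=
    rot_iff.2 ⟨q k :: M, (List.range k).map q, by simp, by simp [List.range_succ]⟩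
  obtain ⟨x, u, y, v, X₁, X₂, s, c₁, c₂, d, f₁, f₂⟩ := (h.rot rot).norm
  have m₁ : Meet M k q X₁ x y := fun z => by rw [← mem_new]; exact f₁ z
  have m₂ : Meet M k q X₂ u v := fun z => by rw [← mem_new]; exact f₂ z
  have c₁' : Conn H X₁ := c₁.mono' fun _ _ a _ _ => (SimpleGraph.deleteEdges_adj.1 a).1
  have c₂' : Conn H X₂ := c₂.mono' fun _ _ a _ _ => (SimpleGraph.deleteEdges_adj.1 a).1
  obtain ⟨l₁, l₂, e, s1, s2⟩ := List.sublist_append_iff.1 s
  obtain ⟨l, rfl, pw, hk⟩ := sub_range s1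
  match l, e, pw, hk with
  | [], e, _, _ =>
    obtain rfl : [x, u, y, v] = l₂ := e
    exact hc (cross_mk ((s2.trans (List.sublist_append_left _ _)).cons _) c₁' c₂' d
      (m₁.old (s2.subset (by simp)) (s2.subset (by simp)))
      (m₂.old (s2.subset (by simp)) (s2.subset (by simp))))
  | [i], e, _, hk =>
    simp only [List.map_cons, List.map_nil, List.cons_append, List.nil_append,
      List.cons.injEq] at e
    obtain ⟨rfl, rfl⟩ := e
    exact hc (three P (hk i (by simp)) s2 c₁' c₂' d m₁ m₂)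
  | [i, j], e, pw, hk =>
    simp only [List.map_cons, List.map_nil, List.cons_append, List.nil_append,
      List.cons.injEq] at e
    obtain ⟨rfl, rfl, rfl⟩ := e
    exact hc (two P (by simpa using pw) (hk j (by simp)) s2 c₁' c₂' d m₁ m₂)
  | [i, j, l], e, pw, hk =>
    simp only [List.map_cons, List.map_nil, List.cons_append, List.nil_append,
      List.cons.injEq] at e
    obtain ⟨rfl, rfl, rfl, rfl⟩ := e
    have hl : l ≤ k := hk l (by simp)
    have o : i < j ∧ j < l := by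
      simp only [List.pairwise_cons, List.mem_cons, forall_eq_or_imp] at pw
      exact ⟨pw.1.1, pw.2.1.1⟩
    obtain ⟨U, hU, h1, h2, sp⟩ := open_span P nc hs (by omega) hl c₁ m₁
    exact hg U ⟨h1, h2, i, j, l, o.1, o.2, hl, sp,
      exit_of P (by omega) (s2.subset (by simp)) c₂' m₂ (d.mono_left hU)⟩
  | i :: j :: l :: n :: t, e, pw, hk =>
    simp only [List.map_cons, List.cons_append, List.cons.injEq] at e
    obtain ⟨rfl, rfl, rfl, rfl, -⟩ := e
    have hn : n ≤ k := hk n (by simp)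
    have o : i < j ∧ j < l ∧ l < n := by
      simp only [List.pairwise_cons, List.mem_cons, forall_eq_or_imp] at pw
      exact ⟨pw.1.1, pw.2.1.1, pw.2.2.1.1⟩
    obtain ⟨U, hU, h1, h2, sp⟩ := open_span P nc hs (by omega) (by omega) c₁ m₁
    obtain ⟨U', hU', h1', h2', sp'⟩ := open_span P nc hs (by omega) hn c₂ m₂
    have dU : Disjoint U U' := d.mono hU hU'
    obtain ⟨w, hw⟩ := sp.1.1
    obtain ⟨m, hm, r⟩ := P.KK_reach (h1 hw)
    obtain ⟨a, ha, r', -⟩ := first_hit (A := U ∪ U') r (mem_union_left _ hw)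
    rcases mem_union.1 ha with ha | ha
    · rw [union_comm] at r'
      exact hg U' ⟨h1', h2', j, l, n, o.2.1, o.2.2, hn, sp',
        exit_hit hm ha h1 sp.1 dU.symm sp.2.2 r'⟩
    · exact hg U ⟨h1, h2, i, j, l, o.1, o.2.1, by omega, sp,
        exit_hit hm ha h1' sp'.1 dU sp'.2.1 r'⟩

end Pool.Agent.MP_e6539c_co.P5

end MrgPart3

-- ======== part 4: formerly Pool.Agent.MP_e6539c_co.P5.Surv
section MrgPart4

/-! The rest of the territory stays cyclic after a geodesic is removed. -/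

set_option autoImplicit false

namespace Pool.Agent.MP_e6539c_co.P5

open Finset
open Pool.Agent.MP_7be75d_co (R Conn comp)
open Pool.Agent.MP_7be75d_co
open scoped Classical

namespace Surv

variable {V : Type} [Fintype V] {G : SimpleGraph V}

theorem nbr2 {v : V} (h : 3 ≤ dg G univ v) (a b : V) : ∃ w, w ≠ a ∧ w ≠ b ∧ G.Adj v w := by
  obtain ⟨w, -, h1, h2⟩ := exists_nbr (G := G) (W := univ) (A := {a, b}) (v := v)
    (lt_of_le_of_lt card_le_two (by omega))
  simp only [mem_insert, mem_singleton, not_or] at h1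
  exact ⟨w, h1.1, h1.2, h2⟩

/-- A set that holds two levels of neighbours of `z` has six vertices. -/
theorem six (hG : Gi G) {Y : Finset V} {u z : V} (hz : z ∈ Y) (hd : Deg3 G Y)
    (h1 : ∀ x, G.Adj z x → x ≠ u → x ∈ Y)
    (h2 : ∀ v ∈ Y, G.Adj z v → ∀ x, G.Adj v x → x ∈ Y) : 6 ≤ Y.card := by
  obtain ⟨p, p1, -, p2⟩ := nbr2 (hd z hz) u u
  obtain ⟨q, q1, q2, q3⟩ := nbr2 (hd z hz) u p
  have hp := h1 p p2 p1
  have hq := h1 q q3 q1
  obtain ⟨a, a1, -, a2⟩ := nbr2 (hd p hp) z z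
  obtain ⟨b, b1, b2, b3⟩ := nbr2 (hd p hp) z a
  obtain ⟨c, c1, -, c2⟩ := nbr2 (hd q hq) z z
  have tri : ¬ G.Adj p q := fun e => by
    have := hG {p, q} z p q 1 (by simp [p2.ne, q3.ne]) p2 q3 q2.symm
      (Wk.single e (by simp) (by simp))
    omega
  have sq : ∀ x, x ≠ z → G.Adj p x → ¬ G.Adj q x := fun x hx e e' => by
    have := hG {p, x, q} z p q 2 (by simp [p2.ne, q3.ne, hx.symm]) p2 q3 q2.symm
      ((Wk.single e (by simp) (by simp)).tail e'.symm (by simp))
    omega
  have aq : a ≠ q := fun e => tri (e ▸ a2)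
  have bq : b ≠ q := fun e => tri (e ▸ b3)
  have cp : c ≠ p := fun e => tri (e ▸ c2).symm
  have ca : c ≠ a := fun e => sq a a1 a2 (e ▸ c2)
  have cb : c ≠ b := fun e => sq b b1 b3 (e ▸ c2)
  have hn : [c, b, a, q, p, z].Nodup := by
    simp [cb, ca, c2.ne', cp, c1, b2, bq, b3.ne', b1, aq, a2.ne', a1, q2, q3.ne', p2.ne']
  have := List.toFinset_card_of_nodup hn
  refine le_trans (le_of_eq this.symm) (card_le_card fun x hx => ?_)
  simp only [List.mem_toFinset, List.mem_cons, List.not_mem_nil, or_false] at hx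
  rcases hx with rfl | rfl | rfl | rfl | rfl | rfl
  exacts [h2 q hq q3 _ c2, h2 p hp p2 _ b3, h2 p hp p2 _ a2, hq, hp, hz]

omit [Fintype V] in
theorem mem_inner {m : ℕ} {d : ℕ → V} {x : V} :
    x ∈ inner m d ↔ ∃ i, 1 ≤ i ∧ i ≤ m ∧ d i = x := by
  simp only [inner, mem_image, mem_Icc, and_assoc]

omit [Fintype V] in
/-- The neighbours of a component lie on the geodesic or outside the territory. -/
theorem cov_comp {C : Finset V} {m : ℕ} {d : ℕ → V} {T : Set V} {y : V}
    (h : Cov G C ({d 0, d (m + 1)} ∪ T)) :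
    Cov G (comp G (C \ inner m d) y) ({x | ∃ i ≤ m + 1, x = d i} ∪ T) := by
  intro w hw x hx a
  have hw' : w ∈ C \ inner m d := comp_subset hw
  by_cases hC : x ∈ C
  · by_cases hD : x ∈ inner m d
    · obtain ⟨i, -, h2, rfl⟩ := mem_inner.1 hD
      exact Or.inl ⟨i, by omega, rfl⟩
    · exact absurd (comp_closed hw (mem_sdiff.2 ⟨hC, hD⟩) a.symm) hx
  · rcases h w (mem_sdiff.1 hw').1 x hC a with (e | e) | e
    · exact Or.inl ⟨0, by omega, e⟩
    · exact Or.inl ⟨m + 1, le_rfl, e⟩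
    · exact Or.inr e

/-- The data of the two harder cases. -/
structure Dat (G : SimpleGraph V) (C : Finset V) (m : ℕ) (d : ℕ → V) (S : Set V)
    (X : Finset V) : Prop where
  gi : Gi G
  deg : Deg3 G C
  geo : Geo G C m d
  nc : ¬ Cyc G (C \ inner m d)
  cl : Cls G (C \ inner m d) {x | ∃ i ≤ m + 1, x = d i}
  far : ∀ i j w w' r, i ≤ j → j ≤ m + 1 → G.Adj (d i) w → G.Adj (d j) w' → (i = j → w ≠ w') →
      Wk G (C \ inner m d) w w' r → 10 + i ≤ r + j
  cs : Cls G C S
  cov : Cov G C ({d 0, d (m + 1)} ∪ (S ∪ ↑X))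
  ty : X.card ≤ 3 ∨ (S = ∅ ∧ X.card ≤ 5)
  five : ∀ y ∈ C \ inner m d, (comp G (C \ inner m d) y).card ≤ 5

variable {C X : Finset V} {m : ℕ} {d : ℕ → V} {S : Set V}

/-- In a component with five vertices every single vertex is active and the class has two
marks. -/
theorem Dat.full (h : Dat G C m d S X) {y : V} (hy : y ∈ C \ inner m d)
    (h5 : (comp G (C \ inner m d) y).card = 5) :
    (∀ x ∈ X, Act G (comp G (C \ inner m d) y) x) ∧
      (S = ∅ ∨ 2 ≤ (mks G (comp G (C \ inner m d) y) S).card) := by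
  have pc := pc_comp h.deg sdiff_subset h.nc hy
  have c0 := pc.count (cov_comp (y := y) h.cov)
  have c1 := mks_union_le (G := G) (comp G (C \ inner m d) y) {x | ∃ i ≤ m + 1, x = d i}
    (S ∪ ↑X)
  have c2 := mks_union_le (G := G) (comp G (C \ inner m d) y) S ↑X
  have c3 := mks_cls_two pc.conn (h.cl.mono comp_subset subset_rfl) (by omega)
  have c4 := mks_cls_two pc.conn (h.cs.mono (comp_subset.trans sdiff_subset) subset_rfl)
    (by omega)
  have c5 := mks_fin h.gi X pc.conn (by omega)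
  have c6 := card_filter_le X fun x => x ∉ comp G (C \ inner m d) y ∧
    Act G (comp G (C \ inner m d) y) x
  have key : X.card ≤ (X.filter fun x => x ∉ comp G (C \ inner m d) y ∧
      Act G (comp G (C \ inner m d) y) x).card ∧
      (S = ∅ ∨ 2 ≤ (mks G (comp G (C \ inner m d) y) S).card) := by
    rcases h.ty with k | ⟨k, k'⟩
    · exact ⟨by omega, Or.inr (by omega)⟩
    · have : (mks G (comp G (C \ inner m d) y) S).card = 0 := by
        rw [card_eq_zero, eq_empty_iff_forall_notMem]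
        intro p hp
        have := (mem_mks.1 hp).2.1
        rw [k] at this
        exact this
      exact ⟨by omega, Or.inl k⟩
  refine ⟨fun x hx => ?_, key.2⟩
  have e := eq_of_subset_of_card_le (filter_subset _ X) key.1
  rw [← e] at hx
  exact (mem_filter.1 hx).2.2

theorem Dat.two (h : Dat G C m d S X) {y w w' : V} (hy : y ∈ C \ inner m d) {i j : ℕ}
    (hi : 1 ≤ i) (hij : i ≤ j) (hj : j ≤ m) (hw : w ∈ comp G (C \ inner m d) y)
    (hw' : w' ∈ comp G (C \ inner m d) y) (a : G.Adj (d i) w) (a' : G.Adj (d j) w')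
    (ne : (d i, w) ≠ (d j, w')) : False := by
  have g := h.geo
  have pc := pc_comp h.deg sdiff_subset h.nc hy
  have five := h.five y hy
  have YU : comp G (C \ inner m d) y ⊆ C \ inner m d := comp_subset
  have YC : comp G (C \ inner m d) y ⊆ C := YU.trans sdiff_subset
  have full := h.full hy
  have clY := h.cl.mono YU subset_rfl
  generalize hY : comp G (C \ inner m d) y = Y at *
  obtain ⟨L, f, l0, rfl, rfl, f2, f3, f4⟩ := (conn_wk pc.conn hw hw').exists_path
  have seg : ∀ s t, s ≤ t → t ≤ L → Wk G Y (f s) (f t) (t - s) := fun s t h1 h2 =>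
    Wk.of_fun h1 (fun k _ hk => f2 k (by omega)) (fun k _ hk => f3 k (by omega))
  have l4 := clY.two (d i, f 0) (d j, f L) _ ⟨⟨i, by omega, rfl⟩, hw, a⟩
    ⟨⟨j, by omega, rfl⟩, hw', a'⟩ ne (seg 0 L (by omega) le_rfl)
  obtain rfl : L = 4 := by omega
  have h5 : Y.card = 5 := by omega
  obtain ⟨act, two⟩ := full h5
  have all : ∀ v ∈ Y, ∃ s ≤ 4, f s = v := by
    have e : (range 5).image f = Y := by
      refine eq_of_subset_of_card_le (fun v hv => ?_) ?_
      · obtain ⟨s, hs, rfl⟩ := mem_image.1 hv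
        exact f2 s (by have := mem_range.1 hs; omega)
      · rw [card_image_of_injOn, card_range, h5]
        intro s hs t ht
        exact f4 s (by have := mem_range.1 hs; omega) t (by have := mem_range.1 ht; omega)
    intro v hv
    rw [← e] at hv
    obtain ⟨s, hs, rfl⟩ := mem_image.1 hv
    exact ⟨s, by have := mem_range.1 hs; omega, rfl⟩
  have w04 : Wk G Y (f 0) (f 4) 4 := seg 0 4 (by omega) le_rfl
  have e1 := h.far i j _ _ 4 hij (by omega) a a' (fun e e' => ne (by rw [e, e'])) (w04.mono YU)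
  have e2 := g.short i j _ _ 4 (by omega) a a' (w04.mono YC)
  obtain rfl : j = i + 6 := by omega
  have dseg : ∀ s t, 1 ≤ s → s ≤ t → t ≤ m → Wk G C (d s) (d t) (t - s) := fun s t h0 h1 h2 =>
    Wk.of_fun h1 (fun k _ _ => g.mem k (by omega) (by omega)) (fun k _ _ => g.adj k (by omega))
  have u0 : Wk G C (d (i + 3)) (f 0) 4 :=
    ((dseg i (i + 3) hi (by omega) (by omega)).symm.tail a (YC hw)).le (by omega)
  have u4 : Wk G C (d (i + 3)) (f 4) 4 :=
    ((dseg (i + 3) (i + 6) (by omega) (by omega) hj).tail a' (YC hw')).le (by omega)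
  have u6 : ∀ v ∈ Y, Wk G C (d (i + 3)) v 6 := by
    intro v hv
    obtain ⟨s, hs, rfl⟩ := all v hv
    by_cases k : s ≤ 2
    · exact (u0.trans ((seg 0 s (by omega) hs).mono YC)).le (by omega)
    · exact (u4.trans ((seg s 4 hs le_rfl).mono YC).symm).le (by omega)
  -- an outside vertex off the geodesic has no neighbour near the middle vertex
  have out : ∀ x v, x ∉ C → (∀ t ≤ m + 1, x ≠ d t) → G.Adj x v → v ∉ Y →
      Wk G C (d (i + 3)) v 2 → False := by
    intro x v hx hxd e hv wk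
    rcases h.cov v wk.right x hx e with (k | k) | k | k
    · exact hxd 0 (by omega) k
    · exact hxd (m + 1) le_rfl k
    · rcases two with k' | k'
      · rw [k'] at k
        exact k
      · obtain ⟨p, hp, q, hq, pq⟩ := one_lt_card.1 k'
        rw [mem_mks] at hp hq
        obtain ⟨s, hs, es⟩ := all _ hp.2.2.1
        obtain ⟨t, ht, et⟩ := all _ hq.2.2.1
        have mp : Mark G C S p := ⟨hp.2.1, YC hp.2.2.1, hp.2.2.2⟩
        have mq : Mark G C S q := ⟨hq.2.1, YC hq.2.2.1, hq.2.2.2⟩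
        have mx : Mark G C S (x, v) := ⟨k, wk.right, e⟩
        have px : p ≠ (x, v) := fun c => hv (by have := hp.2.2.1; rwa [c] at this)
        have qx : q ≠ (x, v) := fun c => hv (by have := hq.2.2.1; rwa [c] at this)
        have st : (s = 0 ∧ t = 4) ∨ (s = 4 ∧ t = 0) := by
          rcases le_total s t with c | c
          · have := h.cs.two p q _ mp mq pq (es ▸ et ▸ (seg s t c ht).mono YC)
            omega
          · have := h.cs.two p q _ mp mq pq (es ▸ et ▸ ((seg t s c hs).mono YC).symm)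
            omega
        rcases st with ⟨rfl, rfl⟩ | ⟨rfl, rfl⟩
        · have := h.cs.three p q (x, v) _ _ _ mp mq mx pq px qx (es ▸ et ▸ w04.mono YC)
            (es ▸ u0.symm.trans wk) (et ▸ u4.symm.trans wk)
          omega
        · have := h.cs.three p q (x, v) _ _ _ mp mq mx pq px qx (es ▸ et ▸ (w04.mono YC).symm)
            (es ▸ u4.symm.trans wk) (et ▸ u0.symm.trans wk)
          omega
    · obtain ⟨v', hv', e'⟩ := act x k
      have := h.gi C x v v' _ hx e e' (fun c => hv (c ▸ hv')) (wk.symm.trans (u6 v' hv'))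
      omega
  have uC : d (i + 3) ∈ C := g.mem _ (by omega) (by omega)
  have uI : d (i + 3) ∈ inner m d := mem_inner.2 ⟨i + 3, by omega, by omega, rfl⟩
  have uY : d (i + 3) ∉ Y := fun c => (mem_sdiff.1 (YU c)).2 uI
  obtain ⟨z, z1, z2, z3⟩ := nbr2 (h.deg _ uC) (d (i + 2)) (d (i + 4))
  have zd : ∀ t ≤ m + 1, z ≠ d t := by
    rintro t ht rfl
    rcases (by omega : t + 2 ≤ i + 3 ∨ t = i + 2 ∨ t = i + 3 ∨ t = i + 4 ∨ i + 3 + 2 ≤ t) with
      c | c | c | c | c
    · have := g.chord t (i + 3) c (by omega) z3.symm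
      omega
    · exact z1 (by rw [c])
    · exact z3.ne (by rw [c])
    · exact z2 (by rw [c])
    · have := g.chord (i + 3) t c ht z3
      omega
  by_cases zC : z ∈ C
  swap
  · exact out z _ zC zd z3.symm uY (Wk.refl uC)
  have zU : z ∈ C \ inner m d := mem_sdiff.2 ⟨zC, fun c => by
    obtain ⟨t, -, ht, e⟩ := mem_inner.1 c
    exact zd t (by omega) e.symm⟩
  have zY : z ∉ Y := fun c => by
    have k := mks_cls_two pc.conn clY (by omega)
    have dY : ∀ t ≤ m + 1, d t ∉ Y := fun t ht => clY.out _ ⟨t, ht, rfl⟩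
    have mk : ∀ t ≤ m + 1, ∀ v ∈ Y, G.Adj (d t) v →
        (d t, v) ∈ mks G Y {x | ∃ i ≤ m + 1, x = d i} :=
      fun t ht v hv e => mem_mks.2 ⟨dY t ht, ⟨t, ht, rfl⟩, hv, e⟩
    refine absurd (two_lt_card_iff.2 ⟨_, _, _, mk i (by omega) _ hw a,
      mk (i + 6) (by omega) _ hw' a', mk (i + 3) (by omega) z c z3, ne, fun e => ?_,
      fun e => ?_⟩) (not_lt.2 k)
    · have := g.inj _ (by omega) _ (by omega) (Prod.ext_iff.1 e).1
      omega
    · have := g.inj _ (by omega) _ (by omega) (Prod.ext_iff.1 e).1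
      omega
  have zz : z ∈ comp G (C \ inner m d) z := self_mem_comp zU
  have dis : ∀ v ∈ comp G (C \ inner m d) z, v ∉ Y := fun v hv c => by
    rw [← hY] at c zY
    rw [← comp_eq c, comp_eq hv] at zY
    exact zY zz
  have mu : Mark G (C \ inner m d) {x | ∃ i ≤ m + 1, x = d i} (d (i + 3), z) :=
    ⟨⟨_, by omega, rfl⟩, zU, z3⟩
  have key : ∀ v ∈ comp G (C \ inner m d) z, Wk G (C \ inner m d) z v 1 → ∀ x, G.Adj v x →
      (d (i + 3), z) ≠ (x, v) → x ∈ comp G (C \ inner m d) z := by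
    intro v hv wk x e hne
    have xd : ∀ t ≤ m + 1, x ≠ d t := fun t ht c => by
      have := h.cl.two _ (x, v) _ mu ⟨⟨t, ht, c⟩, wk.right, e.symm⟩ hne wk
      omega
    by_cases xC : x ∈ C
    · refine comp_closed hv (mem_sdiff.2 ⟨xC, fun c => ?_⟩) e
      obtain ⟨t, -, ht, e⟩ := mem_inner.1 c
      exact xd t (by omega) e.symm
    · exact (out x v xC xd e.symm (dis v hv) (Wk.head z3 uC (wk.mono sdiff_subset))).elim
  have := six (u := d (i + 3)) h.gi zz (pc_comp h.deg sdiff_subset h.nc zU).deg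
    (fun x e c => key z zz (Wk.refl zU) x e fun k => c (Prod.ext_iff.1 k).1.symm)
    (fun v hv e x e' => key v hv (Wk.single e zU (comp_subset hv)) x e'
      fun k => e.ne (Prod.ext_iff.1 k).2)
  have := h.five z zU
  omega

theorem Dat.one (h : Dat G C m d S X) {y : V} (hy : y ∈ C \ inner m d) :
    (mks G (comp G (C \ inner m d) y) ↑(inner m d)).card ≤ 1 := by
  refine card_le_one.2 fun p hp q hq => ?_
  by_contra ne
  obtain ⟨p1, p2⟩ := p
  obtain ⟨q1, q2⟩ := q
  rw [mem_mks] at hp hq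
  obtain ⟨i, i1, i2, rfl⟩ := mem_inner.1 (show p1 ∈ inner m d from hp.2.1)
  obtain ⟨j, j1, j2, rfl⟩ := mem_inner.1 (show q1 ∈ inner m d from hq.2.1)
  rcases le_total i j with c | c
  · exact h.two hy i1 c j2 hp.2.2.1 hq.2.2.1 hp.2.2.2 hq.2.2.2 ne
  · exact h.two hy j1 c i2 hq.2.2.1 hp.2.2.1 hq.2.2.2 hp.2.2.2 (Ne.symm ne)

end Surv

open Surv

theorem surv (hT : TreeStmt) (h0 : Surv0Stmt) : SurvStmt := by
  intro V _ G C m d gi dg3 cy g ni cl far sys
  by_contra nc
  refine h0 V G C (inner m d) cy ni nc fun y hy => ?_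
  have tree : ∀ (S₁ S₂ S₃ : Set V) (X : Finset V) (l k N : ℕ),
      (l, k, N) ∈ [(4, 0, 2), (2, 3, 5), (1, 5, 5), (0, 7, 5)] → 1 ≤ l → Cls G C S₁ →
      Cls G C S₂ → Cls G C S₃ → (l ≤ 1 → S₁ = ∅) → (l ≤ 2 → S₂ = ∅) → (l ≤ 3 → S₃ = ∅) →
      X.card ≤ k → Cov G C ({d 0, d (m + 1)} ∪ (S₁ ∪ S₂ ∪ S₃ ∪ ↑X)) →
      ∀ z ∈ C \ inner m d, (comp G (C \ inner m d) z).card ≤ N := by
    intro S₁ S₂ S₃ X l k N hm hl c1 c2 c3 e1 e2 e3 hX cv z hz
    have sub : comp G (C \ inner m d) z ⊆ C := comp_subset.trans sdiff_subset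
    refine hT V G _ X ![{x | ∃ i ≤ m + 1, x = d i}, S₁, S₂, S₃] l k N hm gi
      (pc_comp dg3 sdiff_subset nc hz) (fun i => ?_) (fun i hi => ?_) hX
      ((cov_comp cv).mono ?_)
    · fin_cases i
      exacts [cl.mono comp_subset subset_rfl, c1.mono sub subset_rfl, c2.mono sub subset_rfl,
        c3.mono sub subset_rfl]
    · fin_cases i
      exacts [absurd hi (by simp only; omega), e1 hi, e2 hi, e3 hi]
    · rintro x (h | ((h | h) | h) | h)
      exacts [Or.inl ⟨0, h⟩, Or.inl ⟨1, h⟩, Or.inl ⟨2, h⟩, Or.inl ⟨3, h⟩, Or.inr h]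
  rcases sys with ⟨S₁, S₂, S₃, c1, c2, c3, cv⟩ | ⟨S, X, c1, hX, cv⟩ | ⟨X, hX, cv⟩
  · have := tree S₁ S₂ S₃ ∅ 4 0 2 (by simp) (by omega) c1 c2 c3 (by omega) (by omega) (by omega)
      (by simp) (cv.mono fun x hx => by simp only [Set.mem_union] at hx ⊢; tauto) y hy
    refine le_trans (card_le_card (mks_mono fun x hx => ?_))
      (mks_cls_one (comp_conn hy) (cl.mono comp_subset subset_rfl) (by omega))
    obtain ⟨i, -, h2, rfl⟩ := mem_inner.1 hx
    exact ⟨i, by omega, rfl⟩
  · exact Dat.one (S := S) (X := X) ⟨gi, dg3, g, nc, cl, far, c1,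
      cv.mono fun x hx => by simp only [Set.mem_union] at hx ⊢; tauto, Or.inl hX,
      tree S ∅ ∅ X 2 3 5 (by simp) (by omega) c1 (cls_empty C) (cls_empty C) (by omega)
        (fun _ => rfl) (fun _ => rfl) hX
        (cv.mono fun x hx => by simp only [Set.mem_union] at hx ⊢; tauto)⟩ hy
  · exact Dat.one (S := ∅) (X := X) ⟨gi, dg3, g, nc, cl, far, cls_empty C,
      cv.mono fun x hx => by simp only [Set.mem_union] at hx ⊢; tauto, Or.inr ⟨rfl, hX⟩,
      tree ∅ ∅ ∅ X 1 5 5 (by simp) (by omega) (cls_empty C) (cls_empty C) (cls_empty C)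
        (fun _ => rfl) (fun _ => rfl) (fun _ => rfl) hX
        (cv.mono fun x hx => by simp only [Set.mem_union] at hx ⊢; tauto)⟩ hy

end Pool.Agent.MP_e6539c_co.P5

end MrgPart4

-- ======== part 5: formerly Pool.Agent.MP_e6539c_co.P5.Vec
section MrgPart5

/-! Merging generators along an edge, the dimension of the cycle space, balls in a core. -/

set_option autoImplicit false

namespace Pool.Agent.MP_e6539c_co.P5

open Finset
open Pool.Agent.MP_7be75d_co (R Conn comp)
open Pool.Agent.MP_7be75d_co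
open scoped Classical

namespace VecM

variable {V : Type}

theorem z2_one {a : ZMod 2} (h : a ≠ 0) : a = 1 := by
  revert a
  decide

theorem cov_split (F : Finset (Vec V)) (e e' : Sym2 V) :
    cov (F.filter fun f => f e = 0) e' + cov (F.filter fun f => f e ≠ 0) e' = cov F e' := by
  unfold cov
  rw [filter_comm, filter_comm (fun f : Vec V => f e ≠ 0)]
  exact card_filter_add_card_filter_not _

theorem cov_pos {F : Finset (Vec V)} {e : Sym2 V} {f : Vec V} (hf : f ∈ F) (h : f e ≠ 0) :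
    1 ≤ cov F e := card_pos.2 ⟨f, mem_filter.2 ⟨hf, h⟩⟩

theorem cov_le_card (F : Finset (Vec V)) (e : Sym2 V) : cov F e ≤ F.card := card_filter_le _ _

/-- An injective path inside `W`. -/
structure Pa (G : SimpleGraph V) (W : Finset V) (L : ℕ) (f : ℕ → V) : Prop where
  mem : ∀ j ≤ L, f j ∈ W
  adj : ∀ j < L, G.Adj (f j) (f (j + 1))
  inj : ∀ i ≤ L, ∀ j ≤ L, f i = f j → i = j

variable {G : SimpleGraph V} {W : Finset V}

theorem Pa.rev {L : ℕ} {f : ℕ → V} (h : Pa G W L f) : Pa G W L fun j => f (L - j) := by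
  refine ⟨fun j _ => h.mem _ (by omega), fun j hj => ?_, fun i hi j hj e => ?_⟩
  · have := (h.adj (L - (j + 1)) (by omega)).symm
    rwa [show L - (j + 1) + 1 = L - j by omega] at this
  · have := h.inj _ (by omega) _ (by omega) e
    omega

theorem Pa.new (hG : Gi G) (hd : ∀ v ∈ W, 2 ≤ dg G W v) {L : ℕ} {f : ℕ → V} (h : Pa G W L f)
    (hL : L ≤ 10) : ∃ a ∈ W, G.Adj (f L) a ∧ ∀ i ≤ L, f i ≠ a := by
  obtain ⟨a, ha, ha', hadj⟩ := exists_nbr (G := G) (W := W) (A := {f (L - 1)}) (v := f L)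
    (by rw [card_singleton]; exact hd _ (h.mem L le_rfl))
  refine ⟨a, ha, hadj, fun i hi e => ?_⟩
  subst e
  rw [mem_singleton] at ha'
  have h1 : i ≠ L := fun e => hadj.ne (by rw [e])
  have h2 : i ≠ L - 1 := fun e => ha' (by rw [e])
  have hx : f L ∉ (range L).image f := by
    intro c
    obtain ⟨t, ht, e⟩ := mem_image.1 c
    have := mem_range.1 ht
    have := h.inj t (by omega) L le_rfl e
    omega
  have hp : G.Adj (f L) (f (L - 1)) := by
    have := (h.adj (L - 1) (by omega)).symm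
    rwa [show L - 1 + 1 = L by omega] at this
  have hw : Wk G ((range L).image f) (f i) (f (L - 1)) (L - 1 - i) :=
    Wk.of_fun (by omega) (fun t _ ht => mem_image_of_mem _ (mem_range.2 (by omega)))
      (fun t _ ht => h.adj t (by omega))
  have := hG _ _ _ _ _ hx hadj hp ha' hw
  omega

theorem Pa.ext (hG : Gi G) (hd : ∀ v ∈ W, 2 ≤ dg G W v) {L : ℕ} {f : ℕ → V} (h : Pa G W L f) :
    ∀ n, L + n ≤ 10 → ∃ g : ℕ → V, (∀ j ≤ L, g j = f j) ∧ Pa G W (L + n) g := by
  intro n
  induction n with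
  | zero => exact fun _ => ⟨f, fun _ _ => rfl, h⟩
  | succ n ih =>
    intro hn
    obtain ⟨g, e, hg⟩ := ih (by omega)
    obtain ⟨a, ha, hadj, hne⟩ := hg.new hG hd (by omega)
    refine ⟨fun j => if j ≤ L + n then g j else a, fun j hj => ?_, fun j _ => ?_, fun j hj => ?_,
      fun i hi j hj c => ?_⟩
    · exact (if_pos (by omega)).trans (e j hj)
    · split_ifs with c
      · exact hg.mem j c
      · exact ha
    · rw [if_pos (by omega)]
      split_ifs with c
      · exact hg.adj j (by omega)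
      · rwa [show j = L + n by omega]
    · split_ifs at c with c1 c2 c2
      · exact hg.inj i c1 j c2 c
      · exact absurd c (hne i c1)
      · exact absurd c.symm (hne j c2)
      · omega

theorem ball_card (hG : Gi G) (hd : ∀ v ∈ W, 2 ≤ dg G W v) {v : V} (hv : v ∈ W) {ρ : ℕ}
    (hρ : ρ ≤ 4) : 2 * ρ + 1 ≤ (W.filter fun w => Wk G W v w ρ).card := by
  have h0 : Pa G W 0 fun _ => v :=
    ⟨fun _ _ => hv, fun j hj => absurd hj (Nat.not_lt_zero j), fun i hi j hj _ => by omega⟩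
  obtain ⟨g, e, hg⟩ := h0.ext hG hd ρ (by omega)
  rw [Nat.zero_add] at hg
  obtain ⟨f, e', hf⟩ := hg.rev.ext hG hd ρ (by omega)
  have hv' : f ρ = v := by
    rw [e' ρ le_rfl, Nat.sub_self]
    exact e 0 le_rfl
  rw [two_mul]
  refine card_of_path (f := f) (fun j hj => mem_filter.2 ⟨hf.mem j hj, ?_⟩) hf.inj
  rw [← hv']
  rcases le_total ρ j with c | c
  · exact (Wk.of_fun c (fun t _ ht => hf.mem t (by omega))
      (fun t _ ht => hf.adj t (by omega))).le (by omega)
  · exact (Wk.of_fun c (fun t _ ht => hf.mem t (by omega))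
      (fun t _ ht => hf.adj t (by omega))).symm.le (by omega)

/-- Extension by zero. -/
noncomputable def ext0 (E : Finset (Sym2 V)) : (E → ZMod 2) →ₗ[ZMod 2] Vec V where
  toFun x e := if h : e ∈ E then x ⟨e, h⟩ else 0
  map_add' x y := by
    funext e
    by_cases h : e ∈ E <;> simp [h]
  map_smul' c x := by
    funext e
    by_cases h : e ∈ E <;> simp [h]

theorem ext0_supp {E : Finset (Sym2 V)} {x : E → ZMod 2} {e : Sym2 V} (h : ext0 E x e ≠ 0) :
    e ∈ E := by
  by_contra c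
  exact h (dif_neg c)

theorem ext0_inj (E : Finset (Sym2 V)) : Function.Injective (ext0 E) := by
  intro x y h
  funext e
  have := congrFun h e.1
  simpa [ext0, e.2] using this

/-- The parities at the vertices of `U`. -/
noncomputable def bdy [Fintype V] (U : Finset V) : Vec V →ₗ[ZMod 2] (U → ZMod 2) where
  toFun x v := par x v.1
  map_add' x y := funext fun v => par_add x y v.1
  map_smul' c x := funext fun v => par_smul c x v.1

end VecM

open VecM

theorem merge : MergeStmt := by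
  intro V F e he
  set F0 := F.filter fun f => f e = 0 with hF0
  set F1 := F.filter fun f => f e ≠ 0 with hF1
  rcases F1.eq_empty_or_nonempty with h1 | ⟨g, hg⟩
  · refine ⟨F, fun f hf => ⟨?_, Or.inl hf⟩, fun _ => le_rfl, fun x hx _ => hx⟩
    by_contra c
    have : f ∈ F1 := mem_filter.2 ⟨hf, c⟩
    rw [h1] at this
    exact absurd this (notMem_empty f)
  have hg' := mem_filter.1 hg
  have hc : (F1.erase g).card ≤ 1 := by
    rw [card_erase_of_mem hg]
    have : F1.card ≤ 2 := he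
    omega
  refine ⟨F0 ∪ (F1.erase g).image (g + ·), fun f hf => ?_, fun e' => ?_, fun x hx hxe => ?_⟩
  · rcases mem_union.1 hf with c | c
    · exact ⟨(mem_filter.1 c).2, Or.inl (mem_filter.1 c).1⟩
    · obtain ⟨h, hh, rfl⟩ := mem_image.1 c
      have hh' := mem_filter.1 (mem_of_mem_erase hh)
      refine ⟨?_, Or.inr ⟨g, hg'.1, h, hh'.1, rfl⟩⟩
      rw [Pi.add_apply, z2_one hg'.2, z2_one hh'.2]
      decide
  · refine (cov_union_le _ _ _).trans ?_
    rw [← cov_split F e e']
    refine Nat.add_le_add_left ?_ _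
    by_cases c : ∀ f ∈ (F1.erase g).image (g + ·), f e' = 0
    · rw [cov_eq_zero c]
      exact Nat.zero_le _
    · push Not at c
      obtain ⟨f, hf, hf'⟩ := c
      obtain ⟨h, hh, rfl⟩ := mem_image.1 hf
      refine ((cov_le_card _ _).trans (card_image_le.trans hc)).trans ?_
      by_cases c : g e' = 0
      · exact cov_pos (mem_of_mem_erase hh) (by simpa [c] using hf')
      · exact cov_pos hg c
  · have key : ∀ x ∈ Submodule.span (ZMod 2) (F : Set (Vec V)), x + x e • g ∈
        Submodule.span (ZMod 2) ((F0 ∪ (F1.erase g).image (g + ·) : Finset (Vec V)) :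
          Set (Vec V)) := by
      intro x hx
      induction hx using Submodule.span_induction with
      | mem f hf =>
        by_cases c : f e = 0
        · rw [c, zero_smul, add_zero]
          exact Submodule.subset_span (mem_coe.2 (mem_union_left _ (mem_filter.2 ⟨hf, c⟩)))
        · rw [z2_one c, one_smul]
          by_cases c' : f = g
          · rw [c']
            have : g + g = 0 := funext fun e => CharTwo.add_self_eq_zero (g e)
            rw [this]
            exact Submodule.zero_mem _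
          · refine Submodule.subset_span (mem_coe.2 (mem_union_right _ (mem_image.2
              ⟨f, mem_erase.2 ⟨c', mem_filter.2 ⟨hf, c⟩⟩, add_comm _ _⟩)))
      | zero => simp
      | add x y _ _ hx hy =>
        have := Submodule.add_mem _ hx hy
        rwa [add_add_add_comm, ← add_smul] at this
      | smul a x _ hx =>
        have := Submodule.smul_mem _ a hx
        rwa [smul_add, smul_smul] at this
    have := key x hx
    rwa [hxe, zero_smul, add_zero] at this

theorem dim : DimStmt := by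
  intro V _ E W F hW hE hF
  obtain ⟨w, hw⟩ := hW
  let φ := (bdy (W.erase w)).comp (ext0 E)
  have h1 := LinearMap.finrank_range_add_finrank_ker φ
  rw [Module.finrank_fintype_fun_eq_card, Fintype.card_coe] at h1
  have h2 : Module.finrank (ZMod 2) (LinearMap.range φ) ≤ (W.erase w).card := by
    refine (Submodule.finrank_le _).trans ?_
    rw [Module.finrank_fintype_fun_eq_card, Fintype.card_coe]
  have h3 : (LinearMap.ker φ).map (ext0 E) ≤ Submodule.span (ZMod 2) (F : Set (Vec V)) := by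
    rintro _ ⟨x, hx, rfl⟩
    have hx' : ∀ v ∈ W.erase w, par (ext0 E x) v = 0 := fun v hv => congrFun hx ⟨v, hv⟩
    have ho : ∀ v, v ≠ w → par (ext0 E x) v = 0 := by
      intro v hv
      by_cases c : v ∈ W
      · exact hx' v (mem_erase.2 ⟨hv, c⟩)
      · refine sum_eq_zero fun u _ => ?_
        by_contra c'
        exact c (hE _ _ (ext0_supp c')).2.1
    refine hF _ (fun e => ext0_supp) fun v => ?_
    by_cases c : v = w
    · have hs := sum_par (x := ext0 E x) fun v => by
        by_contra c'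
        exact (hE _ _ (ext0_supp c')).1 rfl
      rw [sum_eq_single w (fun u _ hu => ho u hu) (fun h => absurd (mem_univ w) h)] at hs
      rwa [c]
    · exact ho v c
  have h4 : Module.finrank (ZMod 2) (LinearMap.ker φ) ≤ F.card := by
    rw [LinearEquiv.finrank_eq (Submodule.equivMapOfInjective _ (ext0_inj E) (LinearMap.ker φ))]
    exact (Submodule.finrank_mono h3).trans (finrank_span_finset_le_card F)
  have h5 := card_erase_of_mem hw
  have h6 := card_pos.2 ⟨w, hw⟩
  omega

theorem ball : BallStmt := by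
  intro V _ G W D hG hd hfar
  let B : V → Finset V := fun v =>
    if D v ≤ 4 then W.filter fun w => Wk G W v w (4 - D v) else ∅
  have h1 : ∀ v ∈ W, 9 - 2 * D v ≤ (B v).card := by
    intro v hv
    by_cases c : D v ≤ 4
    · have := ball_card hG hd hv (ρ := 4 - D v) (by omega)
      simp only [B, if_pos c]
      omega
    · omega
  have h2 : ∀ v w, w ∈ B v → D v ≤ 4 ∧ w ∈ W ∧ Wk G W v w (4 - D v) := by
    intro v w hw
    by_cases c : D v ≤ 4
    · simp only [B, if_pos c] at hw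
      exact ⟨c, mem_filter.1 hw⟩
    · simp only [B, if_neg c] at hw
      exact absurd hw (notMem_empty w)
  refine (sum_le_sum h1).trans ?_
  rw [← card_biUnion]
  · refine card_le_card fun w hw => ?_
    obtain ⟨v, _, hv⟩ := mem_biUnion.1 hw
    exact (h2 v w hv).2.1
  · intro u hu v hv huv
    refine disjoint_left.2 fun w a b => ?_
    obtain ⟨a1, -, a2⟩ := h2 u w a
    obtain ⟨b1, -, b2⟩ := h2 v w b
    have := hfar u hu v hv huv _ (a2.trans b2.symm)
    omega

end Pool.Agent.MP_e6539c_co.P5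

end MrgPart5

-- marker of a merged file
example : 731051 + 689065 = 731051 + 689065 := rfl
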