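import Mathlib.GroupTheory.GroupAction.Ring
import Pool.Agent.MP_e6539c_co.P5.Link
import Pool.Agent.MP_e6539c_co.P5.Ks
import Pool.Agent.MP_e6539c_co.P5.Short
import Pool.Agent.MP_e6539c_co.P5.TreeChk

-- ======== part 0: formerly Pool.Agent.MP_e6539c_co.P5.Peel
section MrgPart0

/-! Peeling a face off the frame, the base case and the pendant edge. -/

set_option autoImplicit false

namespace Pool.Agent.MP_e6539c_co.P5

open Finset
open Pool.Agent.MP_7be75d_co (R Conn comp)
open Pool.Agent.MP_7be75d_co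
open scoped Classical

namespace Peel

variable {V : Type} {H : SimpleGraph V} {L : List V}

theorem del_adj {a b u v : V} :
    (H.deleteEdges {s(a, b)}).Adj u v ↔ H.Adj u v ∧ s(u, v) ≠ s(a, b) := by
  simp only [SimpleGraph.deleteEdges_adj, Set.mem_singleton_iff, ne_eq]

theorem chain_or {P : V → Prop} (b : V) : ∀ (N : List V) (a : V), (P a ∨ N ≠ []) →
    (∀ x ∈ N, P x) → (a :: (N ++ [b])).IsChain fun x y => P x ∨ P y
  | [], a, h, _ => by simpa using Or.inl (h.resolve_right (by simp))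
  | n :: N, a, _, h => by
    rw [List.cons_append, List.isChain_cons_cons]
    exact ⟨Or.inr (h n (by simp)),
      chain_or b N n (Or.inl (h n (by simp))) fun x hx => h x (by simp [hx])⟩

theorem fr_succ (nd : L.Nodup) {a b c : V} (h : Fr L a b) (h' : Fr L a c) : b = c := by
  have ha := h.left
  obtain ⟨M, r⟩ := h
  obtain ⟨M', r'⟩ := h'
  have e := List.isRotated_next_eq r nd ha
  have e' := List.isRotated_next_eq r' nd ha
  rw [List.next_cons_cons_eq] at e e'
  exact e.symm.trans e'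

theorem fr_ne (nd : L.Nodup) {a b : V} (h : Fr L a b) : b ≠ a := by
  obtain ⟨M, r⟩ := h
  have := r.nodup_iff.1 nd
  rintro rfl
  simp at this

theorem fr_pred (nd : L.Nodup) {a b c : V} (h : Fr L a c) (h' : Fr L b c) : a = b := by
  have hc := h.right
  have n1 := fr_ne nd h
  have n2 := fr_ne nd h'
  obtain ⟨M, r⟩ := h
  obtain ⟨M', r'⟩ := h'
  have e := List.isRotated_prev_eq r nd hc
  have e' := List.isRotated_prev_eq r' nd hc
  rw [List.prev_cons_cons_of_ne _ _ _ _ n1] at e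
  rw [List.prev_cons_cons_of_ne _ _ _ _ n2] at e'
  exact e.symm.trans e'

variable [Fintype V]

/-- A nonzero even vector of a cycle contains every edge. -/
theorem full (hf : Frame H L) (hall : ∀ u v, H.Adj u v → Fr L u v ∨ Fr L v u) {x : Vec V}
    (hx : Ev H x) (h0 : x ≠ 0) {u v : V} (h : Fr L u v) : x s(u, v) ≠ 0 := by
  have step : ∀ a b c, Fr L a b → Fr L b c → x s(a, b) ≠ 0 → x s(b, c) ≠ 0 := by
    intro a b c h1 h2 h3
    obtain ⟨w, w1, w2⟩ := second_edge (hx.2 b) (v := a) (by rwa [Sym2.eq_swap])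
    rcases hall _ _ (hx.1 _ _ w2) with k | k
    · rwa [fr_succ hf.nd h2 k]
    · exact absurd (fr_pred hf.nd k h1) w1
  obtain ⟨a, b, hab, hx0⟩ : ∃ a b, Fr L a b ∧ x s(a, b) ≠ 0 := by
    obtain ⟨e, he⟩ := Function.ne_iff.1 h0
    induction e using Sym2.ind with
    | _ a b =>
      rcases hall a b (hx.1 a b he) with k | k
      · exact ⟨a, b, k, he⟩
      · exact ⟨b, a, k, by rwa [Sym2.eq_swap]⟩
  obtain ⟨M, r⟩ := hab
  have key : ∀ n u v N, (a :: b :: M).rotate n = u :: v :: N → x s(u, v) ≠ 0 := by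
    intro n
    induction n with
    | zero =>
      intro u v N e
      simp only [List.rotate_zero, List.cons.injEq] at e
      rw [← e.1, ← e.2.1]
      exact hx0
    | succ n ih =>
      intro u v N e
      have r1 : L ~r u :: v :: N := r.trans ⟨n + 1, e⟩
      rw [← List.rotate_rotate] at e
      have hl : 2 ≤ ((a :: b :: M).rotate n).length := by simp
      have r2 : L ~r (a :: b :: M).rotate n := r.trans ⟨n, rfl⟩
      match hm : (a :: b :: M).rotate n, hl with
      | u' :: u'' :: N', _ =>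
        rw [hm] at e r2
        have e1 : u'' = u := by
          simp only [List.rotate_cons_succ, List.rotate_zero, List.cons_append,
            List.cons.injEq] at e
          exact e.1
        subst e1
        exact step u' _ v ⟨_, r2⟩ ⟨_, r1⟩ (ih _ _ _ hm)
  obtain ⟨N, r'⟩ := h
  obtain ⟨n, e⟩ := r.symm.trans r'
  exact key n u v N e

theorem base1 (hf : Frame H L) (hall : ∀ u v, H.Adj u v → Fr L u v ∨ Fr L v u) :
    ∃ F, Basis H L F := by
  have hone : ∀ x, Ev H x → x ≠ 0 → ∀ u v, H.Adj u v → x s(u, v) = 1 := by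
    intro x hx h0 u v a
    rcases hall u v a with k | k
    · exact z2_ne.1 (full hf hall hx h0 k)
    · rw [Sym2.eq_swap]
      exact z2_ne.1 (full hf hall hx h0 k)
  have hc : ∀ e, cov (univ.filter fun x : Vec V => Ev H x ∧ x ≠ 0) e ≤ 1 := by
    intro e
    refine (card_filter_le _ _).trans (card_le_one.2 fun x hx y hy => ?_)
    rw [mem_filter] at hx hy
    funext e
    induction e using Sym2.ind with
    | _ u v =>
      by_cases a : H.Adj u v
      · rw [hone x hx.2.1 hx.2.2 u v a, hone y hy.2.1 hy.2.2 u v a]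
      · rw [not_not.1 fun c => a (hx.2.1.1 u v c), not_not.1 fun c => a (hy.2.1.1 u v c)]
  refine ⟨_, fun f hf => (mem_filter.1 hf).2.1, fun e => (hc e).trans (by omega),
    fun _ _ _ => hc _, fun x hx => ?_⟩
  by_cases h0 : x = 0
  · rw [h0]
    exact Submodule.zero_mem _
  · exact Submodule.subset_span (by simp [hx, h0])

theorem base2 (hf : Frame H L) {v p : V} (hv : v ∉ L) (hp : ∀ w, H.Adj v w ↔ w = p)
    (hc : ¬ Cross H L) (hfc : FC H L) (ih : TPih H) : ∃ F, Basis H L F := by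
  have hle : H.deleteEdges {s(v, p)} ≤ H := SimpleGraph.deleteEdges_le _
  have hiso : ∀ w, ¬ (H.deleteEdges {s(v, p)}).Adj v w := fun w a => by
    obtain ⟨a1, a2⟩ := del_adj.1 a
    exact a2 (by rw [(hp w).1 a1])
  obtain ⟨F, hF⟩ := ih (H.deleteEdges {s(v, p)}) L (ncard_lt hle ((hp p).2 rfl) (hiso p))
    ⟨hf.nd, hf.len, fun x y h => del_adj.2 ⟨hf.adj x y h, fun e => by
      rcases Sym2.eq_iff.1 e with ⟨e, -⟩ | ⟨-, e⟩
      · exact hv (e ▸ h.left)
      · exact hv (e ▸ h.right)⟩⟩ (fun c => hc (c.mono hle)) (by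
    intro Z y₁ y₂ y₃ hz hb x hx hs
    have hx' : Ev H x := hx.mono fun _ _ _ a => hle a
    by_cases hpz : p ∈ Z
    · refine hfc (insert v Z) y₁ y₂ y₃ (fun z m => ?_) (fun z m w a => ?_) x hx' fun a b c => ?_
      · rcases mem_insert.1 m with rfl | m
        exacts [hv, hz z m]
      · by_cases e : s(z, w) = s(v, p)
        · rcases Sym2.eq_iff.1 e with ⟨-, e⟩ | ⟨-, e⟩
          · exact Or.inl (e ▸ mem_insert_of_mem hpz)
          · exact Or.inl (e ▸ mem_insert_self _ _)
        · rcases mem_insert.1 m with rfl | m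
          · exact absurd (del_adj.2 ⟨a, e⟩) (hiso w)
          · exact (hb z m w (del_adj.2 ⟨a, e⟩)).imp_left mem_insert_of_mem
      · exact (hs a b c).imp mem_insert_of_mem mem_insert_of_mem
    · refine hfc (Z.erase v) y₁ y₂ y₃ (fun z m => hz z (mem_of_mem_erase m))
        (fun z m w a => ?_) x hx' fun a b c => ?_
      · obtain ⟨m1, m2⟩ := mem_erase.1 m
        have a' : (H.deleteEdges {s(v, p)}).Adj z w := del_adj.2 ⟨a, fun e => by
          rcases Sym2.eq_iff.1 e with ⟨e, -⟩ | ⟨e, -⟩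
          · exact m1 e
          · exact hpz (e ▸ m2)⟩
        refine (hb z m2 w a').imp_left fun k => mem_erase.2 ⟨fun e => ?_, k⟩
        exact hiso z (e ▸ a'.symm)
      · have a' := hx.1 a b c
        exact (hs a b c).imp (fun k => mem_erase.2 ⟨fun e => hiso b (e ▸ a'), k⟩)
          fun k => mem_erase.2 ⟨fun e => hiso a (e ▸ a'.symm), k⟩)
  refine ⟨F, fun f m => (hF.ev f m).mono fun _ _ _ a => hle a, hF.two, hF.one, fun x hx => ?_⟩
  refine hF.span x (hx.mono fun a b c d => del_adj.2 ⟨d, fun e => ?_⟩)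
  obtain ⟨w, w1, w2⟩ := second_edge (hx.2 v) (v := p) (e ▸ c)
  exact w1 ((hp w).1 (hx.1 _ _ w2))

variable {M : List V} {k : ℕ} {q : ℕ → V}

omit [Fintype V] in
theorem path_ne (h : PQ H M k q) {t : ℕ} (ht : t < k) : s(q t, q (t + 1)) ≠ s(q 0, q k) := by
  intro e
  have := h.two
  rcases Sym2.eq_iff.1 e with ⟨e1, e2⟩ | ⟨e1, -⟩
  · have := h.inj _ ht.le _ (Nat.zero_le _) e1
    have := h.inj _ ht _ le_rfl e2
    omega
  · have := h.inj _ ht.le _ le_rfl e1
    omega

omit [Fintype V] in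
theorem new_eq (h : PQ H M k q) : q k :: (M ++ (List.range k).map q) =
    (q k :: (M ++ [q 0])) ++ (List.range (k - 1)).map fun i => q (i + 1) := by
  obtain ⟨j, rfl⟩ : ∃ j, k = j + 1 := ⟨k - 1, by have := h.two; omega⟩
  simp [List.range_succ_eq_map, Function.comp_def]

omit [Fintype V] in
theorem fr_path {t : ℕ} (ht : t < k) :
    Fr (q k :: (M ++ (List.range k).map q)) (q t) (q (t + 1)) := by
  have r : (q k :: (M ++ (List.range k).map q)) ~r ((List.range (k + 1)).map q ++ M) := by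
    refine rot_iff.2 ⟨q k :: M, (List.range k).map q, by simp, ?_⟩
    simp [List.range_succ]
  refine Fr.rot ?_ r.symm
  obtain ⟨d, rfl⟩ : ∃ d, k = t + 1 + d := ⟨k - (t + 1), by omega⟩
  refine fr_iff.2 (Or.inl ⟨(List.range t).map q,
    (List.range d).map (fun i => q (t + (i + 2))) ++ M, ?_⟩)
  rw [show t + 1 + d + 1 = t + (d + 1 + 1) by omega, List.range_add]
  simp [List.range_succ_eq_map, Function.comp_def]

omit [Fintype V] in
theorem frame_new (h : PQ H M k q) :
    Frame (H.deleteEdges {s(q 0, q k)}) (q k :: (M ++ (List.range k).map q)) := by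
  have h2 := h.two
  have nd0 := h.fr.nd
  have nd : (q k :: (M ++ (List.range k).map q)).Nodup := by
    rw [List.nodup_cons, List.nodup_append]
    refine ⟨fun c => ?_, ?_, ?_, fun a ha b hb e => ?_⟩
    · rcases List.mem_append.1 c with c | c
      · exact h.off k le_rfl c
      · obtain ⟨i, hi, e⟩ := List.mem_map.1 c
        have hi := List.mem_range.1 hi
        have := h.inj _ hi.le _ le_rfl e
        omega
    · exact (List.nodup_append.1 (List.nodup_cons.1 nd0).2).1
    · exact List.Nodup.map_on (fun a ha b hb e => h.inj _ (List.mem_range.1 ha).le _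
        (List.mem_range.1 hb).le e) List.nodup_range
    · obtain ⟨i, hi, rfl⟩ := List.mem_map.1 hb
      exact h.off i (List.mem_range.1 hi).le (e ▸ ha)
  have c1 : (q k :: (M ++ [q 0])).IsChain (H.deleteEdges {s(q 0, q k)}).Adj := by
    have a1 := h.fr.chain
    have a2 := chain_or (P := (· ∈ M)) (q 0) M (q k) (Or.inr h.M_ne) fun _ hx => hx
    rw [List.isChain_iff_forall_rel_of_append_cons_cons] at a1 a2 ⊢
    intro a b l₁ l₂ e
    refine del_adj.2 ⟨a1 e, fun c => ?_⟩
    have := a2 e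
    rcases Sym2.eq_iff.1 c with ⟨rfl, rfl⟩ | ⟨rfl, rfl⟩
    · exact this.elim (h.off _ (Nat.zero_le _)) (h.off _ le_rfl)
    · exact this.elim (h.off _ le_rfl) (h.off _ (Nat.zero_le _))
  have c2 : ((List.range k).map q).IsChain (H.deleteEdges {s(q 0, q k)}).Adj := by
    rw [List.isChain_map, List.isChain_range]
    exact fun m hm => del_adj.2 ⟨h.adj m (by omega), path_ne h (by omega)⟩
  obtain ⟨j, rfl⟩ : ∃ j, k = j + 1 := ⟨k - 1, by omega⟩
  have ch : (q (j + 1) :: (M ++ (List.range (j + 1)).map q)).IsChain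
      (H.deleteEdges {s(q 0, q (j + 1))}).Adj := by
    rw [List.range_succ_eq_map, List.map_cons] at c2 ⊢
    rw [← List.cons_append, List.isChain_split]
    exact ⟨c1, c2⟩
  rw [List.range_succ, List.map_append, ← List.append_assoc] at nd ch ⊢
  exact frame_of nd (by simp [h.M_ne]) ch (del_adj.2 ⟨h.adj j (by omega), path_ne h (by omega)⟩)

theorem peel' (h : PQ H M k q) (hfc : FC H (q k :: (M ++ [q 0])))
    (hc : ¬ Cross (H.deleteEdges {s(q 0, q k)}) (q k :: (M ++ (List.range k).map q)))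
    (ih : TPih H) : ∃ F, Basis H (q k :: (M ++ [q 0])) F := by
  have h2 := h.two
  have hle : H.deleteEdges {s(q 0, q k)} ≤ H := SimpleGraph.deleteEdges_le _
  have a0 : H.Adj (q 0) (q k) := h.fr.adj _ _ (fr_iff.2 (Or.inr ⟨M, rfl⟩))
  have sub : ∀ z ∈ q k :: (M ++ [q 0]), z ∈ q k :: (M ++ (List.range k).map q) := fun z m => by
    rw [new_eq h]
    exact List.mem_append_left _ m
  obtain ⟨F, hF⟩ := ih _ _ (ncard_lt hle a0 fun c => (del_adj.1 c).2 rfl) (frame_new h) hc (by
    intro Z y₁ y₂ y₃ hz hb x hx hs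
    refine hfc Z y₁ y₂ y₃ (fun z m c => hz z m (sub z c)) (fun z m w a => ?_) x
      (hx.mono fun _ _ _ a => hle a) hs
    refine hb z m w (del_adj.2 ⟨a, fun e => hz z m (sub z ?_)⟩)
    rcases Sym2.eq_iff.1 e with ⟨e, -⟩ | ⟨e, -⟩ <;> simp [e])
  set φ : Vec V := pv q 0 k + ed (q 0) (q k) with hφ
  have supp : ∀ e, φ e ≠ 0 → (∃ t < k, e = s(q t, q (t + 1))) ∨ e = s(q 0, q k) := by
    intro e he
    by_cases c : e = s(q 0, q k)
    · exact Or.inr c
    · obtain ⟨t, -, a, b⟩ := pv_supp (f := q) (i := 0) (j := k) (e := e)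
        (by simpa [hφ, ed, c] using he)
      exact Or.inl ⟨t, a, b⟩
  have φe : φ s(q 0, q k) = 1 := by
    have : pv q 0 k s(q 0, q k) = 0 := by
      by_contra c
      obtain ⟨t, -, a, b⟩ := pv_supp c
      exact path_ne h a b.symm
    simp [hφ, ed, this]
  have φev : Ev H φ := by
    refine ⟨fun u v c => ?_, fun v => ?_⟩
    · rw [← SimpleGraph.mem_edgeSet]
      rcases supp _ c with ⟨t, a, e⟩ | e
      · rw [e]
        exact h.adj t a
      · rw [e]
        exact a0
    · rw [hφ, par_add, par_pv (Nat.zero_le k) (fun t _ a => (h.adj t a).ne), par_ed a0.ne,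
        CharTwo.add_self_eq_zero]
  have c0 : cov F s(q 0, q k) = 0 := cov_eq_zero fun f m => by
    by_contra c
    exact (del_adj.1 ((hF.ev f m).1 _ _ c)).2 rfl
  have ci : ∀ e, cov (F ∪ {φ}) e ≤ cov F e + if φ e = 0 then 0 else 1 := fun e => by
    unfold cov
    rw [filter_union, filter_singleton]
    refine (card_union_le _ _).trans ?_
    by_cases c : φ e = 0 <;> simp [c]
  refine ⟨F ∪ {φ}, fun f m => ?_, fun e => ?_, fun x y f => ?_, fun x hx => ?_⟩
  · rw [mem_union, mem_singleton, or_comm] at m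
    rcases m with rfl | m
    exacts [φev, (hF.ev f m).mono fun _ _ _ a => hle a]
  · refine (ci _).trans ?_
    split_ifs with c
    · exact hF.two e
    · rcases supp e c with ⟨t, a, rfl⟩ | rfl
      · have := hF.one _ _ (fr_path a)
        omega
      · omega
  · refine (ci _).trans ?_
    by_cases e : s(x, y) = s(q 0, q k)
    · rw [e, c0]
      split_ifs <;> omega
    · have z : φ s(x, y) = 0 := by
        by_contra c
        rcases supp _ c with ⟨t, a, b⟩ | b
        · have key : ∀ i ≤ k, q i ∈ q k :: (M ++ [q 0]) → i = k ∨ i = 0 := by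
            intro i hi m
            simp only [List.mem_cons, List.mem_append, List.not_mem_nil, or_false] at m
            rcases m with m | m | m
            · exact Or.inl (h.inj _ hi _ le_rfl m)
            · exact absurd m (h.off i hi)
            · exact Or.inr (h.inj _ hi _ (Nat.zero_le _) m)
          have m1 := f.left
          have m2 := f.right
          rcases Sym2.eq_iff.1 b with ⟨rfl, rfl⟩ | ⟨rfl, rfl⟩
          · have := key _ a.le m1
            have := key _ a m2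
            omega
          · have := key _ a.le m2
            have := key _ a m1
            omega
        · exact e b
      rw [if_pos z, add_zero]
      refine hF.one x y ?_
      rcases fr_iff.1 f with ⟨A, B, e'⟩ | ⟨N, e'⟩
      · refine fr_iff.2 (Or.inl ⟨A, B ++ (List.range (k - 1)).map fun i => q (i + 1), ?_⟩)
        rw [new_eq h, e']
        simp
      · exfalso
        apply e
        rw [List.cons.injEq] at e'
        have := (List.append_inj' e'.2 rfl).2
        rw [List.cons.injEq] at this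
        rw [← e'.1, ← this.1]
  · have hs : Ev H (x s(q 0, q k) • φ) := by
      refine ⟨fun u v c => φev.1 u v fun z => c (by simp [z]), fun v => ?_⟩
      rw [par_smul, φev.2, mul_zero]
    have hy : Ev (H.deleteEdges {s(q 0, q k)}) (x + x s(q 0, q k) • φ) :=
      (hx.add hs).mono fun u v c a => del_adj.2 ⟨a, fun e => c (by
        rw [e]
        simp [φe, CharTwo.add_self_eq_zero])⟩
    have e : x = (x + x s(q 0, q k) • φ) + x s(q 0, q k) • φ := by
      rw [add_assoc, z2_add_self, add_zero]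
    rw [e]
    refine Submodule.add_mem _ (Submodule.span_mono (by simp) (hF.span _ hy))
      (Submodule.smul_mem _ _ (Submodule.subset_span (by simp)))

end Peel

theorem peel : PeelStmt := fun _ _ _ _ _ _ h hfc hc ih => Peel.peel' h hfc hc ih

theorem base : BaseStmt := fun _ _ _ _ hf =>
  ⟨Peel.base1 hf, fun _ hv _ hp hc hfc ih => Peel.base2 hf hv hp hc hfc ih⟩

end Pool.Agent.MP_e6539c_co.P5

end MrgPart0

-- ======== part 1: formerly Pool.Agent.MP_e6539c_co.P5.Ps
section MrgPart1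

/-! The path state of the territory game. -/

set_option autoImplicit false

namespace Pool.Agent.MP_e6539c_co.P5

open Finset
open Pool.Agent.MP_7be75d_co (R Conn comp)
open Pool.Agent.MP_7be75d_co
open scoped Classical

namespace PsAux

variable {V : Type} {G Γ : SimpleGraph V}

/-- An inner vertex of a chain can be contracted into its predecessor. -/
theorem split_pred {p t u : V} {A : List V} (hu : u ∈ A)
    (ch : (p :: (A ++ [t])).IsChain Γ.Adj) (nd : (p :: (A ++ [t])).Nodup) :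
    ∃ (A1 A2 : List V) (y : V), A = A1 ++ u :: A2 ∧ y ∈ p :: A1 ∧ Γ.Adj u y ∧
      (p :: ((A1 ++ A2) ++ [t])).IsChain (con Γ u y).Adj := by
  obtain ⟨A1, A2, rfl⟩ := List.append_of_mem hu
  obtain ⟨l, y, e⟩ : ∃ l y, p :: A1 = l ++ [y] := by
    rcases List.eq_nil_or_concat' (p :: A1) with h | ⟨l, y, h⟩
    · simp at h
    · exact ⟨l, y, h⟩
  have e1 : p :: ((A1 ++ u :: A2) ++ [t]) = l ++ y :: u :: (A2 ++ [t]) := by
    have : p :: ((A1 ++ u :: A2) ++ [t]) = (p :: A1) ++ u :: (A2 ++ [t]) := by simp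
    rw [this, e]; simp
  have e2 : p :: ((A1 ++ A2) ++ [t]) = l ++ y :: (A2 ++ [t]) := by
    have : p :: ((A1 ++ A2) ++ [t]) = (p :: A1) ++ (A2 ++ [t]) := by simp
    rw [this, e]; simp
  rw [e1] at ch nd
  refine ⟨A1, A2, y, rfl, by rw [e]; simp, ?_, ?_⟩
  · rw [List.isChain_split] at ch
    have h2 := ch.2
    rw [List.isChain_cons_cons] at h2
    exact h2.1.symm
  · rw [e2]
    exact con_chain_pred ch nd

theorem chain_pre {l l' : List V} (h : (l ++ l').IsChain Γ.Adj) : l.IsChain Γ.Adj :=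
  h.left_of_append

theorem chain_last {l : List V} {a b : V} (h : (l ++ [a, b]).IsChain Γ.Adj) : Γ.Adj a b := by
  have := h.right_of_append
  rw [List.isChain_cons_cons] at this
  exact this.1

variable [Fintype V] {C : Finset V} {p q s : V} {A B : List V}

theorem ndA (h : Ps G Γ C p A q B s) : (p :: (A ++ [q])).Nodup :=
  h.nd.sublist (List.Sublist.cons_cons _ (List.Sublist.append_left (by simp) _))

theorem ndB (h : Ps G Γ C p A q B s) : (q :: (B ++ [s])).Nodup :=
  h.nd.sublist ((List.sublist_append_right _ _).cons _)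

/-- An inactive vertex of the first arc is removed. -/
theorem dropA (h : Ps G Γ C p A q B s) {u : V} (hu : u ∈ A) (hi : ¬ Act G C u) :
    ∃ Γ' A', A'.length < A.length ∧ Ps G Γ' C p A' q B s := by
  obtain ⟨A1, A2, y, rfl, hy, a, ch⟩ := split_pred hu h.chA (ndA h)
  have nd := h.nd
  have sub : List.Sublist (p :: ((A1 ++ A2) ++ q :: (B ++ [s])))
      (p :: ((A1 ++ u :: A2) ++ q :: (B ++ [s]))) :=
    List.Sublist.cons_cons _ (List.Sublist.append_right
      (List.Sublist.append_left (List.sublist_cons_self _ _) _) _)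
  have hu1 : u ∉ q :: (B ++ [s]) := fun c =>
    (List.nodup_append.1 (List.nodup_cons.1 nd).2).2.2 u hu u c rfl
  have hp : p ≠ u := fun e => (List.nodup_cons.1 nd).1 (by rw [e]; simp)
  have hq : q ≠ u := fun e => hu1 (by rw [e]; simp)
  have hs : s ≠ u := fun e => hu1 (by rw [e]; simp)
  refine ⟨con Γ u y, A1 ++ A2, by simp, ⟨h.ctx.con a (h.out u (by simp)) (h.out y ?_) hi,
    nd.sublist sub, fun x hx => h.out x (sub.subset hx), ch, con_chain h.chB hu1,
    con_adj h.pq hp hq, con_adj h.ps hp hs, h.cov.of_act fun x hx _ ax => ?_, ?_, h.tyB, ?_⟩⟩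
  · rcases List.mem_cons.1 hy with e | e
    · simp [e]
    · simp [e]
  · have : x ≠ u := fun e => hi (e ▸ ax)
    simp only [Set.mem_ofPred_eq, List.mem_cons, List.mem_append] at hx ⊢
    tauto
  · rcases h.tyA with c | c
    · refine Or.inl (c.mono le_rfl fun x hx => ?_)
      simp only [Set.mem_ofPred_eq, List.mem_cons, List.mem_append] at hx ⊢
      tauto
    · right
      simp only [List.length_append, List.length_cons] at c ⊢
      omega
  · obtain ⟨x, hx, ax⟩ := h.act
    have : x ≠ u := fun e => hi (e ▸ ax)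
    refine ⟨x, ?_, ax⟩
    simp only [List.mem_cons, List.mem_append] at hx ⊢
    tauto

/-- An inactive vertex of the second arc is removed. -/
theorem dropB (h : Ps G Γ C p A q B s) {u : V} (hu : u ∈ B) (hi : ¬ Act G C u) :
    ∃ Γ' B', B'.length < B.length ∧ Ps G Γ' C p A q B' s := by
  obtain ⟨B1, B2, y, rfl, hy, a, ch⟩ := split_pred hu h.chB (ndB h)
  have nd := h.nd
  have sub : List.Sublist (p :: (A ++ q :: ((B1 ++ B2) ++ [s])))
      (p :: (A ++ q :: ((B1 ++ u :: B2) ++ [s]))) :=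
    List.Sublist.cons_cons _ (List.Sublist.append_left (List.Sublist.cons_cons _
      (List.Sublist.append_right (List.Sublist.append_left (List.sublist_cons_self _ _) _) _)) _)
  have n1 := List.nodup_cons.1 nd
  have n2 := List.nodup_append.1 n1.2
  have n3 := List.nodup_cons.1 n2.2.1
  have n4 := List.nodup_append.1 n3.2
  have hp : p ≠ u := fun e => n1.1 (by rw [e]; simp)
  have hq : q ≠ u := fun e => n3.1 (by rw [e]; simp)
  have hs : s ≠ u := fun e => n4.2.2 u hu s (by simp) e.symm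
  have hA : u ∉ A := fun c => n2.2.2 u c u (by simp) rfl
  have hu1 : u ∉ p :: (A ++ [q]) := by
    simp only [List.mem_cons, List.mem_append, List.not_mem_nil, or_false, not_or]
    exact ⟨hp.symm, hA, hq.symm⟩
  refine ⟨con Γ u y, B1 ++ B2, by simp, ⟨h.ctx.con a (h.out u (by simp)) (h.out y ?_) hi,
    nd.sublist sub, fun x hx => h.out x (sub.subset hx), con_chain h.chA hu1, ch,
    con_adj h.pq hp hq, con_adj h.ps hp hs, h.cov.of_act fun x hx _ ax => ?_, h.tyA, ?_, h.act⟩⟩
  · rcases List.mem_cons.1 hy with e | e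
    · simp [e]
    · simp [e]
  · have : x ≠ u := fun e => hi (e ▸ ax)
    simp only [Set.mem_ofPred_eq, List.mem_cons, List.mem_append] at hx ⊢
    tauto
  · rcases h.tyB with c | c
    · refine Or.inl (c.mono le_rfl fun x hx => ?_)
      simp only [Set.mem_ofPred_eq, List.mem_cons, List.mem_append] at hx ⊢
      tauto
    · right
      simp only [List.length_append, List.length_cons] at c ⊢
      omega

/-- The inactive end is contracted into the last vertex of the second arc. -/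
theorem dropS {B' : List V} {β : V} (h : Ps G Γ C p A q (B' ++ [β]) s) (hi : ¬ Act G C s) :
    Ps G (con Γ s β) C p A q B' β := by
  have nd := h.nd
  have sub : List.Sublist (p :: (A ++ q :: (B' ++ [β])))
      (p :: (A ++ q :: ((B' ++ [β]) ++ [s]))) :=
    List.Sublist.cons_cons _ (List.Sublist.append_left (List.Sublist.cons_cons _
      (List.sublist_append_left _ _)) _)
  have n1 := List.nodup_cons.1 nd
  have n2 := List.nodup_append.1 n1.2
  have n3 := List.nodup_cons.1 n2.2.1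
  have n4 := List.nodup_append.1 n3.2
  have hp : p ≠ s := fun e => n1.1 (by rw [e]; simp)
  have hq : q ≠ s := fun e => n3.1 (by rw [e]; simp)
  have hpb : p ≠ β := fun e => n1.1 (by rw [e]; simp)
  have hA : s ∉ A := fun c => n2.2.2 s c s (by simp) rfl
  have hB : s ∉ B' ++ [β] := fun c => n4.2.2 s c s (by simp) rfl
  have a : Γ.Adj β s := by
    have := h.chB
    have e : q :: ((B' ++ [β]) ++ [s]) = (q :: B') ++ [β, s] := by simp
    rw [e] at this
    exact chain_last this
  have chB : (q :: (B' ++ [β])).IsChain Γ.Adj := by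
    have := h.chB
    have e : q :: ((B' ++ [β]) ++ [s]) = (q :: (B' ++ [β])) ++ [s] := by simp
    rw [e] at this
    exact chain_pre this
  refine ⟨h.ctx.con a.symm (h.out s (by simp)) (h.out β (by simp)) hi, nd.sublist sub,
    fun x hx => h.out x (sub.subset hx), con_chain h.chA ?_, con_chain chB ?_,
    con_adj h.pq hp hq, (con_new h.ps.symm hpb).symm, h.cov.of_act fun x hx _ ax => ?_,
    h.tyA, ?_, h.act⟩
  · simp only [List.mem_cons, List.mem_append, List.not_mem_nil, or_false, not_or]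
    exact ⟨hp.symm, hA, hq.symm⟩
  · exact fun c => (List.mem_cons.1 c).elim (fun e => hq e.symm) hB
  · have : x ≠ s := fun e => hi (e ▸ ax)
    simp only [Set.mem_ofPred_eq, List.mem_cons, List.mem_append, List.not_mem_nil] at hx ⊢
    tauto
  · rcases h.tyB with c | c
    · refine Or.inl (c.mono le_rfl fun x hx => ?_)
      simp only [Set.mem_ofPred_eq, List.mem_cons, List.mem_append] at hx ⊢
      tauto
    · right
      simp only [List.length_append, List.length_cons] at c ⊢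
      omega

/-- With an inactive end and an empty second arc the state is a cycle state. -/
theorem toCy (h : Ps G Γ C p A q [] s) (hi : ¬ Act G C s) : CYs G Γ C (p :: (A ++ [q])) := by
  refine ⟨h.ctx, ndA h, fun x hx => h.out x ?_, h.chA, fun x M y e _ => ?_,
    h.cov.of_act fun x hx _ ax => ?_, ?_⟩
  · simp only [List.mem_cons, List.mem_append] at hx ⊢
    tauto
  · obtain ⟨rfl, e'⟩ := List.cons.inj e
    have := (List.append_inj' e' rfl).2
    obtain ⟨rfl, -⟩ := List.cons.inj this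
    exact h.pq.symm
  · have : x ≠ s := fun e => hi (e ▸ ax)
    simp only [Set.mem_ofPred_eq, List.mem_cons, List.mem_append, List.not_mem_nil] at hx ⊢
    tauto
  · rcases h.tyA with c | c
    · exact Or.inl c
    · right
      simp only [List.length_append, List.length_cons, List.length_nil] at c ⊢
      omega

/-- The neighbours other than the two ends of the move form three classes. -/
theorem sys {A' : List V} {α : V} (h : Ps G Γ C p (A' ++ [α]) q B s) : Sys G C {s, α} := by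
  obtain ⟨SB, cB, hB⟩ : ∃ SB : Set V, Cls G C SB ∧ ∀ x ∈ B, x ∈ SB := by
    rcases h.tyB with c | c
    · exact ⟨_, c, fun x hx => by simp [hx]⟩
    · exact ⟨_, cls_short h.ctx.gi c fun x hx => h.out x (by simp [hx]), fun x hx => hx⟩
  left
  rcases h.tyA with c | c
  · refine ⟨_, SB, ∅, c, cB, cls_empty _, h.cov.mono fun x hx => ?_⟩
    have := hB x
    simp only [Set.mem_ofPred_eq, List.mem_cons, List.mem_append, Set.mem_union,
      Set.mem_insert_iff, Set.mem_singleton_iff, List.not_mem_nil] at hx ⊢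
    tauto
  · have e : A' = [] := by
      simp only [List.length_append, List.length_cons, List.length_nil] at c
      exact List.length_eq_zero_iff.1 (by omega)
    subst e
    refine ⟨{p}, {q}, SB, cls_single h.ctx.gi (h.out p (by simp)),
      cls_single h.ctx.gi (h.out q (by simp)), cB, h.cov.mono fun x hx => ?_⟩
    have := hB x
    simp only [Set.mem_ofPred_eq, List.mem_cons, List.mem_append, Set.mem_union,
      Set.mem_insert_iff, Set.mem_singleton_iff, List.not_mem_nil, List.nil_append] at hx ⊢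
    tauto

/-- After the move the frame is a subdivided complete graph on four corners. -/
theorem toKs {A' D : List V} {α : V} {C' : Finset V} (h : Ps G Γ C p (A' ++ [α]) q B s)
    (ndD : D.Nodup) (hD : ∀ x ∈ D, x ∈ C ∧ x ∉ C') (ch : (s :: (D ++ [α])).IsChain Γ.Adj)
    (sub : C' ⊆ C) (ctx : Ctx G Γ C') (cls : Cls G C' {x | x ∈ s :: (D ++ [α])})
    (cv : ∀ S : Set V, Cov G C S → Cov G C' (S ∪ {x | x ∈ D})) :
    Ks G Γ C' ![α, p, q, s] ![A'.reverse, [], B, D] := by
  have n1 := List.nodup_cons.1 h.nd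
  have n2 := List.nodup_append.1 n1.2
  have n3 := List.nodup_cons.1 n2.2.1
  have n4 := List.nodup_append.1 n3.2
  have n5 := List.nodup_append.1 n2.1
  have oα : α ∉ C := h.out α (by simp)
  have op : p ∉ C := h.out p (by simp)
  have oq : q ∉ C := h.out q (by simp)
  have os : s ∉ C := h.out s (by simp)
  have oA : ∀ x ∈ A', x ∉ C := fun x hx => h.out x (by simp [hx])
  have oB : ∀ x ∈ B, x ∉ C := fun x hx => h.out x (by simp [hx])
  have αp : α ≠ p := fun e => n1.1 (by rw [← e]; simp)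
  have αq : α ≠ q := n2.2.2 α (by simp) q (by simp)
  have αs : α ≠ s := n2.2.2 α (by simp) s (by simp)
  have pq : p ≠ q := h.pq.ne
  have ps : p ≠ s := h.ps.ne
  have qs' : q ≠ s := fun e => n3.1 (by rw [e]; simp)
  have αA : α ∉ A' := fun c => n5.2.2 α c α (by simp) rfl
  have pA : p ∉ A' := fun c => n1.1 (by simp [c])
  have qA : q ∉ A' := fun c => n2.2.2 q (by simp [c]) q (by simp) rfl
  have sA : s ∉ A' := fun c => n2.2.2 s (by simp [c]) s (by simp) rfl
  have αB : α ∉ B := fun c => n2.2.2 α (by simp) α (by simp [c]) rfl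
  have pB : p ∉ B := fun c => n1.1 (by simp [c])
  have qB : q ∉ B := fun c => n3.1 (by simp [c])
  have sB : s ∉ B := fun c => n4.2.2 s c s (by simp) rfl
  have AB : ∀ x ∈ A', x ∉ B := fun x hx c => n2.2.2 x (by simp [hx]) x (by simp [c]) rfl
  have AD : ∀ x ∈ A', x ∉ D := fun x hx c => oA x hx (hD x c).1
  have BD : ∀ x ∈ B, x ∉ D := fun x hx c => oB x hx (hD x c).1
  have αD : α ∉ D := fun c => oα (hD _ c).1
  have pD : p ∉ D := fun c => op (hD _ c).1
  have qD : q ∉ D := fun c => oq (hD _ c).1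
  have sD : s ∉ D := fun c => os (hD _ c).1
  have aq : Γ.Adj α q := by
    have := h.chA
    have e : p :: ((A' ++ [α]) ++ [q]) = (p :: A') ++ [α, q] := by simp
    rw [e] at this
    exact chain_last this
  have ch0 : (α :: (A'.reverse ++ [p])).IsChain Γ.Adj := by
    have := h.chA
    have e : p :: ((A' ++ [α]) ++ [q]) = (p :: (A' ++ [α])) ++ [q] := by simp
    rw [e] at this
    have := chain_rev (chain_pre this)
    simpa using this
  have k : ∀ i : Fin 4, i = 0 ∨ i = 1 ∨ i = 2 ∨ i = 3 := by decide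
  refine ⟨ctx, fun i j e => ?_, fun i => ?_, fun i j hij x hx => ?_, fun i j => ?_, fun i => ?_,
    fun i x hx => ?_, fun i => ?_, fun i => ?_, (cv _ h.cov).mono fun x hx => ?_, fun i => ?_⟩
  · rcases k i with rfl | rfl | rfl | rfl <;> rcases k j with rfl | rfl | rfl | rfl <;>
      first
        | rfl
        | exact absurd e (by assumption)
        | exact absurd e.symm (by assumption)
  · rcases k i with rfl | rfl | rfl | rfl
    · exact List.nodup_reverse.2 n5.1
    · exact List.nodup_nil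
    · exact n4.1
    · exact ndD
  · rcases k i with rfl | rfl | rfl | rfl <;> rcases k j with rfl | rfl | rfl | rfl
    · exact absurd rfl hij
    · exact List.not_mem_nil
    · exact AB x (List.mem_reverse.1 hx)
    · exact AD x (List.mem_reverse.1 hx)
    · exact absurd hx List.not_mem_nil
    · exact absurd hx List.not_mem_nil
    · exact absurd hx List.not_mem_nil
    · exact absurd hx List.not_mem_nil
    · exact fun c => AB x (List.mem_reverse.1 c) hx
    · exact List.not_mem_nil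
    · exact absurd rfl hij
    · exact BD x hx
    · exact fun c => AD x (List.mem_reverse.1 c) hx
    · exact List.not_mem_nil
    · exact fun c => BD x c hx
    · exact absurd rfl hij
  · rcases k i with rfl | rfl | rfl | rfl <;> rcases k j with rfl | rfl | rfl | rfl <;>
      first
        | exact List.not_mem_nil
        | assumption
        | exact fun c => αA (List.mem_reverse.1 c)
        | exact fun c => pA (List.mem_reverse.1 c)
        | exact fun c => qA (List.mem_reverse.1 c)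
        | exact fun c => sA (List.mem_reverse.1 c)
  · rcases k i with rfl | rfl | rfl | rfl
    · exact fun c => oα (sub c)
    · exact fun c => op (sub c)
    · exact fun c => oq (sub c)
    · exact fun c => os (sub c)
  · rcases k i with rfl | rfl | rfl | rfl
    · exact fun c => oA x (List.mem_reverse.1 hx) (sub c)
    · exact absurd hx List.not_mem_nil
    · exact fun c => oB x hx (sub c)
    · exact (hD x hx).2
  · rcases k i with rfl | rfl | rfl | rfl
    · exact ch0
    · exact List.isChain_cons_cons.2 ⟨h.pq, List.isChain_singleton _⟩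
    · exact h.chB
    · exact ch
  · rcases k i with rfl | rfl | rfl | rfl
    · exact aq
    · exact h.ps
    · exact aq.symm
    · exact h.ps.symm
  · simp only [Set.mem_ofPred_eq, List.mem_cons, List.mem_append, Set.mem_union,
      List.not_mem_nil, or_false] at hx
    rcases hx with (e | (e | e) | e | e | e) | e
    · exact ⟨1, Or.inl e⟩
    · exact ⟨0, Or.inr (List.mem_reverse.2 e)⟩
    · exact ⟨0, Or.inl e⟩
    · exact ⟨2, Or.inl e⟩
    · exact ⟨2, Or.inr e⟩
    · exact ⟨3, Or.inl e⟩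
    · exact ⟨3, Or.inr e⟩
  · rcases k i with rfl | rfl | rfl | rfl
    · rcases h.tyA with c | c
      · refine Or.inl (c.mono sub fun x hx => ?_)
        have hx' : x ∈ α :: (A'.reverse ++ [p]) := hx
        simp only [Set.mem_ofPred_eq, List.mem_cons, List.mem_append, List.mem_reverse,
          List.not_mem_nil] at hx' ⊢
        tauto
      · right
        show A'.reverse.length ≤ 1
        simp only [List.length_append, List.length_cons, List.length_reverse] at c ⊢
        omega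
    · exact Or.inr (Nat.zero_le 1)
    · rcases h.tyB with c | c
      · exact Or.inl (c.mono sub le_rfl)
      · exact Or.inr c
    · exact Or.inl cls

end PsAux

theorem ps (h : MoveStmt) : PsStmt := by
  intro V _ G C hno hcy
  suffices H : ∀ n (Γ : SimpleGraph V) p (A : List V) q (B : List V) s,
      A.length + B.length < n → ¬ Ps G Γ C p A q B s from
    fun Γ p A q B s => H _ Γ p A q B s (Nat.lt_succ_self _)
  intro n
  induction n with
  | zero => intro Γ p A q B s hn; omega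
  | succ n ih =>
    intro Γ p A q B s hn hP
    by_cases hA : ∃ u ∈ A, ¬ Act G C u
    · obtain ⟨u, hu, hi⟩ := hA
      obtain ⟨Γ', A', hl, h'⟩ := PsAux.dropA hP hu hi
      exact ih Γ' p A' q B s (by omega) h'
    by_cases hB : ∃ u ∈ B, ¬ Act G C u
    · obtain ⟨u, hu, hi⟩ := hB
      obtain ⟨Γ', B', hl, h'⟩ := PsAux.dropB hP hu hi
      exact ih Γ' p A q B' s (by omega) h'
    by_cases hs : Act G C s
    · rcases List.eq_nil_or_concat' A with e | ⟨A', α, e⟩
      · obtain ⟨a, ha, -⟩ := hP.act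
        simp [e] at ha
      · subst e
        have aα : Act G C α := by
          by_contra c
          exact hA ⟨α, by simp, c⟩
        have ne : s ≠ α := fun e =>
          (List.nodup_append.1 (List.nodup_cons.1 hP.nd).2).2.2 α (by simp) s (by simp) e.symm
        obtain ⟨D, C', -, ndD, hD, ch, sub, lt, ctx, cls, cv⟩ := h V G Γ C s α hP.ctx ne
          (hP.out s (by simp)) (hP.out α (by simp)) hs aα (PsAux.sys hP)
        exact (hno Γ C' lt).2.2 _ _ (PsAux.toKs hP ndD hD ch sub ctx cls cv)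
    · rcases List.eq_nil_or_concat' B with e | ⟨B', β, e⟩
      · subst e
        exact hcy Γ _ (PsAux.toCy hP hs)
      · subst e
        refine ih _ p A q B' β ?_ (PsAux.dropS hP hs)
        simp only [List.length_append, List.length_cons, List.length_nil] at hn
        omega

end Pool.Agent.MP_e6539c_co.P5

end MrgPart1

-- ======== part 2: formerly Pool.Agent.MP_e6539c_co.P5.Split
section MrgPart2

/-! The two paths theorem: splitting the frame along a two-vertex separation. -/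

set_option autoImplicit false

namespace Pool.Agent.MP_e6539c_co.P5

open Finset
open Pool.Agent.MP_7be75d_co (R Conn comp)
open Pool.Agent.MP_7be75d_co
open scoped Classical

namespace Split

variable {V : Type} {H : SimpleGraph V} {T T' : Finset V} {x y : V} {I J : List V}

/-- The edges of `H` with an end in `T`, together with the edge `e`. -/
def sd (H : SimpleGraph V) (T : Finset V) (e : Sym2 V) : SimpleGraph V where
  Adj u v := u ≠ v ∧ ((H.Adj u v ∧ (u ∈ T ∨ v ∈ T)) ∨ s(u, v) = e)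
  symm := ⟨fun _ _ h => ⟨h.1.symm, h.2.imp (fun k => ⟨k.1.symm, k.2.symm⟩)
    fun k => Sym2.eq_swap.trans k⟩⟩
  loopless := ⟨fun _ h => h.1 rfl⟩

/-- `T` misses `x, y` and its neighbours are in `T` or equal to `x` or `y`. -/
structure Side (H : SimpleGraph V) (T : Finset V) (x y : V) : Prop where
  hx : x ∉ T
  hy : y ∉ T
  cl : ∀ v ∈ T, ∀ w, H.Adj v w → w ∈ T ∨ w = x ∨ w = y

theorem sd_adj {e : Sym2 V} {u v : V} :
    (sd H T e).Adj u v ↔ u ≠ v ∧ ((H.Adj u v ∧ (u ∈ T ∨ v ∈ T)) ∨ s(u, v) = e) := Iff.rfl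

theorem sd_of_mem {e : Sym2 V} {u v : V} (h : H.Adj u v) (hu : u ∈ T) : (sd H T e).Adj u v :=
  ⟨h.ne, Or.inl ⟨h, Or.inl hu⟩⟩

theorem sd_edge (h : x ≠ y) : (sd H T s(x, y)).Adj x y := ⟨h, Or.inr rfl⟩

theorem Side.symm (h : Side H T x y) : Side H T y x :=
  ⟨h.hy, h.hx, fun v hv w a => (h.cl v hv w a).imp_right Or.symm⟩

/-- The ends of an edge of the side lie in `T` or are `x` or `y`. -/
theorem Side.mem (h : Side H T x y) {u v : V} (a : (sd H T s(x, y)).Adj u v) :
    u ∈ T ∨ u = x ∨ u = y := by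
  rcases a.2 with ⟨a, k | k⟩ | e
  · exact Or.inl k
  · exact h.cl v k u a.symm
  · rcases Sym2.eq_iff.1 e with ⟨rfl, -⟩ | ⟨rfl, -⟩
    · exact Or.inr (Or.inl rfl)
    · exact Or.inr (Or.inr rfl)

theorem sd_of_ends {u v : V} (a : H.Adj u v) (hu : u ∈ T ∨ u = x ∨ u = y)
    (hv : v ∈ T ∨ v = x ∨ v = y) : (sd H T s(x, y)).Adj u v := by
  refine ⟨a.ne, ?_⟩
  rcases hu with hu | hu
  · exact Or.inl ⟨a, Or.inl hu⟩
  rcases hv with hv | hv
  · exact Or.inl ⟨a, Or.inr hv⟩
  have := a.ne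
  rcases hu with rfl | rfl <;> rcases hv with rfl | rfl
  · exact absurd rfl this
  · exact Or.inr rfl
  · exact Or.inr Sym2.eq_swap
  · exact absurd rfl this

theorem adj_of_sd {e : Sym2 V} {u v : V} (a : (sd H T e).Adj u v) (h : s(u, v) ≠ e) :
    H.Adj u v ∧ (u ∈ T ∨ v ∈ T) := a.2.resolve_right h

/-! ### Lists -/

theorem sub_left (x y : V) (I J : List V) :
    List.Sublist (x :: (I ++ [y])) (x :: (I ++ y :: J)) :=
  ((List.Sublist.refl I).append ((List.nil_sublist J).cons_cons y)).cons_cons x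

theorem rot_xy (x y : V) (I J : List V) : (x :: (I ++ y :: J)) ~r (y :: (J ++ x :: I)) :=
  rot_iff.2 ⟨x :: I, y :: J, by simp, by simp⟩

theorem nd_facts (nd : (x :: (I ++ y :: J)).Nodup) :
    x ≠ y ∧ x ∉ I ∧ y ∉ I ∧ x ∉ J ∧ y ∉ J ∧ ∀ z ∈ I, z ∉ J := by
  simp only [List.nodup_cons, List.mem_append, List.mem_cons, not_or, List.nodup_append] at nd
  obtain ⟨⟨a, b, c⟩, -, ⟨d, -⟩, e⟩ := nd
  exact ⟨b, a, fun k => e y k y (Or.inl rfl) rfl, c, d, fun z k k' => e z k z (Or.inr k') rfl⟩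

theorem mem_tail {a b : V} {A B : List V} (e : x :: I = A ++ a :: b :: B) : b ∈ I := by
  cases A with
  | nil =>
    simp only [List.nil_append, List.cons.injEq] at e
    simp [e.2]
  | cons c A =>
    simp only [List.cons_append, List.cons.injEq] at e
    simp [e.2]

/-- A frame edge of the long frame is a frame edge of one of the two short frames. -/
theorem fr_split {a b : V} (h : Fr (x :: (I ++ y :: J)) a b) (hI : I ≠ []) (hJ : J ≠ []) :
    (Fr (x :: (I ++ [y])) a b ∧ (a ∈ I ∨ b ∈ I)) ∨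
      (Fr (y :: (J ++ [x])) a b ∧ (a ∈ J ∨ b ∈ J)) := by
  rcases fr_iff.1 h with ⟨A, B, e⟩ | ⟨M, e⟩
  · rw [← List.cons_append] at e
    rcases List.append_eq_append_iff.1 e with ⟨C, -, e2⟩ | ⟨C, e1, e2⟩
    · refine Or.inr ⟨fr_iff.2 (Or.inl ⟨C, B ++ [x], ?_⟩), Or.inr (mem_tail e2)⟩
      rw [← List.cons_append, e2]
      simp
    · match C, e1, e2 with
      | [], _, e2 =>
        simp only [List.nil_append, List.cons.injEq] at e2
        obtain ⟨rfl, rfl⟩ := e2
        exact Or.inr ⟨fr_iff.2 (Or.inl ⟨[], B ++ [x], by simp⟩), by simp⟩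
      | [c], e1, e2 =>
        simp only [List.cons_append, List.nil_append, List.cons.injEq] at e2
        obtain ⟨rfl, rfl, rfl⟩ := e2
        refine Or.inl ⟨fr_iff.2 (Or.inl ⟨A, [], ?_⟩), Or.inl ?_⟩
        · rw [← List.cons_append, e1]
          simp
        · cases A with
          | nil =>
            simp only [List.nil_append, List.cons.injEq] at e1
            exact absurd e1.2 hI
          | cons d A =>
            simp only [List.cons_append, List.cons.injEq] at e1
            simp [e1.2]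
      | c :: d :: C, e1, e2 =>
        simp only [List.cons_append, List.cons.injEq] at e2
        obtain ⟨rfl, rfl, -⟩ := e2
        refine Or.inl ⟨fr_iff.2 (Or.inl ⟨A, C ++ [y], ?_⟩), Or.inr (mem_tail e1)⟩
        rw [← List.cons_append, e1]
        simp
  · simp only [List.cons.injEq] at e
    obtain ⟨rfl, e⟩ := e
    obtain ⟨K, c, rfl⟩ : ∃ K c, J = K ++ [c] :=
      ⟨J.dropLast, J.getLast hJ, (List.dropLast_append_getLast hJ).symm⟩
    have e' : (I ++ y :: K) ++ [c] = M ++ [a] := by simpa using e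
    obtain rfl : c = a := by simpa using (List.append_inj' e' rfl).2
    exact Or.inr ⟨fr_iff.2 (Or.inl ⟨y :: K, [], by simp⟩), by simp⟩

/-- Four vertices in order on `x :: I ++ [y]`: only the first can be `x`, only the last `y`. -/
theorem four_ends {a u b v : V} (nd : (x :: (I ++ [y])).Nodup)
    (s : List.Sublist [a, u, b, v] (x :: (I ++ [y]))) :
    a ≠ b ∧ u ≠ v ∧ y ≠ a ∧ y ≠ b ∧ x ≠ u ∧ x ≠ v := by
  have n4 := nd.sublist s
  have t1 : List.Sublist [u, b, v] (I ++ [y]) := by simpa using s.tail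
  have t2 : List.Sublist [a, u, b] (x :: I) := by
    have h1 : List.Sublist ([a, u, b] ++ [v]).reverse ((x :: I) ++ [y]).reverse := s.reverse
    have h2 := h1.tail
    simp only [List.reverse_append, List.reverse_singleton, List.singleton_append,
      List.tail_cons] at h2
    exact List.reverse_sublist.1 h2
  have hx : x ∉ I ++ [y] := (List.nodup_cons.1 nd).1
  have hy : y ∉ x :: I := by
    rw [← List.cons_append, List.nodup_append] at nd
    exact fun k => nd.2.2 y k y (by simp) rfl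
  simp only [List.nodup_cons, List.mem_cons, not_or] at n4
  refine ⟨n4.1.2.1, n4.2.1.2.1, ?_, ?_, ?_, ?_⟩
  · rintro rfl
    exact hy (t2.subset (by simp))
  · rintro rfl
    exact hy (t2.subset (by simp))
  · rintro rfl
    exact hx (t1.subset (by simp))
  · rintro rfl
    exact hx (t1.subset (by simp))

/-! ### One side -/

theorem side_frame (fr : Frame H (x :: (I ++ y :: J))) (hI : I ≠ []) (sub : ∀ u ∈ I, u ∈ T) :
    Frame (sd H T s(x, y)) (x :: (I ++ [y])) := by
  have nd := fr.nd.sublist (sub_left x y I J)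
  have hxy := (nd_facts fr.nd).1
  refine frame_of nd hI ?_ (sd_edge hxy).symm
  have m : ∀ z ∈ x :: (I ++ [y]), z ∈ T ∨ z = x ∨ z = y := by
    intro z hz
    simp only [List.mem_cons, List.mem_append, List.not_mem_nil, or_false] at hz
    rcases hz with h | h | h
    exacts [Or.inr (Or.inl h), Or.inl (sub z h), Or.inr (Or.inr h)]
  rw [List.isChain_iff_forall_rel_of_append_cons_cons]
  intro a b l₁ l₂ e
  refine sd_of_ends (fr.adj a b (fr_iff.2 (Or.inl ⟨l₁, l₂ ++ J, ?_⟩))) (m a (by simp [e]))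
    (m b (by simp [e]))
  have : x :: (I ++ y :: J) = (x :: (I ++ [y])) ++ J := by simp
  rw [this, e]
  simp

theorem side_lt [Fintype V] (fr : Frame H (x :: (I ++ y :: J))) (hJ : J ≠ [])
    (h : Side H T x y) (off : ∀ u ∈ J, u ∉ T) :
    (sd H T s(x, y)).edgeSet.ncard < H.edgeSet.ncard := by
  obtain ⟨hxy, -, -, xJ, yJ, -⟩ := nd_facts fr.nd
  obtain ⟨j, hj, a⟩ : ∃ j ∈ J, H.Adj y j := by
    obtain ⟨j, K, rfl⟩ := List.exists_cons_of_ne_nil hJ
    exact ⟨j, by simp, fr.adj y j (fr_iff.2 (Or.inl ⟨x :: I, K, by simp⟩))⟩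
  obtain ⟨k, hk, b⟩ : ∃ k ∈ J, H.Adj k x := by
    obtain ⟨K, c, rfl⟩ : ∃ K c, J = K ++ [c] :=
      ⟨J.dropLast, J.getLast hJ, (List.dropLast_append_getLast hJ).symm⟩
    exact ⟨c, by simp, fr.adj c x (fr_iff.2 (Or.inr ⟨I ++ y :: K, by simp⟩))⟩
  have no : ∀ z ∈ J, ∀ w, ¬ (sd H T s(x, y)).Adj z w := fun z hz w c => by
    rcases h.mem c with t | rfl | rfl
    exacts [off z hz t, xJ hz, yJ hz]
  have ne : s(y, j) ≠ s(k, x) := fun e => by
    rcases Sym2.eq_iff.1 e with ⟨rfl, -⟩ | ⟨e, -⟩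
    exacts [yJ hk, hxy e.symm]
  have sub : (sd H T s(x, y)).edgeSet ⊆
      insert s(x, y) ((H.edgeSet \ {s(y, j)}) \ {s(k, x)}) := by
    intro e he
    induction e using Sym2.ind with
    | h u v =>
      by_cases c : s(u, v) = s(x, y)
      · exact Or.inl c
      · refine Or.inr ⟨⟨(adj_of_sd he c).1, fun t => ?_⟩, fun t => ?_⟩
        · rw [Set.mem_singleton_iff.1 t] at he
          exact no j hj y (SimpleGraph.Adj.symm he)
        · rw [Set.mem_singleton_iff.1 t] at he
          exact no k hk x he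
  have h1 := Set.ncard_le_ncard sub (Set.toFinite _)
  have h2 := Set.ncard_insert_le s(x, y) ((H.edgeSet \ {s(y, j)}) \ {s(k, x)})
  have h3 := Set.ncard_sdiff_singleton_lt_of_mem (s := H.edgeSet \ {s(y, j)}) (a := s(k, x))
    ⟨b, fun t => ne (Set.mem_singleton_iff.1 t).symm⟩ (Set.toFinite _)
  have h4 := Set.ncard_sdiff_singleton_lt_of_mem (s := H.edgeSet) (a := s(y, j)) a (Set.toFinite _)
  omega

/-- A connected set of the side that misses `x` or `y` is connected in `H` and misses `J`. -/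
theorem side_set (nd : (x :: (I ++ y :: J)).Nodup) (h : Side H T x y) (off : ∀ u ∈ J, u ∉ T)
    {X : Finset V} {a b : V} (c : Conn (sd H T s(x, y)) X) (hab : a ≠ b) (m : x ∉ X ∨ y ∉ X)
    (f : ∀ z, (z ∈ X ∧ z ∈ x :: (I ++ [y])) ↔ (z = a ∨ z = b)) :
    Conn H X ∧ ∀ z, (z ∈ X ∧ z ∈ x :: (I ++ y :: J)) ↔ (z = a ∨ z = b) := by
  obtain ⟨-, -, -, xJ, yJ, -⟩ := nd_facts nd
  refine ⟨c.mono' fun p q e hp hq => (adj_of_sd e fun t => ?_).1, fun z => ?_⟩
  · rcases Sym2.eq_iff.1 t with ⟨rfl, rfl⟩ | ⟨rfl, rfl⟩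
    exacts [m.elim (· hp) (· hq), m.elim (· hq) (· hp)]
  · rw [← f]
    refine and_congr_right fun hz => ⟨fun k => ?_, fun k => (sub_left x y I J).subset k⟩
    have nJ : z ∉ J := fun t => by
      obtain ⟨w, hw, ne⟩ : ∃ w ∈ X, z ≠ w := by
        by_cases e : z = a
        · exact ⟨b, ((f b).2 (Or.inr rfl)).1, e ▸ hab⟩
        · exact ⟨a, ((f a).2 (Or.inl rfl)).1, e⟩
      obtain ⟨w', -, e⟩ := c.exists_adj hz hw ne
      rcases h.mem e with t' | rfl | rfl
      exacts [off z t t', xJ t, yJ t]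
    simp only [List.mem_cons, List.mem_append, List.not_mem_nil, or_false] at k ⊢
    tauto

theorem side_cross (nd : (x :: (I ++ y :: J)).Nodup) (h : Side H T x y) (off : ∀ u ∈ J, u ∉ T)
    (c : Cross (sd H T s(x, y)) (x :: (I ++ [y]))) : Cross H (x :: (I ++ y :: J)) := by
  obtain ⟨a, u, b, v, X₁, X₂, s, c₁, c₂, d, f, g⟩ := c.norm
  obtain ⟨ab, uv, ya, yb, xu, xv⟩ := four_ends (nd.sublist (sub_left x y I J)) s
  obtain ⟨k₁, f'⟩ := side_set nd h off c₁ ab
    (Or.inr fun t => ((f y).1 ⟨t, by simp⟩).elim ya yb) f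
  obtain ⟨k₂, g'⟩ := side_set nd h off c₂ uv
    (Or.inl fun t => ((g x).1 ⟨t, by simp⟩).elim xu xv) g
  exact cross_mk (s.trans (sub_left x y I J)) k₁ k₂ d f' g'

theorem exists_union (F₁ F₂ : Finset (Vec V)) : ∃ F : Finset (Vec V),
    (∀ f, f ∈ F ↔ f ∈ F₁ ∨ f ∈ F₂) ∧ ∀ e, cov F e ≤ cov F₁ e + cov F₂ e :=
  ⟨F₁ ∪ F₂, fun _ => mem_union, cov_union_le F₁ F₂⟩

variable [Fintype V]

theorem side_fc (fc : FC H (x :: (I ++ y :: J))) (h : Side H T x y) (off : ∀ u ∈ J, u ∉ T) :
    FC (sd H T s(x, y)) (x :: (I ++ [y])) := by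
  intro Z y₁ y₂ y₃ hZ bd w ev sp
  have inT : ∀ z ∈ Z, ∀ q, (sd H T s(x, y)).Adj z q → z ∈ T := fun z hz q a => by
    rcases h.mem a with t | rfl | rfl
    · exact t
    · exact absurd (by simp) (hZ _ hz)
    · exact absurd (by simp) (hZ _ hz)
  have sp' : ∀ u v, w s(u, v) ≠ 0 → u ∈ Z ∩ T ∨ v ∈ Z ∩ T := fun u v c =>
    (sp u v c).imp (fun k => mem_inter.2 ⟨k, inT u k v (ev.1 u v c)⟩)
      fun k => mem_inter.2 ⟨k, inT v k u (ev.1 u v c).symm⟩
  refine fc (Z ∩ T) y₁ y₂ y₃ (fun z hz k => ?_) (fun z hz q a => ?_) w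
    (ev.mono fun u v c a => (adj_of_sd a fun t => ?_).1) sp'
  · obtain ⟨h1, h2⟩ := mem_inter.1 hz
    have := hZ z h1
    have := fun t => off z t h2
    simp only [List.mem_cons, List.mem_append, List.not_mem_nil, or_false] at *
    tauto
  · obtain ⟨h1, h2⟩ := mem_inter.1 hz
    have a' : (sd H T s(x, y)).Adj z q := sd_of_mem a h2
    exact (bd z h1 q a').imp_left fun k => mem_inter.2 ⟨k, inT q k z a'.symm⟩
  · have hx := h.hx
    have hy := h.hy
    rcases Sym2.eq_iff.1 t with ⟨rfl, rfl⟩ | ⟨rfl, rfl⟩ <;>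
      rcases sp' _ _ c with k | k <;> have := (mem_inter.1 k).2 <;> contradiction

theorem side_basis (fr : Frame H (x :: (I ++ y :: J))) (nc : ¬ Cross H (x :: (I ++ y :: J)))
    (fc : FC H (x :: (I ++ y :: J))) (hI : I ≠ []) (hJ : J ≠ []) (h : Side H T x y)
    (sub : ∀ u ∈ I, u ∈ T) (off : ∀ u ∈ J, u ∉ T) (ih : TPih H) :
    ∃ F, Basis (sd H T s(x, y)) (x :: (I ++ [y])) F :=
  ih _ _ (side_lt fr hJ h off) (side_frame fr hI sub) (fun c => nc (side_cross fr.nd h off c))
    (side_fc fc h off)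

/-! ### Cutting an even set in two -/

/-- The part of an even set on the edges that meet `T`, completed by the edge `xy`. -/
theorem piece (hxy : x ≠ y) (h : Side H T x y) {w : Vec V} (ev : Ev H w) :
    ∃ w₁, Ev (sd H T s(x, y)) w₁ ∧ ∀ u v, s(u, v) ≠ s(x, y) →
      w₁ s(u, v) = if u ∈ T ∨ v ∈ T then w s(u, v) else 0 := by
  obtain ⟨w₀, h0⟩ : ∃ w₀ : Vec V, ∀ u v,
      w₀ s(u, v) = if u ∈ T ∨ v ∈ T then w s(u, v) else 0 :=
    ⟨fun e => if ∃ t ∈ T, t ∈ e then w e else 0, fun u v => if_congr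
      ⟨fun ⟨t, a, b⟩ => (Sym2.mem_iff.1 b).imp (fun e : t = u => e ▸ a) (fun e : t = v => e ▸ a),
        fun k => k.elim (fun a => ⟨u, a, by simp⟩) fun a => ⟨v, a, by simp⟩⟩ rfl rfl⟩
  have sp : ∀ u v, w₀ s(u, v) ≠ 0 → H.Adj u v ∧ (u ∈ T ∨ v ∈ T) := fun u v c => by
    rw [h0] at c
    by_cases k : u ∈ T ∨ v ∈ T
    · exact ⟨ev.1 u v (by rwa [if_pos k] at c), k⟩
    · exact absurd (if_neg k) c
  have p0 : ∀ v, v ≠ x → v ≠ y → par w₀ v = 0 := fun v a b => by
    by_cases k : v ∈ T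
    · rw [← ev.2 v]
      exact sum_congr rfl fun u _ => by rw [h0, if_pos (Or.inl k)]
    · refine sum_eq_zero fun u _ => ?_
      by_contra c
      obtain ⟨e, t | t⟩ := sp v u c
      · exact k t
      · rcases h.cl u t v e.symm with t | t | t
        exacts [k t, a t, b t]
  have pxy : par w₀ x + par w₀ y = 0 := by
    rw [← sum_par (x := w₀) fun v => by_contra fun c => (sp v v c).1.ne rfl, ← sum_pair hxy]
    refine sum_subset (subset_univ _) fun v _ hv => ?_
    simp only [mem_insert, mem_singleton, not_or] at hv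
    exact p0 v hv.1 hv.2
  have off : ∀ u v, s(u, v) ≠ s(x, y) → (w₀ + par w₀ x • ed x y) s(u, v) = w₀ s(u, v) :=
    fun u v c => by rw [Pi.add_apply, Pi.smul_apply, ed, if_neg c, smul_zero, add_zero]
  refine ⟨w₀ + par w₀ x • ed x y, ⟨fun u v c => ?_, fun v => ?_⟩, fun u v c => ?_⟩
  · by_cases e : s(u, v) = s(x, y)
    · refine ⟨?_, Or.inr e⟩
      rcases Sym2.eq_iff.1 e with ⟨rfl, rfl⟩ | ⟨rfl, rfl⟩
      exacts [hxy, hxy.symm]
    · rw [off u v e] at c
      exact ⟨(sp u v c).1.ne, Or.inl (sp u v c)⟩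
  · rw [par_add, par_smul, par_ed hxy]
    by_cases a : v = x
    · subst a
      rw [if_pos rfl, if_neg hxy, add_zero, mul_one, CharTwo.add_self_eq_zero]
    · by_cases b : v = y
      · subst b
        rw [if_neg a, if_pos rfl, zero_add, mul_one, add_comm, pxy]
      · rw [if_neg a, if_neg b, p0 v a b, add_zero, mul_zero, add_zero]
  · rw [off u v c, h0]

/-- An even set is the sum of even sets of the two sides. -/
theorem cut (hxy : x ≠ y) (h : Side H T x y) (hT : ∀ v, v ∉ T → v ∈ T' ∨ v = x ∨ v = y)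
    {w : Vec V} (ev : Ev H w) :
    ∃ w₁ w₂, Ev (sd H T s(x, y)) w₁ ∧ Ev (sd H T' s(x, y)) w₂ ∧ w = w₁ + w₂ := by
  obtain ⟨w₁, e₁, h₁⟩ := piece hxy h ev
  refine ⟨w₁, w₁ + w, e₁, ⟨fun u v c => ?_, fun v => by rw [par_add, e₁.2, ev.2, add_zero]⟩,
    by rw [← add_assoc, z2_add_self, zero_add]⟩
  by_cases e : s(u, v) = s(x, y)
  · refine ⟨?_, Or.inr e⟩
    rcases Sym2.eq_iff.1 e with ⟨rfl, rfl⟩ | ⟨rfl, rfl⟩
    exacts [hxy, hxy.symm]
  · rw [Pi.add_apply, h₁ u v e] at c
    by_cases k : u ∈ T ∨ v ∈ T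
    · rw [if_pos k] at c
      exact absurd (CharTwo.add_self_eq_zero _) c
    · rw [if_neg k, zero_add] at c
      exact sd_of_ends (ev.1 u v c) (hT u fun t => k (Or.inl t)) (hT v fun t => k (Or.inr t))

/-- A family of even sets of one side does not cover an edge that meets the other side. -/
theorem cov_other (h : Side H T x y) (h' : Side H T' x y) (d : ∀ v ∈ T, v ∉ T')
    {F : Finset (Vec V)} (ev : ∀ f ∈ F, Ev (sd H T' s(x, y)) f) {u v : V}
    (k : u ∈ T ∨ v ∈ T) : cov F s(u, v) = 0 := by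
  refine cov_eq_zero fun f hf => by_contra fun c => ?_
  have a := (ev f hf).1 u v c
  rcases k with k | k
  · rcases h'.mem a with t | rfl | rfl
    exacts [d u k t, h.hx k, h.hy k]
  · rcases h'.mem a.symm with t | rfl | rfl
    exacts [d v k t, h.hx k, h.hy k]

theorem ev_univ {e : Sym2 V} {f : Vec V} (h : Ev (sd H T e) f) : Ev (sd H univ e) f :=
  h.mono fun _ _ _ a => ⟨a.1, a.2.imp_left fun k => ⟨k.1, Or.inl (mem_univ _)⟩⟩

/-- The union of the two bases. -/
theorem union_basis (hxy : x ≠ y) (hI : I ≠ []) (hJ : J ≠ []) (h : Side H T x y)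
    (h' : Side H T' x y) (d : ∀ v ∈ T, v ∉ T') (hT : ∀ v, v ∉ T → v ∈ T' ∨ v = x ∨ v = y)
    (sI : ∀ u ∈ I, u ∈ T) (sJ : ∀ u ∈ J, u ∈ T') {F₁ F₂ : Finset (Vec V)}
    (b₁ : Basis (sd H T s(x, y)) (x :: (I ++ [y])) F₁)
    (b₂ : Basis (sd H T' s(x, y)) (y :: (J ++ [x])) F₂) :
    ∃ F : Finset (Vec V), (∀ f ∈ F, Ev (sd H univ s(x, y)) f) ∧ (∀ e, cov F e ≤ 2) ∧
      (∀ a b, Fr (x :: (I ++ y :: J)) a b → cov F s(a, b) ≤ 1) ∧
      ∀ w, Ev H w → w ∈ Submodule.span (ZMod 2) (F : Set (Vec V)) := by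
  have d' : ∀ v ∈ T', v ∉ T := fun v a b => d v b a
  obtain ⟨F, mF, cF⟩ := exists_union F₁ F₂
  refine ⟨F, fun f hf => ?_, fun e => ?_, fun a b f => ?_, fun w ev => ?_⟩
  · exact ((mF f).1 hf).elim (fun k => ev_univ (b₁.ev f k)) fun k => ev_univ (b₂.ev f k)
  · induction e using Sym2.ind with
    | h u v =>
      have c := cF s(u, v)
      have c₁ := b₁.two s(u, v)
      have c₂ := b₂.two s(u, v)
      by_cases e : s(u, v) = s(x, y)
      · have o₁ := b₁.one y x (fr_iff.2 (Or.inr ⟨I, rfl⟩))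
        have o₂ := b₂.one x y (fr_iff.2 (Or.inr ⟨J, rfl⟩))
        rw [Sym2.eq_swap] at o₁
        rw [e] at c ⊢
        omega
      · by_cases k : u ∈ T ∨ v ∈ T
        · have := cov_other h h' d b₂.ev k
          omega
        · have : cov F₁ s(u, v) = 0 := cov_eq_zero fun f hf => by_contra fun t =>
            k (adj_of_sd ((b₁.ev f hf).1 u v t) e).2
          omega
  · have c := cF s(a, b)
    rcases fr_split f hI hJ with ⟨f, m⟩ | ⟨f, m⟩
    · have := b₁.one a b f
      have := cov_other h h' d b₂.ev (m.imp (sI a) (sI b))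
      omega
    · have := b₂.one a b f
      have := cov_other h' h d' b₁.ev (m.imp (sJ a) (sJ b))
      omega
  · obtain ⟨w₁, w₂, e₁, e₂, rfl⟩ := cut hxy h hT ev
    exact Submodule.add_mem _
      (Submodule.span_mono (fun f k => (mF f).2 (Or.inl k)) (b₁.span w₁ e₁))
      (Submodule.span_mono (fun f k => (mF f).2 (Or.inr k)) (b₂.span w₂ e₂))

/-- The two sides of the separation. -/
theorem sides (nd : (x :: (I ++ y :: J)).Nodup)
    (sep : ∀ u ∈ I, ∀ v ∈ J, ¬ R H (univ \ {x, y}) u v) :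
    ∃ T T' : Finset V, Side H T x y ∧ Side H T' x y ∧ (∀ v ∈ T, v ∉ T') ∧
      (∀ v, v ∉ T → v ∈ T' ∨ v = x ∨ v = y) ∧ (∀ u ∈ I, u ∈ T) ∧ ∀ u ∈ J, u ∈ T' := by
  obtain ⟨-, xI, yI, xJ, yJ, -⟩ := nd_facts nd
  obtain ⟨T, hT⟩ : ∃ T : Finset V, ∀ v, v ∈ T ↔ ∃ u ∈ I, R H (univ \ {x, y}) u v :=
    ⟨univ.filter fun v => ∃ u ∈ I, R H (univ \ {x, y}) u v, fun v => by simp⟩
  obtain ⟨T', hT'⟩ : ∃ T' : Finset V, ∀ v, v ∈ T' ↔ v ∉ T ∧ v ≠ x ∧ v ≠ y :=
    ⟨univ.filter fun v => v ∉ T ∧ v ≠ x ∧ v ≠ y, fun v => by simp⟩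
  have mU : ∀ v, v ∈ (univ \ {x, y} : Finset V) ↔ v ≠ x ∧ v ≠ y := fun v => by simp
  have tU : ∀ v ∈ T, v ≠ x ∧ v ≠ y := fun v hv => by
    obtain ⟨u, hu, r⟩ := (hT v).1 hv
    exact (mU v).1 (r.mem ((mU u).2 ⟨fun e => xI (e ▸ hu), fun e => yI (e ▸ hu)⟩))
  have cl : ∀ v ∈ T, ∀ w, H.Adj v w → w ≠ x → w ≠ y → w ∈ T := fun v hv w a b c => by
    obtain ⟨u, hu, r⟩ := (hT v).1 hv
    exact (hT w).2 ⟨u, hu, r.tail a ((mU v).2 (tU v hv)) ((mU w).2 ⟨b, c⟩)⟩
  refine ⟨T, T', ⟨fun k => (tU x k).1 rfl, fun k => (tU y k).2 rfl, fun v hv w a => ?_⟩,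
    ⟨fun k => ((hT' x).1 k).2.1 rfl, fun k => ((hT' y).1 k).2.2 rfl, fun v hv w a => ?_⟩,
    fun v a b => ((hT' v).1 b).1 a, fun v hv => ?_, fun u hu => (hT u).2 ⟨u, hu, R.refl⟩,
    fun u hu => (hT' u).2 ⟨fun k => ?_, fun e => xJ (e ▸ hu), fun e => yJ (e ▸ hu)⟩⟩
  · have := cl v hv w a
    tauto
  · obtain ⟨h1, h2, h3⟩ := (hT' v).1 hv
    have := fun k => h1 (cl w k v a.symm h2 h3)
    rw [hT']
    tauto
  · rw [hT']
    tauto
  · obtain ⟨v, hv, r⟩ := (hT u).1 k
    exact sep v hv u hu r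

end Split

open Split in
theorem split (h : MergeStmt) : SplitStmt := by
  intro V _ H x y I J fr nc fc hI hJ sep ih
  have hxy := (nd_facts fr.nd).1
  obtain ⟨T, T', s, s', d, hT, sI, sJ⟩ := sides fr.nd sep
  obtain ⟨F₁, b₁⟩ := side_basis fr nc fc hI hJ s sI (fun u a b => d u b (sJ u a)) ih
  obtain ⟨F₂, b₂⟩ := side_basis (fr.rot (rot_xy x y I J))
    (fun c => nc (c.rot (rot_xy x y I J).symm)) (fc.rot (rot_xy x y I J)) hJ hI s'.symm sJ
    (fun u a => d u (sI u a)) ih
  rw [Sym2.eq_swap] at b₂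
  obtain ⟨F₀, ev, two, one, span⟩ := union_basis hxy hI hJ s s' d hT sI sJ b₁ b₂
  by_cases a : H.Adj x y
  · refine ⟨F₀, fun f hf => (ev f hf).mono fun u v _ c => ?_, two, one, span⟩
    rcases c.2 with c | e
    · exact c.1
    · rcases Sym2.eq_iff.1 e with ⟨rfl, rfl⟩ | ⟨rfl, rfl⟩
      exacts [a, a.symm]
  · obtain ⟨F, m1, m2, m3⟩ := h V F₀ s(x, y) (two _)
    refine ⟨F, fun f hf => ?_, fun e => (m2 e).trans (two e),
      fun u v f => (m2 _).trans (one u v f),
      fun w e => m3 w (span w e) (by_contra fun c => a (e.1 x y c))⟩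
    obtain ⟨z, k⟩ := m1 f hf
    have e : Ev (sd H univ s(x, y)) f := by
      rcases k with k | ⟨g, hg, g', hg', rfl⟩
      exacts [ev f k, (ev g hg).add (ev g' hg')]
    exact e.mono fun u v c t => (adj_of_sd t fun q => c (q ▸ z)).1

end Pool.Agent.MP_e6539c_co.P5

end MrgPart2

-- ======== part 3: formerly Pool.Agent.MP_e6539c_co.P5.Tree
section MrgPart3

/-! Soundness of the leaf pruning automaton and the bound on the size of pieces. -/

set_option autoImplicit false

namespace Pool.Agent.MP_e6539c_co.P5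

open Finset
open Pool.Agent.MP_7be75d_co (R Conn comp)
open Pool.Agent.MP_7be75d_co
open scoped Classical

namespace Tree

variable {V : Type} {G : SimpleGraph V} {Y A A' X : Finset V} {u v : V}

/-- Marks of `S` that end in `A`, one near `v` and two near each other and `v`. -/
def RC (G : SimpleGraph V) (Y A : Finset V) (S : Set V) (v : V) (n : ℕ × ℕ) : Prop :=
  (n.1 < 9 → ∃ p, Mark G Y S p ∧ p.2 ∈ A ∧ Wk G Y p.2 v n.1) ∧
  (n.2 < 9 → ∃ p q a b c, p ≠ q ∧ Mark G Y S p ∧ Mark G Y S q ∧ p.2 ∈ A ∧ q.2 ∈ A ∧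
    Wk G Y p.2 q.2 a ∧ Wk G Y p.2 v b ∧ Wk G Y q.2 v c ∧ a + b + c ≤ 2 * n.2)

section
variable {S : Set V} {n m : ℕ × ℕ}

theorem RC.shift (h : RC G Y A S u n) (a : G.Adj u v) (hv : v ∈ Y) :
    RC G Y A S v (n.1 + 1, n.2 + 1) := by
  refine ⟨fun h1 => ?_, fun h1 => ?_⟩
  · obtain ⟨p, k1, k2, k3⟩ := h.1 (by dsimp only at h1; omega)
    exact ⟨p, k1, k2, k3.tail a hv⟩
  · obtain ⟨p, q, a', b, c, k1, k2, k3, k4, k5, k6, k7, k8, k9⟩ := h.2 (by dsimp only at h1; omega)
    exact ⟨p, q, a', b + 1, c + 1, k1, k2, k3, k4, k5, k6, k7.tail a hv, k8.tail a hv,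
      by dsimp only; omega⟩

theorem RC.weaken (h : RC G Y A S v n) (hl : leP n m = true) : RC G Y A S v m := by
  simp only [leP, Bool.and_eq_true, Bool.or_eq_true, Nat.ble_eq] at hl
  refine ⟨fun h1 => ?_, fun h1 => ?_⟩
  · obtain ⟨p, k1, k2, k3⟩ := h.1 (by omega)
    exact ⟨p, k1, k2, k3.le (by omega)⟩
  · obtain ⟨p, q, a', b, c, k1, k2, k3, k4, k5, k6, k7, k8, k9⟩ := h.2 (by omega)
    exact ⟨p, q, a', b, c, k1, k2, k3, k4, k5, k6, k7, k8, by omega⟩

theorem RC.pair (hS : Cls G Y S) (hA : Disjoint A A') (h : RC G Y A S v n)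
    (h' : RC G Y A' S v m) : 9 ≤ n.2 + m.1 := by
  by_contra hc
  obtain ⟨p, q, a, b, c, k1, k2, k3, k4, k5, k6, k7, k8, k9⟩ := h.2 (by omega)
  obtain ⟨s, s1, s2, s3⟩ := h'.1 (by omega)
  have := hS.three p q s _ _ _ k2 k3 s1 k1 (fun e => disjoint_left.1 hA k4 (e ▸ s2))
    (fun e => disjoint_left.1 hA k5 (e ▸ s2)) k6 (k7.trans s3.symm) (k8.trans s3.symm)
  omega

theorem RC.merge (hS : Cls G Y S) (hA : Disjoint A A') (h : RC G Y A S v n)
    (h' : RC G Y A' S u m) (a : G.Adj u v) (hv : v ∈ Y) :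
    okP n m = true ∧ RC G Y (A ∪ A') S v (mrgP n m) := by
  have h2 := h'.shift a hv
  have e1 := h.pair hS hA h2
  have e2 := h2.pair hS hA.symm h
  dsimp only at e1 e2
  have ne : ∀ p q : V × V, p.2 ∈ A → q.2 ∈ A' → p ≠ q :=
    fun p q hp hq e => disjoint_left.1 hA hp (e ▸ hq)
  refine ⟨?_, fun h1 => ?_, fun h1 => ?_⟩
  · have e3 : 4 ≤ n.1 + (m.1 + 1) := by
      by_contra hc
      obtain ⟨p, p1, p2, p3⟩ := h.1 (by omega)
      obtain ⟨q, q1, q2, q3⟩ := h2.1 (by dsimp only; omega)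
      have := hS.two p q _ p1 q1 (ne p q p2 q2) (p3.trans q3.symm)
      dsimp only at this
      omega
    simp only [okP, Bool.and_eq_true, Nat.ble_eq, Nat.add_eq]
    omega
  · simp only [mrgP] at h1 ⊢
    rcases le_total n.1 (m.1 + 1) with k | k
    · rw [min_eq_left k] at h1 ⊢
      obtain ⟨p, p1, p2, p3⟩ := h.1 h1
      exact ⟨p, p1, mem_union_left _ p2, p3⟩
    · rw [min_eq_right k] at h1 ⊢
      obtain ⟨p, p1, p2, p3⟩ := h2.1 h1
      exact ⟨p, p1, mem_union_right _ p2, p3⟩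
  · simp only [mrgP] at h1 ⊢
    by_cases c1 : n.2 ≤ m.2 + 1 ∧ n.2 ≤ n.1 + (m.1 + 1)
    · obtain ⟨p, q, a', b, c, k1, k2, k3, k4, k5, k6, k7, k8, k9⟩ := h.2 (by omega)
      exact ⟨p, q, a', b, c, k1, k2, k3, mem_union_left _ k4, mem_union_left _ k5, k6, k7, k8,
        by omega⟩
    by_cases c2 : m.2 + 1 ≤ n.1 + (m.1 + 1)
    · obtain ⟨p, q, a', b, c, k1, k2, k3, k4, k5, k6, k7, k8, k9⟩ := h2.2 (by dsimp only; omega)
      dsimp only at k9
      exact ⟨p, q, a', b, c, k1, k2, k3, mem_union_right _ k4, mem_union_right _ k5, k6, k7, k8,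
        by omega⟩
    obtain ⟨p, p1, p2, p3⟩ := h.1 (by omega)
    obtain ⟨q, q1, q2, q3⟩ := h2.1 (by dsimp only; omega)
    exact ⟨p, q, _, _, _, ne p q p2 q2, p1, q1, mem_union_left _ p2, mem_union_right _ q2,
      p3.trans q3.symm, p3, q3, by dsimp only; omega⟩

/-- Whether `v` has a neighbour in `S`. -/
noncomputable def nb (G : SimpleGraph V) (S : Set V) (v : V) : Bool := decide (∃ x ∈ S, G.Adj x v)

theorem RC.init (hv : v ∈ Y) : RC G Y {v} S v (cls (nb G S v)) := by
  unfold nb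
  by_cases h : ∃ x ∈ S, G.Adj x v
  · rw [decide_eq_true h]
    obtain ⟨x, hx, a⟩ := h
    exact ⟨fun _ => ⟨(x, v), ⟨hx, hv, a⟩, mem_singleton_self _, Wk.refl hv⟩,
      fun h => absurd h (by decide)⟩
  · rw [decide_eq_false h]
    exact ⟨fun h => absurd h (by decide), fun h => absurd h (by decide)⟩

end

theorem le_mx : ∀ (l : List ℕ), ∀ a ∈ l, a ≤ mx l
  | [], _, h => by simp at h
  | b :: l, a, h => by
    rw [mx]
    simp only [Nat.add_eq, Nat.sub_eq]
    rcases List.mem_cons.1 h with rfl | h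
    · omega
    · have := le_mx l a h
      omega

theorem keep_sub (m : ℕ) : ∀ l : List ℕ, List.Sublist (keep m l) (l.map (· + 1))
  | [] => List.Sublist.refl _
  | a :: l => by
    rw [keep, List.map_cons]
    cases Nat.ble (Nat.add m a) 8
    · exact (keep_sub m l).cons _
    · exact (keep_sub m l).cons_cons _

theorem keep_le (m : ℕ) : ∀ l : List ℕ, ∀ b ∈ keep m l, m + b ≤ 9
  | [], _, h => by simp [keep] at h
  | a :: l, b, h => by
    rw [keep] at h
    cases e : Nat.ble (Nat.add m a) 8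
    · rw [e] at h
      exact keep_le m l b h
    · rw [e] at h
      rcases List.mem_cons.1 h with rfl | h
      · simp only [Nat.ble_eq, Nat.add_eq] at e
        omega
      · exact keep_le m l b h

theorem le2_spec : ∀ l m : List ℕ, le2 l m = true →
    ∃ l', List.Sublist l' l ∧ List.Forall₂ (· ≤ ·) l' m
  | l, [], _ => ⟨[], List.nil_sublist _, List.Forall₂.nil⟩
  | [], _ :: _, h => by simp [le2] at h
  | x :: l, y :: m, h => by
    simp only [le2, Bool.and_eq_true, Nat.ble_eq] at h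
    obtain ⟨l', h1, h2⟩ := le2_spec l m h.2
    exact ⟨x :: l', h1.cons_cons _, List.Forall₂.cons h.1 h2⟩

/-- The state `x` is realised at `v` by the region `A`. -/
structure Rl (G : SimpleGraph V) (Y X : Finset V) (S : Fin 4 → Set V) (A : Finset V) (v : V)
    (x : St) : Prop where
  s : A.card ≤ x.s
  a : RC G Y A (S 0) v x.a
  b : RC G Y A (S 1) v x.b
  c : RC G Y A (S 2) v x.c
  d : RC G Y A (S 3) v x.d
  T : RT G Y A X v x.T

variable {S : Fin 4 → Set V} {x y : St}

theorem Rl.cover (h : Rl G Y X S A v x) (hc : cv x y = true) :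
    Rl G Y X S A v y ∧ x.j ≤ y.j := by
  simp only [cv, Bool.and_eq_true, Nat.ble_eq] at hc
  obtain ⟨⟨⟨⟨⟨⟨h1, h2⟩, h3⟩, h4⟩, h5⟩, h6⟩, h7⟩ := hc
  obtain ⟨l, l1, l2⟩ := le2_spec _ _ h7
  exact ⟨⟨h.s.trans h1, h.a.weaken h3, h.b.weaken h4, h.c.weaken h5, h.d.weaken h6,
    (h.T.sublist l1).weaken l2⟩, h2⟩

theorem Rl.merge {k : ℕ} (hG : Gi G) (hX : Disjoint X Y) (hk : X.card ≤ k)
    (hS : ∀ i, Cls G Y (S i)) (hA : Disjoint A A') (h : Rl G Y X S A v x)
    (h' : Rl G Y X S A' u y) (a : G.Adj u v) (hv : v ∈ Y) :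
    ok k x y = true ∧ Rl G Y X S (A ∪ A') v (mrg x y) := by
  obtain ⟨a1, a2⟩ := h.a.merge (hS 0) hA h'.a a hv
  obtain ⟨b1, b2⟩ := h.b.merge (hS 1) hA h'.b a hv
  obtain ⟨c1, c2⟩ := h.c.merge (hS 2) hA h'.c a hv
  obtain ⟨d1, d2⟩ := h.d.merge (hS 3) hA h'.d a hv
  have t : RT G Y (A ∪ A') X v (x.T ++ keep (mx x.T) y.T) := by
    refine RT.append hG hX hA h.T ((h'.T.shift a hv).sublist (keep_sub _ _)) fun p hp q hq => ?_
    have := le_mx _ p hp
    have := keep_le _ _ q hq
    omega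
  refine ⟨?_, (card_union_le _ _).trans (Nat.add_le_add h.s h'.s), a2, b2, c2, d2,
    t.perm (List.perm_insertionSort _ _).symm⟩
  have := t.card
  rw [List.length_append] at this
  simp only [ok, a1, b1, c1, d1, fN_eq, Bool.and_self, Bool.true_and, Nat.ble_eq, Nat.add_eq]
  omega

theorem prune {k N : ℕ} {L : List St} (hG : Gi G) (hX : Disjoint X Y) (hk : X.card ≤ k)
    (hS : ∀ i, Cls G Y (S i)) (hY : ¬ Cyc G Y) (cS : chkS k L = true) (cF : chkF N L = true) :
    ∀ (n : ℕ) (W : Finset V) (B : V → Finset V) (σ : V → St), W.card = n + 1 → W ⊆ Y →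
      Conn G W → (∀ v ∈ W, σ v ∈ L ∧ Rl G Y X S (B v) v (σ v) ∧ 3 ≤ (σ v).j + dg G W v) →
      (∀ u ∈ W, ∀ v ∈ W, u ≠ v → Disjoint (B u) (B v)) → (∀ y ∈ Y, ∃ v ∈ W, y ∈ B v) →
      Y.card ≤ N := by
  intro n
  induction n with
  | zero =>
    intro W B σ hW _ _ h1 _ h3
    obtain ⟨v, rfl⟩ := card_eq_one.1 hW
    obtain ⟨m, r, j⟩ := h1 v (mem_singleton_self v)
    have e : dg G {v} v = 0 := by simp [dg]
    have := List.all_eq_true.1 cF _ m
    simp only [Bool.or_eq_true, Nat.ble_eq] at this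
    have c : Y.card ≤ (B v).card := card_le_card fun y hy => by
      obtain ⟨w, hw, k⟩ := h3 y hy
      rwa [mem_singleton.1 hw] at k
    have := r.s
    omega
  | succ n ih =>
    intro W B σ hW hWY hc h1 h2 h3
    obtain ⟨u, hu, du⟩ := exists_leaf (fun c => hY (c.mono hWY)) hc.1
    have ce : (W.erase u).card = n + 1 := by rw [card_erase_of_mem hu]; omega
    obtain ⟨w, hw⟩ := card_pos.1 (show 0 < (W.erase u).card by omega)
    obtain ⟨v, hv, a⟩ := hc.exists_adj hu (mem_of_mem_erase hw) (ne_of_mem_erase hw).symm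
    obtain ⟨mu, ru, ju⟩ := h1 u hu
    obtain ⟨mv, rv, jv⟩ := h1 v hv
    obtain ⟨o, r⟩ := rv.merge hG hX hk hS (h2 v hv u hu a.ne') ru a (hWY hv)
    have t := List.all_eq_true.1 cS _ mu
    simp only [Bool.or_eq_true, Nat.ble_eq] at t
    have t' := List.all_eq_true.1 (t.resolve_left (by omega)) _ mv
    rw [o, fS_eq] at t'
    obtain ⟨z, hz, cz⟩ := List.any_eq_true.1 (by simpa only [Bool.not_true, Bool.false_or] using t')
    obtain ⟨rz, jz⟩ := r.cover cz
    refine ih (W.erase u) (Function.update B v (B v ∪ B u)) (Function.update σ v z) ce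
      ((erase_subset _ _).trans hWY) (conn_erase hc du ⟨w, hw⟩) (fun p hp => ?_)
      (fun p hp q hq ne => ?_) (fun y hy => ?_)
    · have e := dg_erase (G := G) (v := p) hu
      by_cases k : p = v
      · subst k
        rw [Function.update_self, Function.update_self]
        rw [if_pos a.symm] at e
        refine ⟨hz, rz, ?_⟩
        simp only [mrg] at jz
        omega
      · rw [Function.update_of_ne k, Function.update_of_ne k]
        have hp' := mem_of_mem_erase hp
        have : ¬ G.Adj p u := fun b => by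
          have := two_le_dg.2 ⟨p, hp', v, hv, k, b.symm, a⟩
          omega
        rw [if_neg this] at e
        exact ⟨(h1 p hp').1, (h1 p hp').2.1, by have := (h1 p hp').2.2; omega⟩
    · have key : ∀ q ∈ W.erase u, q ≠ v → Disjoint (B v ∪ B u) (B q) := fun q hq k =>
        disjoint_union_left.2 ⟨h2 v hv q (mem_of_mem_erase hq) k.symm,
          h2 u hu q (mem_of_mem_erase hq) (ne_of_mem_erase hq).symm⟩
      by_cases k : p = v
      · subst k
        rw [Function.update_self, Function.update_of_ne ne.symm]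
        exact key q hq ne.symm
      by_cases k' : q = v
      · subst k'
        rw [Function.update_self, Function.update_of_ne k]
        exact (key p hp k).symm
      rw [Function.update_of_ne k, Function.update_of_ne k']
      exact h2 p (mem_of_mem_erase hp) q (mem_of_mem_erase hq) ne
    · obtain ⟨p, hp, k⟩ := h3 y hy
      have hv' : v ∈ W.erase u := mem_erase.2 ⟨a.ne', hv⟩
      by_cases e : p = u
      · exact ⟨v, hv', by rw [Function.update_self]; exact mem_union_right _ (e ▸ k)⟩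
      by_cases e' : p = v
      · exact ⟨v, hv', by rw [Function.update_self]; exact mem_union_left _ (e' ▸ k)⟩
      exact ⟨p, mem_erase.2 ⟨e, hp⟩, by rw [Function.update_of_ne e']; exact k⟩

theorem cls_one [Fintype V] {S : Set V} (hS : Cls G Y S) (hv : v ∈ Y) :
    dg G (univ.filter (· ∈ S)) v ≤ (nb G S v).toNat := by
  by_cases h : ∃ x ∈ S, G.Adj x v
  · rw [show nb G S v = true by simpa [nb] using h]
    by_contra hc
    obtain ⟨a, ha, b, hb, ne, a1, b1⟩ := (two_le_dg (G := G)).1 (not_le.1 hc)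
    have := hS.two (a, v) (b, v) 0 ⟨(mem_filter.1 ha).2, hv, a1.symm⟩
      ⟨(mem_filter.1 hb).2, hv, b1.symm⟩ (fun e => ne (congrArg Prod.fst e)) (Wk.refl hv)
    omega
  · refine le_of_eq_of_le (card_eq_zero.2 (filter_eq_empty_iff.2 fun x hx a => ?_)) (Nat.zero_le _)
    exact h ⟨x, (mem_filter.1 hx).2, a.symm⟩

theorem mem_opt {l : ℕ} {i : Fin 4} (hl : ∀ i : Fin 4, l ≤ i.1 → S i = ∅) (v : V) :
    nb G (S i) v ∈ opt l i.1 := by
  unfold opt
  split_ifs with h
  · simp [nb, hl i h]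
  · cases nb G (S i) v <;> simp

theorem bound [Fintype V] {l k N : ℕ} {L : List St} (hL : chk l k N L = true) (hG : Gi G)
    (hY : Pc G Y) (hS : ∀ i, Cls G Y (S i)) (hl : ∀ i : Fin 4, l ≤ i.1 → S i = ∅)
    (hk : X.card ≤ k) (hc : Cov G Y {x | (∃ i, x ∈ S i) ∨ x ∈ X}) : Y.card ≤ N := by
  rw [chk, fA_eq] at hL
  simp only [Bool.and_eq_true] at hL
  obtain ⟨⟨cI, cS⟩, cF⟩ := hL
  have hk' : (X \ Y).card ≤ k := (card_le_card sdiff_subset).trans hk
  have key : ∀ v ∈ Y, ∃ z ∈ L, Rl G Y (X \ Y) S {v} v z ∧ 3 ≤ z.j + dg G Y v := by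
    intro v hv
    have t := RT.init (G := G) (X := X \ Y) hv
    have tk := t.card
    rw [List.length_replicate] at tk
    have c := List.all_eq_true.1 (List.all_eq_true.1 (List.all_eq_true.1 (List.all_eq_true.1
      (List.all_eq_true.1 cI _ (mem_opt (G := G) (i := 0) hl v)) _ (mem_opt (G := G) (i := 1) hl v))
      _ (mem_opt (G := G) (i := 2) hl v)) _ (mem_opt (G := G) (i := 3) hl v)) (dg G (X \ Y) v)
      (List.mem_range.2 (by omega))
    rw [fS_eq] at c
    obtain ⟨z, hz, cz⟩ := List.any_eq_true.1 c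
    obtain ⟨rz, jz⟩ := Rl.cover (G := G) (Y := Y) (X := X \ Y) (S := S) (A := {v}) (v := v)
      ⟨(card_singleton v).le, RC.init hv, RC.init hv, RC.init hv, RC.init hv, t⟩ cz
    refine ⟨z, hz, rz, ?_⟩
    have d0 := cls_one (hS 0) hv
    have d1 := cls_one (hS 1) hv
    have d2 := cls_one (hS 2) hv
    have d3 := cls_one (hS 3) hv
    have dd : dg G univ v ≤ dg G (Y ∪ (X \ Y) ∪ univ.filter (· ∈ S 0) ∪ univ.filter (· ∈ S 1) ∪
        univ.filter (· ∈ S 2) ∪ univ.filter (· ∈ S 3)) v := by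
      refine card_le_card fun x hx => mem_filter.2 ⟨?_, (mem_filter.1 hx).2⟩
      simp only [mem_union, mem_sdiff, mem_filter, mem_univ, true_and]
      by_cases m : x ∈ Y
      · simp [m]
      rcases hc v hv x m (mem_filter.1 hx).2.symm with ⟨i, hi⟩ | hi
      · fin_cases i
        · exact Or.inl (Or.inl (Or.inl (Or.inr hi)))
        · exact Or.inl (Or.inl (Or.inr hi))
        · exact Or.inl (Or.inr hi)
        · exact Or.inr hi
      · simp [m, hi]
    have u1 := dg_union_le (G := G) Y (X \ Y) v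
    have u2 := dg_union_le (G := G) (Y ∪ (X \ Y)) (univ.filter (· ∈ S 0)) v
    have u3 := dg_union_le (G := G) (Y ∪ (X \ Y) ∪ univ.filter (· ∈ S 0))
      (univ.filter (· ∈ S 1)) v
    have u4 := dg_union_le (G := G) (Y ∪ (X \ Y) ∪ univ.filter (· ∈ S 0) ∪ univ.filter (· ∈ S 1))
      (univ.filter (· ∈ S 2)) v
    have u5 := dg_union_le (G := G) (Y ∪ (X \ Y) ∪ univ.filter (· ∈ S 0) ∪ univ.filter (· ∈ S 1) ∪
      univ.filter (· ∈ S 2)) (univ.filter (· ∈ S 3)) v
    have := hY.deg v hv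
    simp only [ini] at jz
    omega
  have : Nonempty St := ⟨ini false false false false 0⟩
  choose! σ h1 h2 h3 using key
  have := card_pos.2 hY.conn.1
  exact prune hG sdiff_disjoint hk' hS hY.acyc cS cF (Y.card - 1) Y (fun v => {v}) σ (by omega)
    subset_rfl hY.conn (fun v hv => ⟨h1 v hv, h2 v hv, h3 v hv⟩)
    (fun u _ v _ ne => disjoint_singleton.2 ne) fun y hy => ⟨y, hy, mem_singleton_self y⟩

end Tree

theorem tree : TreeStmt := by
  intro V _ G Y X S l k N h hG hY hS hl hk hc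
  simp only [List.mem_cons, Prod.mk.injEq, List.not_mem_nil, or_false] at h
  rcases h with ⟨rfl, rfl, rfl⟩ | ⟨rfl, rfl, rfl⟩ | ⟨rfl, rfl, rfl⟩ | ⟨rfl, rfl, rfl⟩
  exacts [Tree.bound Tree.chkA hG hY hS hl hk hc, Tree.bound Tree.chkB hG hY hS hl hk hc,
    Tree.bound Tree.chkC hG hY hS hl hk hc, Tree.bound Tree.chkD hG hY hS hl hk hc]

end Pool.Agent.MP_e6539c_co.P5

end MrgPart3

-- ======== part 4: formerly Pool.Agent.MP_e6539c_co.P5.Weight
section MrgPart4

/-! The handshake path and the weight of even sets of the terminal graph. -/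

set_option autoImplicit false

namespace Pool.Agent.MP_e6539c_co.P5

open Finset
open Pool.Agent.MP_7be75d_co (R Conn comp)
open Pool.Agent.MP_7be75d_co
open scoped Classical

theorem hand : HandStmt := by
  intro V _ x a hd ha
  let H : SimpleGraph V :=
    { Adj := fun u v => x s(u, v) ≠ 0
      symm := ⟨fun u v h => by rwa [Sym2.eq_swap]⟩
      loopless := ⟨fun v h => h (hd v)⟩ }
  have h0 : ∑ v ∈ comp H univ a, par x v = 0 := by
    rw [sum_par_closed hd]
    refine sum_eq_zero fun v hv => sum_eq_zero fun w hw => ?_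
    by_contra hc
    exact (mem_sdiff.1 hw).2 (comp_closed hv (mem_univ w) hc)
  have hm : a ∈ comp H univ a := self_mem_comp (mem_univ a)
  have : ∃ b ∈ comp H univ a, b ≠ a ∧ par x b ≠ 0 := by
    by_contra hc
    push Not at hc
    apply ha
    rw [← h0, sum_eq_single a (fun b hb hne => hc b hb hne) (fun h => absurd hm h)]
  obtain ⟨b, hb, hne, hp⟩ := this
  obtain ⟨L, f, f0, f1, -, f3, f4⟩ := (mem_comp.1 hb).2.exists_path (mem_univ a)
  exact ⟨L, f, f0, f1 ▸ hne, f1 ▸ hp, f3, f4⟩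

namespace Wt

variable {V : Type}

/-- Both ends in `C`. -/
def cc (C : Finset V) (e : Sym2 V) : Prop := ∀ v ∈ e, v ∈ C

/-- No end in `C`. -/
def tt (C : Finset V) (e : Sym2 V) : Prop := ∀ v ∈ e, v ∉ C

theorem cc_mk {C : Finset V} {u v : V} : cc C s(u, v) ↔ u ∈ C ∧ v ∈ C := by
  simp [cc]

theorem tt_mk {C : Finset V} {u v : V} : tt C s(u, v) ↔ u ∉ C ∧ v ∉ C := by
  simp [tt]

theorem not_cc_tt {C : Finset V} {e : Sym2 V} (h : cc C e) : ¬ tt C e := by
  induction e using Sym2.ind with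
  | h u v => exact fun h' => (tt_mk.1 h').1 (cc_mk.1 h).1

theorem low [Fintype V] (C : Finset V) (x : Vec V) (ω : Sym2 V → ℕ) (T₁ T₂ T₃ : Finset (Sym2 V))
    (h₁ : ∀ e ∈ T₁, x e ≠ 0 ∧ cc C e) (h₂ : ∀ e ∈ T₂, x e ≠ 0 ∧ tt C e)
    (h₃ : ∀ e ∈ T₃, x e ≠ 0 ∧ ¬ cc C e ∧ ¬ tt C e) :
    ∑ e ∈ T₁, ω e + ∑ e ∈ T₂, ω e + ∑ e ∈ T₃, ω e ≤
      ∑ e ∈ univ.filter (fun e => x e ≠ 0), ω e := by
  have d1 : Disjoint T₁ T₂ := disjoint_left.2 fun e a b => not_cc_tt (h₁ e a).2 (h₂ e b).2
  have d2 : Disjoint (T₁ ∪ T₂) T₃ := disjoint_left.2 fun e a b => by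
    rcases mem_union.1 a with a | a
    · exact (h₃ e b).2.1 (h₁ e a).2
    · exact (h₃ e b).2.2 (h₂ e a).2
  rw [← sum_union d1, ← sum_union d2]
  refine sum_le_sum_of_subset fun e he => mem_filter.2 ⟨mem_univ _, ?_⟩
  rcases mem_union.1 he with he | he
  · rcases mem_union.1 he with he | he
    · exact (h₁ e he).1
    · exact (h₂ e he).1
  · exact (h₃ e he).1

/-- The edges of a path. -/
noncomputable def pe (L : ℕ) (f : ℕ → V) : Finset (Sym2 V) :=
  (range L).image fun j => s(f j, f (j + 1))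

theorem card_pe {L : ℕ} {f : ℕ → V} (h : ∀ i ≤ L, ∀ j ≤ L, f i = f j → i = j) :
    (pe L f).card = L := by
  unfold pe
  rw [card_image_of_injOn, card_range]
  intro i hi j hj e
  have hi : i < L := by simpa using hi
  have hj : j < L := by simpa using hj
  rcases Sym2.eq_iff.1 e with ⟨a, -⟩ | ⟨a, b⟩
  · exact h i hi.le j hj.le a
  · have h1 := h i hi.le (j + 1) hj a
    have h2 := h (i + 1) hi j hj.le b
    omega

theorem mem_pe {L : ℕ} {f : ℕ → V} {e : Sym2 V} (h : e ∈ pe L f) :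
    ∃ j < L, e = s(f j, f (j + 1)) := by
  obtain ⟨j, hj, rfl⟩ := mem_image.1 h
  exact ⟨j, mem_range.1 hj, rfl⟩

theorem sum_cc {C : Finset V} {ω : Sym2 V → ℕ} (h : ∀ u ∈ C, ∀ v ∈ C, 2 ≤ ω s(u, v))
    {T : Finset (Sym2 V)} (hT : ∀ e ∈ T, cc C e) : T.card * 2 ≤ ∑ e ∈ T, ω e := by
  refine card_nsmul_le_sum T _ 2 fun e he => ?_
  have := hT e he
  induction e using Sym2.ind with
  | h u v => exact h u (cc_mk.1 this).1 v (cc_mk.1 this).2

/-- The part of `x` inside `C`. -/
noncomputable def xc (C : Finset V) (x : Vec V) : Vec V := fun e => if cc C e then x e else 0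

theorem xc_ne {C : Finset V} {x : Vec V} {e : Sym2 V} (h : xc C x e ≠ 0) : x e ≠ 0 ∧ cc C e := by
  unfold xc at h
  split_ifs at h with c
  · exact ⟨h, c⟩
  · exact absurd rfl h

variable [Fintype V] {G : SimpleGraph V} {C : Finset V} {A : Fin 4 → List V} {t : Fin 4 → V}
  {x : Vec V}

theorem par_xc_out {u : V} (hu : u ∉ C) : par (xc C x) u = 0 := by
  refine sum_eq_zero fun w _ => ?_
  by_contra hc
  exact hu (cc_mk.1 (xc_ne hc).2).1

theorem par_xc_in (ho : ∀ i, t i ∉ C) (hi : Function.Injective t) (hx : Ev (HK G C A t) x)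
    {u : V} (hu : u ∈ C) : par (xc C x) u = ∑ i, x s(u, t i) := by
  have e1 : par (xc C x) u = ∑ w ∈ C, x s(u, w) := by
    unfold par
    rw [← sum_subset (subset_univ C)]
    · exact sum_congr rfl fun w hw => if_pos (cc_mk.2 ⟨hu, hw⟩)
    · exact fun w _ hw => if_neg fun c => hw (cc_mk.1 c).2
  have e2 : ∑ w ∈ univ \ C, x s(u, w) = ∑ i, x s(u, t i) := by
    rw [← sum_image (s := univ) (g := t) (f := fun w => x s(u, w)) (fun i _ j _ e => hi e)]
    symm
    refine sum_subset (fun w hw => ?_) fun w hw hw' => ?_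
    · obtain ⟨i, -, rfl⟩ := mem_image.1 hw
      exact mem_sdiff.2 ⟨mem_univ _, ho i⟩
    · by_contra hc
      rcases (hk_adj_in ho hu).1 (hx.1 u w hc) with h | ⟨i, rfl, -⟩
      · exact (mem_sdiff.1 hw).2 h.1
      · exact hw' (mem_image_of_mem t (mem_univ i))
  have e3 : ∑ w ∈ univ \ C, x s(u, w) + ∑ w ∈ C, x s(u, w) = 0 := by
    rw [sum_sdiff (subset_univ C)]
    exact hx.2 u
  rw [e1, ← e2]
  have := CharTwo.add_self_eq_zero (∑ w ∈ univ \ C, x s(u, w))
  linear_combination e3 - this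

/-- The attachments used by `x`. -/
noncomputable def att (C : Finset V) (t : Fin 4 → V) (x : Vec V) : Finset (V × Fin 4) :=
  univ.filter fun p => p.1 ∈ C ∧ x s(p.1, t p.2) ≠ 0

theorem mem_att {u : V} {i : Fin 4} : (u, i) ∈ att C t x ↔ u ∈ C ∧ x s(u, t i) ≠ 0 := by
  simp [att]

theorem odd_att (ho : ∀ i, t i ∉ C) (hi : Function.Injective t) (hx : Ev (HK G C A t) x)
    {u : V} (h : par (xc C x) u ≠ 0) : ∃ i, (u, i) ∈ att C t x := by
  have hu : u ∈ C := by
    by_contra hc
    exact h (par_xc_out hc)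
  rw [par_xc_in ho hi hx hu] at h
  obtain ⟨i, -, hi⟩ := exists_ne_zero_of_sum_ne_zero h
  exact ⟨i, mem_att.2 ⟨hu, hi⟩⟩

theorem att_odd (ho : ∀ i, t i ∉ C) (hi : Function.Injective t) (hx : Ev (HK G C A t) x)
    {u : V} {i : Fin 4} (h : (u, i) ∈ att C t x) (h1 : ∀ j, (u, j) ∈ att C t x → j = i) :
    par (xc C x) u ≠ 0 := by
  obtain ⟨hu, h⟩ := mem_att.1 h
  rw [par_xc_in ho hi hx hu, sum_eq_single i (fun j _ hj => ?_) (by simp)]
  · exact h
  · by_contra hc
    exact hj (h1 j (mem_att.2 ⟨hu, hc⟩))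

omit [Fintype V] in
theorem g_inj (ho : ∀ i, t i ∉ C) (hi : Function.Injective t) {u v : V} {i j : Fin 4}
    (hu : u ∈ C) (e : s(u, t i) = s(v, t j)) : u = v ∧ i = j := by
  rcases Sym2.eq_iff.1 e with ⟨a, b⟩ | ⟨a, -⟩
  · exact ⟨a, hi b⟩
  · exact absurd (a ▸ hu) (ho j)

theorem att_edge (ho : ∀ i, t i ∉ C) {u : V} {i : Fin 4} (h : (u, i) ∈ att C t x) :
    x s(u, t i) ≠ 0 ∧ ¬ cc C s(u, t i) ∧ ¬ tt C s(u, t i) :=
  ⟨(mem_att.1 h).2, fun c => ho i (cc_mk.1 c).2, fun c => (tt_mk.1 c).1 (mem_att.1 h).1⟩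

/-- An edge of `x` at a terminal is an attachment or a frame edge. -/
theorem at_term (ho : ∀ i, t i ∉ C) (hi : Function.Injective t) (hx : Ev (HK G C A t) x)
    {i : Fin 4} {w : V} (h : x s(t i, w) ≠ 0) :
    (w, i) ∈ att C t x ∨ w = t (i + 1) ∨ ∃ k, w = t k ∧ i = k + 1 := by
  have a := hx.1 _ _ h
  rcases hk_mem a.symm with c | ⟨k, rfl⟩
  · exact Or.inl (mem_att.2 ⟨c, by rwa [Sym2.eq_swap]⟩)
  · rcases (hk_adj_tt ho hi i k).1 a with e | e
    · exact Or.inr (Or.inl (by rw [e]))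
    · exact Or.inr (Or.inr ⟨k, rfl, e⟩)

/-- An edge of `x` at a vertex of `C` is an attachment or lies in `C`. -/
theorem at_in (ho : ∀ i, t i ∉ C) (hx : Ev (HK G C A t) x) {u w : V} (hu : u ∈ C)
    (h : x s(u, w) ≠ 0) : w ∈ C ∨ ∃ k, w = t k ∧ (u, k) ∈ att C t x := by
  rcases (hk_adj_in ho hu).1 (hx.1 u w h) with c | ⟨k, rfl, -⟩
  · exact Or.inl c.1
  · exact Or.inr ⟨k, rfl, mem_att.2 ⟨hu, h⟩⟩

theorem path_in (ho : ∀ i, t i ∉ C) (hx : Ev (HK G C A t) x) {L : ℕ} {f : ℕ → V}
    (h0 : f 0 ∈ C) (h : ∀ j < L, xc C x s(f j, f (j + 1)) ≠ 0) :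
    (∀ j ≤ L, f j ∈ C) ∧ ∀ j < L, G.Adj (f j) (f (j + 1)) := by
  refine ⟨fun j hj => ?_, fun j hj => ?_⟩
  · cases j with
    | zero => exact h0
    | succ j => exact (cc_mk.1 (xc_ne (h j hj)).2).2
  · obtain ⟨a, b⟩ := xc_ne (h j hj)
    exact (hk_adj_CC ho (cc_mk.1 b).1 (cc_mk.1 b).2).1 (hx.1 _ _ a)

theorem fin4 : ∀ i j : Fin 4, i = j + 1 → j ≠ i + 1 := by decide

theorem fin4' : ∀ m i : Fin 4, i = m ∨ i = m + 1 ∨ i = m + 1 + 1 ∨ i = m + 1 + 1 + 1 := by decide

/-- No attachment is used. -/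
theorem case0 (h : HandStmt) (hG : Gi G) (ho : ∀ i, t i ∉ C) (hi : Function.Injective t)
    (hx : Ev (HK G C A t) x) (hne : x ≠ 0) {ω : Sym2 V → ℕ}
    (w1 : ∀ u ∈ C, ∀ v ∈ C, 2 ≤ ω s(u, v)) (w2 : ∀ i, 6 ≤ ω s(t i, t (i + 1)))
    (h0 : ∀ u i, (u, i) ∉ att C t x) : 24 ≤ ∑ e ∈ univ.filter (fun e => x e ≠ 0), ω e := by
  by_cases hc : ∃ p ∈ C, ∃ w ∈ C, x s(p, w) ≠ 0
  · obtain ⟨p, hp, w, hw, hpw⟩ := hc
    have ne : p ≠ w := (hx.1 _ _ hpw).ne
    have ev : ∀ v, par (xc C x) v = 0 := fun v => by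
      by_contra c
      obtain ⟨i, k⟩ := odd_att ho hi hx c
      exact h0 v i k
    have py : ∀ v, par (xc C x + ed p w) v =
        (if v = p then 1 else 0) + (if v = w then 1 else 0) := fun v => by
      rw [par_add, ev, par_ed ne, zero_add]
    have y0 : (xc C x + ed p w) s(p, w) = 0 := by
      have : xc C x s(p, w) = 1 := by
        rw [xc, if_pos (cc_mk.2 ⟨hp, hw⟩)]
        exact z2_ne.1 hpw
      rw [Pi.add_apply, this, ed, if_pos rfl]
      decide
    have yne : ∀ e, (xc C x + ed p w) e ≠ 0 → e ≠ s(p, w) ∧ xc C x e ≠ 0 := fun e he => by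
      have : e ≠ s(p, w) := fun c => he (c ▸ y0)
      refine ⟨this, ?_⟩
      rwa [Pi.add_apply, ed, if_neg this, add_zero] at he
    obtain ⟨L, f, f0, f1, f2, f3, f4⟩ := h V (xc C x + ed p w) p (fun v => by
      by_contra c
      exact (xc_ne (yne _ c).2).1 (hx.diag v)) (by rw [py]; simp [ne])
    have fL : f L = w := by
      by_contra c
      apply f2
      rw [py, if_neg f1, if_neg c, add_zero]
    obtain ⟨m, a⟩ := path_in ho hx (L := L) (f0 ▸ hp) fun j hj => (yne _ (f3 j hj)).2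
    have L1 : 1 ≤ L := Nat.pos_of_ne_zero fun c => f1 (by rw [c, f0])
    have n1 : f 1 ≠ w := fun c => (yne _ (f3 0 L1)).1 (by rw [f0, zero_add, c])
    have wk : Wk G (C.erase p) (f 1) (f L) (L - 1) :=
      Wk.of_fun L1 (fun j b c => mem_erase.2 ⟨fun e => by
        have := f4 j c 0 (Nat.zero_le _) (e.trans f0.symm)
        omega, m j c⟩) fun j _ c => a j c
    have := hG (C.erase p) p (f 1) w (L - 1) (notMem_erase _ _) (f0 ▸ a 0 L1)
      ((hk_adj_CC ho hp hw).1 (hx.1 _ _ hpw)) n1 (fL ▸ wk)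
    have nm : s(p, w) ∉ pe L f := fun c => by
      obtain ⟨j, hj, e⟩ := mem_pe c
      exact (yne _ (f3 j hj)).1 e.symm
    have hT : ∀ e ∈ insert s(p, w) (pe L f), x e ≠ 0 ∧ cc C e := fun e he => by
      rcases mem_insert.1 he with rfl | he
      · exact ⟨hpw, cc_mk.2 ⟨hp, hw⟩⟩
      · obtain ⟨j, hj, rfl⟩ := mem_pe he
        exact xc_ne (yne _ (f3 j hj)).2
    have k1 := low C x ω _ ∅ ∅ hT (by simp) (by simp)
    have k2 := sum_cc w1 fun e he => (hT e he).2
    rw [card_insert_of_notMem nm, card_pe f4] at k2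
    simp only [sum_empty] at k1
    omega
  · push Not at hc
    have st : ∃ m, x s(t m, t (m + 1)) ≠ 0 := by
      obtain ⟨e, he⟩ := Function.ne_iff.1 hne
      induction e using Sym2.ind with
      | h a b =>
        have he : x s(a, b) ≠ 0 := he
        rcases hk_mem (hx.1 _ _ he) with c | ⟨i, rfl⟩
        · rcases at_in ho hx c he with d | ⟨k, -, d⟩
          · exact absurd (hc a c b d) he
          · exact absurd d (h0 _ _)
        · rcases at_term ho hi hx he with d | rfl | ⟨k, rfl, rfl⟩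
          · exact absurd d (h0 _ _)
          · exact ⟨i, he⟩
          · exact ⟨k, by rwa [Sym2.eq_swap]⟩
    have step : ∀ m, x s(t m, t (m + 1)) ≠ 0 → x s(t (m + 1), t (m + 1 + 1)) ≠ 0 := fun m hm => by
      obtain ⟨w, hw, c⟩ := second_edge (hx.2 (t (m + 1))) (v := t m) (by rwa [Sym2.eq_swap])
      rcases at_term ho hi hx c with d | rfl | ⟨k, rfl, d⟩
      · exact absurd d (h0 _ _)
      · exact c
      · exact absurd (by rw [add_right_cancel d]) hw
    obtain ⟨m, hm⟩ := st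
    have all : ∀ i, x s(t i, t (i + 1)) ≠ 0 := fun i => by
      rcases fin4' m i with rfl | rfl | rfl | rfl
      exacts [hm, step _ hm, step _ (step _ hm), step _ (step _ (step _ hm))]
    have k1 := low C x ω ∅ (univ.image fun i => s(t i, t (i + 1))) ∅ (by simp) (fun e he => by
      obtain ⟨i, -, rfl⟩ := mem_image.1 he
      exact ⟨all i, tt_mk.2 ⟨ho _, ho _⟩⟩) (by simp)
    rw [sum_image fun i _ j _ e => ?_] at k1
    · have k2 : (univ : Finset (Fin 4)).card * 6 ≤ ∑ i, ω s(t i, t (i + 1)) :=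
        card_nsmul_le_sum univ _ 6 fun i _ => w2 i
      simp only [sum_empty, card_univ, Fintype.card_fin] at k1 k2
      omega
    · rcases Sym2.eq_iff.1 e with ⟨a, -⟩ | ⟨a, b⟩
      · exact hi a
      · exact absurd (hi b).symm (fin4 i j (hi a))

end Wt

open Wt in
theorem weight (h : HandStmt) : WeightStmt := by
  intro V _ G Γ C c A t hK ht ω w1 w2 w3 x hx hne
  have ho := hK.t_out ht
  have hi := hK.t_inj ht
  have w8 : ∀ u ∈ C, ∀ i, 8 ≤ ω s(u, t i) := fun u hu i => by
    have := w3 u hu i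
    split_ifs at this <;> omega
  have dg0 : ∀ v, xc C x s(v, v) = 0 := fun v => by
    by_contra k
    exact (xc_ne k).1 (hx.diag v)
  rcases Nat.lt_or_ge (att C t x).card 3 with h3 | h3
  swap
  · have k1 := low C x ω ∅ ∅ ((att C t x).image fun p => s(p.1, t p.2)) (by simp) (by simp)
      (fun e he => by
        obtain ⟨p, hp, rfl⟩ := mem_image.1 he
        exact att_edge ho hp)
    rw [sum_image fun p hp q _ e => ?_] at k1
    · have k2 : (att C t x).card * 8 ≤ ∑ p ∈ att C t x, ω s(p.1, t p.2) :=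
        card_nsmul_le_sum _ _ 8 fun p hp => w8 _ (mem_att.1 hp).1 _
      simp only [sum_empty] at k1
      omega
    · obtain ⟨a, b⟩ := g_inj ho hi (mem_att.1 hp).1 e
      exact Prod.ext a b
  have hcase : (att C t x).card = 0 ∨ (att C t x).card = 1 ∨ (att C t x).card = 2 := by omega
  rcases hcase with h0 | h1 | h2
  · refine case0 h hK.ctx.gi ho hi hx hne w1 w2 fun u i k => ?_
    rw [card_eq_zero.1 h0] at k
    exact notMem_empty _ k
  · obtain ⟨⟨u, i⟩, e⟩ := card_eq_one.1 h1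
    have m : ∀ v j, (v, j) ∈ att C t x ↔ v = u ∧ j = i := fun v j => by simp [e]
    obtain ⟨L, f, -, f1, f2, -⟩ := h V (xc C x) u dg0
      (att_odd ho hi hx ((m u i).2 ⟨rfl, rfl⟩) fun j k => ((m u j).1 k).2)
    obtain ⟨j, k⟩ := odd_att ho hi hx f2
    exact absurd ((m _ _).1 k).1 f1
  obtain ⟨⟨u, i⟩, ⟨u', j⟩, hpq, e⟩ := card_eq_two.1 h2
  have m : ∀ v k, (v, k) ∈ att C t x ↔ (v = u ∧ k = i) ∨ (v = u' ∧ k = j) := fun v k => by
    simp [e]
  have mu := (m u i).2 (Or.inl ⟨rfl, rfl⟩)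
  have mu' := (m u' j).2 (Or.inr ⟨rfl, rfl⟩)
  have hu := (mem_att.1 mu).1
  have hu' := (mem_att.1 mu').1
  have ne : s(u, t i) ≠ s(u', t j) := fun k => by
    obtain ⟨a, b⟩ := g_inj ho hi hu k
    exact hpq (Prod.ext a b)
  have h₃ : ∀ e ∈ ({s(u, t i), s(u', t j)} : Finset (Sym2 V)),
      x e ≠ 0 ∧ ¬ cc C e ∧ ¬ tt C e := fun e he => by
    rcases mem_insert.1 he with rfl | he
    · exact att_edge ho mu
    · rw [mem_singleton.1 he]
      exact att_edge ho mu'
  obtain ⟨a, ha, aa⟩ := (hk_adj_Ct ho hi hu i).1 (hx.1 _ _ (mem_att.1 mu).2)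
  obtain ⟨a', ha', aa'⟩ := (hk_adj_Ct ho hi hu' j).1 (hx.1 _ _ (mem_att.1 mu').2)
  have b1 := w8 u hu i
  have b2 := w8 u' hu' j
  by_cases hij : i = j
  · subst hij
    have uu : u ≠ u' := fun k => hpq (by rw [k])
    obtain ⟨L, f, f0, f1, f2, f3, f4⟩ := h V (xc C x) u dg0
      (att_odd ho hi hx mu fun k hk => ((m u k).1 hk).elim And.right And.right)
    obtain ⟨k, hk⟩ := odd_att ho hi hx f2
    have fL : f L = u' := ((m _ _).1 hk).elim (fun z => absurd z.1 f1) And.left
    obtain ⟨mm, ad⟩ := path_in ho hx (L := L) (f0 ▸ hu) f3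
    have wk : Wk G C (f 0) (f L) (L - 0) :=
      Wk.of_fun (Nat.zero_le L) (fun j _ z => mm j z) fun j _ z => ad j z
    rw [f0, fL] at wk
    have := hK.arc_far ha ha' aa.symm aa'.symm (fun z => uu (congrArg Prod.snd z)) wk
    have hT : ∀ e ∈ pe L f, x e ≠ 0 ∧ cc C e := fun e he => by
      obtain ⟨j, hj, rfl⟩ := mem_pe he
      exact xc_ne (f3 j hj)
    have k1 := low C x ω _ ∅ _ hT (by simp) h₃
    have k2 := sum_cc w1 fun e he => (hT e he).2
    rw [card_pe f4] at k2
    rw [sum_pair ne, sum_empty] at k1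
    omega
  have fr : ∃ k, x s(t k, t (k + 1)) ≠ 0 := by
    obtain ⟨w, hw, z⟩ := second_edge (hx.2 (t i)) (v := u)
      (by rw [Sym2.eq_swap]; exact (mem_att.1 mu).2)
    rcases at_term ho hi hx z with d | rfl | ⟨k, rfl, rfl⟩
    · exact ((m _ _).1 d).elim (fun y => absurd y.1 hw) fun y => absurd y.2 hij
    · exact ⟨i, z⟩
    · exact ⟨k, by rwa [Sym2.eq_swap]⟩
  obtain ⟨k, hk⟩ := fr
  have h₂ : ∀ e ∈ ({s(t k, t (k + 1))} : Finset (Sym2 V)), x e ≠ 0 ∧ tt C e := fun e he => by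
    rw [mem_singleton.1 he]
    exact ⟨hk, tt_mk.2 ⟨ho _, ho _⟩⟩
  have b3 := w2 k
  by_cases uu : u = u'
  · subst uu
    have k2 : ¬ kk G A u ≤ 1 := by
      rw [not_le]
      exact one_lt_card.2 ⟨i, mem_filter.2 ⟨mem_univ _, a, ha, aa⟩, j,
        mem_filter.2 ⟨mem_univ _, a', ha', aa'⟩, hij⟩
    have c1 := w3 u hu i
    have c2 := w3 u hu j
    rw [if_neg k2] at c1 c2
    have k1 := low C x ω ∅ _ _ (by simp) h₂ h₃
    rw [sum_pair ne, sum_empty, sum_singleton] at k1
    omega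
  · obtain ⟨w, hw, z⟩ := second_edge (hx.2 u) (mem_att.1 mu).2
    have wC : w ∈ C := by
      rcases at_in ho hx hu z with d | ⟨l, rfl, d⟩
      · exact d
      · exact ((m _ _).1 d).elim (fun y => absurd (by rw [y.2]) hw) fun y => absurd y.1 uu
    have k1 := low C x ω {s(u, w)} _ _ (fun e he => by
      rw [mem_singleton.1 he]
      exact ⟨z, cc_mk.2 ⟨hu, wC⟩⟩) h₂ h₃
    have b4 := w1 u hu w wC
    rw [sum_pair ne, sum_singleton, sum_singleton] at k1
    omega

end Pool.Agent.MP_e6539c_co.P5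

end MrgPart4

-- marker of a merged file
example : 731051 + 648274 = 731051 + 648274 := rfl
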