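import Pool.Agent.MP_e6539c_co.P5.Link
import Pool.Agent.MP_e6539c_co.P5.CertA
import Pool.Agent.MP_e6539c_co.P5.CertB0
import Pool.Agent.MP_e6539c_co.P5.CertB1
import Pool.Agent.MP_e6539c_co.P5.Ks
import Pool.Agent.MP_e6539c_co.P5.Short
import Pool.Agent.MP_e6539c_co.P5.Vec
import Pool.Agent.MP_e6539c_co.P5.Min
import Pool.Agent.MP_e6539c_co.P5.Weight
import Pool.Agent.MP_e6539c_co.P5.Prune
import Pool.Agent.MP_e6539c_co.P5.Zred

-- ======== part 0: formerly Pool.Agent.MP_e6539c_co.P5.Cert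
section MrgPart0

/-! The certificates for five to eleven terminals. -/

set_option autoImplicit false

namespace Pool.Agent.MP_e6539c_co.P5

theorem Cert.app {a b : List ℕ} {p : ℕ → Bool} (h : Cert.lall a p = true)
    (h' : Cert.lall b p = true) : Cert.lall (a ++ b) p = true := by
  rw [Cert.lall_iff] at h h' ⊢
  exact List.forall_mem_append.2 ⟨h, h'⟩

open Cert in
theorem cert : CertStmt := by
  intro n h1 h2
  interval_cases n
  · exact certAt (by norm_num) (by norm_num) s5 v5 ((lall_iff _ _).1 t5_0)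
  · exact certAt (by norm_num) (by norm_num) s6 v6 ((lall_iff _ _).1 t6_0)
  · exact certAt (by norm_num) (by norm_num) s7 v7 ((lall_iff _ _).1 t7_0)
  · exact certAt (by norm_num) (by norm_num) s8 v8 ((lall_iff _ _).1 t8_0)
  · exact certAt (by norm_num) (by norm_num) s9 v9 ((lall_iff _ _).1 t9_0)
  · exact certAt (by norm_num) (by norm_num) s10 v10 ((lall_iff _ _).1 (app t10_0 t10_1))
  · exact certAt (by norm_num) (by norm_num) s11 v11 ((lall_iff _ _).1 (app (app (app (app (app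
      (app (app (app (app (app (app (app (app (app (app (app (app (app (app t11_0 t11_1) t11_2)
      t11_3) t11_4) t11_5) t11_6) t11_7) t11_8) t11_9) t11_10) t11_11) t11_12) t11_13) t11_14)
      t11_15) t11_16) t11_17) t11_18) t11_19))

end Pool.Agent.MP_e6539c_co.P5

end MrgPart0

-- ======== part 1: formerly Pool.Agent.MP_e6539c_co.P5.Fc0
section MrgPart1

/-! Pieces behind a three-cut: the cases of seven single neighbours and of two classes. -/

set_option autoImplicit false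

namespace Pool.Agent.MP_e6539c_co.P5

open Finset
open Pool.Agent.MP_7be75d_co (R Conn comp)
open Pool.Agent.MP_7be75d_co
open scoped Classical

namespace Fc0

variable {V : Type} [Fintype V] {G : SimpleGraph V}

theorem size (hT : TreeStmt) (hG : Gi G) {Y X : Finset V} (hY : Pc G Y) (hX : X.card ≤ 7)
    (hc : Cov G Y ↑X) : Y.card ≤ 5 :=
  hT V G Y X (fun _ => ∅) 0 7 5 (by simp) hG hY (fun _ => cls_empty Y) (fun _ _ => rfl) hX
    fun w hw x hx a => Or.inr (hc w hw x hx a)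

theorem count (hG : Gi G) {Y X : Finset V} (hY : Pc G Y) (h : Y.card ≤ 10) (hc : Cov G Y ↑X) :
    Y.card + 2 ≤ (X.filter fun x => x ∉ Y ∧ Act G Y x).card :=
  (hY.count hc).trans (mks_fin hG X hY.conn h)

omit [Fintype V] in
theorem conn_one (w : V) : Conn G {w} :=
  ⟨singleton_nonempty w, fun a ha b hb => by
    rw [mem_singleton.1 ha, mem_singleton.1 hb]
    exact R.refl⟩

theorem two (hT : TreeStmt) (hG : Gi G) {Y₁ Y₂ X : Finset V} {a b : V} (p1 : Pc G Y₁)
    (p2 : Pc G Y₂) (hd : Disjoint Y₁ Y₂) (hX : X.card ≤ 7) (d1 : Disjoint X Y₁)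
    (d2 : Disjoint X Y₂) (c1 : Cov G Y₁ ↑X) (c2 : Cov G Y₂ ↑X) (ha : a ∈ X) (hab : a ≠ b)
    (a1 : Act G Y₁ a) (b1 : Act G Y₁ b) (a2 : Act G Y₂ a) (b2 : Act G Y₂ b) : False := by
  have s1 := size hT hG p1 hX c1
  have s2 := size hT hG p2 hX c2
  have h1 := share2 hG p1.conn p2.conn hd hab (disjoint_left.1 d1 ha) (disjoint_left.1 d2 ha)
    a1 b1 a2 b2
  have h2 := count hG p2 (by omega) c2
  have h3 : (X.filter fun x => x ∉ Y₂ ∧ Act G Y₂ x) = X :=
    eq_of_subset_of_card_le (filter_subset _ _) (by omega)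
  have h4 : ∀ x ∈ X, Act G Y₂ x := fun x hx => (mem_filter.1 (h3.symm ▸ hx)).2.2
  have h5 := p1.count c1
  obtain ⟨p, hp, q, hq, hne, e⟩ := exists_ne_map_eq_of_card_lt_of_maps_to
    (s := mks G Y₁ ↑X) (t := Y₁) (f := Prod.snd) (by omega) fun p hp => (mem_mks.1 hp).2.2.1
  rw [mem_mks] at hp hq
  have h6 := share2 hG (conn_one p.2) p2.conn (disjoint_singleton_left.2
    (disjoint_left.1 hd hp.2.2.1)) (fun h => hne (Prod.ext h e))
    (fun h => hp.1 (mem_singleton.1 h ▸ hp.2.2.1)) (disjoint_left.1 d2 hp.2.1)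
    ⟨_, mem_singleton_self _, hp.2.2.2⟩ ⟨_, mem_singleton_self _, e ▸ hq.2.2.2⟩
    (h4 _ hp.2.1) (h4 _ hq.2.1)
  rw [card_singleton] at h6
  omega

/-- A piece that avoids `e` is paid by the single neighbours other than `a`, `b`, `e`. -/
theorem card_le (hG : Gi G) {Y X X₀ : Finset V} {a b e : V} (p : Pc G Y) (h : Y.card ≤ 10)
    (c : Cov G Y ↑X) (hX : ∀ x ∈ X, x = a ∨ x = b ∨ x = e ∨ x ∈ X₀) (he : ¬ Act G Y e) :
    Y.card ≤ (X₀.filter fun x => x ∈ X ∧ x ≠ a ∧ x ≠ b ∧ Act G Y x).card := by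
  have h1 := count hG p h c
  have h2 : (X.filter fun x => x ∉ Y ∧ Act G Y x) ⊆
      insert a (insert b (X₀.filter fun x => x ∈ X ∧ x ≠ a ∧ x ≠ b ∧ Act G Y x)) := by
    intro x hx
    rw [mem_filter] at hx
    by_cases h3 : x = a
    · exact mem_insert.2 (Or.inl h3)
    by_cases h4 : x = b
    · exact mem_insert_of_mem (mem_insert.2 (Or.inl h4))
    rcases hX x hx.1 with h5 | h5 | h5 | h5
    · exact absurd h5 h3
    · exact absurd h5 h4
    · exact absurd (h5 ▸ hx.2.2) he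
    · exact mem_insert_of_mem (mem_insert_of_mem (mem_filter.2 ⟨h5, hx.1, h3, h4, hx.2.2⟩))
  have h3 := (card_le_card h2).trans ((card_insert_le _ _).trans
    (Nat.add_le_add_right (card_insert_le _ _) 1))
  omega

end Fc0

open Fc0

theorem fc0 (hT : TreeStmt) : Fc0Stmt := by
  intro V _ G hG
  refine ⟨fun Y₁ Y₂ X a b p1 p2 hd hX d1 d2 c1 c2 ha _ => two hT hG p1 p2 hd hX d1 d2 c1 c2 ha, ?_⟩
  intro Y₁ Y₂ Y₃ X X₀ a b e p1 p2 p3 d12 d13 d23 h0 hX d1 d2 d3 c1 c2 c3 hab hae hbe a1 b1 a2 e2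
    b3 e3
  have hm : ∀ x, x ∈ X ↔ x = a ∨ x = b ∨ x = e ∨ x ∈ X₀ := fun x => by simp [hX]
  have ha : a ∈ X := (hm a).2 (Or.inl rfl)
  have hb : b ∈ X := (hm b).2 (Or.inr (Or.inl rfl))
  have he : e ∈ X := (hm e).2 (Or.inr (Or.inr (Or.inl rfl)))
  have h7 : X.card ≤ 7 := by
    have h1 := card_insert_le a (insert b (insert e X₀))
    have h2 := card_insert_le b (insert e X₀)
    have h3 := card_insert_le e X₀
    rw [hX]
    omega
  have t12 : ∀ x, x ≠ a → Act G Y₁ x → ¬ Act G Y₂ x := fun x h h1 h2 =>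
    two hT hG p1 p2 d12 h7 d1 d2 c1 c2 ha h.symm a1 h1 a2 h2
  have t13 : ∀ x, x ≠ b → Act G Y₁ x → ¬ Act G Y₃ x := fun x h h1 h2 =>
    two hT hG p1 p3 d13 h7 d1 d3 c1 c3 hb h.symm b1 h1 b3 h2
  have t23 : ∀ x, x ≠ e → Act G Y₂ x → ¬ Act G Y₃ x := fun x h h1 h2 =>
    two hT hG p2 p3 d23 h7 d2 d3 c2 c3 he h.symm e2 h1 e3 h2
  have s1 := size hT hG p1 h7 c1
  have s2 := size hT hG p2 h7 c2
  have s3 := size hT hG p3 h7 c3
  have n1 := card_le (a := a) (b := b) (e := e) (X₀ := X₀) hG p1 (by omega) c1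
    (fun x hx => (hm x).1 hx) fun h => t12 e hae.symm h e2
  have n2 := card_le (a := a) (b := e) (e := b) (X₀ := X₀) hG p2 (by omega) c2
    (fun x hx => by have := (hm x).1 hx; tauto) (t12 b hab.symm b1)
  have n3 := card_le (a := b) (b := e) (e := a) (X₀ := X₀) hG p3 (by omega) c3
    (fun x hx => by have := (hm x).1 hx; tauto) (t13 a hab a1)
  set A₁ := X₀.filter fun x => x ∈ X ∧ x ≠ a ∧ x ≠ b ∧ Act G Y₁ x
  set A₂ := X₀.filter fun x => x ∈ X ∧ x ≠ a ∧ x ≠ e ∧ Act G Y₂ x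
  set A₃ := X₀.filter fun x => x ∈ X ∧ x ≠ b ∧ x ≠ e ∧ Act G Y₃ x
  have u1 : Disjoint A₁ A₂ := disjoint_left.2 fun x h1 h2 =>
    t12 x (mem_filter.1 h1).2.2.1 (mem_filter.1 h1).2.2.2.2 (mem_filter.1 h2).2.2.2.2
  have u2 : Disjoint (A₁ ∪ A₂) A₃ := disjoint_left.2 fun x h1 h2 => by
    rcases mem_union.1 h1 with h1 | h1
    · exact t13 x (mem_filter.1 h2).2.2.1 (mem_filter.1 h1).2.2.2.2 (mem_filter.1 h2).2.2.2.2
    · exact t23 x (mem_filter.1 h2).2.2.2.1 (mem_filter.1 h1).2.2.2.2 (mem_filter.1 h2).2.2.2.2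
  have u3 : (A₁ ∪ A₂ ∪ A₃).card ≤ X₀.card := card_le_card
    (union_subset (union_subset (filter_subset _ _) (filter_subset _ _)) (filter_subset _ _))
  rw [card_union_of_disjoint u2, card_union_of_disjoint u1] at u3
  obtain ⟨w1, m1, x1⟩ := a1
  obtain ⟨w2, m2, x2⟩ := b1
  obtain ⟨w3, m3, x3⟩ := b3
  obtain ⟨w4, m4, x4⟩ := e3
  obtain ⟨w5, m5, x5⟩ := e2
  obtain ⟨w6, m6, x6⟩ := a2
  have k1 : Y₁ ⊆ univ.erase a := fun x hx =>
    mem_erase.2 ⟨fun h => disjoint_left.1 d1 ha (h ▸ hx), mem_univ _⟩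
  have k2 : Y₂ ⊆ univ.erase a := fun x hx =>
    mem_erase.2 ⟨fun h => disjoint_left.1 d2 ha (h ▸ hx), mem_univ _⟩
  have k3 : Y₃ ⊆ univ.erase a := fun x hx =>
    mem_erase.2 ⟨fun h => disjoint_left.1 d3 ha (h ▸ hx), mem_univ _⟩
  have := hG (univ.erase a) a w1 w6 _ (notMem_erase _ _) x1 x6
    (fun h => disjoint_left.1 d12 m1 (h ▸ m6))
    ((((conn_wk p1.conn m1 m2).mono k1).via x2 (mem_erase.2 ⟨hab.symm, mem_univ _⟩) x3
      ((conn_wk p3.conn m3 m4).mono k3)).via x4 (mem_erase.2 ⟨hae.symm, mem_univ _⟩) x5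
      ((conn_wk p2.conn m5 m6).mono k2))
  omega

theorem fc2 (hT : TreeStmt) : Fc2Stmt := by
  intro V _ G C y e S₁ S₂ hG h1 h2
  have one : ∀ Y ⊆ C, Pc G Y → Cov G Y (S₁ ∪ S₂ ∪ {y, e}) → Y.card ≤ 2 := by
    intro Y hY p c
    have k : ∀ z : V, Cls G Y ({z} \ ↑Y) := fun z =>
      cls_sub hG (Set.subsingleton_singleton.anti Set.sdiff_subset) fun x hx => hx.2
    refine hT V G Y ∅ ![S₁, S₂, {y} \ ↑Y, {e} \ ↑Y] 4 0 2 (by simp) hG p (fun i => ?_)
      (fun i hi => absurd i.2 (by omega)) (by simp) fun w hw x hx a => Or.inl ?_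
    · match i with
      | 0 => exact h1.mono hY subset_rfl
      | 1 => exact h2.mono hY subset_rfl
      | 2 => exact k y
      | 3 => exact k e
    · rcases c w hw x hx a with (h | h) | h | h
      exacts [⟨0, h⟩, ⟨1, h⟩, ⟨2, h, hx⟩, ⟨3, h, hx⟩]
  refine ⟨one, ?_⟩
  intro Y₁ s1 Y₂ s2 p1 p2 hd y1 y2 _ _ c1 c2 hy a1 a2 ⟨u, hu, w1, m1, x1⟩ ⟨v, hv, w2, m2, x2⟩
  have n1 := one Y₁ s1 p1 c1
  have n2 := one Y₂ s2 p2 c2
  have n3 : 4 ≤ Y₁.card - 1 + (Y₂.card - 1) + 2 := by
    obtain ⟨w3, m3, x3⟩ := a1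
    obtain ⟨w4, m4, x4⟩ := a2
    exact h1.two (u, w1) (v, w2) _ ⟨hu, s1 m1, x1⟩ ⟨hv, s2 m2, x2⟩
      (fun h => disjoint_left.1 hd m1 ((Prod.mk.inj h).2 ▸ m2))
      (((conn_wk p1.conn m1 m3).mono s1).via x3 hy x4 ((conn_wk p2.conn m4 m2).mono s2))
  have key : ∀ Y ⊆ C, Pc G Y → Cov G Y (S₁ ∪ S₂ ∪ {y, e}) → Y.card = 2 → y ≠ e ∧ Act G Y e := by
    intro Y hY p c h
    have k1 := p.count c
    have k2 := mks_union_le (G := G) Y (S₁ ∪ S₂) {y, e}
    have k3 := mks_union_le (G := G) Y S₁ S₂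
    have k4 := mks_cls_one p.conn (h1.mono hY subset_rfl) (by omega)
    have k5 := mks_cls_one p.conn (h2.mono hY subset_rfl) (by omega)
    have k6 := mks_fin hG {y, e} p.conn (by omega)
    rw [coe_pair] at k6
    have k7 : ({y, e} : Finset V).card ≤ 2 := card_le_two
    have k8 := eq_of_subset_of_card_le
      (filter_subset (fun x => x ∉ Y ∧ Act G Y x) ({y, e} : Finset V)) (by omega)
    refine ⟨?_, (mem_filter.1 (k8.symm ▸ (by simp : e ∈ ({y, e} : Finset V)))).2.2⟩
    rintro rfl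
    rw [k8, insert_eq_of_mem (mem_singleton_self _), card_singleton] at k6
    omega
  obtain ⟨hne, e1⟩ := key Y₁ s1 p1 c1 (by omega)
  obtain ⟨-, e2⟩ := key Y₂ s2 p2 c2 (by omega)
  have := share2 hG p1.conn p2.conn hd hne y1 y2 a1 e1 a2 e2
  omega

end Pool.Agent.MP_e6539c_co.P5

end MrgPart1

-- ======== part 2: formerly Pool.Agent.MP_e6539c_co.P5.Fc1
section MrgPart2

/-! Pieces behind a three-cut: the case of one class and four single neighbours. -/

set_option autoImplicit false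

namespace Pool.Agent.MP_e6539c_co.P5

open Finset
open Pool.Agent.MP_7be75d_co (R Conn comp)
open Pool.Agent.MP_7be75d_co
open scoped Classical

namespace Fc1

variable {V : Type} [Fintype V] {G : SimpleGraph V}

theorem count (hG : Gi G) {Y X : Finset V} {S : Set V} (p : Pc G Y) (h : Y.card ≤ 10)
    (c : Cov G Y (S ∪ ↑X)) :
    Y.card + 2 ≤ (mks G Y S).card + (X.filter fun x => x ∉ Y ∧ Act G Y x).card := by
  have k1 := p.count c
  have k2 := mks_union_le (G := G) Y S ↑X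
  have k3 := mks_fin hG X p.conn h
  omega

theorem size (hT : TreeStmt) (hG : Gi G) {Y X : Finset V} {S : Set V} (hS : Cls G Y S)
    (hX : X.card ≤ 4) (p : Pc G Y) (c : Cov G Y (S ∪ ↑X)) : Y.card ≤ 3 := by
  have h5 : Y.card ≤ 5 := by
    refine hT V G Y X ![S, ∅, ∅, ∅] 1 5 5 (by simp) hG p (fun i => ?_) (fun i hi => ?_)
      (by omega) fun w hw x hx a => ?_
    · match i with
      | 0 => exact hS
      | 1 => exact cls_empty Y
      | 2 => exact cls_empty Y
      | 3 => exact cls_empty Y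
    · match i, hi with
      | 0, hi => exact absurd hi (by simp)
      | 1, _ => rfl
      | 2, _ => rfl
      | 3, _ => rfl
    · rcases c w hw x hx a with h | h
      exacts [Or.inl ⟨0, h⟩, Or.inr h]
  have k1 := count hG p (by omega) c
  have k2 := card_filter_le X fun x => x ∉ Y ∧ Act G Y x
  have k3 := mks_cls_two p.conn hS (by omega)
  have k4 := mks_cls_one p.conn hS (by omega)
  omega

omit [Fintype V] in
/-- Two pieces with a common neighbour in `C` and with edges to the class. -/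
theorem far {C Y₁ Y₂ : Finset V} {S : Set V} {y : V} (hS : Cls G C S) (s1 : Y₁ ⊆ C)
    (s2 : Y₂ ⊆ C) (c1 : Conn G Y₁) (c2 : Conn G Y₂) (hd : Disjoint Y₁ Y₂) (hy : y ∈ C)
    (a1 : Act G Y₁ y) (a2 : Act G Y₂ y) (b1 : ∃ a ∈ S, Act G Y₁ a) (b2 : ∃ a ∈ S, Act G Y₂ a) :
    4 ≤ Y₁.card + Y₂.card := by
  obtain ⟨u, hu, w1, m1, x1⟩ := b1
  obtain ⟨v, hv, w2, m2, x2⟩ := b2
  obtain ⟨w3, m3, x3⟩ := a1
  obtain ⟨w4, m4, x4⟩ := a2
  have := hS.two (u, w1) (v, w2) _ ⟨hu, s1 m1, x1⟩ ⟨hv, s2 m2, x2⟩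
    (fun h => disjoint_left.1 hd m1 ((Prod.mk.inj h).2 ▸ m2))
    (((conn_wk c1 m1 m3).mono s1).via x3 hy x4 ((conn_wk c2 m4 m2).mono s2))
  have := card_pos.2 c1.1
  have := card_pos.2 c2.1
  omega

omit [Fintype V] in
/-- The active single vertices other than `y`, `y'`. -/
theorem act_le {Y X : Finset V} (y y' : V) :
    (X.filter fun x => x ∉ Y ∧ Act G Y x).card ≤
      (((X.erase y).erase y').filter fun x => Act G Y x).card +
        (if Act G Y y then 1 else 0) + (if Act G Y y' then 1 else 0) := by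
  have h : (X.filter fun x => x ∉ Y ∧ Act G Y x) ⊆
      (((X.erase y).erase y').filter fun x => Act G Y x) ∪
        ({y} : Finset V).filter (fun x => Act G Y x) ∪
        ({y'} : Finset V).filter (fun x => Act G Y x) := by
    intro x hx
    simp only [mem_filter, mem_union, mem_erase, mem_singleton] at hx ⊢
    by_cases h1 : x = y
    · exact Or.inl (Or.inr ⟨h1, hx.2.2⟩)
    by_cases h2 : x = y'
    · exact Or.inr ⟨h2, hx.2.2⟩
    exact Or.inl (Or.inl ⟨⟨h2, h1, hx.1⟩, hx.2.2⟩)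
  have k : ∀ z : V, (({z} : Finset V).filter fun x => Act G Y x).card =
      if Act G Y z then 1 else 0 := fun z => by
    rw [filter_singleton]
    split_ifs <;> simp
  have h1 := (card_le_card h).trans ((card_union_le _ _).trans
    (Nat.add_le_add_right (card_union_le _ _) _))
  rwa [k, k] at h1

end Fc1

open Fc1

theorem fc1 (hT : TreeStmt) : Fc1Stmt := by
  intro V _ G C X S hG hS hX
  have one : ∀ Y ⊆ C, Pc G Y → Cov G Y (S ∪ ↑X) → Y.card ≤ 3 := fun Y hY p c =>
    size hT hG (hS.mono hY subset_rfl) hX p c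
  refine ⟨one, ?_, ?_⟩
  · intro Y₁ s1 Y₂ s2 y hy p1 p2 hd d1 d2 c1 c2 yC a1 a2 b1 b2
    have n1 := one Y₁ s1 p1 c1
    have n2 := one Y₂ s2 p2 c2
    have n3 := far hS s1 s2 p1.conn p2.conn hd yC a1 a2 b1 b2
    have k1 := count hG p1 (by omega) c1
    have k2 := count hG p2 (by omega) c2
    have k3 := mks_cls_one p1.conn (hS.mono s1 subset_rfl) (by omega)
    have k4 := mks_cls_one p2.conn (hS.mono s2 subset_rfl) (by omega)
    have k5 := card_union_add_card_inter (X.filter fun x => x ∉ Y₁ ∧ Act G Y₁ x)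
      (X.filter fun x => x ∉ Y₂ ∧ Act G Y₂ x)
    have k6 : ((X.filter fun x => x ∉ Y₁ ∧ Act G Y₁ x) ∪
        (X.filter fun x => x ∉ Y₂ ∧ Act G Y₂ x)).card ≤ X.card :=
      card_le_card (union_subset (filter_subset _ _) (filter_subset _ _))
    have k7 : ((X.filter fun x => x ∉ Y₁ ∧ Act G Y₁ x) ∩
        (X.filter fun x => x ∉ Y₂ ∧ Act G Y₂ x)).card ≤ ({y} : Finset V).card := by
      refine card_le_card fun x hx => mem_singleton.2 ?_
      by_contra hne
      rw [mem_inter, mem_filter, mem_filter] at hx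
      have := share2 hG p1.conn p2.conn hd hne hx.1.2.1 hx.2.2.1 hx.1.2.2 a1 hx.2.2.2 a2
      omega
    rw [card_singleton] at k7
    omega
  · intro Y₁ s1 Y₂ s2 Y₃ s3 y hy y' hy' p1 p2 p3 d12 d13 d23 d1 d2 d3 c1 c2 c3 hne yC y'C
      a1 a2 a3 a3' b1 b2
    have n1 := one Y₁ s1 p1 c1
    have n2 := one Y₂ s2 p2 c2
    have n3 := one Y₃ s3 p3 c3
    have t13 : ∀ x, x ≠ y → Act G Y₁ x → ¬ Act G Y₃ x := fun x h h1 h2 => by
      have := share2 hG p1.conn p3.conn d13 h.symm (disjoint_left.1 d1 hy)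
        (disjoint_left.1 d3 hy) a1 h1 a3 h2
      omega
    have t23 : ∀ x, x ≠ y' → Act G Y₂ x → ¬ Act G Y₃ x := fun x h h1 h2 => by
      have := share2 hG p2.conn p3.conn d23 h.symm (disjoint_left.1 d2 hy')
        (disjoint_left.1 d3 hy') a2 h1 a3' h2
      omega
    have e1 : ¬ Act G Y₁ y' := fun h => t13 y' hne.symm h a3'
    have e2 : ¬ Act G Y₂ y := fun h => t23 y hne h a3
    have k1 := count hG p1 (by omega) c1
    have k2 := count hG p2 (by omega) c2
    have k3 := count hG p3 (by omega) c3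
    have j1 := mks_cls_one p1.conn (hS.mono s1 subset_rfl) (by omega)
    have j2 := mks_cls_one p2.conn (hS.mono s2 subset_rfl) (by omega)
    have j3 := mks_cls_one p3.conn (hS.mono s3 subset_rfl) (by omega)
    have l1 := act_le (G := G) (Y := Y₁) (X := X) y y'
    have l2 := act_le (G := G) (Y := Y₂) (X := X) y y'
    have l3 := act_le (G := G) (Y := Y₃) (X := X) y y'
    rw [if_pos a1, if_neg e1] at l1
    rw [if_neg e2, if_pos a2] at l2
    rw [if_pos a3, if_pos a3'] at l3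
    have h0 : ((X.erase y).erase y').card ≤ 2 := by
      rw [card_erase_of_mem (mem_erase.2 ⟨hne.symm, hy'⟩), card_erase_of_mem hy]
      omega
    have hm : ∀ x ∈ (X.erase y).erase y', x ≠ y ∧ x ≠ y' ∧ x ∈ X := fun x hx => by
      rw [mem_erase, mem_erase] at hx
      exact ⟨hx.2.1, hx.1, hx.2.2⟩
    generalize (X.erase y).erase y' = X₀ at l1 l2 l3 h0 hm
    have g1 := card_filter_le X₀ fun x => Act G Y₁ x
    have g2 := card_filter_le X₀ fun x => Act G Y₂ x
    have u1 : Disjoint (X₀.filter fun x => Act G Y₁ x) (X₀.filter fun x => Act G Y₂ x) := by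
      refine disjoint_left.2 fun x h1 h2 => ?_
      rw [mem_filter] at h1 h2
      obtain ⟨f1, f2, f3⟩ := hm x h1.1
      obtain ⟨w1, m1, x1⟩ := h1.2
      obtain ⟨w2, m2, x2⟩ := a1
      obtain ⟨w3, m3, x3⟩ := a3
      obtain ⟨w4, m4, x4⟩ := a3'
      obtain ⟨w5, m5, x5⟩ := a2
      obtain ⟨w6, m6, x6⟩ := h2.2
      have q : ∀ Y : Finset V, Disjoint X Y → Y ⊆ univ.erase x := fun Y d z hz =>
        mem_erase.2 ⟨fun h => disjoint_left.1 d f3 (h ▸ hz), mem_univ _⟩
      have := hG (univ.erase x) x w1 w6 _ (notMem_erase _ _) x1 x6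
        (fun h => disjoint_left.1 d12 m1 (h ▸ m6))
        ((((conn_wk p1.conn m1 m2).mono (q _ d1)).via x2 (mem_erase.2 ⟨f1.symm, mem_univ _⟩) x3
          ((conn_wk p3.conn m3 m4).mono (q _ d3))).via x4 (mem_erase.2 ⟨f2.symm, mem_univ _⟩) x5
          ((conn_wk p2.conn m5 m6).mono (q _ d2)))
      omega
    have u2 : Disjoint ((X₀.filter fun x => Act G Y₁ x) ∪ (X₀.filter fun x => Act G Y₂ x))
        (X₀.filter fun x => Act G Y₃ x) := by
      refine disjoint_left.2 fun x h1 h2 => ?_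
      rw [mem_filter] at h2
      obtain ⟨f1, f2, -⟩ := hm x h2.1
      rcases mem_union.1 h1 with h1 | h1
      · exact t13 x f1 (mem_filter.1 h1).2 h2.2
      · exact t23 x f2 (mem_filter.1 h1).2 h2.2
    have u3 : ((X₀.filter fun x => Act G Y₁ x) ∪ (X₀.filter fun x => Act G Y₂ x) ∪
        (X₀.filter fun x => Act G Y₃ x)).card ≤ X₀.card := card_le_card
      (union_subset (union_subset (filter_subset _ _) (filter_subset _ _)) (filter_subset _ _))
    rw [card_union_of_disjoint u2, card_union_of_disjoint u1] at u3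
    have z1 := card_pos.2 p1.conn.1
    have z2 := card_pos.2 p2.conn.1
    have z3 := card_pos.2 p3.conn.1
    obtain ⟨p, hp⟩ := card_pos.1 (show 0 < (mks G Y₃ S).card by omega)
    rw [mem_mks] at hp
    have := far hS s1 s3 p1.conn p3.conn d13 yC a1 a3 b1 ⟨p.1, hp.2.1, p.2, hp.2.2⟩
    omega

end Pool.Agent.MP_e6539c_co.P5

end MrgPart2

-- ======== part 3: formerly Pool.Agent.MP_e6539c_co.P5.Geo
section MrgPart3

/-! Geodesics through the territory and the survival of a cycle. -/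

set_option autoImplicit false

namespace Pool.Agent.MP_e6539c_co.P5

open Finset
open Pool.Agent.MP_7be75d_co (R Conn comp)
open Pool.Agent.MP_7be75d_co
open scoped Classical

namespace GeoM

variable {V : Type} {G : SimpleGraph V} {C : Finset V} {m : ℕ} {d : ℕ → V}

theorem mem_inner {x : V} : x ∈ inner m d ↔ ∃ i, 1 ≤ i ∧ i ≤ m ∧ d i = x := by
  simp [inner, and_assoc]

/-- A shortest path between two active outside vertices. -/
theorem exists_geo {a b : V} (hC : Conn G C) (hab : a ≠ b) (ha : a ∉ C) (hb : b ∉ C)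
    (h1 : Act G C a) (h2 : Act G C b) : ∃ m d, Geo G C m d ∧ d 0 = a ∧ d (m + 1) = b := by
  obtain ⟨u, hu, au⟩ := h1
  obtain ⟨v, hv, bv⟩ := h2
  obtain ⟨n, ⟨w, w', aw, bw, hw⟩, hmin⟩ := exists_min_of
    (p := fun r => ∃ w w', G.Adj a w ∧ G.Adj b w' ∧ Wk G C w w' r) id
    ⟨_, u, v, au, bv, conn_wk hC hu hv⟩
  obtain ⟨L, f, hL, rfl, rfl, f2, f3, f4⟩ := hw.exists_path
  have hmin' : ∀ w w' r, G.Adj a w → G.Adj b w' → Wk G C w w' r → L ≤ r := fun w w' r x y z =>
    hL.trans (hmin r ⟨w, w', x, y, z⟩)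
  obtain ⟨d, d0, d1, d2⟩ : ∃ d : ℕ → V, d 0 = a ∧ (∀ i ≤ L, d (i + 1) = f i) ∧ d (L + 2) = b :=
    ⟨fun i => if i = 0 then a else if i ≤ L + 1 then f (i - 1) else b, by simp,
      fun i hi => by simp [hi], by simp⟩
  have mem : ∀ i, 1 ≤ i → i ≤ L + 1 → d i ∈ C := fun i h1 h2 => by
    obtain ⟨i, rfl⟩ : ∃ j, i = j + 1 := ⟨i - 1, by omega⟩
    rw [d1 i (by omega)]
    exact f2 i (by omega)
  have adj : ∀ i ≤ L + 1, G.Adj (d i) (d (i + 1)) := fun i hi => by
    rcases Nat.eq_zero_or_pos i with rfl | h0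
    · rw [d0, d1 0 (by omega)]
      exact aw
    · obtain ⟨i, rfl⟩ : ∃ j, i = j + 1 := ⟨i - 1, by omega⟩
      rcases Nat.lt_or_ge i L with h | h
      · rw [d1 i (by omega), d1 (i + 1) (by omega)]
        exact f3 i h
      · obtain rfl : i = L := by omega
        rw [d1 i le_rfl, d2]
        exact bw.symm
  have seg : ∀ i j, 1 ≤ i → i ≤ j → j ≤ L + 1 → Wk G C (d i) (d j) (j - i) := fun i j h1 h2 h3 =>
    Wk.of_fun h2 (fun t x y => mem t (by omega) (by omega)) (fun t x y => adj t (by omega))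
  have hA : ∀ i ≤ L + 1, ∀ w ∈ C, G.Adj (d i) w → ∃ u, G.Adj a u ∧ Wk G C u w i := by
    intro i hi w hw h
    rcases Nat.eq_zero_or_pos i with rfl | h0
    · exact ⟨w, d0 ▸ h, Wk.refl hw⟩
    · exact ⟨d 1, d0 ▸ adj 0 (by omega), ((seg 1 i le_rfl h0 hi).tail h hw).le (by omega)⟩
  have hB : ∀ j, 1 ≤ j → j ≤ L + 2 → ∀ w ∈ C, G.Adj (d j) w →
      ∃ u, G.Adj b u ∧ Wk G C w u (L + 2 - j) := by
    intro j h1 hj w hw h
    rcases Nat.lt_or_ge j (L + 2) with h0 | h0
    · exact ⟨d (L + 1), d2 ▸ (adj (L + 1) le_rfl).symm,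
        (Wk.head h.symm hw (seg j (L + 1) h1 (by omega) le_rfl)).le (by omega)⟩
    · obtain rfl : j = L + 2 := by omega
      exact ⟨w, d2 ▸ h, Wk.refl hw⟩
  have short : ∀ i j w w' r, j ≤ L + 1 + 1 → G.Adj (d i) w → G.Adj (d j) w' → Wk G C w w' r →
      j ≤ i + r + 2 := by
    intro i j w w' r hj x y z
    rcases Nat.lt_or_ge i j with h | h
    · obtain ⟨u, u1, u2⟩ := hA i (by omega) w z.left x
      obtain ⟨u', u3, u4⟩ := hB j (by omega) hj w' z.right y
      have := hmin' _ _ _ u1 u3 ((u2.trans z).trans u4)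
      omega
    · omega
  refine ⟨L + 1, d, ⟨by omega, d0 ▸ ha, d2 ▸ hb, mem, adj, ?_, short, ?_⟩, d0, d2⟩
  · have k0 : ∀ j, 1 ≤ j → j ≤ L + 2 → d 0 ≠ d j := fun j h1 h2 e => by
      rcases Nat.lt_or_ge j (L + 2) with h | h
      · exact ha (d0 ▸ e ▸ mem j h1 (by omega))
      · obtain rfl : j = L + 2 := by omega
        exact hab (d0 ▸ d2 ▸ e)
    have k1 : ∀ j, 1 ≤ j → j ≤ L + 1 → d (L + 2) ≠ d j := fun j h1 h2 e =>
      hb (d2 ▸ e ▸ mem j h1 h2)
    have k : ∀ i j, i < j → j ≤ L + 2 → d i ≠ d j := by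
      intro i j hij hj e
      rcases Nat.eq_zero_or_pos i with rfl | h0
      · exact k0 j hij hj e
      rcases Nat.lt_or_ge j (L + 2) with h | h
      · obtain ⟨i, rfl⟩ : ∃ t, i = t + 1 := ⟨i - 1, by omega⟩
        obtain ⟨j, rfl⟩ : ∃ t, j = t + 1 := ⟨j - 1, by omega⟩
        rw [d1 i (by omega), d1 j (by omega)] at e
        have := f4 i (by omega) j (by omega) e
        omega
      · obtain rfl : j = L + 2 := by omega
        exact k1 i h0 (by omega) e.symm
    intro i hi j hj e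
    rcases lt_trichotomy i j with h | h | h
    · exact absurd e (k i j h hj)
    · exact h
    · exact absurd e.symm (k j i h hi)
  · intro i j hij hj h
    constructor
    · by_contra h0
      obtain ⟨i, rfl⟩ : ∃ t, i = t + 1 := ⟨i - 1, by omega⟩
      have := short i j _ _ 0 hj (adj i (by omega)) h.symm (Wk.refl (mem _ (by omega) (by omega)))
      omega
    · by_contra h0
      have := short i (j + 1) _ _ 0 (by omega) h (adj j (by omega)).symm
        (Wk.refl (mem _ (by omega) (by omega)))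
      omega

theorem out (h : Geo G C m d) {i : ℕ} (hi : i ≤ m + 1) : d i ∉ C \ inner m d := by
  rw [mem_sdiff]
  rintro ⟨h1, h2⟩
  rcases Nat.eq_zero_or_pos i with rfl | h0
  · exact h.out0 h1
  rcases Nat.lt_or_ge i (m + 1) with k | k
  · exact h2 (mem_inner.2 ⟨i, h0, by omega, rfl⟩)
  · obtain rfl : i = m + 1 := by omega
    exact h.out1 h1

theorem acyc (h : Geo G C m d) : ¬ Cyc G (inner m d) := by
  rintro ⟨W, hW, ⟨y, hy⟩, h3⟩
  obtain ⟨t, t1, t2, rfl⟩ := mem_inner.1 (hW hy)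
  obtain ⟨i, ⟨i1, i2, i3⟩, hmin⟩ := exists_min_of
    (p := fun i => 1 ≤ i ∧ i ≤ m ∧ d i ∈ W) id ⟨t, t1, t2, hy⟩
  have key : ∀ x ∈ W, G.Adj (d i) x → x = d (i + 1) := by
    intro x hx a
    obtain ⟨s, s1, s2, rfl⟩ := mem_inner.1 (hW hx)
    have e1 : i ≤ s := hmin s ⟨s1, s2, hx⟩
    have e2 : i ≠ s := fun e => a.ne (by rw [e])
    by_cases e3 : s = i + 1
    · rw [e3]
    · have := h.chord i s (by omega) (by omega) a
      omega
  obtain ⟨x, hx, z, hz, ne, a1, a2⟩ := two_le_dg.1 (h3 _ i3)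
  exact ne ((key x hx a1).trans (key z hz a2).symm)

theorem far (hG : Gi G) (h : Geo G C m d) (i j : ℕ) (w w' : V) (r : ℕ) (hij : i ≤ j)
    (hj : j ≤ m + 1) (a : G.Adj (d i) w) (a' : G.Adj (d j) w') (ne : i = j → w ≠ w')
    (hw : Wk G (C \ inner m d) w w' r) : 10 + i ≤ r + j := by
  rcases hij.eq_or_lt with rfl | hlt
  · have := hG _ _ w w' r (out h hj) a a' (ne rfl) hw
    omega
  · have hin : ∀ t, i + 1 ≤ t → t ≤ j →
        d t ∈ (C \ inner m d) ∪ (Icc (i + 1) j).image d := fun t x y =>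
      mem_union_right _ (mem_image_of_mem _ (mem_Icc.2 ⟨x, y⟩))
    have := hG ((C \ inner m d) ∪ (Icc (i + 1) j).image d) (d i) w (d (i + 1)) _ ?_ a
      (h.adj i (by omega)) (fun e => out h (show i + 1 ≤ m + 1 by omega) (e ▸ hw.left))
      (((hw.mono subset_union_left).tail a'.symm (hin j hlt le_rfl)).trans
        (Wk.of_fun (show i + 1 ≤ j from hlt) hin (fun t _ y => h.adj t (by omega))).symm)
    · omega
    · rw [mem_union]
      rintro (c | c)
      · exact out h (by omega) c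
      · obtain ⟨t, ht, e⟩ := mem_image.1 c
        rw [mem_Icc] at ht
        have := h.inj t (by omega) i (by omega) e
        omega

theorem cls (hG : Gi G) (h : Geo G C m d) :
    Cls G (C \ inner m d) {x | ∃ i ≤ m + 1, x = d i} := by
  have key : ∀ i j w w' r, i ≤ m + 1 → j ≤ m + 1 → G.Adj (d i) w → G.Adj (d j) w' →
      (d i, w) ≠ (d j, w') → Wk G (C \ inner m d) w w' r →
      (i ≤ j → 10 + i ≤ r + j) ∧ (j ≤ i → 10 + j ≤ r + i) ∧ j ≤ i + r + 2 ∧ i ≤ j + r + 2 :=
    fun i j w w' r hi hj a a' ne hw =>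
      ⟨fun k => far hG h i j w w' r k hj a a' (fun e c => ne (by rw [e, c])) hw,
        fun k => far hG h j i w' w r k hi a' a (fun e c => ne (by rw [e, c])) hw.symm,
        h.short i j w w' r hj a a' (hw.mono sdiff_subset),
        h.short j i w' w r hi a' a (hw.symm.mono sdiff_subset)⟩
  refine ⟨?_, ?_, ?_⟩
  · rintro x ⟨i, hi, rfl⟩
    exact out h hi
  · rintro ⟨_, w⟩ ⟨_, w'⟩ r ⟨⟨i, hi, rfl⟩, -, a⟩ ⟨⟨j, hj, rfl⟩, -, a'⟩ ne hw
    have := key i j w w' r hi hj a a' ne hw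
    omega
  · rintro ⟨_, w⟩ ⟨_, w'⟩ ⟨_, w''⟩ r₁ r₂ r₃ ⟨⟨i, hi, rfl⟩, -, a⟩ ⟨⟨j, hj, rfl⟩, -, a'⟩
      ⟨⟨k, hk, rfl⟩, -, a''⟩ n1 n2 n3 w1 w2 w3
    have := key i j w w' r₁ hi hj a a' n1 w1
    have := key i k w w'' r₂ hi hk a a'' n2 w2
    have := key j k w' w'' r₃ hj hk a' a'' n3 w3
    omega

end GeoM

theorem geo : GeoStmt := by
  intro V _ G C a b hG hC hab ha hb h1 h2
  obtain ⟨m, d, h, d0, d1⟩ := GeoM.exists_geo hC hab ha hb h1 h2
  exact ⟨m, d, h, d0, d1, GeoM.acyc h, GeoM.cls hG h, GeoM.far hG h⟩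

theorem surv0 : Surv0Stmt := by
  rintro V _ G C D ⟨W, hW, hne, h3⟩ hD hCD hm
  obtain ⟨y, hy, hyD⟩ : ∃ y ∈ W, y ∉ D := by
    by_contra hc
    push Not at hc
    exact hD ⟨W, hc, hne, h3⟩
  have hy' : y ∈ C \ D := mem_sdiff.2 ⟨hW hy, hyD⟩
  have h1 := forest_count' (G := G) (Y := W ∩ comp G (C \ D) y)
    ⟨y, mem_inter.2 ⟨hy, self_mem_comp hy'⟩⟩
    (fun c => hCD (c.mono (inter_subset_right.trans comp_subset)))
  have h2 := sum_dg_le (G := G) (Y := W ∩ comp G (C \ D) y) (W := W) (S := ↑D)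
    (fun w hw x hx hx' a => by
      by_contra hc
      exact hx' (mem_inter.2 ⟨hx, comp_closed (mem_inter.1 hw).2
        (mem_sdiff.2 ⟨hW hx, hc⟩) a.symm⟩))
  have h4 : (mks G (W ∩ comp G (C \ D) y) ↑D).card ≤ 1 := by
    refine le_trans (card_le_card fun p hp => ?_) (hm y hy')
    rw [mem_mks] at hp ⊢
    exact ⟨fun c => (mem_sdiff.1 (comp_subset c)).2 hp.2.1, hp.2.1, (mem_inter.1 hp.2.2.1).2,
      hp.2.2.2⟩
  have h5 : (W ∩ comp G (C \ D) y).card * 2 ≤ ∑ v ∈ W ∩ comp G (C \ D) y, dg G W v :=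
    card_nsmul_le_sum _ _ 2 fun v hv => h3 v (mem_inter.1 hv).1
  omega

end Pool.Agent.MP_e6539c_co.P5

end MrgPart3

-- ======== part 4: formerly Pool.Agent.MP_e6539c_co.P5.Int
section MrgPart4

/-! From a nowhere-zero flow modulo five to an integer flow with values of size at most four. -/

set_option autoImplicit false

namespace Pool.Agent.MP_e6539c_co.P5

open Finset
open Pool.Agent.MP_e6539c_co.TW (MG)
open scoped Classical

namespace IntM

variable {V E : Type} (A : Finset E) (l r : E → V) (ψ : E → Z5)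

noncomputable def bd (φ : E → ℤ) (v : V) : ℤ :=
  ∑ e ∈ A, ((if l e = v then φ e else 0) - (if r e = v then φ e else 0))

def Adm (φ : E → ℤ) : Prop := ∀ e ∈ A, φ e ≠ 0 ∧ |φ e| ≤ 4 ∧ (φ e : Z5) = ψ e

theorem sum_bd (φ : E → ℤ) (T : Finset V) : ∑ v ∈ T, bd A l r φ v =
    ∑ e ∈ A, ((if l e ∈ T then φ e else 0) - (if r e ∈ T then φ e else 0)) := by
  unfold bd
  rw [sum_comm]
  refine sum_congr rfl fun e _ => ?_
  rw [sum_sub_distrib, sum_ite_eq, sum_ite_eq]

theorem bd_update (φ : E → ℤ) {e : E} (he : e ∈ A) (c : ℤ) (u : V) :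
    bd A l r (Function.update φ e (φ e + c)) u =
      bd A l r φ u + (if l e = u then c else 0) - (if r e = u then c else 0) := by
  unfold bd
  rw [← add_sum_erase _ _ he, ← add_sum_erase A _ he, Function.update_self]
  have : ∑ x ∈ A.erase e, ((if l x = u then Function.update φ e (φ e + c) x else 0) -
      (if r x = u then Function.update φ e (φ e + c) x else 0)) =
      ∑ x ∈ A.erase e, ((if l x = u then φ x else 0) - (if r x = u then φ x else 0)) :=
    sum_congr rfl fun x hx => by rw [Function.update_of_ne (ne_of_mem_erase hx)]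
  rw [this]
  split_ifs <;> ring

theorem adm_update {φ : E → ℤ} (h : Adm A ψ φ) {e : E} (he : e ∈ A) {c : ℤ}
    (hc : (0 < φ e ∧ c = -5) ∨ (φ e < 0 ∧ c = 5)) :
    Adm A ψ (Function.update φ e (φ e + c)) := by
  intro x hx
  by_cases k : x = e
  · subst k
    obtain ⟨-, h2, h3⟩ := h x hx
    rw [Function.update_self, abs_le] at *
    have z : ((5 : ℤ) : Z5) = 0 := by decide
    rcases hc with ⟨a, rfl⟩ | ⟨a, rfl⟩
    · refine ⟨by omega, by omega, ?_⟩
      rw [Int.cast_add, Int.cast_neg, z, neg_zero, add_zero, h3]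
    · refine ⟨by omega, by omega, ?_⟩
      rw [Int.cast_add, z, add_zero, h3]
  · rw [Function.update_of_ne k]
    exact h x hx

/-- Five units can be moved from `v` to every vertex of `T` by changes inside `T`. -/
def Mv (φ : E → ℤ) (v : V) (T : Finset V) : Prop :=
  v ∈ T ∧ ∀ w ∈ T, ∃ φ', Adm A ψ φ' ∧ (∀ e, ¬ (l e ∈ T ∧ r e ∈ T) → φ' e = φ e) ∧
    ∀ u, bd A l r φ' u = bd A l r φ u - (if v = u then 5 else 0) + (if w = u then 5 else 0)

theorem grow {φ : E → ℤ} {v : V} {T : Finset V} (h : Mv A l r ψ φ v T) {e : E} (he : e ∈ A)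
    {a b : V} (ha : a ∈ T) (hb : b ∉ T)
    (hc : (0 < φ e ∧ l e = a ∧ r e = b) ∨ (φ e < 0 ∧ r e = a ∧ l e = b)) :
    Mv A l r ψ φ v (insert b T) := by
  refine ⟨mem_insert_of_mem h.1, fun w hw => ?_⟩
  rcases mem_insert.1 hw with rfl | hw
  · obtain ⟨φ', p1, p2, p3⟩ := h.2 a ha
    have q : φ' e = φ e := p2 e fun k => by
      rcases hc with ⟨-, -, c⟩ | ⟨-, -, c⟩
      · exact hb (c ▸ k.2)
      · exact hb (c ▸ k.1)
    have s : ∀ c x, ¬ (l x ∈ insert w T ∧ r x ∈ insert w T) →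
        Function.update φ' e (φ' e + c) x = φ x := fun c x k => by
      have : x ≠ e := by
        rintro rfl
        rcases hc with ⟨-, c1, c2⟩ | ⟨-, c1, c2⟩ <;> simp [c1, c2, ha] at k
      rw [Function.update_of_ne this]
      exact p2 x fun j => k ⟨mem_insert_of_mem j.1, mem_insert_of_mem j.2⟩
    rcases hc with ⟨c0, c1, c2⟩ | ⟨c0, c1, c2⟩
    · refine ⟨_, adm_update A ψ p1 he (Or.inl ⟨q ▸ c0, rfl⟩), s _, fun u => ?_⟩
      rw [bd_update A l r φ' he, p3, c1, c2]
      split_ifs <;> ring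
    · refine ⟨_, adm_update A ψ p1 he (Or.inr ⟨q ▸ c0, rfl⟩), s _, fun u => ?_⟩
      rw [bd_update A l r φ' he, p3, c1, c2]
      split_ifs <;> ring
  · obtain ⟨φ', p1, p2, p3⟩ := h.2 w hw
    exact ⟨φ', p1, fun x k => p2 x fun j => k ⟨mem_insert_of_mem j.1, mem_insert_of_mem j.2⟩, p3⟩

theorem move [Fintype V] {φ : E → ℤ} (h : Adm A ψ φ) {v : V} (hv : 0 < bd A l r φ v) :
    ∃ w φ', bd A l r φ w < 0 ∧ Adm A ψ φ' ∧
      ∀ u, bd A l r φ' u = bd A l r φ u - (if v = u then 5 else 0) + (if w = u then 5 else 0) := by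
  have h0 : Mv A l r ψ φ v {v} := ⟨mem_singleton_self v, fun w hw =>
    ⟨φ, h, fun _ _ => rfl, fun u => by rw [mem_singleton.1 hw]; ring⟩⟩
  obtain ⟨T, hT, mx⟩ := exists_max_image (univ.filter (Mv A l r ψ φ v)) card
    ⟨_, mem_filter.2 ⟨mem_univ _, h0⟩⟩
  replace hT := (mem_filter.1 hT).2
  have cl : ∀ e ∈ A, ∀ a ∈ T, ∀ b,
      (0 < φ e ∧ l e = a ∧ r e = b) ∨ (φ e < 0 ∧ r e = a ∧ l e = b) → b ∈ T := by
    intro e he a ha b hc
    by_contra hb
    have := mx _ (mem_filter.2 ⟨mem_univ _, grow A l r ψ hT he ha hb hc⟩)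
    rw [card_insert_of_notMem hb] at this
    omega
  have s : ∑ u ∈ T, bd A l r φ u ≤ 0 := by
    rw [sum_bd]
    refine sum_nonpos fun e he => ?_
    split_ifs with k1 k2 k2
    · simp
    · have : ¬ 0 < φ e := fun c => k2 (cl e he _ k1 _ (Or.inl ⟨c, rfl, rfl⟩))
      omega
    · have : ¬ φ e < 0 := fun c => k1 (cl e he _ k2 _ (Or.inr ⟨c, rfl, rfl⟩))
      omega
    · simp
  by_contra no
  have : 0 < ∑ u ∈ T, bd A l r φ u := sum_pos' (fun w hw => by
    obtain ⟨φ', p1, -, p3⟩ := hT.2 w hw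
    by_contra k
    exact no ⟨w, φ', not_le.1 k, p1, p3⟩) ⟨v, hT.1, hv⟩
  omega

end IntM

open IntM in
theorem intf : IntStmt := by
  intro V E _ G ⟨ψ, h1, h2⟩
  have dv : ∀ φ, Adm G.A ψ φ → ∀ u, (5 : ℤ) ∣ bd G.A G.l G.r φ u := fun φ h u => by
    refine (ZMod.intCast_zmod_eq_zero_iff_dvd _ 5).1 ?_
    rw [← h2 u, bd, bd5, Int.cast_sum]
    refine sum_congr rfl fun e he => ?_
    rw [← (h e he).2.2]
    split_ifs <;> simp
  have ex : ∃ n, ∃ φ, Adm G.A ψ φ ∧ ∑ u, (bd G.A G.l G.r φ u).natAbs = n := by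
    refine ⟨_, fun e => ((ψ e).val : ℤ), fun e he => ?_, rfl⟩
    have a := (ZMod.val_eq_zero (ψ e)).not.2 (h1 e he)
    have b := ZMod.val_lt (ψ e)
    beta_reduce
    exact ⟨by omega, abs_le.2 ⟨by omega, by omega⟩, by simp⟩
  obtain ⟨φ, hφ, mn⟩ := Nat.find_spec ex
  have np : ∀ v, bd G.A G.l G.r φ v ≤ 0 := fun v => by
    by_contra hv
    rw [not_le] at hv
    obtain ⟨w, φ', p1, p2, p3⟩ := move G.A G.l G.r ψ hφ hv
    have vw : v ≠ w := by
      rintro rfl
      omega
    have d1 := dv φ hφ v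
    have d2 := dv φ hφ w
    refine Nat.find_min ex (m := ∑ u, (bd G.A G.l G.r φ' u).natAbs) ?_ ⟨φ', p2, rfl⟩
    rw [← mn]
    refine sum_lt_sum (fun u _ => ?_) ⟨v, mem_univ _, ?_⟩
    · rw [p3]
      split_ifs with a b b
      · exact absurd (a.trans b.symm) vw
      · subst a
        omega
      · subst b
        omega
      · omega
    · rw [p3, if_pos rfl, if_neg vw.symm]
      omega
  have z : ∑ u, bd G.A G.l G.r φ u = 0 := by
    rw [sum_bd]
    simp
  refine ⟨φ, fun e he => ⟨(hφ e he).1, (hφ e he).2.1⟩, fun v => ?_⟩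
  have := (sum_eq_zero_iff_of_nonpos fun u _ => np u).1 z v (mem_univ _)
  rw [bd, sum_sub_distrib, sub_eq_zero] at this
  rw [sum_filter, sum_filter]
  exact this

end Pool.Agent.MP_e6539c_co.P5

end MrgPart4

-- ======== part 5: formerly Pool.Agent.MP_e6539c_co.P5.Lens
section MrgPart5

/-! The lens lemma of the two paths theorem. -/

set_option autoImplicit false

namespace Pool.Agent.MP_e6539c_co.P5

open Finset
open Pool.Agent.MP_7be75d_co (R Conn comp)
open Pool.Agent.MP_7be75d_co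
open scoped Classical

namespace Lens

variable {V : Type} [Fintype V] {H : SimpleGraph V} {M : List V} {k : ℕ} {q : ℕ → V}

theorem mem_WW {z w : V} {K' : Finset V} :
    w ∈ WW k q z K' ↔ w ∉ qs k q ∧ w ≠ z ∧ w ∉ K' := by
  simp [WW]

omit [Fintype V] in
theorem ed_supp {a b u v : V} (h : ed a b s(u, v) ≠ 0) : (u = a ∧ v = b) ∨ (u = b ∧ v = a) := by
  unfold ed at h
  by_cases e : s(u, v) = s(a, b)
  · simpa using e
  · simp [e] at h

omit [Fintype V] in
theorem four_ne {x₁ x₂ x₃ x₄ : Vec V} {e : Sym2 V} (h : (x₁ + x₂ + x₃ + x₄) e ≠ 0) :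
    x₁ e ≠ 0 ∨ x₂ e ≠ 0 ∨ x₃ e ≠ 0 ∨ x₄ e ≠ 0 := by
  by_contra hc
  push Not at hc
  apply h
  simp [hc.1, hc.2.1, hc.2.2.1, hc.2.2.2]

/-- A set joining two far path vertices gives a nonzero even edge set. -/
theorem even_vec (h : PQ H M k q) {U Z : Finset V} {i l : ℕ} (hil : i + 2 ≤ l) (hl : l ≤ k)
    (hs : Span H q U i l) (hU : ∀ u ∈ U, u ∉ qs k q) (hZ : U ⊆ Z)
    (hq : ∀ t, i ≤ t → t < l → q t ∈ Z ∨ q (t + 1) ∈ Z) :
    ∃ x, Ev H x ∧ (∀ u v, x s(u, v) ≠ 0 → u ∈ Z ∨ v ∈ Z) ∧ x ≠ 0 := by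
  obtain ⟨c, ⟨u, hu, a⟩, u', hu', a'⟩ := hs
  obtain ⟨y, y1, y2⟩ := vec_of_R (c.2 u hu u' hu')
  have off : ∀ w ∈ U, ∀ t ≤ k, q t ≠ w := fun w hw t ht e => hU w hw (mem_qs.2 ⟨t, ht, e⟩)
  refine ⟨ed (q i) u + y + ed u' (q l) + pv q i l, ⟨fun v w c => ?_, fun v => ?_⟩,
    fun v w c => ?_, fun e => ?_⟩
  · rcases four_ne c with c | c | c | c
    · rcases ed_supp c with ⟨rfl, rfl⟩ | ⟨rfl, rfl⟩
      exacts [a, a.symm]
    · exact (y1 v w c).1
    · rcases ed_supp c with ⟨rfl, rfl⟩ | ⟨rfl, rfl⟩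
      exacts [a'.symm, a']
    · obtain ⟨t, t1, t2, e⟩ := pv_supp c
      have b := h.adj t (by omega)
      rcases Sym2.eq_iff.1 e with ⟨rfl, rfl⟩ | ⟨rfl, rfl⟩
      exacts [b, b.symm]
  · rw [par_add, par_add, par_add, par_ed a.ne, y2, par_ed a'.ne',
      par_pv (by omega) fun t _ t2 => (h.adj t (by omega)).ne]
    generalize (if v = q i then (1 : ZMod 2) else 0) = s₁
    generalize (if v = u then (1 : ZMod 2) else 0) = s₂
    generalize (if v = u' then (1 : ZMod 2) else 0) = s₃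
    generalize (if v = q l then (1 : ZMod 2) else 0) = s₄
    revert s₁ s₂ s₃ s₄
    decide
  · rcases four_ne c with c | c | c | c
    · rcases ed_supp c with ⟨rfl, rfl⟩ | ⟨rfl, rfl⟩
      exacts [Or.inr (hZ hu), Or.inl (hZ hu)]
    · exact Or.inl (hZ (y1 v w c).2.1)
    · rcases ed_supp c with ⟨rfl, rfl⟩ | ⟨rfl, rfl⟩
      exacts [Or.inl (hZ hu'), Or.inr (hZ hu')]
    · obtain ⟨t, t1, t2, e⟩ := pv_supp c
      have b := hq t t1 t2
      rcases Sym2.eq_iff.1 e with ⟨rfl, rfl⟩ | ⟨rfl, rfl⟩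
      exacts [b, b.symm]
  · have e1 : ed (q i) u s(q i, q (i + 1)) = 0 := by
      by_contra c
      rcases ed_supp c with ⟨-, d⟩ | ⟨d, -⟩
      exacts [off u hu _ (by omega) d, off u hu _ (by omega) d]
    have e2 : y s(q i, q (i + 1)) = 0 := by
      by_contra c
      exact off _ (y1 _ _ c).2.1 i (by omega) rfl
    have e3 : ed u' (q l) s(q i, q (i + 1)) = 0 := by
      by_contra c
      rcases ed_supp c with ⟨d, -⟩ | ⟨-, d⟩
      exacts [off u' hu' _ (by omega) d, off u' hu' _ (by omega) d]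
    have e4 : pv q i l s(q i, q (i + 1)) = 1 :=
      pv_edge le_rfl (by omega) fun a _ a2 b _ b2 e => h.inj a (by omega) b (by omega) e
    have := congrFun e s(q i, q (i + 1))
    simp only [Pi.add_apply, e1, e2, e3, e4, Pi.zero_apply] at this
    exact absurd this (by decide)

end Lens

open Lens in
theorem lens : LensStmt := by
  intro V _ H M k q h hF hN z K' hM hW hS U hU i l hil hl hs
  set W := WW k q z K' with hWd
  let J : ℕ → Prop := fun j => j = 0 ∨ j = k ∨ Act H K' (q j)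
  obtain ⟨i0, ⟨a1, a2⟩, a3⟩ := exists_max_of (p := fun j => J j ∧ j ≤ i) id i (fun _ h => h.2)
    ⟨0, Or.inl rfl, Nat.zero_le _⟩
  obtain ⟨l0, ⟨b1, b2, b4⟩, b3⟩ := exists_min_of (p := fun j => J j ∧ l ≤ j ∧ j ≤ k) id
    ⟨k, Or.inr (Or.inl rfl), hl, le_rfl⟩
  have gap : ∀ j, i0 < j → j < l0 → ¬ Act H K' (q j) := by
    intro j j1 j2 c
    have hJ : J j := Or.inr (Or.inr c)
    by_cases e1 : j ≤ i
    · exact absurd (a3 j ⟨hJ, e1⟩) (by simpa using j1)
    by_cases e2 : l ≤ j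
    · exact absurd (b3 j ⟨hJ, e2, by omega⟩) (by simpa using j2)
    exact hS U hU i j l (by omega) (by omega) hl hs c
  let P : V → Prop := fun w => ∃ s ∈ W, (s ∈ U ∨ ∃ j, i0 < j ∧ j < l0 ∧ H.Adj (q j) s) ∧ R H W s w
  let Z : Finset V := (Ioo i0 l0).image q ∪ W.filter P
  have zq : ∀ j, i0 < j → j < l0 → q j ∈ Z := fun j j1 j2 =>
    mem_union_left _ (mem_image_of_mem q (mem_Ioo.2 ⟨j1, j2⟩))
  have zw : ∀ w ∈ W, P w → w ∈ Z := fun w hw p => mem_union_right _ (mem_filter.2 ⟨hw, p⟩)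
  have zc : ∀ v ∈ Z, (∃ j, i0 < j ∧ j < l0 ∧ v = q j) ∨ (v ∈ W ∧ P v) := by
    intro v hv
    rcases mem_union.1 hv with hv | hv
    · obtain ⟨j, hj, rfl⟩ := mem_image.1 hv
      exact Or.inl ⟨j, (mem_Ioo.1 hj).1, (mem_Ioo.1 hj).2, rfl⟩
    · exact Or.inr (mem_filter.1 hv)
  have mid : ∀ p, i0 ≤ p → p ≤ l0 → q p ∈ Z ∨ q p = q i0 ∨ q p = q l0 ∨ q p = z := by
    intro p p1 p2
    rcases p1.eq_or_lt with rfl | p1
    · exact Or.inr (Or.inl rfl)
    rcases p2.eq_or_lt with rfl | p2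
    · exact Or.inr (Or.inr (Or.inl rfl))
    exact Or.inl (zq p p1 p2)
  obtain ⟨x, x1, x2, x3⟩ := even_vec h (Z := Z) hil hl hs (fun u hu => (mem_WW.1 (hU hu)).1)
    (fun u hu => zw u (hU hu) ⟨u, hU hu, Or.inl hu, R.refl⟩) (fun t t1 t2 => by
      by_cases e : i0 < t
      · exact Or.inl (zq t e (by omega))
      · exact Or.inr (zq _ (by omega) (by omega)))
  refine x3 (hF Z (q i0) (q l0) z (fun v hv c => ?_) (fun v hv w a => ?_) x x1 x2)
  · simp only [List.mem_cons, List.mem_append, List.not_mem_nil, or_false] at c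
    rcases zc v hv with ⟨j, j1, j2, rfl⟩ | ⟨hw, -⟩
    · rcases c with c | c | c
      · have := h.inj j (by omega) k le_rfl c
        omega
      · exact h.off j (by omega) c
      · have := h.inj j (by omega) 0 (by omega) c
        omega
    · obtain ⟨w1, w2, w3⟩ := mem_WW.1 hw
      rcases c with c | c | c
      · exact w1 (mem_qs.2 ⟨k, le_rfl, c.symm⟩)
      · exact (hM v c).elim w3 w2
      · exact w1 (mem_qs.2 ⟨0, by omega, c.symm⟩)
  · by_cases e1 : w = z
    · exact Or.inr (Or.inr (Or.inr e1))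
    rcases zc v hv with ⟨j, j1, j2, rfl⟩ | ⟨hw, s, s1, s2, s3⟩
    · by_cases e2 : w ∈ qs k q
      · obtain ⟨p, hp, rfl⟩ := mem_qs.1 e2
        by_cases c1 : j + 2 ≤ p
        · have := (hN j p c1 hp a).1
          omega
        by_cases c2 : p + 2 ≤ j
        · have := (hN p j c2 (by omega) a.symm).2
          omega
        exact mid p (by omega) (by omega)
      · have e3 : w ∉ K' := fun c => gap j j1 j2 ⟨w, c, a⟩
        have hw : w ∈ W := mem_WW.2 ⟨e2, e1, e3⟩
        exact Or.inl (zw w hw ⟨w, hw, Or.inr ⟨j, j1, j2, a⟩, R.refl⟩)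
    · have e3 : w ∉ K' := fun c => hW v hw ⟨w, c, a⟩
      by_cases e2 : w ∈ qs k q
      swap
      · have hw' : w ∈ W := mem_WW.2 ⟨e2, e1, e3⟩
        exact Or.inl (zw w hw' ⟨s, s1, s2, s3.tail a hw hw'⟩)
      obtain ⟨p, hp, rfl⟩ := mem_qs.1 e2
      have cs : s ∈ comp H W v := mem_comp.2 ⟨s1, s3.symm⟩
      have cp : Act H (comp H W v) (q p) := ⟨v, self_mem_comp hw, a.symm⟩
      have both : (∃ j, j < l0 ∧ Act H (comp H W v) (q j)) ∧
          ∃ j, i0 < j ∧ j ≤ k ∧ Act H (comp H W v) (q j) := by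
        rcases s2 with s2 | ⟨j, j1, j2, s2⟩
        · have sub := hs.1.subset_comp hU s2 cs
          obtain ⟨-, ⟨u, hu, b⟩, u', hu', b'⟩ := hs
          exact ⟨⟨i, by omega, u, sub hu, b⟩, l, by omega, hl, u', sub hu', b'⟩
        · exact ⟨⟨j, j2, s, cs, s2⟩, j, j1, by omega, s, cs, s2⟩
      obtain ⟨⟨j, j1, j2⟩, j', j3, j4, j5⟩ := both
      by_cases c1 : l0 < p
      · have := hS _ comp_subset j l0 p j1 c1 hp ⟨comp_conn hw, j2, cp⟩
        rcases b1 with b1 | b1 | b1
        · omega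
        · omega
        · exact absurd b1 this
      by_cases c2 : p < i0
      · have := hS _ comp_subset p i0 j' c2 j3 j4 ⟨comp_conn hw, cp, j5⟩
        rcases a1 with a1 | a1 | a1
        · omega
        · omega
        · exact absurd a1 this
      exact mid p (by omega) (by omega)

end Pool.Agent.MP_e6539c_co.P5

end MrgPart5

-- ======== part 6: formerly Pool.Agent.MP_e6539c_co.P5.Move
section MrgPart6

/-! Moves of the territory game and the main graph theorem. -/

set_option autoImplicit false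

namespace Pool.Agent.MP_e6539c_co.P5

open Finset
open Pool.Agent.MP_7be75d_co (R Conn comp)
open Pool.Agent.MP_7be75d_co
open scoped Classical

namespace Move

variable {V : Type} {G : SimpleGraph V}

/-- The neighbours of a component of `C \ D` lie outside `C` or in `D`. -/
theorem cov_comp {C D : Finset V} {y : V} {S T : Set V} (h : Cov G C S) (hT : ∀ x ∈ D, x ∈ T) :
    Cov G (comp G (C \ D) y) (S ∪ T) := by
  intro w hw x hx a
  have hw' : w ∈ C \ D := comp_subset hw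
  by_cases hC : x ∈ C
  · by_cases hD : x ∈ D
    · exact Or.inr (hT x hD)
    · exact absurd (comp_closed hw (mem_sdiff.2 ⟨hC, hD⟩) a.symm) hx
  · exact Or.inl (h w (mem_sdiff.1 hw').1 x hC a)

theorem card_comp_lt {C D : Finset V} {y z : V} (hz : z ∈ C) (hD : z ∈ D) :
    (comp G (C \ D) y).card < C.card :=
  card_lt_card ⟨comp_subset.trans sdiff_subset,
    fun c => (mem_sdiff.1 (comp_subset (c hz))).2 hD⟩

theorem list_eq (m : ℕ) (d : ℕ → V) :
    d 0 :: ((List.range m).map (fun i => d (i + 1)) ++ [d (m + 1)]) =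
      (List.range (m + 2)).map d := by
  rw [List.range_succ_eq_map, List.map_cons, List.map_map, List.range_succ, List.map_append]
  rfl

theorem mem_inner {m : ℕ} {d : ℕ → V} {x : V} :
    x ∈ inner m d ↔ x ∈ (List.range m).map (fun i => d (i + 1)) := by
  simp only [inner, mem_image, mem_Icc, List.mem_map, List.mem_range]
  constructor
  · rintro ⟨i, ⟨h1, h2⟩, rfl⟩
    exact ⟨i - 1, by omega, by rw [Nat.sub_add_cancel h1]⟩
  · rintro ⟨i, h, rfl⟩
    exact ⟨i + 1, ⟨by omega, by omega⟩, rfl⟩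

theorem not_cyc_single (w : V) : ¬ Cyc G {w} := by
  rintro ⟨W, h1, ⟨v, hv⟩, h3⟩
  have h4 := (h3 v hv).trans (dg_mono h1 v)
  have h5 : dg G {w} v ≤ 1 := (card_filter_le _ _).trans (card_singleton w).le
  omega

theorem nost_mono [Fintype V] {n k : ℕ} (h : NoSt G n) (hk : k ≤ n) : NoSt G k :=
  fun Γ C hC => h Γ C (hC.trans_le hk)

end Move

open Move

theorem move (hG : GeoStmt) (hS : SurvStmt) : MoveStmt := by
  intro V _ G Γ C a b h hab ha hb aa ab hs
  obtain ⟨m, d, g, rfl, rfl, nc, cl, far⟩ := hG V G C a b h.gi h.conn hab ha hb aa ab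
  obtain ⟨y, hy, cy⟩ := (hS V G C m d h.gi h.deg h.cyc g nc cl far hs).exists_comp
  have hsub : comp G (C \ inner m d) y ⊆ C := comp_subset.trans sdiff_subset
  have hpos := g.pos
  refine ⟨(List.range m).map (fun i => d (i + 1)), comp G (C \ inner m d) y, ?_, ?_, ?_, ?_,
    hsub, card_comp_lt (z := d 1) (g.mem 1 le_rfl hpos)
      (mem_image_of_mem d (mem_Icc.2 ⟨le_rfl, hpos⟩)),
    h.sub hsub (comp_conn hy) cy, ?_, fun S hS => cov_comp hS fun x hx => mem_inner.1 hx⟩
  · intro e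
    have := congrArg List.length e
    simp only [List.length_map, List.length_range, List.length_nil] at this
    omega
  · refine List.Nodup.map_on (fun i hi j hj e => ?_) List.nodup_range
    rw [List.mem_range] at hi hj
    have := g.inj (i + 1) (by omega) (j + 1) (by omega) e
    omega
  · intro x hx
    refine ⟨?_, fun c => (mem_sdiff.1 (comp_subset c)).2 (mem_inner.2 hx)⟩
    obtain ⟨i, hi, rfl⟩ := List.mem_map.1 hx
    rw [List.mem_range] at hi
    exact g.mem _ (by omega) (by omega)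
  · rw [list_eq, List.isChain_map, List.isChain_range_succ]
    intro i hi
    rcases Nat.eq_zero_or_pos i with e | e
    · subst e
      exact (h.adj (g.mem 1 le_rfl hpos)).2 (g.adj 0 (Nat.zero_le _))
    · exact (h.agree _ (g.mem i e (by omega)) _).2 (g.adj i (by omega))
  · refine cl.mono comp_subset fun x hx => ?_
    have hx' : x ∈ (List.range (m + 2)).map d := by
      rw [← list_eq]
      exact hx
    obtain ⟨i, hi, rfl⟩ := List.mem_map.1 hx'
    rw [List.mem_range] at hi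
    exact ⟨i, by omega, rfl⟩

theorem move0 (hT : TreeStmt) (h0 : Surv0Stmt) : Move0Stmt := by
  intro V _ G Γ C x w h hw hc
  have cy : Cyc G (C \ {w}) := by
    by_contra nc
    refine h0 V G C {w} h.cyc (not_cyc_single w) nc fun y hy => ?_
    have pc : Pc G (comp G (C \ {w}) y) := pc_comp h.deg sdiff_subset nc hy
    have hwY : w ∉ comp G (C \ {w}) y := fun c =>
      (mem_sdiff.1 (comp_subset c)).2 (mem_singleton_self w)
    have cv := cov_comp (y := y) (D := {w}) (T := {w}) hc fun z hz => mem_singleton.1 hz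
    have hY : (comp G (C \ {w}) y).card ≤ 2 := by
      refine hT V G _ ∅ (fun i => if i = 0 then {w} else
        {z | z = x ∧ z ∉ comp G (C \ {w}) y}) 4 0 2 (by simp) h.gi pc (fun i => ?_)
        (fun i hi => absurd i.2 (by omega)) (by simp) fun v hv z hz a => Or.inl ?_
      · split_ifs
        · exact cls_single h.gi hwY
        · exact cls_sub h.gi (fun p hp q hq => hp.1.trans hq.1.symm) fun z hz => hz.2
      · rcases cv v hv z hz a with e | e
        · exact ⟨1, by rw [if_neg (by decide)]; exact ⟨e, hz⟩⟩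
        · exact ⟨0, by rw [if_pos rfl]; exact e⟩
    exact (mks_fin h.gi {w} pc.conn (by omega)).trans
      ((card_filter_le _ _).trans (card_singleton w).le)
  obtain ⟨y, hy, cy⟩ := cy.exists_comp
  have hsub : comp G (C \ {w}) y ⊆ C := comp_subset.trans sdiff_subset
  exact ⟨comp G (C \ {w}) y, hsub,
    fun c => (mem_sdiff.1 (comp_subset c)).2 (mem_singleton_self w),
    card_comp_lt hw (mem_singleton_self w), h.sub hsub (comp_conn hy) cy,
    fun S hS => cov_comp hS fun z hz => mem_singleton.1 hz⟩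

theorem amain (h1 : CyStmt) (h2 : PsStmt) (h3 : KsStmt) : AStmt := by
  intro V _ G gi dg3 ⟨u, v, huv⟩
  have key : ∀ n, NoSt G n := by
    intro n
    induction n with
    | zero => exact fun _ _ hC => absurd hC (Nat.not_lt_zero _)
    | succ n ih =>
      intro Γ C hC
      have k0 : NoSt G C.card := nost_mono ih (by omega)
      have k1 := h1 V G C k0
      have k2 := h2 V G C k0 k1
      exact ⟨k1 Γ, k2 Γ, h3 V G C k0 k1 k2 Γ⟩
  by_contra np
  have hu : u ∈ comp G univ u := self_mem_comp (mem_univ u)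
  have cn : Conn G (comp G univ u) := comp_conn (mem_univ u)
  have dd : Deg3 G (comp G univ u) := by
    intro z hz
    by_cases e : z = u
    · exact dg3 z v (e ▸ huv)
    · obtain ⟨y, -, a⟩ := cn.exists_adj hz hu e
      exact dg3 z y a
  have cy : Cyc G (comp G univ u) := by
    refine ⟨_, subset_rfl, ⟨u, hu⟩, fun z hz => ?_⟩
    have : dg G univ z ≤ dg G (comp G univ u) z := card_le_card fun y hy => by
      rw [mem_filter] at hy ⊢
      exact ⟨comp_closed hz hy.1 hy.2, hy.2⟩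
    have := dd z hz
    omega
  refine (key _ G (comp G univ u) (Nat.lt_succ_self _)).1 []
    ⟨⟨gi, cn, cy, dd, fun _ _ _ => Iff.rfl, np⟩, List.nodup_nil, by simp, List.isChain_nil,
      by simp, fun w hw x hx a => absurd (comp_closed hw (mem_univ x) a.symm) hx,
      Or.inr (by simp)⟩

end Pool.Agent.MP_e6539c_co.P5

end MrgPart6

-- ======== part 7: formerly Pool.Agent.MP_e6539c_co.P5.Pat
section MrgPart7

/-! A cycle behind a three-cut runs through two or three pieces. -/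

set_option autoImplicit false

namespace Pool.Agent.MP_e6539c_co.P5

open Finset
open Pool.Agent.MP_7be75d_co (R Conn comp)
open Pool.Agent.MP_7be75d_co
open scoped Classical

namespace Pat

variable {V : Type} {H : SimpleGraph V} {Z : Finset V} {x : Vec V}

/-- An edge of `x` joins the outside vertex `a` to the component of `z`. -/
def Lv (H : SimpleGraph V) (Z : Finset V) (x : Vec V) (a z : V) : Prop :=
  a ∉ Z ∧ z ∈ Z ∧ ∃ w ∈ comp H Z z, x s(a, w) ≠ 0

theorem comp_or (z z' : V) :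
    Disjoint (comp H Z z) (comp H Z z') ∨ comp H Z z = comp H Z z' := by
  by_cases h : Disjoint (comp H Z z) (comp H Z z')
  · exact Or.inl h
  · obtain ⟨w, h1, h2⟩ := not_disjoint_iff.1 h
    exact Or.inr ((comp_eq h1).symm.trans (comp_eq h2))

variable [Fintype V]

theorem Lv.act (hx : Ev H x) {a z : V} (h : Lv H Z x a z) : Act H (comp H Z z) a := by
  obtain ⟨-, -, w, hw, c⟩ := h
  exact ⟨w, hw, hx.1 _ _ c⟩

theorem Lv.mem {y₁ y₂ y₃ : V} (hb : Bd3 H Z y₁ y₂ y₃) (hx : Ev H x) {a z : V}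
    (h : Lv H Z x a z) : a = y₁ ∨ a = y₂ ∨ a = y₃ := by
  obtain ⟨ha, -, w, hw, c⟩ := h
  exact (hb w (comp_subset hw) a (hx.1 _ _ c).symm).resolve_left ha

theorem exists_lv (hc : ¬ Cyc H Z) (hx : Ev H x)
    (hZ : ∀ u v, x s(u, v) ≠ 0 → u ∈ Z ∨ v ∈ Z) (h0 : x ≠ 0) : ∃ a z, Lv H Z x a z := by
  by_contra hn
  have key : ∀ u v, x s(u, v) ≠ 0 → u ∈ Z := fun u v c => by
    by_contra hu
    have hv := (hZ u v c).resolve_left hu
    exact hn ⟨u, v, hu, hv, v, self_mem_comp hv, c⟩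
  obtain ⟨e, he⟩ := Function.ne_iff.1 h0
  induction e using Sym2.ind with
  | h u v =>
    refine hc ⟨univ.filter fun a => ∃ b, x s(a, b) ≠ 0, fun a ha => ?_,
      ⟨u, mem_filter.2 ⟨mem_univ _, v, he⟩⟩, fun a ha => ?_⟩
    · obtain ⟨b, hb⟩ := (mem_filter.1 ha).2
      exact key a b hb
    · obtain ⟨b, hb⟩ := (mem_filter.1 ha).2
      obtain ⟨w, hw, hw'⟩ := second_edge (hx.2 a) hb
      refine two_le_dg.2 ⟨w, mem_filter.2 ⟨mem_univ _, a, ?_⟩, b,
        mem_filter.2 ⟨mem_univ _, a, ?_⟩, hw, hx.1 _ _ hw', hx.1 _ _ hb⟩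
      · rwa [Sym2.eq_swap]
      · rwa [Sym2.eq_swap]

theorem Lv.other
    (hu : ∀ z ∈ Z, ∀ y ∉ Z, ∀ w ∈ comp H Z z, ∀ w' ∈ comp H Z z, H.Adj y w → H.Adj y w' → w = w')
    (hx : Ev H x) {a z : V} (h : Lv H Z x a z) : ∃ b, b ≠ a ∧ Lv H Z x b z := by
  by_contra hn
  obtain ⟨ha, hz, w, hw, c⟩ := h
  have key : ∀ v ∈ comp H Z z, ∀ b, b ∉ comp H Z z → x s(v, b) ≠ 0 → b = a ∧ v = w := by
    intro v hv b hb c'
    have hbZ : b ∉ Z := fun hb' => hb (comp_closed hv hb' (hx.1 _ _ c'))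
    have e : b = a := by
      by_contra hne
      exact hn ⟨b, hne, hbZ, hz, v, hv, by rwa [Sym2.eq_swap]⟩
    subst e
    exact ⟨rfl, hu z hz b hbZ v hv w hw (hx.1 _ _ c').symm (hx.1 _ _ c)⟩
  have h1 := sum_par_closed hx.diag (comp H Z z)
  have haY : a ∉ comp H Z z := fun h => ha (comp_subset h)
  rw [sum_eq_zero (fun v _ => hx.2 v), sum_eq_single_of_mem w hw,
    sum_eq_single_of_mem a (mem_sdiff.2 ⟨mem_univ _, haY⟩)] at h1
  · exact c (by rw [Sym2.eq_swap]; exact h1.symm)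
  · intro b hb hne
    by_contra c'
    exact hne (key w hw b (mem_sdiff.1 hb).2 c').1
  · intro v hv hne
    refine sum_eq_zero fun b hb => ?_
    by_contra c'
    exact hne (key v hv b (mem_sdiff.1 hb).2 c').2

theorem Lv.next
    (hu : ∀ z ∈ Z, ∀ y ∉ Z, ∀ w ∈ comp H Z z, ∀ w' ∈ comp H Z z, H.Adj y w → H.Adj y w' → w = w')
    (hx : Ev H x) (hZ : ∀ u v, x s(u, v) ≠ 0 → u ∈ Z ∨ v ∈ Z) {a z : V} (h : Lv H Z x a z) :
    ∃ z', Disjoint (comp H Z z) (comp H Z z') ∧ Lv H Z x a z' := by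
  obtain ⟨ha, hz, w, hw, c⟩ := h
  obtain ⟨w', hne, c'⟩ := second_edge (hx.2 a) c
  have hw' := (hZ a w' c').resolve_left ha
  refine ⟨w', (comp_or z w').resolve_right fun e => hne ?_, ha, hw', w', self_mem_comp hw', c'⟩
  exact hu z hz a ha w' (e ▸ self_mem_comp hw') w hw (hx.1 _ _ c') (hx.1 _ _ c)

end Pat

open Pat in
theorem pat : PatStmt := by
  intro V _ H Z y₁ y₂ y₃ hb hc hu x hx hZ h0
  obtain ⟨a, z₁, la1⟩ := exists_lv hc hx hZ h0
  obtain ⟨b, hba, lb1⟩ := la1.other hu hx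
  obtain ⟨z₂, d12, la2⟩ := la1.next hu hx hZ
  obtain ⟨e, hea, le2⟩ := la2.other hu hx
  by_cases heb : e = b
  · subst heb
    exact Or.inl ⟨z₁, la1.2.1, z₂, la2.2.1, a, la1.1, e, lb1.1, d12, hba.symm, la1.act hx,
      lb1.act hx, la2.act hx, le2.act hx⟩
  obtain ⟨z₃, d13, lb3⟩ := lb1.next hu hx hZ
  obtain ⟨e', heb', le3⟩ := lb3.other hu hx
  by_cases hea' : e' = a
  · subst hea'
    exact Or.inl ⟨z₁, la1.2.1, z₃, lb3.2.1, e', la1.1, b, lb1.1, d13, hba.symm, la1.act hx,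
      lb1.act hx, le3.act hx, lb3.act hx⟩
  rcases comp_or (H := H) (Z := Z) z₂ z₃ with d23 | d23
  · have : e' = e := by
      have m1 := la1.mem hb hx
      have m2 := lb1.mem hb hx
      have m3 := le2.mem hb hx
      have m4 := le3.mem hb hx
      rcases m1 with m1 | m1 | m1 <;> rcases m2 with m2 | m2 | m2 <;>
        rcases m3 with m3 | m3 | m3 <;> rcases m4 with m4 | m4 | m4 <;>
        first
          | exact m4.trans m3.symm
          | exact absurd (m2.trans m1.symm) hba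
          | exact absurd (m3.trans m1.symm) hea
          | exact absurd (m3.trans m2.symm) heb
          | exact absurd (m4.trans m2.symm) heb'
          | exact absurd (m4.trans m1.symm) hea'
    subst this
    exact Or.inr ⟨z₁, la1.2.1, z₂, la2.2.1, z₃, lb3.2.1, a, la1.1, b, lb1.1, e', le2.1, d12, d13,
      d23, hba.symm, Ne.symm hea, Ne.symm heb, la1.act hx, lb1.act hx, la2.act hx, le2.act hx,
      lb3.act hx, le3.act hx⟩
  · exact Or.inl ⟨z₁, la1.2.1, z₂, la2.2.1, a, la1.1, b, lb1.1, d12, hba.symm, la1.act hx,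
      lb1.act hx, la2.act hx, d23 ▸ lb3.act hx⟩

end Pool.Agent.MP_e6539c_co.P5

end MrgPart7

-- ======== part 8: formerly Pool.Agent.MP_e6539c_co.P5.Span
section MrgPart8

/-! The number of nowhere-zero flows with a given boundary is a combination of partition
indicators (deletion and contraction). -/

set_option autoImplicit false

namespace Pool.Agent.MP_e6539c_co.P5

open Finset
open Pool.Agent.MP_e6539c_co.TW (MG)
open scoped Classical

namespace SpanM

variable {V : Type}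

/-- The value `y` placed at the vertex `a`. -/
noncomputable def dl (a : V) (y : Z5) : V → Z5 := fun x => if a = x then y else 0

/-- The number of nowhere-zero flows on a list of edges with boundary `t`. -/
noncomputable def cnt : List (V × V) → (V → Z5) → ℤ
  | [], t => if t = 0 then 1 else 0
  | p :: L, t => ∑ x ∈ (univ : Finset Z5).erase 0, cnt L (t - (dl p.1 x - dl p.2 x))

/-- The identification of `w` with `u`. -/
noncomputable def rho (u w : V) (v : V) : V := if v = w then u else v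

/-- The boundary after the identification of `w` with `u`. -/
noncomputable def con (u w : V) (t : V → Z5) : V → Z5 :=
  fun v => if v = w then 0 else if v = u then t u + t w else t v

theorem con_add (u w : V) (s t : V → Z5) : con u w (s + t) = con u w s + con u w t := by
  funext v
  simp only [con, Pi.add_apply]
  split_ifs <;> ring

theorem con_sub (u w : V) (s t : V → Z5) : con u w (s - t) = con u w s - con u w t := by
  funext v
  simp only [con, Pi.sub_apply]
  split_ifs <;> ring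

theorem con_dl {u w : V} (h : u ≠ w) (a : V) (y : Z5) : con u w (dl a y) = dl (rho u w a) y := by
  funext v
  by_cases h1 : a = w
  · subst h1
    by_cases h2 : v = a
    · simp [con, dl, rho, h2, h]
    · by_cases h3 : v = u
      · simp [con, dl, rho, h3, h, h.symm]
      · simp [con, dl, rho, h2, h3, Ne.symm h2, Ne.symm h3]
  · by_cases h2 : v = w
    · simp [con, dl, rho, h1, h2]
    · by_cases h3 : v = u
      · simp [con, dl, rho, h1, h3, h]
      · simp [con, dl, rho, h1, h2, h3]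

theorem con_push {u w : V} (h : u ≠ w) : ∀ (τ : List V) (b : List Z5),
    con u w (push τ b) = push (τ.map (rho u w)) b
  | [], _ => by funext v; simp [con, push]
  | _ :: _, [] => by funext v; simp [con, push]
  | a :: τ, y :: b => by
    change con u w (dl a y + push τ b) = dl (rho u w a) y + push (τ.map (rho u w)) b
    rw [con_add, con_dl h, con_push h τ b]

theorem con_eq_zero {u w : V} (h : u ≠ w) {t : V → Z5} (x : Z5) :
    t - (dl u x - dl w x) = 0 ↔ con u w t = 0 ∧ x = t u := by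
  rw [sub_eq_zero]
  constructor
  · rintro rfl
    refine ⟨?_, by simp [dl, h.symm]⟩
    rw [con_sub, con_dl h, con_dl h]
    simp [rho]
  · rintro ⟨h1, rfl⟩
    funext v
    have h2 := congrFun h1 v
    have h3 := congrFun h1 u
    simp only [con, if_neg h, if_true, Pi.zero_apply] at h2 h3
    by_cases h4 : v = w
    · subst h4
      simp only [dl, Pi.sub_apply, if_neg h, if_true]
      linear_combination h3
    · by_cases h5 : v = u
      · simp [dl, h5, h.symm]
      · simpa [dl, h4, h5, Ne.symm h4, Ne.symm h5] using h2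

theorem sum_cnt {u w : V} (h : u ≠ w) : ∀ (L : List (V × V)) (t : V → Z5),
    ∑ x : Z5, cnt L (t - (dl u x - dl w x)) =
      cnt (L.map (Prod.map (rho u w) (rho u w))) (con u w t)
  | [], t => by
    simp only [cnt, List.map_nil, con_eq_zero h]
    by_cases h1 : con u w t = 0 <;> simp [h1]
  | p :: L, t => by
    simp only [cnt, List.map_cons, Prod.map_fst, Prod.map_snd]
    rw [sum_comm]
    refine sum_congr rfl fun y _ => ?_
    rw [← con_dl h, ← con_dl h, ← con_sub, ← con_sub, ← sum_cnt h L]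
    exact sum_congr rfl fun x _ => by rw [sub_right_comm]

theorem cnt_nonneg : ∀ (L : List (V × V)) (t : V → Z5), 0 ≤ cnt L t
  | [], t => by simp only [cnt]; split_ifs <;> simp
  | _ :: L, _ => sum_nonneg fun _ _ => cnt_nonneg L _

/-- The number of flows as a function of the boundary values at the terminals. -/
noncomputable def fn (L : List (V × V)) (τ : List V) (b : List Z5) : ℤ :=
  if τ.length = b.length then cnt L (push τ b) else 0

theorem fn_mem : ∀ (n : ℕ) (L : List (V × V)) (τ : List V), L.length = n →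
    fn L τ ∈ Vn V τ.length
  | _, [], τ, _ => Submodule.subset_span ⟨τ, rfl, by
    funext b
    by_cases h : τ.length = b.length <;> simp [fn, cnt, chi, h, funext_iff]⟩
  | n + 1, (u, w) :: L, τ, hL => by
    have hn : L.length = n := by simpa using hL
    by_cases h : u = w
    · have e : fn ((u, w) :: L) τ = (4 : ℤ) • fn L τ := by
        funext b
        by_cases hb : τ.length = b.length
        · simp [fn, cnt, hb, h]
        · simp [fn, hb]
      rw [e]
      exact Submodule.smul_mem _ _ (fn_mem n L τ hn)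
    · have e : fn ((u, w) :: L) τ =
          fn (L.map (Prod.map (rho u w) (rho u w))) (τ.map (rho u w)) - fn L τ := by
        funext b
        by_cases hb : τ.length = b.length
        · have h0 : ∀ a : V, dl a (0 : Z5) = 0 := fun a => by funext v; simp [dl]
          simp only [fn, cnt, hb, Pi.sub_apply, List.length_map, if_true]
          rw [sum_erase_eq_sub (mem_univ _), sum_cnt h, con_push h, h0, h0, sub_zero, sub_zero]
        · simp [fn, hb]
      rw [e]
      refine sub_mem ?_ (fn_mem n L τ hn)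
      have := fn_mem n (L.map (Prod.map (rho u w) (rho u w))) (τ.map (rho u w)) (by simpa)
      rwa [List.length_map] at this

theorem exists_list {E : Type} (G : MG V E) (B : Finset E) : ∃ L : List (V × V), ∀ t,
    cnt L t ≠ 0 ↔ ∃ ψ : E → Z5, (∀ e ∈ B, ψ e ≠ 0) ∧ bd5 G B ψ = t := by
  induction B using Finset.induction_on with
  | empty =>
    refine ⟨[], fun t => ?_⟩
    have h : ∀ ψ, bd5 G ∅ ψ = 0 := fun ψ => by funext v; simp [bd5]
    simp [cnt, h, eq_comm]
  | insert e B he ih =>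
    obtain ⟨L, hL⟩ := ih
    have h1 : ∀ ψ, bd5 G (insert e B) ψ = dl (G.l e) (ψ e) - dl (G.r e) (ψ e) + bd5 G B ψ :=
      fun ψ => by funext v; exact sum_insert he
    refine ⟨(G.l e, G.r e) :: L, fun t => ⟨fun h => ?_, ?_⟩⟩
    · obtain ⟨x, hx, h2⟩ := exists_ne_zero_of_sum_ne_zero h
      obtain ⟨ψ, h3, h4⟩ := (hL _).1 h2
      have h5 : ∀ f ∈ B, Function.update ψ e x f = ψ f := fun f hf =>
        Function.update_of_ne (ne_of_mem_of_not_mem hf he) _ _
      refine ⟨Function.update ψ e x, fun f hf => ?_, ?_⟩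
      · rcases mem_insert.1 hf with rfl | hf
        · simpa using hx
        · rw [h5 f hf]; exact h3 f hf
      · have h6 : bd5 G B (Function.update ψ e x) = bd5 G B ψ := by
          funext v
          exact sum_congr rfl fun f hf => by rw [h5 f hf]
        rw [h1, h6, h4, Function.update_self, add_sub_cancel]
    · rintro ⟨ψ, h2, rfl⟩
      refine (sum_pos' (fun _ _ => cnt_nonneg L _) ⟨ψ e, by simpa using h2 e (mem_insert_self _ _),
        (cnt_nonneg L _).lt_of_ne' ((hL _).2 ⟨ψ, fun f hf => h2 f (mem_insert_of_mem hf), ?_⟩)⟩).ne'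
      rw [h1, add_sub_cancel_left]

end SpanM

open SpanM in
theorem cyc (h : PosStmt) : CycStmt := by
  intro V E _ G B τ b ψ hτ hb hψ he
  obtain ⟨L, hL⟩ := exists_list G B
  by_contra hc
  have h1 := h V τ.length hτ (fn L τ) (fn_mem _ L τ rfl) (fun b => by
    unfold fn; split_ifs
    exacts [cnt_nonneg _ _, le_rfl]) (fun b' h1 h2 h3 => by
    rw [fn, if_pos h1.symm]
    by_contra h4
    obtain ⟨ψ', h5, h6⟩ := (hL _).1 h4
    exact hc ⟨b', ψ', h1, h2, h3, h5, h6⟩) b
  rw [fn, if_pos hb.symm] at h1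
  exact (hL _).2 ⟨ψ, hψ, he⟩ h1

end Pool.Agent.MP_e6539c_co.P5

end MrgPart8

-- ======== part 9: formerly Pool.Agent.MP_e6539c_co.P5.Xl
section MrgPart9

/-! Exits that avoid a spanning set, and the induction for the two paths theorem. -/

set_option autoImplicit false

namespace Pool.Agent.MP_e6539c_co.P5

open Finset
open Pool.Agent.MP_7be75d_co (R Conn comp)
open Pool.Agent.MP_7be75d_co
open scoped Classical

namespace Xl

variable {V : Type} {H : SimpleGraph V} {M : List V} {k : ℕ} {q : ℕ → V}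

/-- Two different members of a list occur in one of the two orders. -/
theorem pair_sub {a b : V} : ∀ {l : List V}, a ∈ l → b ∈ l → a ≠ b →
    List.Sublist [a, b] l ∨ List.Sublist [b, a] l
  | [], ha, _, _ => by simp at ha
  | c :: l, ha, hb, hab => by
    rcases List.mem_cons.1 ha with e | ha' <;> rcases List.mem_cons.1 hb with e' | hb'
    · exact absurd (e.trans e'.symm) hab
    · exact Or.inl (e ▸ (List.singleton_sublist.2 hb').cons_cons _)
    · exact Or.inr (e' ▸ (List.singleton_sublist.2 ha').cons_cons _)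
    · exact (pair_sub ha' hb' hab).imp (fun h => h.cons _) fun h => h.cons _

theorem mem_seg {a b : ℕ} {z : V} :
    z ∈ (Icc a b).image q ↔ ∃ t, a ≤ t ∧ t ≤ b ∧ q t = z := by
  simp [and_assoc]

/-- Two disjoint connected sets off the path that join the path to `M` in crossing order. -/
theorem mk (P : PQ H M k q) {Y₁ Y₂ : Finset V} {a b : V} {s t : ℕ} (c₁ : Conn H Y₁)
    (c₂ : Conn H Y₂) (d : Disjoint Y₁ Y₂) (o₁ : ∀ z ∈ Y₁, z ∉ qs k q) (o₂ : ∀ z ∈ Y₂, z ∉ qs k q)
    (ha : a ∈ Y₁) (hb : b ∈ Y₂) (m₁ : ∀ z ∈ Y₁, z ∈ M → z = a) (m₂ : ∀ z ∈ Y₂, z ∈ M → z = b)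
    (sub : List.Sublist [b, a] M) (a₁ : Act H Y₁ (q s)) (a₂ : Act H Y₂ (q t)) (hts : t < s)
    (hs : s ≤ k) : Cross H (q k :: (M ++ [q 0])) := by
  have haM : a ∈ M := sub.subset (by simp)
  have hbM : b ∈ M := sub.subset (by simp)
  have mq : ∀ r ≤ k, q r ∈ qs k q := fun r hr => mem_qs.2 ⟨r, hr, rfl⟩
  obtain ⟨y₁, hy₁, e₁⟩ := a₁
  obtain ⟨y₂, hy₂, e₂⟩ := a₂
  refine cross_mk (x := q k) (u := b) (y := a) (v := q 0) (X₁ := (Icc s k).image q ∪ Y₁)
    (X₂ := (Icc 0 t).image q ∪ Y₂) ((sub.append (List.Sublist.refl [q 0])).cons_cons _)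
    ((conn_segment hs fun j _ hj => P.adj j hj).union_adj c₁ (mem_seg.2 ⟨s, le_rfl, hs, rfl⟩)
      hy₁ e₁)
    ((conn_segment (Nat.zero_le t) fun j _ hj => P.adj j (by omega)).union_adj c₂
      (mem_seg.2 ⟨t, Nat.zero_le _, le_rfl, rfl⟩) hy₂ e₂) ?_ (fun z => ?_) fun z => ?_
  · refine disjoint_left.2 fun z h1 h2 => ?_
    rcases mem_union.1 h1 with h1 | h1 <;> rcases mem_union.1 h2 with h2 | h2
    · obtain ⟨r, r1, r2, rfl⟩ := mem_seg.1 h1
      obtain ⟨r', -, r3, e⟩ := mem_seg.1 h2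
      have := P.inj r' (by omega) r r2 e
      omega
    · obtain ⟨r, -, r2, rfl⟩ := mem_seg.1 h1
      exact o₂ _ h2 (mq r r2)
    · obtain ⟨r, -, r2, rfl⟩ := mem_seg.1 h2
      exact o₁ _ h1 (mq r (by omega))
    · exact disjoint_left.1 d h1 h2
  · simp only [mem_union, List.mem_cons, List.mem_append, List.not_mem_nil, or_false]
    constructor
    · rintro ⟨h1 | h1, h2 | h2 | h2⟩
      · exact Or.inl h2
      · obtain ⟨r, -, r2, rfl⟩ := mem_seg.1 h1
        exact absurd h2 (P.off r r2)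
      · obtain ⟨r, r1, r2, rfl⟩ := mem_seg.1 h1
        have := P.inj r r2 0 (Nat.zero_le _) h2
        omega
      · exact Or.inl h2
      · exact Or.inr (m₁ z h1 h2)
      · exact absurd (h2 ▸ mq 0 (Nat.zero_le _)) (o₁ z h1)
    · rintro (rfl | rfl)
      · exact ⟨Or.inl (mem_seg.2 ⟨k, hs, le_rfl, rfl⟩), Or.inl rfl⟩
      · exact ⟨Or.inr ha, Or.inr (Or.inl haM)⟩
  · simp only [mem_union, List.mem_cons, List.mem_append, List.not_mem_nil, or_false]
    constructor
    · rintro ⟨h1 | h1, h2 | h2 | h2⟩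
      · obtain ⟨r, -, r2, rfl⟩ := mem_seg.1 h1
        have := P.inj r (by omega) k le_rfl h2
        omega
      · obtain ⟨r, -, r2, rfl⟩ := mem_seg.1 h1
        exact absurd h2 (P.off r (by omega))
      · exact Or.inr h2
      · exact absurd (h2 ▸ mq k le_rfl) (o₂ z h1)
      · exact Or.inl (m₂ z h1 h2)
      · exact Or.inr h2
    · rintro (rfl | rfl)
      · exact ⟨Or.inr hb, Or.inr (Or.inl hbM)⟩
      · exact ⟨Or.inl (mem_seg.2 ⟨0, le_rfl, Nat.zero_le _, rfl⟩), Or.inr (Or.inr rfl)⟩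

end Xl

theorem xl : XlStmt := by
  intro V _ H M k q P hc U i j l hU hUM hij hjl hl ⟨cU, ai, al⟩ w hw ⟨u, hu, ew⟩
    ⟨m, hm, y, hy, ey, r⟩
  obtain ⟨m₁, hm₁, r₁, r₂⟩ := first_hit (A := M.toFinset) r (List.mem_toFinset.2 hm)
  have hmW := r₂.mem hy
  obtain ⟨Y, hY, cY, hmY, hyY⟩ := r₁.symm.exists_conn (mem_insert_self _ _)
  have YW : ∀ z ∈ Y, z ∈ KK H M k q \ insert w U := fun z hz => by
    rcases mem_insert.1 (hY hz) with rfl | h
    · exact hmW
    · exact (mem_sdiff.1 h).1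
  have mY : ∀ z ∈ Y, z ∈ M → z = m₁ := fun z hz hzM => by
    rcases mem_insert.1 (hY hz) with h | h
    · exact h
    · exact absurd (List.mem_toFinset.2 hzM) (mem_sdiff.1 h).2
  have oY : ∀ z ∈ Y, z ∉ qs k q := fun z hz => P.KK_off (mem_sdiff.1 (YW z hz)).1
  have cW : Conn H (insert w U) := cU.insert hu ew.symm
  have oW : ∀ z ∈ insert w U, z ∉ qs k q := fun z hz => by
    rcases mem_insert.1 hz with rfl | h
    · exact P.M_off hw
    · exact P.KK_off (hU h)
  have mW : ∀ z ∈ insert w U, z ∈ M → z = w := fun z hz hzM => by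
    rcases mem_insert.1 hz with h | h
    · exact h
    · exact absurd hzM (hUM z h)
  have d : Disjoint Y (insert w U) := disjoint_left.2 fun z hz => (mem_sdiff.1 (YW z hz)).2
  have hne : w ≠ m₁ := fun e => (mem_sdiff.1 hmW).2 (e ▸ mem_insert_self _ _)
  rcases Xl.pair_sub hw (List.mem_toFinset.1 hm₁) hne with s | s
  · exact hc (Xl.mk P cY cW d oY oW hmY (mem_insert_self _ _) mY mW s ⟨y, hyY, ey⟩
      (ai.mono (subset_insert _ _)) hij (by omega))
  · exact hc (Xl.mk P cW cY d.symm oW oY (mem_insert_self _ _) hmY mW mY s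
      (al.mono (subset_insert _ _)) ⟨y, hyY, ey⟩ hjl hl)

theorem tp (hL : LinkStmt) (hS : SplitStmt) (hE : ExtqStmt) (hX : XlStmt) (hN : LensStmt)
    (hG : GoodStmt) (hC : PcrossStmt) (hP : PeelStmt) (hB : BaseStmt) : TPStmt := by
  intro V _ H
  induction hn : H.edgeSet.ncard using Nat.strong_induction_on generalizing H with
  | _ n ih =>
    intro L fr nc fc
    have IH : TPih H := fun H' L' h => ih _ (hn ▸ h) H' rfl L'
    rcases hL V H L fr nc fc with h | ⟨v, hv, p, h⟩ | ⟨a, b, M, U, r, cU, oU, aa, ab⟩ |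
      ⟨x, y, I, J, r, hI, hJ, h⟩
    · exact (hB V H L fr).1 h
    · exact (hB V H L fr).2 v hv p h nc fc IH
    · obtain ⟨k, q, rfl, rfl, P, rr, ch⟩ :=
        hE V H a b M U (fr.rot r) cU (fun u hu c => oU u hu (r.mem_iff.2 c)) aa ab
      have nc' : ¬ Cross H (q k :: (M ++ [q 0])) := fun c => nc (c.rot r.symm)
      obtain ⟨g1, g2⟩ := hG V H M k q P rr (hX V H M k q P nc') (hN V H M k q P (fc.rot r) ch)
      obtain ⟨F, hF⟩ := hP V H M k q P (fc.rot r) (hC V H M k q P nc' ch g1 g2) IH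
      exact ⟨F, hF.rot r.symm⟩
    · obtain ⟨F, hF⟩ :=
        hS V H x y I J (fr.rot r) (fun c => nc (c.rot r.symm)) (fc.rot r) hI hJ h IH
      exact ⟨F, hF.rot r.symm⟩

end Pool.Agent.MP_e6539c_co.P5

end MrgPart9

-- ======== part 10: formerly Pool.Agent.MP_e6539c_co.P5.Xpet
section MrgPart10

/-! A cross in the terminal graph gives a Petersen minor; the end of the game. -/

set_option autoImplicit false

namespace Pool.Agent.MP_e6539c_co.P5

open Finset
open Pool.Agent.MP_7be75d_co (R Conn comp)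
open Pool.Agent.MP_7be75d_co
open Pool.Agent.MP_e6539c_co.TW (MG)
open scoped Classical

namespace Xpet

variable {V : Type} {G Γ : SimpleGraph V} {C : Finset V} {c : Fin 4 → V} {A : Fin 4 → List V}
  {t : Fin 4 → V}

theorem ends {p q : V} {l : List V} (hl : l ≠ []) (h : (p :: (l ++ [q])).IsChain Γ.Adj) :
    l.IsChain Γ.Adj ∧ (∃ a ∈ l, Γ.Adj p a) ∧ ∃ a ∈ l, Γ.Adj a q := by
  have h1 : (l ++ [q]).IsChain Γ.Adj := h.of_cons
  refine ⟨h1.left_of_append, ?_, ?_⟩
  · obtain ⟨a, l, rfl⟩ := List.exists_cons_of_ne_nil hl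
    exact ⟨a, by simp, (List.isChain_cons_cons.1 h).1⟩
  · obtain ⟨l, a, rfl⟩ := (List.eq_nil_or_concat' l).resolve_left hl
    rw [List.append_assoc] at h1
    exact ⟨a, by simp, (List.isChain_cons_cons.1 h1.right_of_append).1⟩

/-- A connected set of the terminal graph that joins two opposite terminals. -/
theorem arc (ho : ∀ i, t i ∉ C) (hi : Function.Injective t) {X : Finset V} {i j : Fin 4}
    (hij : i ≠ j ∧ ¬ (j = i + 1 ∨ i = j + 1)) (hX : Conn (HK G C A t) X)
    (h : ∀ z, (z ∈ X ∧ z ∈ [t 0, t 1, t 2, t 3]) ↔ (z = t i ∨ z = t j)) :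
    ∃ U ⊆ X, U ⊆ C ∧ Conn G U ∧ (∃ w ∈ U, ∃ a ∈ A i, G.Adj w a) ∧
      ∃ w ∈ U, ∃ a ∈ A j, G.Adj w a := by
  obtain ⟨U, h1, h2, ⟨w, hw, h3⟩, w', hw', h4⟩ := (conn_open hX ((h _).2 (.inl rfl)).1
    ((h _).2 (.inr rfl)).1 fun e => hij.1 (hi e)).resolve_left
    fun a => hij.2 ((hk_adj_tt ho hi i j).1 a)
  have hC : U ⊆ C := fun u hu => by
    obtain ⟨y, hy⟩ : ∃ y, (HK G C A t).Adj u y := by
      by_cases e : u = w
      · exact ⟨_, e ▸ h3.symm⟩
      · obtain ⟨y, -, hy⟩ := h2.exists_adj hu hw e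
        exact ⟨y, hy⟩
    refine (hk_mem hy).resolve_right ?_
    rintro ⟨k, rfl⟩
    have := mem_sdiff.1 (h1 hu)
    exact this.2 (by simpa using (h _).1 ⟨this.1, by fin_cases k <;> simp⟩)
  exact ⟨U, h1.trans sdiff_subset, hC,
    h2.mono' fun x y a hx hy => (hk_adj_CC ho (hC hx) (hC hy)).1 a,
    ⟨w, hw, (hk_adj_Ct ho hi (hC hw) i).1 h3.symm⟩, w', hw', (hk_adj_Ct ho hi (hC hw') j).1 h4.symm⟩

/-- The labels of the branch sets. -/
def lab : ℕ → Fin 4 ⊕ Fin 4 ⊕ Bool
  | 0 => .inl 0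
  | 1 => .inr (.inl 0)
  | 2 => .inl 1
  | 3 => .inr (.inl 1)
  | 4 => .inl 2
  | 5 => .inr (.inl 3)
  | 6 => .inr (.inr true)
  | 7 => .inl 3
  | 8 => .inr (.inr false)
  | _ => .inr (.inl 2)

theorem lab_inj : ∀ i < 10, ∀ j < 10, i ≠ j → lab i ≠ lab j := by decide

end Xpet

open Xpet

theorem xpet : XpetStmt := by
  intro V _ G Γ C c A t h ht hX
  have ho := h.t_out ht
  have hi := h.t_inj ht
  obtain ⟨x, u, y, v, X₁, X₂, s, c₁, c₂, d, h₁, h₂⟩ := hX.norm
  have e := s.eq_of_length rfl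
  simp only [List.cons.injEq, and_true] at e
  obtain ⟨rfl, rfl, rfl, rfl⟩ := e
  obtain ⟨U₁, a1, a2, a3, ⟨w0, m0, e0⟩, w2, m2, e2⟩ := arc ho hi (by decide) c₁ h₁
  obtain ⟨U', b1, b2, b3, ⟨w1, m1, e1⟩, w3, m3, e3⟩ := arc ho hi (by decide) c₂ h₂
  have hU₁ : U₁ ⊆ C \ U' := fun z hz =>
    mem_sdiff.2 ⟨a2 hz, fun k => disjoint_left.1 d (a1 hz) (b1 k)⟩
  set U := comp G (C \ U') w0
  have k1 : U₁ ⊆ U := a3.subset_comp hU₁ m0 (self_mem_comp (hU₁ m0))
  have k2 : ∀ z ∈ U, z ∈ C ∧ z ∉ U' := fun z hz => mem_sdiff.1 (comp_subset hz)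
  obtain ⟨p, q, p1, q1, -, q2, pq⟩ := h.ctx.conn.exit (T := U) (a2 m0) (k1 m0) (b2 m1)
    fun k => (k2 _ k).2 m1
  have q3 : q ∈ U' := by
    by_contra k
    exact q1 (comp_closed p1 (mem_sdiff.2 ⟨q2, k⟩) pq)
  let W : Bool → Finset V := fun b => cond b U U'
  have hW : ∀ b, W b ⊆ C := fun b => by
    cases b
    exacts [b2, fun z hz => (k2 z hz).1]
  let F : Fin 4 ⊕ Fin 4 ⊕ Bool → Finset V :=
    Sum.elim (fun i => {c i}) (Sum.elim (fun i => (A i).toFinset) W)
  have hA := fun i => ends (List.ne_nil_of_mem (ht i)) (h.ch i)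
  have f1 : ∀ i, ∃ u ∈ F (.inl i), ∃ v ∈ F (.inr (.inl i)), Γ.Adj u v := fun i =>
    let ⟨a, ha, k⟩ := (hA i).2.1; ⟨_, mem_singleton_self _, a, List.mem_toFinset.2 ha, k⟩
  have f2 : ∀ i, ∃ u ∈ F (.inr (.inl i)), ∃ v ∈ F (.inl (i + 1)), Γ.Adj u v := fun i =>
    let ⟨a, ha, k⟩ := (hA i).2.2; ⟨a, List.mem_toFinset.2 ha, _, mem_singleton_self _, k⟩
  have f3 : ∀ i, ∃ u ∈ F (.inl i), ∃ v ∈ F (.inl (i + 2)), Γ.Adj u v := fun i =>
    ⟨_, mem_singleton_self _, _, mem_singleton_self _, h.chord i⟩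
  have f4 : ∀ i b, ∀ w ∈ W b, (∃ a ∈ A i, G.Adj w a) →
      ∃ u ∈ F (.inr (.inl i)), ∃ v ∈ F (.inr (.inr b)), Γ.Adj u v := fun i b w hw ⟨a, ha, k⟩ =>
    ⟨a, List.mem_toFinset.2 ha, w, hw, ((h.ctx.agree w (hW b hw) a).2 k).symm⟩
  have sw : ∀ {S T : Finset V}, (∃ u ∈ S, ∃ v ∈ T, Γ.Adj u v) → ∃ u ∈ T, ∃ v ∈ S, Γ.Adj u v :=
    fun ⟨u, a, v, b, k⟩ => ⟨v, b, u, a, k.symm⟩
  have hconn : ∀ l, Conn Γ (F l) := by
    rintro (i | i | b)
    · exact Conn.singleton _
    · exact conn_of_chain (List.ne_nil_of_mem (ht i)) (hA i).1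
    · refine Conn.mono' (G := G) ?_ fun x y a hx _ => (h.ctx.agree x (hW b hx) y).2 a
      cases b
      exacts [b3, comp_conn (hU₁ m0)]
  have hdis : ∀ l l', l ≠ l' → ∀ z ∈ F l, z ∉ F l' := by
    rintro (i | i | b) (j | j | b') hne z h1 h2
    · exact hne (congrArg _ (h.inj ((mem_singleton.1 h1).symm.trans (mem_singleton.1 h2))))
    · exact h.cA i j (mem_singleton.1 h1 ▸ List.mem_toFinset.1 h2)
    · exact h.outc i (mem_singleton.1 h1 ▸ hW _ h2)
    · exact h.cA j i (mem_singleton.1 h2 ▸ List.mem_toFinset.1 h1)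
    · exact h.disj i j (fun e => hne (by rw [e])) z (List.mem_toFinset.1 h1) (List.mem_toFinset.1 h2)
    · exact h.outA i z (List.mem_toFinset.1 h1) (hW _ h2)
    · exact h.outc j (mem_singleton.1 h2 ▸ hW _ h1)
    · exact h.outA j z (List.mem_toFinset.1 h2) (hW _ h1)
    · cases b <;> cases b'
      exacts [hne rfl, (k2 z h2).2 h1, (k2 z h1).2 h2, hne rfl]
  refine h.ctx.np ⟨fun i => F (lab i), fun i _ => hconn _, fun i a j b k =>
    disjoint_left.2 (hdis _ _ (lab_inj i a j b k)), ?_⟩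
  simp only [MG.petE, List.forall_mem_cons, List.not_mem_nil, IsEmpty.forall_iff, implies_true,
    and_true]
  exact ⟨f1 0, f2 0, f1 1, f2 1, f3 0, sw (f2 3), f4 0 true w0 (k1 m0) e0, f3 1,
    f4 1 false w1 m1 e1, f1 2, sw (f1 3), sw (f2 2), sw (f4 2 true w2 (k1 m2) e2),
    ⟨p, p1, q, q3, (h.ctx.agree p (k2 p p1).1 q).2 pq⟩, f4 3 false w3 m3 e3⟩

theorem kfin (hT : TPStmt) (hX : XpetStmt) (hZ : ZredStmt) (hF : FcaStmt) (hI : IneqStmt)
    (hP : PruneStmt) : KfinStmt := by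
  intro V _ G Γ C c A hN h hact
  choose t ht _ using id hact
  have ho := h.t_out ht
  have hi := h.t_inj ht
  have fr : Frame (HK G C A t) [t 0, t 1, t 2, t 3] := by
    refine ⟨by simp [hi.eq_iff], by simp, fun x y f => ?_⟩
    obtain ⟨i, rfl, rfl⟩ := fr_four f
    exact (hk_adj_tt ho hi _ _).2 (.inl rfl)
  have fc : FC (HK G C A t) [t 0, t 1, t 2, t 3] := by
    intro Z y₁ y₂ y₃ hz hb x hx hs
    have hm : ∀ u ∈ Z, ∀ v, (HK G C A t).Adj u v → u ∈ C := fun u hu v a =>
      (hk_mem a).resolve_right fun ⟨i, e⟩ => hz u hu (by rw [e]; fin_cases i <;> simp)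
    have hb' : Bd3 (HK G C A t) (Z ∩ C) y₁ y₂ y₃ := fun z m w a =>
      (hb z (mem_inter.1 m).1 w a).imp_left fun k => mem_inter.2 ⟨k, hm w k z a.symm⟩
    by_cases k : Cyc G (Z ∩ C)
    · obtain ⟨Γ', C', A', k1, k2⟩ := hZ V G Γ C c A t h ht hact _ inter_subset_right k _ _ _ hb'
      exact absurd k2 ((hN Γ' C' k1).2.2 c A')
    · exact hF V G Γ C c A t h ht _ inter_subset_right k _ _ _ hb' x hx fun u v e =>
        (hs u v e).imp (fun a => mem_inter.2 ⟨a, hm u a v (hx.1 u v e)⟩)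
          fun a => mem_inter.2 ⟨a, hm v a u (hx.1 u v e).symm⟩
  obtain ⟨F, hB⟩ := hT V _ _ fr (hX V G Γ C c A t h ht) fc
  refine hP V G C (univ.image c) (kk G A) h.ctx.gi h.ctx.cyc (disjoint_left.2 fun x hx k => ?_)
    (card_image_le.trans (by simp)) (fun v hv => ?_) (hI V G Γ C c A t h ht F hB)
  · obtain ⟨i, -, rfl⟩ := mem_image.1 hx
    exact h.outc i k
  · let N := univ.filter fun a => G.Adj v a ∧ ∃ i, a ∈ A i
    have h1 : N.card ≤ kk G A v := by
      have hc : ∀ a : V, ∃ i : Fin 4, (∃ j, a ∈ A j) → a ∈ A i := fun a => by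
        by_cases e : ∃ j, a ∈ A j
        · exact e.imp fun j a _ => a
        · exact ⟨0, fun k => absurd k e⟩
      choose f hf using hc
      refine card_le_card_of_injOn f (fun a ha => ?_) fun a ha b hb e => ?_
      · have := (mem_filter.1 ha).2
        exact mem_filter.2 ⟨mem_univ _, a, hf a this.2, this.1⟩
      · have ha := (mem_filter.1 ha).2
        have hb := (mem_filter.1 hb).2
        by_contra k
        have := h.arc_far (hf a ha.2) (e ▸ hf b hb.2) ha.1.symm hb.1.symm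
          (fun e => k (congrArg Prod.fst e)) (Wk.refl (r := 0) hv)
        omega
    have h2 : univ.filter (G.Adj v) ⊆ (C.filter (G.Adj v) ∪ N) ∪ (univ.image c).filter (G.Adj v) := by
      intro w hw
      have a := (mem_filter.1 hw).2
      by_cases k : w ∈ C
      · exact mem_union_left _ (mem_union_left _ (mem_filter.2 ⟨k, a⟩))
      obtain ⟨i, rfl | e⟩ := h.cov v hv w k a.symm
      · exact mem_union_right _ (mem_filter.2 ⟨mem_image_of_mem _ (mem_univ _), a⟩)
      · exact mem_union_left _ (mem_union_right _ (mem_filter.2 ⟨mem_univ _, a, i, e⟩))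
    exact (h.ctx.deg v hv).trans ((card_le_card h2).trans ((card_union_le _ _).trans
      (Nat.add_le_add_right ((card_union_le _ _).trans (Nat.add_le_add_left h1 _)) _)))

end Pool.Agent.MP_e6539c_co.P5

end MrgPart10

-- ======== part 11: formerly Pool.Agent.MP_e6539c_co.P5.Zero
section MrgPart11

/-! A nonnegative combination of partition indicators that vanishes on the extendable boundaries
vanishes everywhere. -/

set_option autoImplicit false

namespace Pool.Agent.MP_e6539c_co.P5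

open Finset
open scoped Classical

namespace ZeroM

variable {V : Type}

theorem sum_push (S : Finset V) : ∀ (τ : List V) (b : List Z5), τ.length = b.length →
    (∀ t ∈ τ, t ∈ S) → ∑ x ∈ S, push τ b x = b.sum
  | [], [], _, _ => by simp [push]
  | [], _ :: _, h, _ => by simp at h
  | _ :: _, [], h, _ => by simp at h
  | t :: τ, y :: b, h, hS => by
    have h1 := sum_push S τ b (by simpa using h) fun s hs => hS s (List.mem_cons_of_mem _ hs)
    have h2 : t ∈ S := hS t List.mem_cons_self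
    simp only [push, sum_add_distrib, h1, List.sum_cons, sum_ite_eq, if_pos h2]

theorem chi_zero {n : ℕ} {τ : List V} (hτ : τ.length = n) {b : List Z5}
    (hb : ¬ (b.length = n ∧ b.sum = 0)) : chi τ b = 0 := by
  rw [chi, if_neg]
  intro h
  refine hb ⟨h.1 ▸ hτ, ?_⟩
  rw [← sum_push τ.toFinset τ b h.1 fun t ht => List.mem_toFinset.2 ht]
  exact sum_eq_zero fun x _ => h.2 x

theorem vn_zero {n : ℕ} {f : List Z5 → ℤ} (hf : f ∈ Vn V n) {b : List Z5}
    (hb : ¬ (b.length = n ∧ b.sum = 0)) : f b = 0 := by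
  induction hf using Submodule.span_induction with
  | mem g hg =>
    obtain ⟨τ, hτ, rfl⟩ := hg
    exact chi_zero hτ hb
  | zero => rfl
  | add g h _ _ h1 h2 => rw [Pi.add_apply, h1, h2, add_zero]
  | smul a g _ h1 => rw [Pi.smul_apply, h1, smul_zero]

theorem push_append (τ₂ : List V) (b₂ : List Z5) (x : V) : ∀ (τ₁ : List V) (b₁ : List Z5),
    τ₁.length = b₁.length → push (τ₁ ++ τ₂) (b₁ ++ b₂) x = push τ₁ b₁ x + push τ₂ b₂ x
  | [], [], _ => by simp [push]
  | [], _ :: _, h => by simp at h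
  | _ :: _, [], h => by simp at h
  | t :: τ, y :: b, h => by
    have h1 := push_append τ₂ b₂ x τ b (by simpa using h)
    simp only [List.cons_append, push, h1, add_assoc]

/-- The list with a zero inserted at position `i`. -/
def ins (i : ℕ) (b : List Z5) : List Z5 := b.take i ++ 0 :: b.drop i

theorem length_ins (i : ℕ) (b : List Z5) : (ins i b).length = b.length + 1 := by
  have h := congrArg List.length (List.take_append_drop i b)
  simp only [ins, List.length_append, List.length_cons] at h ⊢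
  omega

theorem sum_ins (i : ℕ) (b : List Z5) : (ins i b).sum = b.sum := by
  have h := congrArg List.sum (List.take_append_drop i b)
  simp only [ins, List.sum_append, List.sum_cons, zero_add] at h ⊢
  exact h

theorem chi_ins (τ₁ τ₂ : List V) (a : V) (b : List Z5) :
    chi (τ₁ ++ a :: τ₂) (ins τ₁.length b) = chi (τ₁ ++ τ₂) b := by
  by_cases hb : (τ₁ ++ τ₂).length = b.length
  · have h1 : τ₁.length = (b.take τ₁.length).length := by
      rw [List.length_append] at hb
      rw [List.length_take]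
      omega
    have h2 : (τ₁ ++ a :: τ₂).length = (ins τ₁.length b).length := by
      rw [length_ins, ← hb]
      simp only [List.length_append, List.length_cons]
      omega
    have h3 : ∀ x, push (τ₁ ++ a :: τ₂) (ins τ₁.length b) x = push (τ₁ ++ τ₂) b x := by
      intro x
      have h4 := push_append τ₂ (b.drop τ₁.length) x τ₁ _ h1
      rw [List.take_append_drop] at h4
      rw [ins, push_append _ _ x τ₁ _ h1, h4]
      simp [push]
    simp only [chi, h2, hb, h3]
  · have h2 : ¬ (τ₁ ++ a :: τ₂).length = (ins τ₁.length b).length := by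
      rw [length_ins]
      simp only [List.length_append, List.length_cons] at hb ⊢
      omega
    rw [chi, chi, if_neg fun h => h2 h.1, if_neg fun h => hb h.1]

theorem vn_ins {n i : ℕ} (hi : i ≤ n) {f : List Z5 → ℤ} (hf : f ∈ Vn V (n + 1)) :
    (fun b => f (ins i b)) ∈ Vn V n := by
  induction hf using Submodule.span_induction with
  | mem g hg =>
    obtain ⟨τ, hτ, rfl⟩ := hg
    have h1 : i < τ.length := by omega
    have h2 : (τ.take i).length = i := by rw [List.length_take]; omega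
    refine Submodule.subset_span ⟨τ.take i ++ τ.drop (i + 1), ?_, ?_⟩
    · rw [List.length_append, h2, List.length_drop]
      omega
    · funext b
      have h3 := chi_ins (τ.take i) (τ.drop (i + 1)) τ[i] b
      rwa [h2, ← List.drop_eq_getElem_cons h1, List.take_append_drop] at h3
  | zero => exact Submodule.zero_mem _
  | add g h _ _ h1 h2 => exact Submodule.add_mem _ h1 h2
  | smul a g _ h1 => exact Submodule.smul_mem _ a h1

theorem ext_append {b₁ b₂ : List Z5} (h : Ext (b₁ ++ b₂)) : Ext (b₁ ++ 0 :: b₂) := by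
  obtain ⟨c, hc⟩ := h
  refine ⟨c, fun j hj => ?_⟩
  simp only [List.length_append, List.length_cons] at hc hj
  by_cases h1 : j ≤ b₁.length
  · have h2 := hc j (by omega)
    rwa [List.take_append_of_le_length h1] at h2 ⊢
  · obtain ⟨k, rfl⟩ : ∃ k, j = b₁.length + (k + 1) := ⟨j - b₁.length - 1, by omega⟩
    have h2 := hc (b₁.length + k) (by omega)
    rw [List.take_length_add_append] at h2 ⊢
    simpa using h2

theorem ext_ins (i : ℕ) {b : List Z5} (h : Ext b) : Ext (ins i b) :=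
  ext_append (by rwa [List.take_append_drop])

theorem ext_small {b : List Z5} (hb : b.length ≤ 4) (hs : b.sum = 0) : Ext b := by
  have h1 : ((range 4).image fun i => (b.take i).sum).card < Fintype.card Z5 :=
    lt_of_le_of_lt card_image_le (by simp)
  obtain ⟨c, -, hc⟩ := exists_mem_notMem_of_card_lt_card (t := univ) h1
  refine ⟨c, fun i hi h2 => hc ?_⟩
  by_cases h3 : i < 4
  · exact mem_image.2 ⟨i, mem_range.2 h3, h2⟩
  · rw [List.take_of_length_le (by omega), hs] at h2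
    exact mem_image.2 ⟨0, by simp, by simpa using h2⟩

theorem mem_nzl : ∀ b : List Z5, 0 ∉ b → b ∈ nzl b.length
  | [], _ => by simp [nzl]
  | y :: b, h => by
    have h1 := mem_nzl b fun h2 => h (List.mem_cons_of_mem _ h2)
    have h2 : y ≠ 0 := fun h2 => h (h2 ▸ List.mem_cons_self)
    have h3 : ∀ z : Z5, z ≠ 0 → z = 1 ∨ z = 2 ∨ z = 3 ∨ z = 4 := by decide
    refine List.mem_flatMap.2 ⟨b, h1, ?_⟩
    simpa using h3 y h2

theorem functional {n : ℕ} (K : ℤ) (N : List (List Z5)) (J : List (ℤ × List Z5))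
    (h : ∀ τ : List V, τ.length = n →
      K * (N.map (chi τ)).sum + (J.map fun p => p.1 * chi τ p.2).sum = 0)
    {f : List Z5 → ℤ} (hf : f ∈ Vn V n) :
    K * (N.map f).sum + (J.map fun p => p.1 * f p.2).sum = 0 := by
  induction hf using Submodule.span_induction with
  | mem g hg =>
    obtain ⟨τ, hτ, rfl⟩ := hg
    exact h τ hτ
  | zero =>
    have h1 : (N.map (0 : List Z5 → ℤ)).sum = 0 := List.sum_eq_zero (by simp)
    simp [h1]
  | add g k _ _ h1 h2 =>
    have h3 : (N.map (g + k)).sum = (N.map g).sum + (N.map k).sum := List.sum_map_add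
    simp only [Pi.add_apply, mul_add, List.sum_map_add, h3]
    linear_combination h1 + h2
  | smul a g _ h1 =>
    have h3 : (N.map (a • g)).sum = a * (N.map g).sum := List.sum_map_mul_left _ _ _
    have h4 : (J.map fun p => p.1 * (a • g) p.2).sum = a * (J.map fun p => p.1 * g p.2).sum := by
      rw [← List.sum_map_mul_left]
      simp only [Pi.smul_apply, smul_eq_mul, mul_left_comm]
    rw [h3, h4]
    linear_combination a * h1

theorem nz_case {n : ℕ} (h : CertAt n) {f : List Z5 → ℤ} (hf : f ∈ Vn V n) (h0 : ∀ b, 0 ≤ f b)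
    (he : ∀ b : List Z5, b.length = n → b.sum = 0 → Ext b → f b = 0) {b : List Z5}
    (hb : b ∈ nzl n) : f b = 0 := by
  obtain ⟨K, J, hK, hJ, hc⟩ := h
  have h1 := functional (K : ℤ) (nzl n) J (hc V) hf
  have h2 : 0 ≤ (J.map fun p => p.1 * f p.2).sum := by
    refine List.sum_nonneg fun x hx => ?_
    obtain ⟨p, hp, rfl⟩ := List.mem_map.1 hx
    obtain ⟨h3, h4, h5 | h5⟩ := hJ p hp
    · exact mul_nonneg h5 (h0 _)
    · rw [he _ h3 h4 h5, mul_zero]
  have h3 : f b ≤ ((nzl n).map f).sum := by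
    refine List.single_le_sum (fun x hx => ?_) _ (List.mem_map_of_mem hb)
    obtain ⟨p, -, rfl⟩ := List.mem_map.1 hx
    exact h0 _
  have h4 : (0 : ℤ) < K := by exact_mod_cast hK
  have h5 : ((nzl n).map f).sum ≤ 0 := by
    by_contra h6
    have := mul_pos h4 (not_le.1 h6)
    omega
  exact le_antisymm (h3.trans h5) (h0 b)

end ZeroM

open ZeroM in
theorem pos (h : CertStmt) : PosStmt := by
  intro V n
  induction n with
  | zero =>
    intro _ f hf _ he b
    by_cases hb : b.length = 0 ∧ b.sum = 0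
    · exact he b hb.1 hb.2 (ext_small (by omega) hb.2)
    · exact vn_zero hf hb
  | succ n ih =>
    intro hn f hf h0 he b
    by_cases hb : b.length = n + 1 ∧ b.sum = 0
    swap
    · exact vn_zero hf hb
    by_cases h4 : n + 1 ≤ 4
    · exact he b hb.1 hb.2 (ext_small (by omega) hb.2)
    by_cases hz : 0 ∈ b
    · obtain ⟨b₁, b₂, rfl⟩ := List.append_of_mem hz
      have h1 : b₁.length ≤ n := by
        have := hb.1
        simp only [List.length_append, List.length_cons] at this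
        omega
      have h2 := ih (by omega) _ (vn_ins h1 hf) (fun c => h0 _) (fun c h5 h6 h7 =>
        he _ (by rw [length_ins, h5]) (by rw [sum_ins, h6]) (ext_ins _ h7)) (b₁ ++ b₂)
      simpa [ins] using h2
    · exact nz_case (h (n + 1) (by omega) hn) hf h0 he (hb.1 ▸ mem_nzl b hz)

end Pool.Agent.MP_e6539c_co.P5

end MrgPart11

-- ======== part 12: formerly Pool.Agent.MP_e6539c_co.P5.Final
section MrgPart12

/-! Assembly of the five-flow theorem. -/

set_option autoImplicit false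

namespace Pool.Agent.MP_e6539c_co.P5

theorem tpAll : TPStmt := tp (link dim) (split merge) extq xl lens good pcross peel base

theorem moveAll : MoveStmt := move geo (surv tree surv0)

theorem kfinAll : KfinStmt :=
  kfin tpAll xpet zred (fca tree pat (fc0 tree) (fc1 tree) (fc2 tree))
    (ineq merge dim (weight hand)) (prune ball)

theorem aAll : AStmt := amain (cy moveAll (move0 tree surv0)) (ps moveAll) (ks moveAll kfinAll)

theorem flowAll : FlowStmt := flow (short (cyc (pos cert))) deg aAll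

end Pool.Agent.MP_e6539c_co.P5

end MrgPart12

-- marker of a merged file
example : 731051 + 708308 = 731051 + 708308 := rfl
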